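import Pool.Agent.Work.MP_8f87b2_h13.Vis
import Pool.Agent.Work.MP_8f87b2_rec.Rec

/-!
# The drift lemma

`w = C(u, e)`. `pl t l`: the label (in the ring of `w`) of the letter `l` of the ring of `u` at time `t`.
Between two consecutive visits of the star of `u` to the same letter, the label of the star of `w` increases by exactly `1`.
So the pair (position of the star of `u`, position of the star of `w`) takes all values.
-/

set_option autoImplicit false

namespace Pool.OddHC

open Finset BinaryTree

variable {j k : ℕ}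

/-- `dsc` as a sum -/
theorem dsc_sum (z : Bool) : ∀ l : List Bool,
    dsc z l = ∑ a ∈ range l.length, pk01 ((l ++ [z]).getD a false) ((l ++ [z]).getD (a + 1) false) := by
  intro l
  induction l with
  | nil => rfl
  | cons b l ih =>
    rw [dsc, ih, List.length_cons, sum_range_succ', add_comm]
    congr 1
    cases l with
    | nil => rfl
    | cons c l => rfl

/-- the letter at index `a` of the word at time `t`, `a ≤ n` -/
theorem getD_vt (u : X j) (t a : ℕ) (ha : a ≤ 2 * j + 1) :
    (sl ((TT ^ t) u).1 ++ [false]).getD a false = decide (sp u t + (a : ZMod (2 * j + 1)) ∈ vt u t) := by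
  have hl := sl_len ((TT ^ t) u)
  rcases Nat.lt_or_ge a (2 * j + 1) with h | h
  · have h1 : (sp u t + (a : ZMod (2 * j + 1)) - sp u t).val = a := by
      rw [add_sub_cancel_left, ZMod.val_natCast, Nat.mod_eq_of_lt h]
    have h2 : sp u t + (a : ZMod (2 * j + 1)) ∈ vt u t ↔ (sl ((TT ^ t) u).1)[a]? = some true := by
      unfold vt io
      rw [mem_st, h1]
    rw [List.getD_eq_getElem?_getD, List.getElem?_append_left (by omega)]
    have h3 : a < (sl ((TT ^ t) u).1).length := by omega
    rw [List.getElem?_eq_getElem h3] at h2 ⊢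
    simp only [Option.getD_some, Option.some.injEq] at h2 ⊢
    cases hb : (sl ((TT ^ t) u).1)[a]
    · rw [hb] at h2
      simp only [Bool.false_eq_true, iff_false] at h2
      simp [h2]
    · rw [hb] at h2
      simp only [iff_true] at h2
      simp [h2]
  · have h1 : a = 2 * j + 1 := by omega
    subst h1
    have h2 : sp u t + ((2 * j + 1 : ℕ) : ZMod (2 * j + 1)) = sp u t := by
      rw [ZMod.natCast_self, add_zero]
    rw [h2]
    have h3 := star_notMem u t
    rw [List.getD_eq_getElem?_getD, List.getElem?_append_right (by omega), hl, Nat.sub_self]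
    simp [h3]

/-- the letter behind the star is a one -/
theorem first_mem (hj : 1 ≤ j) (u : X j) (t : ℕ) : sp u t + 1 ∈ vt u t := by
  have h1 := getD_vt u t 1 (by omega)
  have hl := X_num ((TT ^ t) u)
  have h2 : (sl ((TT ^ t) u).1 ++ [false]).getD 1 false = true := by
    cases h : ((TT ^ t) u).1 with
    | nil => rw [h] at hl; simp at hl; omega
    | node _ A B => rfl
  rw [h2, Nat.cast_one] at h1
  exact of_decide_eq_true h1.symm

/-- extras: the label form -/
def exl (j : ℕ) (e : List ℕ) (l : ZMod (2 * j + 1)) : ℕ := e.getD l.val 0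

/-- the word at time `t` -/
theorem word_at (u : X j) (e : List ℕ) (he : e.length = 2 * j + 1) (w : X k)
    (hw : w.1 = ins u.1 e) (t : ℕ) : ∃ f : List ℕ, f.length = 2 * j + 1 ∧
      ((TT ^ t) w).1 = ins ((TT ^ t) u).1 f ∧
      ∀ a < 2 * j + 1, f.getD a 0 = exl j e (sp u t + (a : ZMod (2 * j + 1))) := by
  induction t with
  | zero =>
    refine ⟨e, he, hw, fun a ha => ?_⟩
    unfold exl
    rw [sp_zero, zero_add, ZMod.val_natCast, Nat.mod_eq_of_lt ha]
  | succ t ih =>
    obtain ⟨f, h1, h2, h3⟩ := ih
    refine ⟨f.rotate (Vo ((TT ^ t) u)).val, by rw [List.length_rotate, h1], ?_, fun a ha => ?_⟩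
    · rw [pow_succ', Equiv.Perm.mul_apply, pow_succ', Equiv.Perm.mul_apply, TT_apply, TT_apply]
      exact (TF_ins ((TT ^ t) u) f h1 _ h2).1
    · have h4 : (f.rotate (Vo ((TT ^ t) u)).val).getD a 0 =
          f.getD ((a + (Vo ((TT ^ t) u)).val) % (2 * j + 1)) 0 := by
        rw [List.getD_eq_getElem?_getD, List.getD_eq_getElem?_getD,
          List.getElem?_rotate (by omega), h1]
      rw [h4, h3 _ (Nat.mod_lt _ (by omega)), sp_succ]
      congr 1
      rw [ZMod.natCast_mod]
      push_cast
      rw [ZMod.natCast_zmod_val]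
      ring

/-- the step from the letter `l` to the letter `l + 1` at time `t` -/
noncomputable def cst (u : X j) (e : List ℕ) (t : ℕ) (l : ZMod (2 * j + 1)) : ℕ :=
  1 + 2 * exl j e l + 2 * pk01 (decide (l ∈ vt u t)) (decide (l + 1 ∈ vt u t))

theorem take_sum_getD (f : List ℕ) : ∀ v : ℕ, v ≤ f.length →
    (f.take v).sum = ∑ a ∈ range v, f.getD a 0 := by
  intro v
  induction v with
  | zero => intro _; simp
  | succ v ih =>
    intro h
    rw [sum_range_succ, ← ih (by omega), List.take_add_one, List.getD_eq_getElem?_getD,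
      List.getElem?_eq_getElem (show v < f.length by omega), List.sum_append]
    simp

/-- sum of the steps in terms of the word -/
theorem cst_sum (u : X j) (e : List ℕ) (t : ℕ) {f : List ℕ} (h1 : f.length = 2 * j + 1)
    (h3 : ∀ a < 2 * j + 1, f.getD a 0 = exl j e (sp u t + (a : ZMod (2 * j + 1)))) {v : ℕ}
    (hv : v ≤ 2 * j + 1) :
    ∑ a ∈ range v, cst u e t (sp u t + (a : ZMod (2 * j + 1))) = v + 2 * (f.take v).sum +
      2 * ∑ a ∈ range v, pk01 ((sl ((TT ^ t) u).1 ++ [false]).getD a false)
        ((sl ((TT ^ t) u).1 ++ [false]).getD (a + 1) false) := by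
  rw [take_sum_getD f v (by omega), mul_sum, mul_sum]
  have h4 : (v : ℕ) = ∑ a ∈ range v, 1 := by simp
  nth_rewrite 2 [h4]
  rw [← sum_add_distrib, ← sum_add_distrib]
  apply sum_congr rfl
  intro a ha
  rw [mem_range] at ha
  unfold cst
  rw [h3 a (by omega), getD_vt u t a (by omega), getD_vt u t (a + 1) (by omega)]
  congr 5
  push_cast
  ring

/-- the whole ring -/
theorem cst_total (u : X j) (e : List ℕ) (he : e.length = 2 * j + 1) (w : X k)
    (hw : w.1 = ins u.1 e) (t : ℕ) :
    ∑ a ∈ range (2 * j + 1), cst u e t (sp u t + (a : ZMod (2 * j + 1))) = 2 * k + 1 := by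
  obtain ⟨f, h1, h2, h3⟩ := word_at u e he w hw t
  rw [cst_sum u e t h1 h3 le_rfl, List.take_of_length_le (by omega)]
  have h4 := sl_ins ((TT ^ t) u).1 f (by rw [X_num]; exact h1)
  rw [← h2] at h4
  have h5 := congrArg List.length h4
  rw [sl_len, CL_length _ _ _ (by rw [sl_len, h1]), sl_len, dsc_sum, sl_len] at h5
  exact h5.symm

theorem TT_sl_vo (u : X j) (hj : 1 ≤ j) : (Vo u).val < 2 * j + 1 ∧
    (sl u.1).getD (Vo u).val false = true := by
  refine ⟨ZMod.val_lt _, ?_⟩
  have h1 := star_notMem u 1
  have h2 : sp u 1 = Vo u := by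
    rw [sp_succ, sp_zero, pow_zero, Equiv.Perm.one_apply, zero_add]
  rw [vt_succ, h2] at h1
  have h3 : Vo u ≠ 0 := by
    intro h
    have h4 := cw_rot u
    rw [h, ZMod.val_zero, List.rotate_zero] at h4
    unfold cw sl at h4
    cases hc : u.1 with
    | nil =>
      have := X_num u
      rw [hc] at this
      simp at this
      omega
    | node _ A B =>
      have := X_num (TF u)
      rw [hc] at h4
      cases hd : (TF u).1 with
      | nil =>
        rw [hd] at this
        simp at this
        omega
      | node _ A' B' =>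
        rw [hd] at h4
        simp [wd] at h4
  have h4 : Vo u ∈ vt u 0 := by
    by_contra h5
    exact h1 ⟨by rw [sp_zero]; exact h3, h5⟩
  have h5 := getD_vt u 0 (Vo u).val (ZMod.val_lt _).le
  rw [ZMod.natCast_zmod_val, sp_zero, zero_add, pow_zero, Equiv.Perm.one_apply, decide_eq_true h4]
    at h5
  rw [← h5, List.getD_eq_getElem?_getD, List.getD_eq_getElem?_getD,
    List.getElem?_append_left (by rw [sl_len]; exact ZMod.val_lt _)]

/-- the displacement of the star of `w` -/
theorem vo_cst (u : X j) (e : List ℕ) (he : e.length = 2 * j + 1) (w : X k)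
    (hw : w.1 = ins u.1 e) (t : ℕ) :
    Vo ((TT ^ t) w) = 1 + ((∑ a ∈ range (Vo ((TT ^ t) u)).val,
      cst u e t (sp u t + (a : ZMod (2 * j + 1))) : ℕ) : ZMod (2 * k + 1)) := by
  obtain ⟨f, h1, h2, h3⟩ := word_at u e he w hw t
  have h4 := (TF_ins ((TT ^ t) u) f h1 _ h2).2
  have hlt : (Vo ((TT ^ t) u)).val < 2 * j + 1 := ZMod.val_lt _
  rw [h4, cst_sum u e t h1 h3 hlt.le]
  have key : dsc true ((sl ((TT ^ t) u).1).take ((Vo ((TT ^ t) u)).val + 1)) =
      ∑ a ∈ range (Vo ((TT ^ t) u)).val, pk01 ((sl ((TT ^ t) u).1 ++ [false]).getD a false)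
        ((sl ((TT ^ t) u).1 ++ [false]).getD (a + 1) false) := by
    generalize hv : (Vo ((TT ^ t) u)).val = v at hlt ⊢
    have hl := sl_len ((TT ^ t) u)
    rw [dsc_sum, List.length_take, hl, Nat.min_eq_left (by omega), sum_range_succ]
    have h5 : ∀ a : ℕ, a < v + 1 → ((sl ((TT ^ t) u).1).take (v + 1) ++ [true]).getD a false =
        (sl ((TT ^ t) u).1 ++ [false]).getD a false := by
      intro a ha
      rw [List.getD_eq_getElem?_getD, List.getD_eq_getElem?_getD,
        List.getElem?_append_left (by rw [List.length_take]; omega),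
        List.getElem?_append_left (by omega), List.getElem?_take, if_pos ha]
    have h6 : ((sl ((TT ^ t) u).1).take (v + 1) ++ [true]).getD (v + 1) false = true := by
      rw [List.getD_eq_getElem?_getD, List.getElem?_append_right (by rw [List.length_take]; omega),
        List.length_take, hl, Nat.min_eq_left (by omega), Nat.sub_self]
      rfl
    have h7 : ∀ b : Bool, pk01 b true = 0 := by intro b; cases b <;> rfl
    rw [h6, h7, add_zero]
    apply sum_congr rfl
    intro a ha
    rw [mem_range] at ha
    rw [h5 a (by omega), h5 (a + 1) (by omega)]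
  rw [key]
  push_cast
  ring

/-- the label (in the ring of `w`) of the letter `l` of the ring of `u` at time `t` -/
noncomputable def pl (u : X j) (e : List ℕ) (w : X k) (t : ℕ) (l : ZMod (2 * j + 1)) :
    ZMod (2 * k + 1) :=
  sp w t + ((∑ a ∈ range (l - sp u t).val, cst u e t (sp u t + (a : ZMod (2 * j + 1))) : ℕ) :
    ZMod (2 * k + 1))

theorem pl_star (u : X j) (e : List ℕ) (w : X k) (t : ℕ) : pl u e w t (sp u t) = sp w t := by
  unfold pl
  rw [sub_self, ZMod.val_zero]
  simp

theorem pl_next (u : X j) (e : List ℕ) (he : e.length = 2 * j + 1) (w : X k)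
    (hw : w.1 = ins u.1 e) (t : ℕ) (l : ZMod (2 * j + 1)) :
    pl u e w t (l + 1) = pl u e w t l + (cst u e t l : ZMod (2 * k + 1)) := by
  unfold pl
  have hlt : (l - sp u t).val < 2 * j + 1 := ZMod.val_lt _
  have hl : sp u t + (((l - sp u t).val : ℕ) : ZMod (2 * j + 1)) = l := by
    rw [ZMod.natCast_zmod_val]
    ring
  generalize hm : (l - sp u t).val = m at hlt hl ⊢
  have h0 : l + 1 - sp u t = ((m + 1 : ℕ) : ZMod (2 * j + 1)) := by
    rw [← hl]
    push_cast
    ring
  rcases Nat.lt_or_ge (m + 1) (2 * j + 1) with h | h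
  · rw [h0, ZMod.val_natCast, Nat.mod_eq_of_lt h, sum_range_succ, hl]
    push_cast
    ring
  · have h1 : m + 1 = 2 * j + 1 := by omega
    have h2 := cst_total u e he w hw t
    have hr : range (2 * j + 1) = range (m + 1) := by rw [h1]
    rw [hr, sum_range_succ, hl] at h2
    have h00 : l + 1 - sp u t = 0 := by
      have h5 : ((m + 1 : ℕ) : ZMod (2 * j + 1)) = ((2 * j + 1 : ℕ) : ZMod (2 * j + 1)) := by
        rw [h1]
      rw [h0, h5, ZMod.natCast_self]
    rw [h00, ZMod.val_zero, range_zero, sum_empty]
    have h3 : ((∑ a ∈ range m, cst u e t (sp u t + (a : ZMod (2 * j + 1))) + cst u e t l : ℕ) :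
        ZMod (2 * k + 1)) = ((2 * k + 1 : ℕ) : ZMod (2 * k + 1)) := by rw [h2]
    rw [ZMod.natCast_self] at h3
    push_cast at h3 ⊢
    linear_combination -h3

theorem pl_new (u : X j) (e : List ℕ) (he : e.length = 2 * j + 1) (w : X k)
    (hw : w.1 = ins u.1 e) (t : ℕ) : sp w (t + 1) = pl u e w t (sp u (t + 1)) + 1 := by
  unfold pl
  have h1 : sp u (t + 1) - sp u t = Vo ((TT ^ t) u) := by rw [sp_succ]; ring
  rw [h1, sp_succ, vo_cst u e he w hw t]
  ring

/-- DRIFT -/
theorem pl_drift (u : X j) (e : List ℕ) (he : e.length = 2 * j + 1) (w : X k)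
    (hw : w.1 = ins u.1 e) (t : ℕ) (l : ZMod (2 * j + 1)) :
    pl u e w (t + 1) l = pl u e w t l + (if l ∈ vt u t ∨ l = sp u t then 1 else -1) := by
  have base : pl u e w (t + 1) (sp u (t + 1)) = pl u e w t (sp u (t + 1)) +
      (if sp u (t + 1) ∈ vt u t ∨ sp u (t + 1) = sp u t then 1 else -1) := by
    rw [pl_star, pl_new u e he w hw t, if_pos]
    have h1 := star_notMem u (t + 1)
    rw [vt_succ] at h1
    by_contra h2
    push Not at h2
    exact h1 ⟨h2.2, h2.1⟩
  have key : ∀ m : ℕ, pl u e w (t + 1) (sp u (t + 1) + m) = pl u e w t (sp u (t + 1) + m) +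
      (if sp u (t + 1) + m ∈ vt u t ∨ sp u (t + 1) + m = sp u t then 1 else -1) := by
    intro m
    induction m with
    | zero =>
      rw [Nat.cast_zero, add_zero]
      exact base
    | succ m ih =>
      rw [Nat.cast_succ, ← add_assoc]
      rcases Nat.eq_zero_or_pos j with hj | hj
      · subst hj
        have hs : sp u (t + 1) + (m : ZMod (2 * 0 + 1)) + 1 = sp u (t + 1) + m :=
          Subsingleton.elim (α := ZMod 1) _ _
        rw [hs]
        exact ih
      · generalize sp u (t + 1) + (m : ZMod (2 * j + 1)) = l at ih ⊢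
        rw [pl_next u e he w hw, pl_next u e he w hw, ih]
        unfold cst
        have v1 := vt_succ u t l
        have v2 := vt_succ u t (l + 1)
        have a1 := star_notMem u t
        have a2 := last_notMem hj u t
        have a3 := first_mem hj u t
        have hne : l + 1 ≠ l := by
          intro h
          have h1 : (1 : ZMod (2 * j + 1)) = 0 := by
            linear_combination h
          have h2 : ((1 : ℕ) : ZMod (2 * j + 1)) = 0 := by rw [Nat.cast_one]; exact h1
          rw [ZMod.natCast_eq_zero_iff] at h2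
          have := Nat.le_of_dvd one_pos h2
          omega
        obtain ⟨x1, hx1⟩ : ∃ x, x = decide (l ∈ vt u t) := ⟨_, rfl⟩
        obtain ⟨x2, hx2⟩ : ∃ x, x = decide (l + 1 ∈ vt u t) := ⟨_, rfl⟩
        obtain ⟨y1, hy1⟩ : ∃ x, x = decide (l = sp u t) := ⟨_, rfl⟩
        obtain ⟨y2, hy2⟩ : ∃ x, x = decide (l + 1 = sp u t) := ⟨_, rfl⟩
        have e1 : decide (l ∈ vt u (t + 1)) = (!y1 && !x1) := by
          rw [hx1, hy1, ← decide_not, ← decide_not, ← Bool.decide_and]
          exact decide_eq_decide.2 v1
        have e2 : decide (l + 1 ∈ vt u (t + 1)) = (!y2 && !x2) := by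
          rw [hx2, hy2, ← decide_not, ← decide_not, ← Bool.decide_and]
          exact decide_eq_decide.2 v2
        have i1 : (if l ∈ vt u t ∨ l = sp u t then (1 : ZMod (2 * k + 1)) else -1) =
            if (x1 || y1) = true then 1 else -1 := by
          rw [hx1, hy1]
          simp
        have i2 : (if l + 1 ∈ vt u t ∨ l + 1 = sp u t then (1 : ZMod (2 * k + 1)) else -1) =
            if (x2 || y2) = true then 1 else -1 := by
          rw [hx2, hy2]
          simp
        have c1 : y1 = true → x1 = false ∧ x2 = true ∧ y2 = false := by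
          intro h
          rw [h] at hy1
          have h1 := of_decide_eq_true hy1.symm
          subst h1
          refine ⟨?_, ?_, ?_⟩
          · rw [hx1]; simpa using a1
          · rw [hx2]; simpa using a3
          · rw [hy2]; simpa using hne
        have c2 : y2 = true → x1 = false ∧ x2 = false := by
          intro h
          rw [h] at hy2
          have h1 := of_decide_eq_true hy2.symm
          refine ⟨?_, ?_⟩
          · rw [hx1]
            have h3 : l = sp u t - 1 := by rw [← h1]; ring
            rw [h3]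
            simpa using a2
          · rw [hx2, h1]; simpa using a1
        rw [e1, e2, i1, i2, ← hx1, ← hx2]
        clear i1 i2 e1 e2 hx1 hx2 hy1 hy2 v1 v2
        cases x1 <;> cases x2 <;> cases y1 <;> cases y2 <;> simp [pk01] at c1 c2 ⊢ <;> ring
  have h1 := key (l - sp u (t + 1)).val
  rw [ZMod.natCast_zmod_val] at h1
  have h2 : sp u (t + 1) + (l - sp u (t + 1)) = l := by ring
  rw [h2] at h1
  exact h1

/-- between two visits of the star of `u` to the letter `q` -/
theorem pl_between (u : X j) (e : List ℕ) (he : e.length = 2 * j + 1) (w : X k)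
    (hw : w.1 = ins u.1 e) {q : ZMod (2 * j + 1)} {a : ℕ} (ha : sp u a = q) : ∀ d : ℕ,
    (∀ i, a < i → i < a + 1 + d → sp u i ≠ q) →
    (q ∈ vt u (a + 1 + d) ↔ ¬ Even d) ∧
      pl u e w (a + 1 + d) q = sp w a + (if Even d then 1 else 0) := by
  intro d
  induction d with
  | zero =>
    intro _
    rw [add_zero]
    constructor
    · rw [vt_succ, ha]
      simp
    · rw [pl_drift u e he w hw, if_pos (Or.inr ha.symm), if_pos (by simp), ← ha, pl_star]
  | succ d ih =>
    intro h
    obtain ⟨i1, i2⟩ := ih (fun i hi hi' => h i hi (by omega))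
    have h1 : sp u (a + 1 + d) ≠ q := h _ (by omega) (by omega)
    rw [← add_assoc]
    constructor
    · rw [vt_succ, i1, Nat.even_add_one]
      constructor
      · rintro ⟨_, h3⟩
        exact h3
      · intro h3
        exact ⟨fun h4 => h1 h4.symm, h3⟩
    · rw [pl_drift u e he w hw, i2]
      by_cases hd : Even d
      · have hq : ¬ (q ∈ vt u (a + 1 + d) ∨ q = sp u (a + 1 + d)) := by
          rintro (h3 | h3)
          · exact (i1.1 h3) hd
          · exact h1 h3.symm
        rw [if_neg hq, if_pos hd, if_neg (by rw [Nat.even_add_one]; exact not_not.2 hd)]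
        ring
      · have hq : q ∈ vt u (a + 1 + d) ∨ q = sp u (a + 1 + d) := Or.inl (i1.2 hd)
        rw [if_pos hq, if_neg hd, if_pos (by rw [Nat.even_add_one]; exact hd)]
        ring

/-- between two consecutive visits of the star of `u` to the same letter, the label of the star of `w` increases
by exactly `1` -/
theorem visit_succ (u : X j) (e : List ℕ) (he : e.length = 2 * j + 1) (w : X k)
    (hw : w.1 = ins u.1 e) {a b : ℕ} (hab : a < b) (h : sp u b = sp u a)
    (hmin : ∀ i, a < i → i < b → sp u i ≠ sp u a) : sp w b = sp w a + 1 := by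
  obtain ⟨d, rfl⟩ : ∃ d, b = a + 1 + d := ⟨b - a - 1, by omega⟩
  obtain ⟨h1, h2⟩ := pl_between u e he w hw rfl d hmin
  have h3 := star_notMem u (a + 1 + d)
  rw [h, h1, not_not] at h3
  rw [if_pos h3, ← h, pl_star] at h2
  exact h2

/-- **INDEPENDENCE, level 1**: the star of `u` at `q` and the star of `w = C(u, e)` at `p`, at the same time -/
theorem indep1 (u : X j) (e : List ℕ) (he : e.length = 2 * j + 1) (w : X k)
    (hw : w.1 = ins u.1 e) (q : ZMod (2 * j + 1)) (p : ZMod (2 * k + 1)) :
    ∃ i, sp u i = q ∧ sp w i = p := by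
  obtain ⟨i0, hi0⟩ : ∃ i, sp u i = q := by
    rcases Nat.eq_zero_or_pos j with hj | hj
    · subst hj
      exact ⟨0, Subsingleton.elim (α := ZMod 1) _ _⟩
    · exact exists_sp hj u q
  have key : ∀ m : ℕ, ∃ i, sp u i = q ∧ sp w i = sp w i0 + m := by
    intro m
    induction m with
    | zero => exact ⟨i0, hi0, by rw [Nat.cast_zero, add_zero]⟩
    | succ m ih =>
      obtain ⟨a, ha, hb⟩ := ih
      classical
      have hex : ∃ b, a < b ∧ sp u b = sp u a := recur u a
      obtain ⟨h1, h2⟩ := Nat.find_spec hex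
      refine ⟨Nat.find hex, h2.trans ha, ?_⟩
      rw [visit_succ u e he w hw h1 h2 (fun i hi hi' h4 => Nat.find_min hex hi' ⟨hi, h4⟩), hb]
      push_cast
      ring
  obtain ⟨i, h1, h2⟩ := key (p - sp w i0).val
  refine ⟨i, h1, ?_⟩
  rw [h2, ZMod.natCast_zmod_val]
  ring

end Pool.OddHC
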