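import Pool.Agent.Work.MP_8f87b2_h62.W3e

/-!
MP_8f87b2_co, height 3: the windows of height 3 against the plain links L, K, C, C', DOWN.
-/

set_option autoImplicit false

namespace Pool.OddHC

open BinaryTree Equiv

namespace H1

variable {k b m a : ℕ}

/-! ### Reversed words -/

/-- the components in reversed order -/
def t3rv : BinaryTree Unit → BinaryTree Unit
  | .nil => .nil
  | .node _ A X => app (t3rv X) (A △ .nil)

theorem t3rv_node (A X : BinaryTree Unit) : t3rv (A △ X) = app (t3rv X) (A △ .nil) := rfl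

theorem t3rv_app (P Q : BinaryTree Unit) : t3rv (app P Q) = app (t3rv Q) (t3rv P) := by
  induction P with
  | nil => rw [show t3rv .nil = .nil from rfl, app_nil]; rfl
  | node u A X _ ih =>
    change app (t3rv (app X Q)) (A △ .nil) = app (t3rv Q) (app (t3rv X) (A △ .nil))
    rw [ih, app_assoc]

theorem t3rv_rv (P : BinaryTree Unit) : t3rv (t3rv P) = P := by
  induction P with
  | nil => rfl
  | node u A X _ ih =>
    rw [t3rv_node, t3rv_app, ih]
    rfl

theorem t3rv_lv (n : ℕ) (t : BinaryTree Unit) : t3rv (lv n t) = app (t3rv t) (lv n .nil) := by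
  induction n with
  | zero => rw [lv, lv, app_nil]
  | succ n ih =>
    rw [lv, t3rv_node, ih, app_assoc]
    congr 1
    have : ∀ n, app (lv n .nil) (.nil △ .nil) = .nil △ lv n .nil := by
      intro n
      induction n with
      | zero => rfl
      | succ n ih => rw [lv, app, ih]
    exact this n

theorem t3rv_lv2 (n : ℕ) (t : BinaryTree Unit) : t3rv (lv2 n t) = app (t3rv t) (lv2 n .nil) := by
  induction n with
  | zero => rw [lv2, lv2, app_nil]
  | succ n ih =>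
    rw [lv2, t3rv_node, ih, app_assoc]
    congr 1
    have : ∀ n, app (lv2 n .nil) ((.nil △ .nil) △ .nil) = (.nil △ .nil) △ lv2 n .nil := by
      intro n
      induction n with
      | zero => rfl
      | succ n ih => rw [lv2, app, ih]
    exact this n

theorem t3rv_th (n : ℕ) (t : BinaryTree Unit) : t3rv (th n t) = app (t3rv t) (th n .nil) := by
  induction n with
  | zero => rw [th, th, app_nil]
  | succ n ih =>
    rw [th, t3rv_node, ih, app_assoc]
    congr 1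
    have : ∀ n, app (th n .nil) (((.nil △ .nil) △ .nil) △ .nil) = ((.nil △ .nil) △ .nil) △ th n .nil := by
      intro n
      induction n with
      | zero => rfl
      | succ n ih => rw [th, app, ih]
    exact this n

/-- `G = (()) ()^m (())^a`, the first inside of `R3` -/
def t3G (m a : ℕ) : BinaryTree Unit := (.nil △ .nil) △ L3 m a

theorem rv_L3 (m a : ℕ) : t3rv (L3 m a) = app (lv2 a .nil) (lv m .nil) := by
  unfold L3
  rw [t3rv_lv, t3rv_lv2]
  rfl

theorem rv_R3 (b m a : ℕ) : t3rv (R3 b m a) = app (th b .nil) (t3G m a △ .nil) := by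
  unfold R3 t3G
  rw [t3rv_node, t3rv_th]
  rfl

theorem rv_S3 (m a : ℕ) : t3rv (S3 m a) = app (lv2 a .nil) (app (lv m .nil) (((.nil △ .nil) △ .nil) △ .nil)) := by
  unfold S3
  rw [t3rv_node, rv_L3, app_assoc]

/-- the reversed words -/
def rw3 (b m a : ℕ) : ℕ → BinaryTree Unit
  | 0 => ((.nil △ .nil) △ .nil) △ t3rv (R3 b m a)
  | 1 => .nil △ (.nil △ (.nil △ t3rv (R3 b m a)))
  | 2 => .nil △ (.nil △ app (t3rv (R3 b m a)) (.nil △ .nil))
  | 3 => app (R3 b m a) (.nil △ (.nil △ .nil)) △ .nil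
  | 4 => app (t3rv (R3 b m a)) ((.nil △ (.nil △ .nil)) △ .nil)
  | 5 => app (t3rv (R3 b m a)) (.nil △ ((.nil △ .nil) △ .nil))
  | 6 => (.nil △ .nil) △ (R3 b m a △ .nil)
  | 7 => (.nil △ R3 b m a) △ (.nil △ .nil)
  | 8 => R3 b m a △ (.nil △ (.nil △ .nil))
  | 9 => .nil △ ((R3 b m a △ .nil) △ .nil)
  | 10 => app (t3rv (S3 m a)) (((.nil △ .nil) △ .nil) △ th b .nil)
  | 11 => app (t3rv (S3 m a)) (.nil △ (.nil △ (.nil △ th b .nil)))
  | 12 => .nil △ (.nil △ app (th b .nil) (S3 m a △ .nil))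
  | 13 => app (th b .nil) (.nil △ (.nil △ .nil)) △ t3rv (S3 m a)
  | 14 => app (th b .nil) ((.nil △ (.nil △ S3 m a)) △ .nil)
  | 15 => app (th b .nil) (S3 m a △ ((.nil △ .nil) △ .nil))
  | 16 => (.nil △ .nil) △ (th b .nil △ t3rv (S3 m a))
  | 17 => (S3 m a △ th b .nil) △ (.nil △ .nil)
  | 18 => th b .nil △ app (t3rv (S3 m a)) (.nil △ (.nil △ .nil))
  | _ => .nil △ (app (S3 m a) (th b .nil △ .nil) △ .nil)

theorem rv_nil : t3rv .nil = .nil := rfl

theorem rv_w3 (b m a : ℕ) : ∀ i < 20, t3rv (w3 b m a i) = rw3 b m a i := by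
  have hB : t3rv (th b .nil) = th b .nil := by rw [t3rv_th]; rfl
  have h1 : ch 1 = .nil △ .nil := rfl
  intro i hi
  interval_cases i <;>
    simp only [w3, W, rw3, h1, t3rv_app, t3rv_node, rv_nil, hB, app_assoc, app]

/-! ### Forward words -/

/-- the inside of the first component -/
def t3hd : BinaryTree Unit → BinaryTree Unit
  | .nil => .nil
  | .node _ A _ => A

/-- the words, explicitly -/
def fw3 (b m a : ℕ) : ℕ → BinaryTree Unit
  | 0 => t3G m a △ app (th b .nil) (((.nil △ .nil) △ .nil) △ .nil)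
  | 1 => t3G m a △ app (th b .nil) (.nil △ (.nil △ (.nil △ .nil)))
  | 2 => .nil △ (t3G m a △ app (th b .nil) (.nil △ (.nil △ .nil)))
  | 3 => (t3G m a △ app (th b .nil) (.nil △ (.nil △ .nil))) △ .nil
  | 4 => (.nil △ (.nil △ .nil)) △ (t3G m a △ th b .nil)
  | 5 => (.nil △ .nil) △ (.nil △ (t3G m a △ th b .nil))
  | 6 => (t3G m a △ th b .nil) △ ((.nil △ .nil) △ .nil)
  | 7 => .nil △ ((.nil △ (t3G m a △ th b .nil)) △ .nil)
  | 8 => .nil △ (.nil △ ((t3G m a △ th b .nil) △ .nil))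
  | 9 => ((t3G m a △ th b .nil) △ .nil) △ (.nil △ .nil)
  | 10 => app (th b .nil) (((.nil △ .nil) △ .nil) △ (((.nil △ .nil) △ .nil) △ L3 m a))
  | 11 => app (th b .nil) (.nil △ (.nil △ (.nil △ (((.nil △ .nil) △ .nil) △ L3 m a))))
  | 12 => (((.nil △ .nil) △ .nil) △ L3 m a) △ app (th b .nil) (.nil △ (.nil △ .nil))
  | 13 => ((.nil △ .nil) △ .nil) △ app (L3 m a) (app (th b .nil) (.nil △ (.nil △ .nil)) △ .nil)
  | 14 => (.nil △ (.nil △ (((.nil △ .nil) △ .nil) △ L3 m a))) △ th b .nil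
  | 15 => (.nil △ .nil) △ ((((.nil △ .nil) △ .nil) △ L3 m a) △ th b .nil)
  | 16 => ((.nil △ .nil) △ .nil) △ app (L3 m a) (th b .nil △ ((.nil △ .nil) △ .nil))
  | 17 => .nil △ (((((.nil △ .nil) △ .nil) △ L3 m a) △ th b .nil) △ .nil)
  | 18 => .nil △ (.nil △ (((.nil △ .nil) △ .nil) △ app (L3 m a) (th b .nil △ .nil)))
  | _ => (((.nil △ .nil) △ .nil) △ app (L3 m a) (th b .nil △ .nil)) △ (.nil △ .nil)

theorem w3_fw (b m a : ℕ) : ∀ i < 20, w3 b m a i = fw3 b m a i := by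
  intro i hi
  interval_cases i <;> rfl

theorem L3_m (m a : ℕ) : L3 (m + 1) a = .nil △ L3 m a := rfl

theorem ch_pos {c : ℕ} (h : 2 ≤ c) : ∃ n, ch c = (ch n △ .nil) △ .nil ∧ c = n + 2 :=
  ⟨c - 2, by obtain ⟨n, rfl⟩ : ∃ n, c = n + 2 := ⟨c - 2, by omega⟩; rfl, by omega⟩

theorem app_eq_nil {P Q : BinaryTree Unit} : app P Q = .nil ↔ P = .nil ∧ Q = .nil := by
  cases P with
  | nil => simp [app]
  | node _ A X => simp [app]

/-- the host `(S)()` -/
theorem t3_host {S' : BinaryTree Unit} (hm : 1 ≤ m) {i : ℕ} (hi : i < 20)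
    (hS : gd (t3hd S')) (e : w3 b m a i = S' △ (.nil △ .nil)) :
    i = 19 ∧ S' = app (S3 m a) (th b .nil △ .nil) := by
  obtain ⟨m, rfl⟩ : ∃ m', m = m' + 1 := ⟨m - 1, by omega⟩
  rw [w3_fw b _ a i hi] at e
  interval_cases i <;> rcases b with _ | _ | b <;>
    simp [fw3, th, app, L3_m, t3G, app_eq_nil] at e <;>
    first
      | (exfalso; obtain ⟨rfl, -⟩ := e; simp [t3hd, gd, hv] at hS; done)
      | (exfalso; subst e; simp [t3hd, gd, hv] at hS; done)
      | (subst e; exact ⟨rfl, rfl⟩)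

/-- `()()S` -/
theorem t3_bbS {S' : BinaryTree Unit} (hm : 1 ≤ m) {i : ℕ} (hi : i < 20)
    (hS : gd (t3hd S')) (e : w3 b m a i = .nil △ (.nil △ S')) :
    i = 18 ∧ S' = app (S3 m a) (th b .nil △ .nil) := by
  obtain ⟨m, rfl⟩ : ∃ m', m = m' + 1 := ⟨m - 1, by omega⟩
  rw [w3_fw b _ a i hi] at e
  interval_cases i <;> rcases b with _ | _ | b <;>
    simp [fw3, th, app, L3_m, t3G, app_eq_nil] at e <;>
    first
      | (exfalso; obtain ⟨rfl, -⟩ := e; simp [t3hd, gd, hv] at hS; done)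
      | (exfalso; subst e; simp [t3hd, gd, hv] at hS; done)
      | (subst e; exact ⟨rfl, rfl⟩)

/-- the host `(R)[c]` -/
theorem t3_Chost {R' : BinaryTree Unit} (hm : 1 ≤ m) {i c : ℕ} (hi : i < 20) (hc : 2 ≤ c)
    (hS : gd (t3hd R')) (e : w3 b m a i = R' △ ch c) : False := by
  obtain ⟨m, rfl⟩ : ∃ m', m = m' + 1 := ⟨m - 1, by omega⟩
  obtain ⟨n, e1, -⟩ := ch_pos hc
  rw [w3_fw b _ a i hi, e1] at e
  interval_cases i <;> rcases b with _ | _ | b <;>
    simp [fw3, th, app, L3_m, t3G, app_eq_nil] at e <;>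
    first
      | (exfalso; obtain ⟨rfl, -⟩ := e; simp [t3hd, gd, hv] at hS; done)
      | (exfalso; subst e; simp [t3hd, gd, hv] at hS; done)

/-- `[c]()R` -/
theorem t3_cbR {R' : BinaryTree Unit} (hm : 1 ≤ m) (ha : 1 ≤ a) {i c : ℕ} (hi : i < 20) (hc : 2 ≤ c)
    (hS : gd (t3hd R')) (e : w3 b m a i = app (ch c) (.nil △ R')) : False := by
  obtain ⟨m, rfl⟩ : ∃ m', m = m' + 1 := ⟨m - 1, by omega⟩
  obtain ⟨n, e1, -⟩ := ch_pos hc
  have hL : ∀ X, app (L3 m a) X = R' → False := by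
    intro X e2
    subst e2
    obtain ⟨a, rfl⟩ : ∃ a', a = a' + 1 := ⟨a - 1, by omega⟩
    cases m <;> simp [L3, lv, lv2, app, t3hd, gd, hv] at hS
  rw [w3_fw b _ a i hi, e1] at e
  interval_cases i <;> rcases b with _ | _ | b <;>
    simp [fw3, th, app, L3_m, t3G, app_eq_nil] at e <;>
    first
      | exact hL _ e.2
      | (exfalso; obtain ⟨-, rfl⟩ := e; simp [t3hd, gd, hv] at hS; done)
      | (exfalso; subst e; simp [t3hd, gd, hv] at hS; done)

/-- the host `[c](R)` -/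
theorem t3_Clhost {R' : BinaryTree Unit} (hm : 1 ≤ m) {i c : ℕ} (hi : i < 20) (hc : 2 ≤ c)
    (hS : gd (t3hd R')) (e : w3 b m a i = app (ch c) (R' △ .nil)) :
    i = 15 ∧ b = 0 ∧ c = 2 ∧ R' = S3 m a := by
  obtain ⟨m, rfl⟩ : ∃ m', m = m' + 1 := ⟨m - 1, by omega⟩
  obtain ⟨n, e1, hn⟩ := ch_pos hc
  rw [w3_fw b _ a i hi, e1] at e
  interval_cases i <;> rcases b with _ | _ | b <;>
    simp [fw3, th, app, L3_m, t3G, app_eq_nil] at e <;>
    first
      | (exfalso; obtain ⟨-, rfl⟩ := e; simp [t3hd, gd, hv] at hS; done)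
      | (exfalso; subst e; simp [t3hd, gd, hv] at hS; done)
      | skip
  obtain ⟨e2, rfl⟩ := e
  refine ⟨rfl, rfl, ?_, rfl⟩
  cases n with
  | zero => exact hn
  | succ n => simp [ch] at e2

/-- `[c+1]R` -/
theorem t3_cR {R' : BinaryTree Unit} (hm : 1 ≤ m) (ha : 1 ≤ a) {i c : ℕ} (hi : i < 20) (hc : 2 ≤ c)
    (hS : gd (t3hd R')) (hb : ∀ b', R' ≠ th b' (.nil △ (.nil △ (.nil △ S3 m a))))
    (e : w3 b m a i = ch c △ R') : i = 10 := by
  obtain ⟨m, rfl⟩ : ∃ m', m = m' + 1 := ⟨m - 1, by omega⟩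
  obtain ⟨n, e1, hn⟩ := ch_pos hc
  have hL : ∀ X, app (L3 m a) X = R' → False := by
    intro X e2
    subst e2
    obtain ⟨a, rfl⟩ : ∃ a', a = a' + 1 := ⟨a - 1, by omega⟩
    cases m <;> simp [L3, lv, lv2, app, t3hd, gd, hv] at hS
  by_cases h11 : i = 11
  · exfalso
    subst h11
    rw [w3_11, e1] at e
    cases b with
    | zero => simp [th] at e
    | succ b =>
      rw [th] at e
      exact hb b (node_inj e).2.symm
  rw [w3_fw b _ a i hi, e1] at e
  interval_cases i <;> first | omega | (rcases b with _ | _ | b <;>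
    simp [fw3, th, app, L3_m, t3G, app_eq_nil] at e <;>
    first
      | exact (hL _ e.2).elim
      | (exfalso; obtain ⟨-, rfl⟩ := e; simp [t3hd, gd, hv] at hS; done)
      | (exfalso; subst e; simp [t3hd, gd, hv] at hS; done)
      | skip)

/-- `()(S)[c]` -/
theorem t3_bSc {S' : BinaryTree Unit} (hm : 1 ≤ m) {i c : ℕ} (hi : i < 20) (hc : 2 ≤ c)
    (hS : gd (t3hd S')) (e : w3 b m a i = .nil △ (S' △ ch c)) : False := by
  obtain ⟨m, rfl⟩ : ∃ m', m = m' + 1 := ⟨m - 1, by omega⟩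
  obtain ⟨n, e1, hn⟩ := ch_pos hc
  rw [w3_fw b _ a i hi, e1] at e
  interval_cases i <;> rcases b with _ | _ | b <;>
    simp [fw3, th, app, L3_m, t3G, app_eq_nil] at e <;>
    first
      | (exfalso; obtain ⟨rfl, -⟩ := e; simp [t3hd, gd, hv] at hS; done)
      | (exfalso; subst e; simp [t3hd, gd, hv] at hS; done)

/-- `[c](())S` -/
theorem t3_ctS {S' : BinaryTree Unit} (hm : 1 ≤ m) {i c : ℕ} (hi : i < 20) (hc : 2 ≤ c)
    (hS : gd (t3hd S')) (e : w3 b m a i = app (ch c) ((.nil △ .nil) △ S')) : False := by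
  obtain ⟨m, rfl⟩ : ∃ m', m = m' + 1 := ⟨m - 1, by omega⟩
  obtain ⟨n, e1, hn⟩ := ch_pos hc
  rw [w3_fw b _ a i hi, e1] at e
  interval_cases i <;> rcases b with _ | _ | b <;>
    simp [fw3, th, app, L3_m, t3G, app_eq_nil] at e <;>
    first
      | (exfalso; obtain ⟨-, rfl⟩ := e; simp [t3hd, gd, hv] at hS; done)
      | (exfalso; subst e; simp [t3hd, gd, hv] at hS; done)

/-- `()(Y)()` -/
theorem t3_bYb {Y : BinaryTree Unit} (hm : 1 ≤ m) {i : ℕ} (hi : i < 20)
    (e : w3 b m a i = .nil △ (Y △ (.nil △ .nil))) : False := by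
  obtain ⟨m, rfl⟩ : ∃ m', m = m' + 1 := ⟨m - 1, by omega⟩
  rw [w3_fw b _ a i hi] at e
  interval_cases i <;> rcases b with _ | _ | b <;>
    simp [fw3, th, app, L3_m, t3G, app_eq_nil] at e

/-- `()(())Y` -/
theorem t3_btY {Y : BinaryTree Unit} (hm : 1 ≤ m) {i : ℕ} (hi : i < 20)
    (e : w3 b m a i = .nil △ ((.nil △ .nil) △ Y)) : False := by
  obtain ⟨m, rfl⟩ : ∃ m', m = m' + 1 := ⟨m - 1, by omega⟩
  rw [w3_fw b _ a i hi] at e
  interval_cases i <;> rcases b with _ | _ | b <;>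
    simp [fw3, th, app, L3_m, t3G, app_eq_nil] at e

/-- words with a heavy first component -/
theorem t3_hd (hm : 1 ≤ m) {i : ℕ} (hi : i < 20) (hS : gd (t3hd (w3 b m a i))) :
    i = 10 ∨ (i = 11 ∧ 1 ≤ b) ∨ i = 13 ∨ i = 16 := by
  obtain ⟨m, rfl⟩ : ∃ m', m = m' + 1 := ⟨m - 1, by omega⟩
  rw [w3_fw b _ a i hi] at hS
  interval_cases i <;> rcases b with _ | _ | b <;>
    simp [fw3, th, app, L3_m, t3G, app_eq_nil, t3hd, gd, hv] at hS ⊢

/-! ### Reversed -/

/-- no light component -/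
def t3nl : BinaryTree Unit → Bool
  | .nil => true
  | .node _ A X => (!light A) && t3nl X

/-- light components, then no light component -/
def t3hr : BinaryTree Unit → Bool
  | .nil => true
  | .node _ A X => if light A = true then t3hr X else t3nl X

/-- first component heavy; no heavy component behind a light one -/
structure Hf (S : BinaryTree Unit) : Prop where
  hd : gd (t3hd S)
  hr : t3hr (t3rv S) = true

theorem Hf.ne {S : BinaryTree Unit} (h : Hf S) : S ≠ .nil := by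
  rintro rfl
  have := h.hd
  simp [t3hd, gd] at this

theorem hd_app {S : BinaryTree Unit} (h : S ≠ .nil) (X : BinaryTree Unit) : t3hd (app S X) = t3hd S := by
  cases S with
  | nil => exact absurd rfl h
  | node _ A Y => rfl

theorem hr_lv2 (n : ℕ) (X : BinaryTree Unit) : t3hr (app (lv2 n .nil) X) = t3hr X := by
  induction n with
  | zero => rfl
  | succ n ih => exact ih

theorem hr_lv (n : ℕ) (X : BinaryTree Unit) : t3hr (app (lv n .nil) X) = t3hr X := by
  induction n with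
  | zero => rfl
  | succ n ih => exact ih

theorem nl_app (P Q : BinaryTree Unit) : t3nl (app P Q) = (t3nl P && t3nl Q) := by
  induction P with
  | nil => rfl
  | node _ A X _ ih =>
    change ((!light A) && t3nl (app X Q)) = (((!light A) && t3nl X) && t3nl Q)
    rw [ih, Bool.and_assoc]

theorem nl_rv {S : BinaryTree Unit} (h : hv S) : t3nl (t3rv S) = true := by
  induction S with
  | nil => rfl
  | node _ A X _ ih =>
    rw [t3rv_node, nl_app, ih h.2]
    change (true && ((!light A) && true)) = true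
    rw [gd_light h.1]
    rfl

theorem nl_hr {S : BinaryTree Unit} (h : t3nl S = true) : t3hr S = true := by
  cases S with
  | nil => rfl
  | node _ A X =>
    have h' : ((!light A) && t3nl X) = true := h
    rw [Bool.and_eq_true, Bool.not_eq_true'] at h'
    rw [t3hr, h'.1]
    exact h'.2

theorem hr_bl (T X : BinaryTree Unit) (h : bl T = true) : t3hr (app (t3rv T) X) = t3hr X := by
  induction T generalizing X with
  | nil => rfl
  | node _ A Y _ ih =>
    have h' : (light A && bl Y) = true := h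
    rw [Bool.and_eq_true] at h'
    rw [t3rv_node, app_assoc, ih _ h'.2]
    change (if light A = true then t3hr X else t3nl X) = _
    rw [h'.1]
    rfl

theorem Hf.of {S0 T : BinaryTree Unit} (h : hv S0) (h0 : S0 ≠ .nil) (hT : bl T = true) : Hf (app S0 T) := by
  refine ⟨?_, ?_⟩
  · rw [hd_app h0]
    cases S0 with
    | nil => exact absurd rfl h0
    | node _ A X => exact h.1
  · rw [t3rv_app, hr_bl _ _ hT]
    exact nl_hr (nl_rv h)

/-- the reversed words of the four numbers -/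
theorem rw3_10 (b m a : ℕ) : rw3 b m (a + 1) 10 = (.nil △ .nil) △ app (lv2 a .nil) (app (lv m .nil)
    (((.nil △ .nil) △ .nil) △ (((.nil △ .nil) △ .nil) △ th b .nil))) := by
  change app (t3rv (S3 m (a + 1))) (((.nil △ .nil) △ .nil) △ th b .nil) = _
  rw [rv_S3, app_assoc, app_assoc]
  rfl

theorem rw3_11 (b m a : ℕ) : rw3 b m (a + 1) 11 = (.nil △ .nil) △ app (lv2 a .nil) (app (lv m .nil)
    (((.nil △ .nil) △ .nil) △ (.nil △ (.nil △ (.nil △ th b .nil))))) := by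
  change app (t3rv (S3 m (a + 1))) (.nil △ (.nil △ (.nil △ th b .nil))) = _
  rw [rv_S3, app_assoc, app_assoc]
  rfl

theorem rw3_13 (b m a : ℕ) : rw3 b m a 13 = app (th b .nil) (.nil △ (.nil △ .nil)) △ t3rv (S3 m a) := rfl

theorem rw3_16 (b m a : ℕ) : rw3 b m a 16 = (.nil △ .nil) △ (th b .nil △ t3rv (S3 m a)) := rfl

/-- 16 with a heavy-light word -/
theorem hr_16 {b m a : ℕ} (ha : 1 ≤ a) (h : t3hr (th b .nil △ t3rv (S3 m a)) = true) : b = 0 := by
  by_contra hb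
  obtain ⟨b, rfl⟩ : ∃ b', b = b' + 1 := ⟨b - 1, by omega⟩
  obtain ⟨a, rfl⟩ : ∃ a', a = a' + 1 := ⟨a - 1, by omega⟩
  have hl : light (th (b + 1) .nil) = false := by
    cases b <;> rfl
  rw [t3hr, hl, rv_S3] at h
  simp [lv2, app, t3nl, light, isNil] at h

/-- `S(())` -/
theorem t3_St {S' : BinaryTree Unit} (hm : 1 ≤ m) (ha : 1 ≤ a) {i : ℕ} (hi : i < 20) (hS : Hf S')
    (e : w3 b m a i = app S' ((.nil △ .nil) △ .nil)) :
    i = 10 ∨ (i = 16 ∧ b = 0 ∧ S' = app (S3 m a) (.nil △ .nil)) := by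
  obtain ⟨a, rfl⟩ : ∃ a', a = a' + 1 := ⟨a - 1, by omega⟩
  have h1 := hS.hd
  rw [← hd_app hS.ne ((.nil △ .nil) △ .nil), ← e] at h1
  have e2 := congrArg t3rv e
  rw [rv_w3 b m _ i hi, t3rv_app, show t3rv (((.nil : BinaryTree Unit) △ .nil) △ .nil) =
    (.nil △ .nil) △ .nil from rfl] at e2
  have e3 : rw3 b m (a + 1) i = (.nil △ .nil) △ t3rv S' := e2
  have h2 := hS.hr
  rcases t3_hd hm hi h1 with rfl | ⟨rfl, hb⟩ | rfl | rfl
  · exact Or.inl rfl
  · exfalso
    rw [rw3_11] at e3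
    rw [← (node_inj e3).2, hr_lv2, hr_lv] at h2
    simp [t3hr, t3nl, light, isNil] at h2
  · exfalso
    rw [rw3_13] at e3
    have e4 := (node_inj e3).1
    cases b <;> simp [th, app] at e4
  · right
    rw [rw3_16] at e3
    have e4 := (node_inj e3).2
    rw [← e4] at h2
    have hb := hr_16 (by omega) h2
    subst hb
    refine ⟨rfl, rfl, ?_⟩
    rw [← t3rv_rv S', ← e4, t3rv_node, t3rv_rv]
    rfl

/-- `R[c+1]` -/
theorem t3_Rc {R' : BinaryTree Unit} (hm : 1 ≤ m) (ha : 1 ≤ a) {i c : ℕ} (hi : i < 20) (hc : 2 ≤ c) (hS : Hf R')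
    (e : w3 b m a i = app R' (ch c △ .nil)) : False := by
  obtain ⟨a, rfl⟩ : ∃ a', a = a' + 1 := ⟨a - 1, by omega⟩
  obtain ⟨n, e1, hn⟩ := ch_pos hc
  have h1 := hS.hd
  rw [← hd_app hS.ne (ch c △ .nil), ← e] at h1
  have e2 := congrArg t3rv e
  rw [rv_w3 b m _ i hi, t3rv_app] at e2
  have e3 : rw3 b m (a + 1) i = ch c △ t3rv R' := e2
  rw [e1] at e3
  rcases t3_hd hm hi h1 with rfl | ⟨rfl, hb⟩ | rfl | rfl
  · rw [rw3_10] at e3
    have e4 := (node_inj e3).1
    simp at e4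
  · rw [rw3_11] at e3
    have e4 := (node_inj e3).1
    simp at e4
  · rw [rw3_13] at e3
    have e4 := (node_inj e3).1
    cases b <;> simp [th, app, app_eq_nil] at e4
  · rw [rw3_16] at e3
    have e4 := (node_inj e3).1
    simp at e4

/-- `R()[c]` -/
theorem t3_Rbc {R' : BinaryTree Unit} (hm : 1 ≤ m) (ha : 1 ≤ a) {i c : ℕ} (hi : i < 20) (hc : 2 ≤ c) (hS : Hf R')
    (e : w3 b m a i = app R' (.nil △ ch c)) :
    i = 10 ∨ (i = 16 ∧ b = 0 ∧ c = 2 ∧ R' = S3 m a) := by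
  obtain ⟨a, rfl⟩ : ∃ a', a = a' + 1 := ⟨a - 1, by omega⟩
  obtain ⟨n, e1, hn⟩ := ch_pos hc
  have h1 := hS.hd
  rw [← hd_app hS.ne (.nil △ ch c), ← e] at h1
  have e2 := congrArg t3rv e
  rw [rv_w3 b m _ i hi, t3rv_app, e1] at e2
  have e3 : rw3 b m (a + 1) i = (ch n △ .nil) △ (.nil △ t3rv R') := e2
  have h2 := hS.hr
  rcases t3_hd hm hi h1 with rfl | ⟨rfl, hb⟩ | rfl | rfl
  · exact Or.inl rfl
  · exfalso
    rw [rw3_11] at e3
    have e4 := (node_inj e3).2
    cases a with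
    | succ a => simp [lv2, app] at e4
    | zero =>
      obtain ⟨m, rfl⟩ : ∃ m', m = m' + 1 := ⟨m - 1, by omega⟩
      have e5 : .nil △ app (lv m .nil) (((.nil △ .nil) △ .nil) △ (.nil △ (.nil △ (.nil △ th b .nil)))) =
        .nil △ t3rv R' := e4
      rw [← (node_inj e5).2, hr_lv] at h2
      simp [t3hr, t3nl, light, isNil] at h2
  · exfalso
    rw [rw3_13] at e3
    have e4 := (node_inj e3).1
    cases b <;> simp [th, app, app_eq_nil] at e4
  · right
    rw [rw3_16] at e3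
    obtain ⟨e4, e5⟩ := node_inj e3
    obtain ⟨e6, e7⟩ := node_inj e5
    have hb : b = 0 := by
      cases b with
      | zero => rfl
      | succ b => simp [th] at e6
    refine ⟨rfl, hb, ?_, ?_⟩
    · cases n with
      | zero => exact hn
      | succ n => simp [ch] at e4
    · rw [← t3rv_rv R', ← e7, t3rv_rv]

/-- `S[c]()` -/
theorem t3_Scb {S' : BinaryTree Unit} (hm : 1 ≤ m) (ha : 1 ≤ a) {i c : ℕ} (hi : i < 20) (hS : Hf S')
    (e : w3 b m a i = app S' (ch c △ (.nil △ .nil))) : False := by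
  obtain ⟨a, rfl⟩ : ∃ a', a = a' + 1 := ⟨a - 1, by omega⟩
  have h1 := hS.hd
  rw [← hd_app hS.ne (ch c △ (.nil △ .nil)), ← e] at h1
  have e2 := congrArg t3rv e
  rw [rv_w3 b m _ i hi, t3rv_app] at e2
  have e3 : rw3 b m (a + 1) i = .nil △ (ch c △ t3rv S') := e2
  rcases t3_hd hm hi h1 with rfl | ⟨rfl, hb⟩ | rfl | rfl
  · rw [rw3_10] at e3
    have e4 := (node_inj e3).1
    simp at e4
  · rw [rw3_11] at e3
    have e4 := (node_inj e3).1
    simp at e4
  · rw [rw3_13] at e3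
    have e4 := (node_inj e3).1
    cases b <;> simp [th, app] at e4
  · rw [rw3_16] at e3
    have e4 := (node_inj e3).1
    simp at e4

/-- `Y(())()`, `Y` does not start with `()` -/
theorem t3_Ytb {Y : BinaryTree Unit} (ha : 1 ≤ a) {i : ℕ} (hi : i < 20) (hY : fb Y = false)
    (hY0 : Y ≠ .nil) (e : w3 b m a i = app Y ((.nil △ .nil) △ (.nil △ .nil))) : False := by
  obtain ⟨a, rfl⟩ : ∃ a', a = a' + 1 := ⟨a - 1, by omega⟩
  have e2 := congrArg t3rv e
  rw [rv_w3 b m _ i hi, t3rv_app] at e2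
  have e3 : rw3 b m (a + 1) i = .nil △ ((.nil △ .nil) △ t3rv Y) := e2
  have hf : fb (w3 b m (a + 1) i) = false := by rw [e, fb_app hY0, hY]
  by_cases h18 : i = 18
  · subst h18
    exact absurd hf (by simp [w3, W, ch, app, fb, isNil])
  · by_cases h1011 : i = 10 ∨ i = 11
    · rcases h1011 with rfl | rfl
      · rw [rw3_10] at e3
        have e4 := (node_inj e3).1
        simp at e4
      · rw [rw3_11] at e3
        have e4 := (node_inj e3).1
        simp at e4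
    · by_cases h45 : i = 4 ∨ i = 5
      · rcases h45 with rfl | rfl
        · have e5 : app (t3rv (R3 b m (a + 1))) ((.nil △ (.nil △ .nil)) △ .nil) =
            .nil △ ((.nil △ .nil) △ t3rv Y) := e3
          rw [rv_R3] at e5
          rcases b with _ | b <;> simp [th, app, t3G] at e5
        · have e5 : app (t3rv (R3 b m (a + 1))) (.nil △ ((.nil △ .nil) △ .nil)) =
            .nil △ ((.nil △ .nil) △ t3rv Y) := e3
          rw [rv_R3] at e5
          rcases b with _ | b <;> simp [th, app, t3G] at e5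
      · interval_cases i <;> first | omega | (rcases b with _ | _ | b <;>
          simp [rw3, th, app, app_eq_nil, R3, S3] at e3)

end H1

variable {k : ℕ} {F F' : Set (Cyc k)} {g g' : DG k}

/-- the word 10 is on the new T-cycle -/
theorem H1.NodeT.cyc10 {b m a : ℕ} (h : H1.NodeT k b m a) (w0 : X k) {w : X k} (hw : w.1 = H1.w3 b m a 10) :
    cyc w = cyc (H1.tX b m a w0 0) := by
  have e : w = H1.tX b m a w0 10 := Subtype.ext (by rw [hw, h.word w0 (by norm_num)])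
  rw [e, ← h.link w0 (i := 0) (j := 10) (by simp)]
  exact cyc_eq.2 ⟨-2, by simp [zpow_neg, pow_succ]⟩

/-- **T against L** -/
theorem dj_TL' (h : TyT F g) (h' : TyL F' g') : ∀ w ∈ g.B, w ∉ g'.B := by
  intro w hw hw'
  obtain ⟨b, m, a, i, h1, hi, e1⟩ := h.word hw
  obtain ⟨R', e, hR, he, hf, hl, ht⟩ := h'
  have hne : ins R' e ≠ .nil := by
    intro h0
    have := ht_ins_ge R' e hR
    rw [h0, OddHC.ht] at this
    omega
  rcases ht.words w hw' with e2 | ⟨_, e2 | e2⟩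
  · exact H1.t3_bYb h1.mpos hi (e1.symm.trans e2)
  · exact H1.t3_Ytb h1.pos hi hf hne (e1.symm.trans e2)
  · exact H1.t3_btY h1.mpos hi (e1.symm.trans e2)

theorem dj_TL : Dj (k := k) TyT TyL := fun _ _ _ _ h h' _ => dj_TL' h h'

/-- the condition on `S` in a link K at height 3 -/
def Kf (S : BinaryTree Unit) : Prop := H1.Hf S ∧ (H1.lastB S = false ∨ (cont S).count 2 = 0)

theorem Kf.no {S : BinaryTree Unit} (h : Kf S) {m a : ℕ} (ha : 1 ≤ a) :
    S ≠ app (H1.S3 m a) (.nil △ .nil) := by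
  rintro rfl
  rcases h.2 with h1 | h1
  · rw [H1.lastB_app (by simp)] at h1
    simp [H1.lastB, H1.isNil] at h1
  · rw [cont_app, Multiset.count_add, H1.count2_S3] at h1
    omega

/-- **T against K** -/
theorem dj_TK' {S : BinaryTree Unit} (h : TyT F g) (h' : TyK S F' g') (hS : Kf S) (hd : ∀ c ∈ F, c ∉ F') :
    ∀ w ∈ g.B, w ∉ g'.B := by
  intro w hw hw'
  obtain ⟨b, m, a, w0, h1, rfl, rfl⟩ := h
  obtain ⟨i, hi, rfl⟩ := mem_gad20.1 hw
  have e1 := h1.word w0 hi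
  have hb0 : ∀ {b : ℕ}, S = app (H1.S3 m a) (H1.th b .nil △ .nil) → False := by
    intro b e
    have h2 := hS.1.hr
    have e3 : H1.t3rv S = H1.th b .nil △ H1.t3rv (H1.S3 m a) := by
      rw [e, H1.t3rv_app]
      rfl
    rw [e3] at h2
    have hb := H1.hr_16 h1.pos h2
    subst hb
    exact hS.no h1.pos e
  rcases h'.words _ hw' with e2 | ⟨hF, e2 | e2⟩
  · exact hb0 (H1.t3_host h1.mpos hi hS.1.hd (e1.symm.trans e2)).2
  · rcases H1.t3_St h1.mpos h1.pos hi hS.1 (e1.symm.trans e2) with h10 | ⟨_, rfl, e3⟩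
    · subst h10
      exact hd _ rfl (by rw [← h1.cyc10 w0 e1]; exact hF)
    · exact hS.no h1.pos e3
  · exact hb0 (H1.t3_bbS h1.mpos hi hS.1.hd (e1.symm.trans e2)).2

/-- **T against C** (right content link) -/
theorem dj_TC' {c : ℕ} {R : BinaryTree Unit} (h : TyT F g) (h' : TyC c R F' g') (hc : 2 ≤ c) (hS : H1.Hf R) :
    ∀ w ∈ g.B, w ∉ g'.B := by
  intro w hw hw'
  obtain ⟨b, m, a, i, h1, hi, e1⟩ := h.word hw
  rcases h'.words w hw' with e2 | ⟨_, e2 | e2⟩
  · exact H1.t3_Chost h1.mpos hi hc hS.hd (e1.symm.trans e2)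
  · exact H1.t3_Rc h1.mpos h1.pos hi hc hS (e1.symm.trans e2)
  · exact H1.t3_cbR h1.mpos h1.pos hi hc hS.hd (e1.symm.trans e2)

/-- **T against C'** (left content link) -/
theorem dj_TCl' {c : ℕ} {R : BinaryTree Unit} (h : TyT F g) (h' : TyC' c R F' g') (hc : 2 ≤ c) (hS : H1.Hf R)
    (hd : ∀ c ∈ F, c ∉ F') : ∀ w ∈ g.B, w ∉ g'.B := by
  intro w hw hw'
  obtain ⟨b, m, a, w0, h1, rfl, rfl⟩ := h
  obtain ⟨i, hi, rfl⟩ := mem_gad20.1 hw
  have e1 := h1.word w0 hi
  have hz : b = 0 → c = 2 → R = H1.S3 m a → False := by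
    intro hb hc2 hR
    subst hb hc2 hR
    obtain ⟨a', b', c', ha', hb', hc', _, _, _, rfl, _⟩ := h'
    have e3 : c'.1 = H1.w3 0 m a 10 := by
      rw [hc', H1.w3_10]
      rfl
    exact hd _ rfl (by rw [← h1.cyc10 w0 e3]; exact Or.inr rfl)
  rcases h'.words _ hw' with e2 | ⟨hF, e2 | e2⟩
  · obtain ⟨_, h2, h3, h4⟩ := H1.t3_Clhost h1.mpos hi hc hS.hd (e1.symm.trans e2)
    exact hz h2 h3 h4
  · rcases H1.t3_Rbc h1.mpos h1.pos hi hc hS (e1.symm.trans e2) with h10 | ⟨_, h2, h3, h4⟩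
    · subst h10
      exact hd _ rfl (by rw [← h1.cyc10 w0 e1]; exact hF)
    · exact hz h2 h3 h4
  · have h10 := H1.t3_cR h1.mpos h1.pos hi hc hS.hd (by
      intro b' hR
      have h2 := hS.hr
      rw [hR, H1.t3rv_th] at h2
      obtain ⟨a'', ha''⟩ : ∃ a'', a = a'' + 1 := ⟨a - 1, by have := h1.pos; omega⟩
      have e4 : H1.t3rv (.nil △ (.nil △ (.nil △ H1.S3 m a))) =
          app (H1.t3rv (H1.S3 m a)) (.nil △ (.nil △ (.nil △ .nil))) := by
        rw [H1.t3rv_node, H1.t3rv_node, H1.t3rv_node, H1.app_assoc, H1.app_assoc]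
        rfl
      rw [e4, H1.app_assoc, H1.rv_S3, H1.app_assoc, H1.app_assoc, H1.hr_lv2, H1.hr_lv] at h2
      simp [app, H1.t3hr, H1.t3nl, H1.light, H1.isNil] at h2) (e1.symm.trans e2)
    subst h10
    exact hd _ rfl (by rw [← h1.cyc10 w0 e1]; exact hF)

/-- **T against DOWN**: `()(S)[c-1]`; `S[c]()`, `[c-1](())S` -/
theorem dj_TD' {c : ℕ} {S : BinaryTree Unit} (h : TyT F g) (h' : IsTri (.nil △ .nil) S (H1.ch c) F' g')
    (hc : 2 ≤ c) (hS : H1.Hf S) : ∀ w ∈ g.B, w ∉ g'.B := by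
  intro w hw hw'
  obtain ⟨b, m, a, i, h1, hi, e1⟩ := h.word hw
  rcases h'.words w hw' with e2 | ⟨_, e2 | e2⟩
  · exact H1.t3_bSc h1.mpos hi hc hS.hd (e1.symm.trans e2)
  · exact H1.t3_Scb h1.mpos h1.pos hi hS (e1.symm.trans e2)
  · exact H1.t3_ctS h1.mpos hi hc hS.hd (e1.symm.trans e2)

/-! ### Inner words against C, C', DOWN -/

namespace H1

theorem hd_Y3 {b m a : ℕ} (i : ℕ) : t3hd (t3Y b m a i) = t3F m := rfl

theorem ngd_F3 {m : ℕ} : ¬ gd (t3F m) := by
  unfold t3F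
  cases m <;> simp [lv, app, gd, hv]

theorem ngd_hd_F3 {m : ℕ} : ¬ gd (t3hd (t3F m)) := by
  unfold t3F
  cases m <;> simp [lv, app, gd, t3hd, hv]

theorem F3_ne_ch {m : ℕ} (hm : 1 ≤ m) (c : ℕ) : t3F m ≠ ch c := by
  obtain ⟨m, rfl⟩ : ∃ m', m = m' + 1 := ⟨m - 1, by omega⟩
  intro e
  unfold t3F at e
  cases c with
  | zero => simp [lv, app, ch] at e
  | succ c => simp [lv, app, ch, app_eq_nil] at e

end H1

theorem TyT.innerm (h : TyT F g) : ∀ p ∈ g.arcs, ∀ w ∈ innA p, ∃ b m a i : ℕ, 1 ≤ m ∧ w.1 = H1.t3Y b m a i := by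
  obtain ⟨b, m, a, w0, h1, rfl, rfl⟩ := h
  intro p hp w hw
  have hw' : w = TT p.1 := hw
  subst hw'
  have hp' : p = (H1.tX b m a w0 0, H1.tX b m a w0 10) ∨
      p = (H1.tX b m a w0 1, H1.tX b m a w0 11) ∨
      p = (H1.tX b m a w0 3, H1.tX b m a w0 12) ∨
      p = (H1.tX b m a w0 6, H1.tX b m a w0 15) ∨
      p = (H1.tX b m a w0 8, H1.tX b m a w0 14) ∨
      p = (H1.tX b m a w0 9, H1.tX b m a w0 17) := hp
  rcases hp' with rfl | rfl | rfl | rfl | rfl | rfl
  · exact ⟨b, m, a - 1, 0, h1.mpos, H1.TT_w3 h1.pos (by simp) (h1.word w0 (by norm_num))⟩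
  · exact ⟨b, m, a - 1, 1, h1.mpos, H1.TT_w3 h1.pos (by simp) (h1.word w0 (by norm_num))⟩
  · exact ⟨b, m, a - 1, 3, h1.mpos, H1.TT_w3 h1.pos (by simp) (h1.word w0 (by norm_num))⟩
  · exact ⟨b, m, a - 1, 6, h1.mpos, H1.TT_w3 h1.pos (by simp) (h1.word w0 (by norm_num))⟩
  · exact ⟨b, m, a - 1, 8, h1.mpos, H1.TT_w3 h1.pos (by simp) (h1.word w0 (by norm_num))⟩
  · exact ⟨b, m, a - 1, 9, h1.mpos, H1.TT_w3 h1.pos (by simp) (h1.word w0 (by norm_num))⟩

/-- inner words of T against a plain triple: every word starts with `()`, or with an inside `A` such that `gd A`, or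
`gd (t3hd A)`, or `A` a chain -/
theorem TyT.inner_hd {P Q R : BinaryTree Unit} (h : TyT F g) (h' : IsTri P Q R F' g')
    (hw : ∀ Y : BinaryTree Unit, (Y = w1 P Q R ∨ Y = w1 Q R P ∨ Y = w1 R P Q) → H1.fb Y = true ∨
      H1.lastB Y = true ∨ H1.light (H1.lastI Y) = true ∨ H1.gd (H1.t3hd Y) ∨ H1.gd (H1.t3hd (H1.t3hd Y)) ∨
      ∃ c, H1.t3hd Y = H1.ch c) :
    ∀ p ∈ g.arcs, ∀ w ∈ innA p, w ∉ g'.B := by
  intro p hp w hwi hw'
  obtain ⟨b, m, a, i, hm, e⟩ := h.innerm p hp w hwi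
  have key : H1.fb w.1 = true ∨ H1.lastB w.1 = true ∨ H1.light (H1.lastI w.1) = true ∨ H1.gd (H1.t3hd w.1) ∨
      H1.gd (H1.t3hd (H1.t3hd w.1)) ∨ ∃ c, H1.t3hd w.1 = H1.ch c := by
    apply hw
    rcases h'.words w hw' with e | ⟨_, e | e⟩
    · exact Or.inl e
    · exact Or.inr (Or.inl e)
    · exact Or.inr (Or.inr e)
  rw [e, H1.fb_Y3, H1.lastB_Y3, H1.light_Y3, H1.hd_Y3] at key
  rcases key with h | h | h | h | h | ⟨c, h⟩
  · simp at h
  · simp at h
  · simp at h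
  · exact H1.ngd_F3 h
  · exact H1.ngd_hd_F3 h
  · exact H1.F3_ne_ch hm c h

theorem TyT.inner_C {c : ℕ} {R : BinaryTree Unit} (h : TyT F g) (h' : TyC c R F' g') (hc : 2 ≤ c) (hS : H1.Hf R) :
    ∀ p ∈ g.arcs, ∀ w ∈ innA p, w ∉ g'.B := by
  obtain ⟨n, e1, hn⟩ := H1.ch_pos hc
  apply h.inner_hd h'
  rintro Y (rfl | rfl | rfl)
  · right; right; right; right; left
    exact hS.hd
  · right; right; right; left
    change H1.gd (H1.t3hd (app R (H1.ch c △ .nil)))
    rw [H1.hd_app hS.ne]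
    exact hS.hd
  · right; right; right; right; right
    refine ⟨n + 1, ?_⟩
    rw [w1, e1]
    rfl

theorem TyT.inner_Cl {c : ℕ} {R : BinaryTree Unit} (h : TyT F g) (h' : TyC' c R F' g') (hc : 2 ≤ c) (hS : H1.Hf R) :
    ∀ p ∈ g.arcs, ∀ w ∈ innA p, w ∉ g'.B := by
  obtain ⟨n, e1, hn⟩ := H1.ch_pos hc
  apply h.inner_hd h'
  rintro Y (rfl | rfl | rfl)
  · right; right; right; right; right
    refine ⟨n + 1, ?_⟩
    rw [w1, e1]
    rfl
  · right; right; right; left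
    change H1.gd (H1.t3hd (app R (.nil △ H1.ch c)))
    rw [H1.hd_app hS.ne]
    exact hS.hd
  · right; right; right; right; right
    exact ⟨c, rfl⟩

theorem TyT.inner_D {c : ℕ} {S : BinaryTree Unit} (h : TyT F g) (h' : IsTri (.nil △ .nil) S (H1.ch c) F' g')
    (hc : 2 ≤ c) : ∀ p ∈ g.arcs, ∀ w ∈ innA p, w ∉ g'.B := by
  obtain ⟨n, e1, hn⟩ := H1.ch_pos hc
  apply h.inner_hd h'
  rintro Y (rfl | rfl | rfl)
  · left; rfl
  · right; left
    change H1.lastB (app S (H1.ch c △ (.nil △ .nil))) = true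
    rw [H1.lastB_app (by simp)]
    rfl
  · right; right; right; right; right
    refine ⟨n + 1, ?_⟩
    rw [w1, e1]
    rfl

end Pool.OddHC
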