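import Pool.Agent.Work.MP_8f87b2_h62.W3b
import Pool.Agent.Work.MP_8f87b2_mid.Dis

/-!
MP_8f87b2_co, height 3: the type `TyT` (the windows of height 3): fields, disjointness of the windows of height 3,
disjointness from the windows of type A (height at least 4), from the plain types E, L, K.
-/

set_option autoImplicit false

namespace Pool.OddHC

namespace H1

open BinaryTree Multiset Equiv

variable {k : ℕ}

/-- the node `(3^(b+1); a, m)` (new T-cycle `3^(b+2) 2^a 1^m`) -/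
structure NodeT (k b m a : ℕ) : Prop where
  pos : 1 ≤ a
  mpos : 1 ≤ m
  size : 3 * b + 2 * a + m + 6 = k

/-- the words of the window in `X k` -/
noncomputable def tX (b m a : ℕ) (w0 : X k) (i : ℕ) : X k := wX (R3 b m a) (th b .nil) (S3 m a) 0 w0 i

variable {b m a : ℕ}

theorem NodeT.sizeR (h : NodeT k b m a) : (R3 b m a).numNodes + 0 + 3 = k := by
  have := h.size
  rw [R3_num]
  omega

theorem NodeT.word (h : NodeT k b m a) (w0 : X k) {i : ℕ} (hi : i < 20) :
    (tX b m a w0 i).1 = w3 b m a i := wX_eq (dat3 b m a) h.sizeR w0 hi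

theorem NodeT.disj (h : NodeT k b m a) {b' m' a' : ℕ} (h' : NodeT k b' m' a') (w0 w0' : X k) {i j : ℕ}
    (hi : i < 20) (hj : j < 20) (e : tX b m a w0 i = tX b' m' a' w0' j) :
    i = j ∧ b = b' ∧ m = m' ∧ a = a' := by
  have e1 := congrArg Subtype.val e
  rw [h.word w0 hi, h'.word w0' hj] at e1
  exact w3_disj h.pos h'.pos hi hj e1

theorem NodeT.abs (h : NodeT k b m a) (w0 : X k) : (gad20 (tX b m a w0)).Abs := by
  apply wX_abs (dat3 b m a) h.sizeR w0
  intro i hi j hj e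
  exact (w3_disj h.pos h.pos hi hj e).1

theorem NodeT.cont0 (h : NodeT k b m a) (w0 : X k) :
    cont (tX b m a w0 0).1 = cont (R3 b m a) + {3} := wX_cont0 (dat3 b m a) h.sizeR w0

theorem cont_R3 (b m a : ℕ) : cont (R3 b m a) = replicate b 3 + ({3} + (replicate m 1 + replicate a 2)) := by
  have h := (dat3 b m a).cont
  have e : S3 m a = ((.nil △ .nil) △ .nil) △ L3 m a := rfl
  rw [cont_th, e, cont_node, cont_L3] at h
  exact h.symm

theorem NodeT.rank (h : NodeT k b m a) (w0 : X k) : ∀ i < 20, i ≠ 0 → i ≠ 10 →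
    Lower (cont (tX b m a w0 i).1) (cont (tX b m a w0 0).1) := by
  intro i hi h0 h10
  rw [h.cont0, h.word w0 hi]
  exact rank_W (dat3 b m a) i hi h0 h10

theorem NodeT.link (h : NodeT k b m a) (w0 : X k) {i j : ℕ}
    (hij : (i, j) ∈ [(0, 10), (1, 11), (3, 12), (6, 15), (8, 14), (9, 17)]) :
    TT (TT (tX b m a w0 i)) = tX b m a w0 j := wX_link (dat3 b m a) h.sizeR w0 hij

end H1

open Finset Equiv BinaryTree Pool.Agent.Work.MP_8f87b2_co

variable {k : ℕ} {F F' : Set (Cyc k)} {g g' : DG k}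

/-- TYPE T: the windows of height 3 -/
def TyT (F : Set (Cyc k)) (g : DG k) : Prop :=
  ∃ (b m a : ℕ) (w0 : X k), H1.NodeT k b m a ∧ F = {cyc (H1.tX b m a w0 0)} ∧ g = gad20 (H1.tX b m a w0)

theorem TyT.hF (h : TyT F g) : ∀ w, w ∈ g.F ↔ cyc w ∈ F := by
  obtain ⟨b, m, a, w0, h1, rfl, rfl⟩ := h
  intro w
  change TT.SameCycle _ _ ↔ cyc w = _
  rw [← cyc_eq]
  exact ⟨fun e => e.symm, fun e => e.symm⟩

theorem TyT.new (h : TyT F g) : ∀ c ∈ F, ∃ u ∈ g.B, cyc u = c := by
  obtain ⟨b, m, a, w0, h1, rfl, rfl⟩ := h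
  rintro c rfl
  exact ⟨_, mem_gad20.2 ⟨0, by norm_num, rfl⟩, rfl⟩

theorem TyT.old (h : TyT F g) : ∃ u ∈ g.B, cyc u ∉ F := by
  obtain ⟨b, m, a, w0, h1, rfl, rfl⟩ := h
  refine ⟨_, mem_gad20.2 ⟨1, by norm_num, rfl⟩, ?_⟩
  intro e
  have h2 := h1.rank w0 1 (by norm_num) (by norm_num) (by norm_num)
  have h3 : cyc (H1.tX b m a w0 1) = cyc (H1.tX b m a w0 0) := e
  exact h2.ne (congrArg contc h3)

theorem TyT.abs (h : TyT F g) : g.Abs := by
  obtain ⟨b, m, a, w0, h1, rfl, rfl⟩ := h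
  exact h1.abs w0

/-- rank of a window: every old word is `Lower` than the new T-cycle -/
theorem TyT.rank (h : TyT F g) : ∀ w ∈ g.B, cyc w ∈ F ∨ ∀ c ∈ F, H1.Lower (contc (cyc w)) (contc c) := by
  obtain ⟨b, m, a, w0, h1, rfl, rfl⟩ := h
  intro w hw
  obtain ⟨i, hi, rfl⟩ := mem_gad20.1 hw
  by_cases h0 : i = 0
  · left; rw [h0]; rfl
  · by_cases h10 : i = 10
    · left
      rw [h10]
      have := h1.link w0 (i := 0) (j := 10) (by simp)
      rw [← this]
      change cyc (TT (TT _)) = cyc _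
      exact cyc_eq.2 ⟨-2, by simp [zpow_neg, pow_succ]⟩
    · right
      rintro c rfl
      exact h1.rank w0 i hi h0 h10

theorem TyT.path (h : TyT F g) : ∀ a ∈ g.arcs, ∃ n : ℕ, (TT ^ (n + 1)) a.1 = a.2 ∧ a.1 ∈ g.B ∧
    ∀ i < n, (TT ^ (i + 1)) a.1 ∈ innA a := by
  obtain ⟨b, m, a, w0, h1, rfl, rfl⟩ := h
  intro p hp
  have key : ∀ i j, (i, j) ∈ [(0, 10), (1, 11), (3, 12), (6, 15), (8, 14), (9, 17)] → i < 20 →
      p = (H1.tX b m a w0 i, H1.tX b m a w0 j) →
      ∃ n : ℕ, (TT ^ (n + 1)) p.1 = p.2 ∧ p.1 ∈ (gad20 (H1.tX b m a w0)).B ∧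
        ∀ i < n, (TT ^ (i + 1)) p.1 ∈ innA p := by
    rintro i j hij hi rfl
    refine ⟨1, ?_, mem_gad20.2 ⟨i, hi, rfl⟩, ?_⟩
    · rw [pow_succ, pow_one, Perm.mul_apply]
      exact h1.link w0 hij
    · intro n hn
      obtain rfl : n = 0 := by omega
      rw [pow_one]
      rfl
  have hp' : p = (H1.tX b m a w0 0, H1.tX b m a w0 10) ∨
      p = (H1.tX b m a w0 1, H1.tX b m a w0 11) ∨
      p = (H1.tX b m a w0 3, H1.tX b m a w0 12) ∨
      p = (H1.tX b m a w0 6, H1.tX b m a w0 15) ∨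
      p = (H1.tX b m a w0 8, H1.tX b m a w0 14) ∨
      p = (H1.tX b m a w0 9, H1.tX b m a w0 17) := hp
  rcases hp' with e | e | e | e | e | e
  · exact key 0 10 (by simp) (by norm_num) e
  · exact key 1 11 (by simp) (by norm_num) e
  · exact key 3 12 (by simp) (by norm_num) e
  · exact key 6 15 (by simp) (by norm_num) e
  · exact key 8 14 (by simp) (by norm_num) e
  · exact key 9 17 (by simp) (by norm_num) e

/-- the words of a window of height 3 -/
theorem TyT.word (h : TyT F g) {w : X k} (hw : w ∈ g.B) : ∃ b m a i : ℕ, H1.NodeT k b m a ∧ i < 20 ∧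
    w.1 = H1.w3 b m a i := by
  obtain ⟨b, m, a, w0, h1, rfl, rfl⟩ := h
  obtain ⟨i, hi, rfl⟩ := mem_gad20.1 hw
  exact ⟨b, m, a, i, h1, hi, h1.word w0 hi⟩

/-- **T against T** -/
theorem dj_TT : Dj (k := k) TyT TyT := by
  intro F g F' g' h h' hd w hw hw'
  obtain ⟨b, m, a, w0, h1, rfl, rfl⟩ := h
  obtain ⟨b', m', a', w0', h1', rfl, rfl⟩ := h'
  obtain ⟨i, hi, rfl⟩ := mem_gad20.1 hw
  obtain ⟨j, hj, e⟩ := mem_gad20.1 hw'
  obtain ⟨_, e1, e2, e3⟩ := h1'.disj h1 w0' w0 hj hi e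
  subst e1 e2 e3
  apply hd _ rfl
  have e4 : H1.tX b' m' a' w0 0 = H1.tX b' m' a' w0' 0 := by
    apply Subtype.ext
    rw [h1.word w0 (by norm_num), h1'.word w0' (by norm_num)]
  exact congrArg cyc e4

namespace H1

theorem t3_lastI {s : BinaryTree Unit} (h : hv s) (h0 : s ≠ .nil) : gd (lastI s) := by
  induction s with
  | nil => exact absurd rfl h0
  | node u A X _ ih =>
    cases X with
    | nil => exact h.1
    | node _ C D =>
      change gd (lastI (A △ (C △ D)))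
      rw [lastI_cons (by simp)]
      exact ih h.2 (by simp)

/-- the words of the windows of height 3 against the words of the general windows -/
theorem w3_ne_G {q : ℕ} {B1 H s B : BinaryTree Unit} {b m a : ℕ} (h : NodeT k b m a)
    (h' : NodeG k q B1 H s B) {i j : ℕ} (hi : i < 20) (hj : j < 20) :
    w3 b m a i ≠ W (gR B1 H s B) (ch (q + 1)) B (Tsq.sq (gR B1 H s B)).1 j := by
  intro e
  have hadm := h'.adm
  have amR : am (gR B1 H s B) = true := by
    obtain ⟨C1, P, _, h2, _, e1⟩ := hadm.hR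
    rw [e1]
    exact am_mid (mk_of_PB h2)
  have amS : am (Tsq.sq (gR B1 H s B)).1 = true := by
    obtain ⟨C1, G, Y, β, _, h2, _, e1⟩ := hadm.hS
    rw [e1, am_node, mk_of_am (am_mid (mk_of_PB h2))]
    rfl
  have amj : am (W (gR B1 H s B) (ch (q + 1)) B (Tsq.sq (gR B1 H s B)).1 j) = true := by
    rcases lt_or_ge j 10 with h1 | h1
    · exact am_W_lo amR j h1
    · exact am_W_hi amS j h1 hj
  have idj : idx (W (gR B1 H s B) (ch (q + 1)) B (Tsq.sq (gR B1 H s B)).1 j) = j := by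
    rcases lt_or_ge j 10 with h1 | h1
    · exact idx_lo hadm j h1
    · exact idx_hi hadm j h1 hj
  rcases lt_or_ge i 10 with h1 | h1
  · have hij : i = j := by rw [← idx3_lo h.pos i h1, e, idj]
    subst hij
    have e1 := e
    unfold w3 at e1
    rw [W_lo _ _ _ _ ((((.nil △ .nil) △ L3 m a) △ .nil) △ .nil) i h1] at e1
    obtain ⟨_, _, h5, _⟩ := W_disj (q := 0) (q' := q) (adm3 h.pos) hadm hi hj e1
    have h6 := congrArg OddHC.ht (h5 h1)
    rw [ht_R3, h'.ht] at h6
    have := h'.hs3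
    omega
  · by_cases h14 : i = 14
    · subst h14
      have hj0 : j = 0 := by rw [← idj, ← e, idx3_14 h.pos]
      subst hj0
      have mP : mk (app H s) = true := mk_of_PB (bl_PB h'.light h'.H0 h'.s0 (hv_last h'.hs))
      have e1 : W (gR B1 H s B) (ch (q + 1)) B (Tsq.sq (gR B1 H s B)).1 0 =
          app B1 (app H s △ app B ((ch (q + 1) △ .nil) △ .nil)) := by
        change app (app B1 (app H s △ B)) ((ch (q + 1) △ .nil) △ .nil) = _
        rw [app_assoc]
        rfl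
      have e2 := congrArg split e
      rw [split3_14 h.pos, e1, split_app (hv_am h'.h1) mP] at e2
      simp only [Prod.mk.injEq] at e2
      have e3 := congrArg lastI e2.2.1
      have hL : L3 m a ≠ .nil := L3_ne h.pos
      have hS : S3 m a ≠ .nil := by unfold S3; simp
      have lS : lastI (S3 m a) = .nil △ .nil := by
        unfold S3
        rw [lastI_cons hL, lastI_L3 h.pos]
      rw [lastI_cons (by simp), lastI_cons hS, lS, lastI_app h'.s0] at e3
      have g1 := t3_lastI h'.hs h'.s0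
      rw [← e3] at g1
      have := gd_light g1
      simp [light, isNil] at this
    · have := am3_hi (b := b) (m := m) h.pos i h1 hi h14
      rw [e, amj] at this
      simp at this

end H1

/-- **T against A** -/
theorem dj_TA' (h : TyT F g) (h' : TyA F' g') : ∀ w ∈ g.B, w ∉ g'.B := by
  intro w hw hw'
  obtain ⟨b, m, a, i, h1, hi, e1⟩ := h.word hw
  obtain ⟨q, B1, H, s, B, w0, h2, rfl, rfl⟩ := h'
  obtain ⟨j, hj, rfl⟩ := mem_gad20.1 hw'
  rw [h2.word w0 hj] at e1
  exact H1.w3_ne_G h1 h2 hi hj e1.symm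

theorem dj_TA : Dj (k := k) TyT TyA := fun _ _ _ _ h h' _ => dj_TA' h h'

end Pool.OddHC
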