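import Pool.Agent.Work.MP_8f87b2_h62.W3c
import Pool.Agent.Work.MP_8f87b2_h71ae.AE
import Pool.Agent.Work.MP_8f87b2_mid.FirstMax
import Pool.Agent.Work.MP_8f87b2_mid.DisC

/-!
MP_8f87b2_co, height 3: the windows of height 3 against the plain types E and L; the inner words.
-/

set_option autoImplicit false

namespace Pool.OddHC

open BinaryTree Equiv

namespace H1

variable {k b m a : ℕ}

/-! ### E -/

theorem lastB_R3 {b m a : ℕ} : lastB (R3 b m a) = false := by
  unfold R3
  cases b with
  | zero => rfl
  | succ b =>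
    rw [lastB_cons (by rw [th]; simp)]
    exact hv_last (hv_th _)

theorem lastB_S3 {m a : ℕ} (h : 1 ≤ a) : lastB (S3 m a) = false := by
  unfold S3
  rw [lastB_cons (L3_ne h), lastB_L3 h]

theorem wd3 (h : 1 ≤ a) : Wd (R3 b m a) (th b .nil) (S3 m a) := by
  refine ⟨by unfold R3; simp, rfl, lastB_R3, hv_fb (hv_th b), hv_last (hv_th b), by unfold S3; simp, rfl,
    lastB_S3 h⟩

theorem fh_R3 : fh (R3 b m a) = 2 := by
  unfold R3
  have h1 := ht_L3 m a
  have h3 : OddHC.ht ((.nil : BinaryTree Unit) △ .nil) = 1 := rfl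
  rw [fh_node (by simp), OddHC.ht_node, h3]
  omega

theorem fh_S3 : fh (S3 m a) = 2 := by
  unfold S3
  rw [fh_node (by simp)]
  rfl

theorem count2_R3 : (cont (R3 b m a)).count 2 = a := by
  rw [cont_R3]
  simp [Multiset.count_add, Multiset.count_replicate]

theorem count2_S3 : (cont (S3 m a)).count 2 = a := by
  have e : S3 m a = ((.nil △ .nil) △ .nil) △ L3 m a := rfl
  have e2 : raise (cont (((.nil : BinaryTree Unit) △ .nil) △ .nil)) = {3} := rfl
  rw [e, cont_node, cont_L3, e2]
  simp [Multiset.count_add, Multiset.count_replicate]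

theorem ht_S3 : OddHC.ht (S3 m a) = 3 := by
  have h1 := ht_L3 m a
  have h3 : OddHC.ht (((.nil : BinaryTree Unit) △ .nil) △ .nil) = 2 := rfl
  unfold S3
  rw [OddHC.ht_node, h3]
  omega

/-- **T against E**: the words -/
theorem ae3 (h0 : 1 ≤ a) {r : BinaryTree Unit} {e : List ℕ} (he : e.length = 2 * r.numNodes + 1)
    (hL : Low r) {i : ℕ} (hi : i < 20)
    (hw : w3 b m a i = ins r e △ .nil ∨ w3 b m a i = app (ins r e) (.nil △ .nil) ∨
      w3 b m a i = .nil △ ins r e) : False := by
  obtain ⟨l1, -⟩ := low_fh he hL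
  have h := wd3 (b := b) (m := m) h0
  have hs := ae_shape (q := 0) h hi hw
  generalize ins r e = X at l1 hs
  have kR := fh_R3 (b := b) (m := m) (a := a)
  have kS := fh_S3 (m := m) (a := a)
  have htR := ht_R3 b m a
  have htS := ht_S3 (m := m) (a := a)
  have c1 := count2_R3 (b := b) (m := m) (a := a)
  have c2 := count2_S3 (m := m) (a := a)
  have sR : (cont (R3 b m a)).sup = OddHC.ht (R3 b m a) := (OddHC.ht_eq _).symm
  have sS : (cont (S3 m a)).sup = OddHC.ht (S3 m a) := (OddHC.ht_eq _).symm
  generalize R3 b m a = R at *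
  generalize S3 m a = S at *
  generalize th b .nil = B at *
  rcases hs with ⟨rfl, h1⟩ | ⟨h0, rfl, h1⟩ | ⟨-, h1⟩
  · -- `X = R()Q`
    have := l1 (by rw [cont_app, Multiset.count_add]; omega)
    rw [fh_app (by omega)] at this
    omega
  · -- `X = Q()S`
    have h2 := l1 (by
      rw [cont_app, cont_node, Multiset.count_add, Multiset.count_add]
      omega)
    change fh (.nil △ (.nil △ S)) = 1 at h2
    rw [fh_leaf, fh_leaf] at h2
    omega
  · rcases h1 with ⟨-, rfl⟩ | ⟨-, rfl⟩ | ⟨-, rfl⟩ | ⟨-, rfl⟩ | ⟨-, rfl⟩ | ⟨-, rfl⟩ | ⟨-, rfl⟩ | ⟨-, rfl⟩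
    · have h2 := l1 (by
        rw [cont_node, cont_app, Multiset.count_add, Multiset.count_add]
        omega)
      rw [fh_leaf, fh_app (by omega)] at h2
      omega
    · have h2 := l1 (by
        rw [cont_node, cont_node, cont_nil, raise_zero, add_zero, count_two_raise, Multiset.count_add]
        · omega
        · rw [sup_add', sR]; omega)
      rw [fh_node (by simp), OddHC.ht_node] at h2
      omega
    · have h2 := l1 (by
        rw [cont_node, cont_node, cont_nil, raise_zero, add_zero, Multiset.count_add,
          count_two_raise (by rw [sR]; omega)]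
        omega)
      rw [fh_leaf, fh_node h.R0] at h2
      omega
    · have h2 := l1 (by
        rw [cont_node, cont_node, cont_nil, add_zero, add_zero,
          count_two_raise (by rw [sup_raise, sR]; omega), count_two_raise (by rw [sR]; omega)]
        omega)
      rw [fh_node (by simp), OddHC.ht_node] at h2
      omega
    · have h2 := l1 (by
        rw [cont_node, Multiset.count_add, count_two_raise (by rw [sS]; omega)]
        omega)
      rw [fh_node h.S0] at h2
      omega
    · have h2 := l1 (by
        rw [cont_node, cont_node, cont_nil, add_zero, count_two_raise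
          (by rw [sup_add', sup_raise, sS]; omega), Multiset.count_add,
          count_two_raise (by rw [sS]; omega)]
        omega)
      rw [fh_node (by simp), OddHC.ht_node] at h2
      omega
    · have h2 := l1 (by
        rw [cont_node, cont_app, Multiset.count_add, Multiset.count_add]
        omega)
      rw [fh_leaf, fh_app (by omega)] at h2
      omega
    · have h2 := l1 (by
        rw [cont_node, cont_nil, add_zero, count_two_raise (by rw [cont_app, sup_add', sS]; omega),
          cont_app, Multiset.count_add]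
        omega)
      rw [fh_node (app_ne' h.S0), ht_app] at h2
      omega

end H1

variable {k : ℕ} {F F' : Set (Cyc k)} {g g' : DG k}

/-- **T against E** -/
theorem dj_TE' (h : TyT F g) (h' : TyE F' g') : ∀ w ∈ g.B, w ∉ g'.B := by
  intro w hw hw'
  obtain ⟨b, m, a, i, h1, hi, e1⟩ := h.word hw
  obtain ⟨X, hX, ht, r, f, hf, rfl, hL⟩ := h'.data
  apply H1.ae3 h1.pos hf hL hi (b := b) (m := m)
  rcases ht.words w hw' with e | ⟨_, e | e⟩
  · exact Or.inl (e1.symm.trans e)
  · exact Or.inr (Or.inl (e1.symm.trans e))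
  · exact Or.inr (Or.inr (e1.symm.trans e))

theorem dj_TE : Dj (k := k) TyT TyE := fun _ _ _ _ h h' _ => dj_TE' h h'

end Pool.OddHC
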