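import Pool.Agent.Work.MP_8f87b2_top.OneOrb
import Pool.Agent.Work.MP_8f87b2_h22.B6

/-!
# MP_8f87b2_co, height 3: the words over `()^t`

`hhX t = ()^t`. After `2 t + 1` steps of `T` every word `u` over `()^t` is back and the star has moved by ONE letter
(`full_turn`), so the T-cycle of `ins u b` depends on `F` (`u = ins (()^t) F`) and on `b` only up to rotation (`same_all`).
-/

set_option autoImplicit false

namespace Pool.OddHC

namespace HT

open Finset BinaryTree

variable {t j k : ℕ}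

theorem pkn_lv (t : ℕ) : pkn (lv t .nil) = t := by
  induction t with
  | zero => rfl
  | succ t ih =>
    change leaf .nil + pkn .nil + pkn (lv t .nil) = t + 1
    rw [ih]
    change 1 + 0 + t = t + 1
    omega

theorem num_hh (t : ℕ) : (lv t .nil).numNodes = t := by
  rw [lv_num]; rfl

/-- `()^t` -/
def hhX (t : ℕ) : X t := ⟨lv t .nil, mem_treesOfNumNodesEq.2 (num_hh t)⟩

theorem map_ud (n : ℕ) : (ud n).map not ++ [false] = false :: ud n := by
  induction n with
  | zero => rfl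
  | succ n ih =>
    change false :: true :: ((ud n).map not ++ [false]) = false :: true :: false :: ud n
    rw [ih]

theorem wd_hh (n : ℕ) : wd (lv n .nil) = ud n := by
  rw [wd_lv]
  change ud n ++ [] = ud n
  rw [List.append_nil]

theorem T_hh (ht : 1 ≤ t) : TT (hhX t) = hhX t ∧ Vo (hhX t) = ((1 : ℕ) : ZMod (2 * t + 1)) := by
  obtain ⟨p, rfl⟩ : ∃ p, t = p + 1 := ⟨t - 1, by omega⟩
  have h := TF_step (t := hhX (p + 1)) (u := hhX (p + 1)) [] (false :: ud p) ?_ ?_
  · rw [TT_apply]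
    exact h
  · change wd (lv (p + 1) .nil) = _
    rw [wd_hh]
    rfl
  · change wd (lv (p + 1) .nil) = _
    rw [wd_hh]
    change true :: false :: ud p = true :: (ud p).map not ++ [false]
    rw [List.cons_append, map_ud]

theorem pow_hh (ht : 1 ≤ t) (i : ℕ) : sp (hhX t) i = (i : ZMod (2 * t + 1)) ∧
    (TT ^ i) (hhX t) = hhX t := by
  have h2 : ∀ i : ℕ, (TT ^ i) (hhX t) = hhX t := by
    intro i
    induction i with
    | zero => rfl
    | succ i ih => rw [pow_succ, Equiv.Perm.mul_apply, (T_hh ht).1, ih]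
  refine ⟨?_, h2 i⟩
  induction i with
  | zero => rw [sp_zero, Nat.cast_zero]
  | succ i ih =>
    rw [sp_succ, ih, h2, (T_hh ht).2]
    push_cast
    ring

theorem pkn_hh (t : ℕ) : pkn (hhX t).1 = t := pkn_lv t

/-- the displacement -/
theorem Vo_phi (ht : 1 ≤ t) (F : ZMod (2 * t + 1) → ℕ) (hk : t + pkn (hhX t).1 + ∑ x, F x = k) :
    Vo (phi (hhX t) F hk) = ((2 * F 0 + 2 : ℕ) : ZMod (2 * k + 1)) := by
  have h := (TF_ins (hhX t) (lf F) (lf_length _) (phi (hhX t) F hk) rfl).2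
  rw [h]
  have hv : (Vo (hhX t)).val = 1 := by
    rw [(T_hh ht).2, ZMod.val_natCast_of_lt (by omega)]
  rw [hv]
  obtain ⟨p, rfl⟩ : ∃ p, t = p + 1 := ⟨t - 1, by omega⟩
  have e1 : (sl (hhX (p + 1)).1).take (1 + 1) = [false, true] := by
    change (false :: wd (lv (p + 1) .nil)).take 2 = _
    rw [wd_hh]
    rfl
  have e2 : dsc true ([false, true] : List Bool) = 0 := by decide
  rw [e1, e2, Ring1.take_lf_sum F (by omega), sum_range_one]
  congr 1
  simp only [Nat.cast_zero]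
  ring

theorem sum_range_all {L : ℕ} [NeZero L] (F : ZMod L → ℕ) : ∑ i ∈ range L, F ((i : ℕ) : ZMod L) = ∑ x, F x := by
  have h := lf_sum F
  rw [← h]
  rfl

/-- ONE FULL TURN over `()^t` -/
theorem full_turn (ht : 1 ≤ t) (F : ZMod (2 * t + 1) → ℕ)
    (hk : t + pkn (hhX t).1 + ∑ x, F x = k) :
    (TT ^ (2 * t + 1)) (phi (hhX t) F hk) = phi (hhX t) F hk ∧
      sp (phi (hhX t) F hk) (2 * t + 1) = 1 := by
  have hL : ((2 * t + 1 : ℕ) : ZMod (2 * t + 1)) = 0 := ZMod.natCast_self _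
  have hstep : ∀ i : ℕ, ∃ hk' : t + pkn (hhX t).1 +
      ∑ x : ZMod (2 * t + 1), F (x + (i : ZMod (2 * t + 1))) = k,
      (TT ^ i) (phi (hhX t) F hk) = phi (hhX t) (fun x => F (x + (i : ZMod (2 * t + 1)))) hk' := by
    intro i
    refine ⟨by rw [sum_shift]; exact hk, ?_⟩
    rw [pow_phi]
    apply phi_congr (pow_hh ht i).2
    funext x
    rw [(pow_hh ht i).1]
  constructor
  · obtain ⟨hk', h1⟩ := hstep (2 * t + 1)
    rw [h1]
    apply phi_congr rfl
    funext x
    rw [hL, add_zero]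
  · rw [sp_sum]
    have h2 : ∀ i ∈ range (2 * t + 1), Vo ((TT ^ i) (phi (hhX t) F hk)) =
        ((2 * F ((i : ℕ) : ZMod (2 * t + 1)) + 2 : ℕ) : ZMod (2 * k + 1)) := by
      intro i _
      obtain ⟨hk', h1⟩ := hstep i
      rw [h1, Vo_phi ht, zero_add]
    rw [sum_congr rfl h2, ← Nat.cast_sum]
    have h3 : ∑ i ∈ range (2 * t + 1), (2 * F ((i : ℕ) : ZMod (2 * t + 1)) + 2) =
        (2 * k + 1) + 1 := by
      rw [sum_add_distrib, ← mul_sum, sum_range_all, sum_const, card_range, smul_eq_mul, ← hk, pkn_hh]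
      ring
    rw [h3, Nat.cast_add, ZMod.natCast_self, zero_add, Nat.cast_one]

/-- the full turn moves the beads of the second level by one gap -/
theorem turn_phi (ht : 1 ≤ t) (F : ZMod (2 * t + 1) → ℕ)
    (hj : t + pkn (hhX t).1 + ∑ x, F x = j) (b : ZMod (2 * j + 1) → ℕ)
    (h : j + pkn (phi (hhX t) F hj).1 + ∑ x, b x = k) :
    (TT ^ (2 * t + 1)) (phi (phi (hhX t) F hj) b h) =
      phi (phi (hhX t) F hj) (fun x => b (x + 1)) (by rw [sum_shift]; exact h) := by
  rw [pow_phi]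
  obtain ⟨h1, h2⟩ := full_turn ht F hj
  apply phi_congr h1
  funext x
  rw [h2]

/-- rotation of the beads of the second level -/
theorem same_rot (ht : 1 ≤ t) (F : ZMod (2 * t + 1) → ℕ)
    (hj : t + pkn (hhX t).1 + ∑ x, F x = j) (b : ZMod (2 * j + 1) → ℕ)
    (h : j + pkn (phi (hhX t) F hj).1 + ∑ x, b x = k) (c : ZMod (2 * j + 1)) :
    (TT : Equiv.Perm (X k)).SameCycle (phi (phi (hhX t) F hj) b h)
      (phi (phi (hhX t) F hj) (fun x => b (x + c)) (by rw [sum_shift]; exact h)) := by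
  obtain ⟨i, rfl⟩ : ∃ i : ℕ, (i : ZMod (2 * j + 1)) = c := ⟨c.val, ZMod.natCast_zmod_val c⟩
  induction i with
  | zero =>
    have e : phi (phi (hhX t) F hj) (fun x => b (x + ((0 : ℕ) : ZMod (2 * j + 1))))
        (by rw [sum_shift]; exact h) = phi (phi (hhX t) F hj) b h :=
      phi_congr rfl (by funext x; rw [Nat.cast_zero, add_zero]) _ _
    rw [e]
  | succ i ih =>
    refine ih.trans ⟨((2 * t + 1 : ℕ) : ℤ), ?_⟩
    rw [zpow_natCast, turn_phi ht]
    apply phi_congr rfl
    funext x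
    rw [Nat.cast_succ, add_assoc, add_comm (1 : ZMod (2 * j + 1))]

/-- rotation of both levels -/
theorem same_all (ht : 1 ≤ t) (F F' : ZMod (2 * t + 1) → ℕ) (s : ZMod (2 * t + 1))
    (hF : F' = fun x => F (x + s))
    (hj : t + pkn (hhX t).1 + ∑ x, F x = j) (hj' : t + pkn (hhX t).1 + ∑ x, F' x = j)
    (b b' : ZMod (2 * j + 1) → ℕ) (c : ZMod (2 * j + 1)) (hb : b' = fun x => b (x + c))
    (h : j + pkn (phi (hhX t) F hj).1 + ∑ x, b x = k)
    (h' : j + pkn (phi (hhX t) F' hj').1 + ∑ x, b' x = k) :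
    (TT : Equiv.Perm (X k)).SameCycle (phi (phi (hhX t) F hj) b h)
      (phi (phi (hhX t) F' hj') b' h') := by
  have hs : ((s.val : ℕ) : ZMod (2 * t + 1)) = s := ZMod.natCast_zmod_val s
  have h1 : (TT : Equiv.Perm (X k)).SameCycle (phi (phi (hhX t) F hj) b h)
      ((TT ^ s.val) (phi (phi (hhX t) F hj) b h)) := ⟨(s.val : ℤ), by rw [zpow_natCast]⟩
  refine h1.trans ?_
  rw [pow_phi]
  have h2 : (TT ^ s.val) (phi (hhX t) F hj) = phi (hhX t) F' hj' := by
    rw [pow_phi]
    apply phi_congr (pow_hh ht s.val).2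
    rw [hF]
    funext x
    rw [(pow_hh ht s.val).1, hs]
  have h3 : j + pkn (phi (hhX t) F' hj').1 +
      ∑ x, b (x + sp (phi (hhX t) F hj) s.val) = k := by
    rw [sum_shift, ← h2, pkn_pow]
    exact h
  have h4 : phi ((TT ^ s.val) (phi (hhX t) F hj)) (fun x => b (x + sp (phi (hhX t) F hj) s.val))
      (by rw [pkn_pow, sum_shift]; exact h) =
      phi (phi (hhX t) F' hj') (fun x => b (x + sp (phi (hhX t) F hj) s.val)) h3 :=
    phi_congr h2 rfl _ _
  rw [h4]
  have h5 := same_rot ht F' hj' (fun x => b (x + sp (phi (hhX t) F hj) s.val)) h3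
    (c - sp (phi (hhX t) F hj) s.val)
  have h6 : phi (phi (hhX t) F' hj')
      (fun x => b (x + (c - sp (phi (hhX t) F hj) s.val) + sp (phi (hhX t) F hj) s.val))
      (by
        have e := sum_shift (fun x => b (x + sp (phi (hhX t) F hj) s.val)) (c - sp (phi (hhX t) F hj) s.val)
        rw [e]
        exact h3) = phi (phi (hhX t) F' hj') b' h' := by
    apply phi_congr rfl
    rw [hb]
    funext x
    congr 1
    ring
  rw [← h6]
  exact h5

end HT

end Pool.OddHC
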