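import Pool.Agent.Work.MP_8f87b2_h62.Merge

/-!
MP_8f87b2_co, theorem (c2) of helper18: from the undirected form of Lemma F (Fink) to `FinkyOn`.
-/

namespace Pool.OddHC

open Finset Equiv

variable {W : Type*} [Fintype W] [DecidableEq W]

/-- undirected form of Lemma F on a vertex set `V` with parity `p` and edges `E`: every parity changing involution `N` has
a perfect matching `M` along edges such that `M` and `N` together are connected -/
def UFink {V : Type*} (p : V → Bool) (E : V → V → Prop) : Prop :=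
  ∀ N : V → V, (∀ v, N (N v) = v) → (∀ v, p (N v) = !p v) →
    ∃ M : V → V, (∀ v, M (M v) = v) ∧ (∀ v, p (M v) = !p v) ∧ (∀ v, E v (M v)) ∧
      ∀ u v, Relation.EqvGen (fun x y => y = M x ∨ y = N x) u v

omit [Fintype W] in
theorem finky_of_ufink {V : Type*} (p : V → Bool) (E : V → V → Prop) (hV : UFink p E)
    (A B : Finset W) (eA : {x // x ∈ A} ≃ {v : V // p v = false}) (eB : {x // x ∈ B} ≃ {v : V // p v = true})
    (Q : W → W → Prop) (hQ : ∀ x y, E (eA x).1 (eB y).1 → Q x.1 y.1) : FinkyOn A B Q := by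
  classical
  intro ψ
  let Ψ : {v : V // p v = true} ≃ {v : V // p v = false} := (eB.symm.trans ψ).trans eA
  let N : V → V := fun v => if h : p v = true then (Ψ ⟨v, h⟩).1 else (Ψ.symm ⟨v, by simpa using h⟩).1
  have hNt : ∀ v (h : p v = true), N v = (Ψ ⟨v, h⟩).1 := by
    intro v h
    simp only [N, dif_pos h]
  have hNf : ∀ v (h : p v = false), N v = (Ψ.symm ⟨v, h⟩).1 := by
    intro v h
    have h' : ¬ p v = true := by rw [h]; simp
    simp only [N, dif_neg h']
  have hNp : ∀ v, p (N v) = !p v := by
    intro v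
    cases h : p v
    · rw [hNf v h, (Ψ.symm ⟨v, h⟩).2]; rfl
    · rw [hNt v h, (Ψ ⟨v, h⟩).2]; rfl
  have hNN : ∀ v, N (N v) = v := by
    intro v
    cases h : p v
    · have h1 : p (N v) = true := by rw [hNp, h]; rfl
      rw [hNt _ h1]
      have h2 : (⟨N v, h1⟩ : {v : V // p v = true}) = Ψ.symm ⟨v, h⟩ := Subtype.ext (hNf v h)
      rw [h2, Equiv.apply_symm_apply]
    · have h1 : p (N v) = false := by rw [hNp, h]; rfl
      rw [hNf _ h1]
      have h2 : (⟨N v, h1⟩ : {v : V // p v = false}) = Ψ ⟨v, h⟩ := Subtype.ext (hNt v h)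
      rw [h2, Equiv.symm_apply_apply]
  obtain ⟨M, hMM, hMp, hME, hcon⟩ := hV N hNN hNp
  -- `M` as a bijection even -> odd
  let Φ : {v : V // p v = false} ≃ {v : V // p v = true} :=
    { toFun := fun v => ⟨M v.1, by rw [hMp, v.2]; rfl⟩
      invFun := fun v => ⟨M v.1, by rw [hMp, v.2]; rfl⟩
      left_inv := fun v => Subtype.ext (hMM v.1)
      right_inv := fun v => Subtype.ext (hMM v.1) }
  let φ : {x // x ∈ A} ≃ {x // x ∈ B} := (eA.trans Φ).trans eB.symm
  refine ⟨φ, ?_, ?_⟩
  · intro x
    apply hQ
    have h1 : eB (φ x) = Φ (eA x) := by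
      show eB (eB.symm (Φ (eA x))) = _
      rw [Equiv.apply_symm_apply]
    rw [h1]
    exact hME _
  · -- the invariant: to every vertex the point of `A` of its block
    let g : V → {x // x ∈ A} := fun v =>
      if h : p v = false then eA.symm ⟨v, h⟩ else eA.symm ⟨N v, by rw [hNp]; simp at h; rw [h]; rfl⟩
    have hgf : ∀ v (h : p v = false), g v = eA.symm ⟨v, h⟩ := by
      intro v h
      simp only [g, dif_pos h]
    have hgt : ∀ v (h : p v = true) (h2 : p (N v) = false), g v = eA.symm ⟨N v, h2⟩ := by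
      intro v h h2
      have h' : ¬ p v = false := by rw [h]; simp
      simp only [g, dif_neg h']
    set τ : Perm {x // x ∈ A} := φ.trans ψ with hτ
    have hτe : ∀ (v : V) (h : p v = false) (h2 : p (N (M v)) = false), τ (eA.symm ⟨v, h⟩) = eA.symm ⟨N (M v), h2⟩ := by
      intro v h h2
      have hM : p (M v) = true := by rw [hMp, h]; rfl
      have h3 : φ (eA.symm ⟨v, h⟩) = eB.symm ⟨M v, hM⟩ := by
        show eB.symm (Φ (eA (eA.symm ⟨v, h⟩))) = _
        rw [Equiv.apply_symm_apply]
        rfl
      have h4 : τ (eA.symm ⟨v, h⟩) = ψ (eB.symm ⟨M v, hM⟩) := by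
        show ψ (φ (eA.symm ⟨v, h⟩)) = _
        rw [h3]
      have h5 : Ψ ⟨M v, hM⟩ = ⟨N (M v), h2⟩ := Subtype.ext (hNt _ hM).symm
      rw [h4, ← h5]
      show _ = eA.symm (eA (ψ (eB.symm ⟨M v, hM⟩)))
      rw [Equiv.symm_apply_apply]
    have hstep : ∀ u v : V, (v = M u ∨ v = N u) → τ.SameCycle (g u) (g v) := by
      rintro u v (rfl | rfl)
      · cases h : p u
        · have h1 : p (M u) = true := by rw [hMp, h]; rfl
          have h2 : p (N (M u)) = false := by rw [hNp, h1]; rfl
          rw [hgf u h, hgt (M u) h1 h2, ← hτe u h h2]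
          exact Perm.SameCycle.rfl.apply_right
        · have h1 : p (M u) = false := by rw [hMp, h]; rfl
          have h2 : p (N u) = false := by rw [hNp, h]; rfl
          have h3 : p (N (M (M u))) = false := by rw [hMM]; exact h2
          rw [hgf (M u) h1, hgt u h h2]
          have h4 := hτe (M u) h1 h3
          have h5 : (⟨N (M (M u)), h3⟩ : {v : V // p v = false}) = ⟨N u, h2⟩ := Subtype.ext (congrArg N (hMM u))
          rw [h5] at h4
          rw [← h4]
          exact Perm.SameCycle.rfl.apply_left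
      · cases h : p u
        · have h1 : p (N u) = true := by rw [hNp, h]; rfl
          have h2 : p (N (N u)) = false := by rw [hNN]; exact h
          rw [hgf u h, hgt (N u) h1 h2]
          have h5 : (⟨N (N u), h2⟩ : {v : V // p v = false}) = ⟨u, h⟩ := Subtype.ext (hNN u)
          rw [h5]
        · have h1 : p (N u) = false := by rw [hNp, h]; rfl
          rw [hgf (N u) h1, hgt u h h1]
    have hgen : ∀ u v : V, τ.SameCycle (g u) (g v) := by
      intro u v
      induction hcon u v with
      | rel x y hxy => exact hstep x y hxy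
      | refl x => exact Perm.SameCycle.rfl
      | symm x y _ ih => exact ih.symm
      | trans x y z _ _ ih1 ih2 => exact ih1.trans ih2
    intro x y
    have h1 := hgen (eA x).1 (eA y).1
    rw [hgf _ (eA x).2, hgf _ (eA y).2] at h1
    simpa using h1

end Pool.OddHC
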