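import Pool.Agent.Work.MP_8f87b2_h62.R6k
import Pool.Agent.Work.MP_8f87b2_h2.Phi
import Pool.Agent.Work.MP_8f87b2_h17.TyJ2P
import Pool.Agent.Work.MP_8f87b2_h6.OddP

/-!
# MP_8f87b2_co: existence of J2B and J2P over a hop of the second level

`EData.j2b`: over a hop pair `U, U'` (`m = 0`), at ANY phase `r`, the group J2B with `R = inf (ins r f)`, if (for `B = nil`) `1` is
not in the rotation group of `r`, resp. (for `B` not `nil`) `U`, `U'` are not fixed by `T`. `EData.j2p`: the group J2P over the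
phase `r0`, `T^2 r0 = r`, `B(r0) = nil`.
-/

set_option autoImplicit false

namespace Pool.OddHC

open Finset BinaryTree Multiset Pool.OddHop

variable {i j k : ℕ}

namespace J2Ex

/-- two squares over the same configuration on the same T-cycle: the letters are congruent modulo the rotations -/
theorem fiber {n : ℕ} [NeZero n] {H : AddSubgroup (ZMod n)} {f : ZMod n → ℕ} {t p q : ZMod n} (ht : t ∈ H)
    (h : ∀ z, f z + (if z = q then 1 else 0) = f (z + t) + (if z + t = p then 1 else 0)) : p - q ∈ H := by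
  classical
  by_contra hc
  have e1 : ∑ z, (if z - q ∈ H then f z + (if z = q then 1 else 0) else 0) =
      ∑ z, (if z - q ∈ H then f z else 0) + 1 := by
    have : ∀ z, (if z - q ∈ H then f z + (if z = q then 1 else 0) else 0) =
        (if z - q ∈ H then f z else 0) + (if z = q then 1 else 0) := by
      intro z
      by_cases h1 : z = q
      · subst h1
        simp [H.zero_mem]
      · simp [h1]
    simp only [this]
    rw [Finset.sum_add_distrib, Finset.sum_ite_eq' univ q (fun _ => 1), if_pos (mem_univ _)]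
  have e2 : ∑ z, (if z - q ∈ H then f (z + t) + (if z + t = p then 1 else 0) else 0) =
      ∑ z, (if z - q ∈ H then f z else 0) := by
    rw [← Equiv.sum_comp (Equiv.addRight t) (fun z => if z - q ∈ H then f z else 0)]
    apply Finset.sum_congr rfl
    intro z _
    have h1 : (z - q ∈ H) ↔ (Equiv.addRight t z - q ∈ H) := by
      change _ ↔ (z + t - q ∈ H)
      constructor
      · intro h2
        have := H.add_mem h2 ht
        rwa [show z + t - q = z - q + t by ring]
      · intro h2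
        have := H.sub_mem h2 ht
        rwa [show z - q = z + t - q - t by ring]
    by_cases h2 : z - q ∈ H
    · rw [if_pos h2, if_pos (h1.1 h2)]
      have h3 : z + t ≠ p := by
        rintro rfl
        apply hc
        exact h1.1 h2
      rw [if_neg h3, add_zero]
      rfl
    · rw [if_neg h2, if_neg (fun h4 => h2 (h1.2 h4))]
  have e3 : ∑ z, (if z - q ∈ H then f z + (if z = q then 1 else 0) else 0) =
      ∑ z, (if z - q ∈ H then f (z + t) + (if z + t = p then 1 else 0) else 0) := by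
    apply Finset.sum_congr rfl
    intro z _
    rw [h z]
  rw [e1, e2] at e3
  omega

theorem same_diff {v : X i} {x y : X j} {f : ZMod (2 * i + 1) → ℕ} {p q : ZMod (2 * i + 1)}
    (hx : x.1 = ins v.1 (lf (fun z => f z + if z = p then 1 else 0)))
    (hy : y.1 = ins v.1 (lf (fun z => f z + if z = q then 1 else 0))) (e : cyc x = cyc y) : p - q ∈ rotGrp v := by
  have h1 : x = phi v (fun z => f z + if z = p then 1 else 0) (word_phi hx) := Subtype.ext hx
  have h2 : y = phi v (fun z => f z + if z = q then 1 else 0) (word_phi hy) := Subtype.ext hy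
  rw [h1, h2, cyc_eq, same_iff] at e
  obtain ⟨n, e1, e2⟩ := e
  exact fiber (t := sp v n) ⟨n, e1, rfl⟩ fun z => congrFun e2 z

/-- `2` is in the group only if `1` is -/
theorem one_of_two {H : AddSubgroup (ZMod (2 * i + 1))} (h : (2 : ZMod (2 * i + 1)) ∈ H) :
    (1 : ZMod (2 * i + 1)) ∈ H := by
  have h1 := H.nsmul_mem h (i + 1)
  have e : (i + 1) • (2 : ZMod (2 * i + 1)) = 1 := by
    rw [nsmul_eq_mul]
    have h0 : ((2 * i + 1 : ℕ) : ZMod (2 * i + 1)) = 0 := ZMod.natCast_self _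
    push_cast at h0 ⊢
    linear_combination h0
  rwa [e] at h1

/-- the data of the words over a configuration `f` over `r` -/
structure WD (k : ℕ) (r : X i) (f : ZMod (2 * i + 1) → ℕ) (u : X j) (R B S : BinaryTree Unit) : Prop where
  hu : u.1 = ins r.1 (lf f)
  hR : R = inf u.1
  sqd : J3.SqD k R B S
  hr : r.1 ≠ .nil

variable {r : X i} {f : ZMod (2 * i + 1) → ℕ} {u : X j} {R B S : BinaryTree Unit}

theorem WD.mk' (h : WD k r f u R B S) (d : ZMod (2 * i + 1)) :
    ∃ x : X (j + 1), x.1 = ins r.1 (lf (fun z => f z + if z = d then 1 else 0)) := by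
  refine ⟨⟨_, mem_treesOfNumNodesEq.2 ?_⟩, rfl⟩
  have h1 := (ins_num r.1 (lf (fun z => f z + if z = d then 1 else 0)) (by rw [lf_length, X_num])).1
  have h2 := (ins_num r.1 (lf f) (by rw [lf_length, X_num])).1
  rw [← h.hu, X_num, X_num, lf_sum] at h2
  rw [lf_sum, X_num, Finset.sum_add_distrib, Finset.sum_ite_eq' univ d (fun _ => 1), if_pos (mem_univ _)] at h1
  omega

theorem WD.w0 (h : WD k r f u R B S) (w : X k) {x : X (j + 1)}
    (hx : x.1 = ins r.1 (lf (fun z => f z + if z = -1 then 1 else 0))) :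
    Rd (cyc (J3.sX R B S w 0)) = ⟨j + 1, cyc x⟩ ∧ (J3.sX R B S w 0).1 = inf x.1 := by
  have e : (J3.sX R B S w 0).1 = inf x.1 := by
    rw [h.sqd.word w (by norm_num), hx, ins_back, ← h.hu, inf_app_leaf, ← h.hR]
    rfl
  exact ⟨Rd_ins (lf_length _) (e.trans (J3Ex.inf_word x)), e⟩

theorem WD.w4 (h : WD k r f u R B S) (w : X k) {x : X (j + 1)}
    (hx : x.1 = ins r.1 (lf (fun z => f z + if z = 0 then 1 else 0))) :
    Rd (cyc (J3.sX R B S w 4)) = ⟨j + 1, cyc x⟩ := by
  refine Rd_ins (lf_length _) (Eq.trans ?_ (J3Ex.inf_word x))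
  rw [h.sqd.word w (by norm_num), hx, ins_front, ← h.hu, inf_node, ← h.hR]
  rfl

theorem WD.u0 (h : WD k r f u R B S) : u.1 ≠ .nil := by
  rw [h.hu]
  exact J2Phi.ins_ne h.hr _

theorem WD.spB (h : WD k r f u R B S) (hB : B = .nil) : sp r 2 = -1 ∧ ((TT ^ 2) u).1 = (Tsq.sq u.1).1 ∧
    S = inf (Tsq.sq u.1).1 := by
  have hsq := Sq2.sq_inf u.1
  rw [← h.hR, h.sqd.sq] at hsq
  obtain ⟨hS, hB'⟩ := Prod.mk.inj hsq
  have hBu : (Tsq.sq u.1).2 = .nil := by
    by_contra hc
    exact inf_ne_nil hc (hB'.symm.trans hB)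
  have hBv : (Tsq.sq r.1).2 = .nil := by
    by_contra hc
    refine J2Phi.sq_ins r.1 (lf f) (by rw [lf_length, X_num]) hc ?_
    rw [← h.hu]
    exact hBu
  refine ⟨?_, ?_, hS⟩
  · rw [Sq2.sp_two r h.hr, hBv]
    simp
  · have := Tsq.TT_sq u h.u0
    rw [hBu] at this
    rw [pow_two, Equiv.Perm.mul_apply, this]
    rfl

theorem WD.w13 (h : WD k r f u R B S) (hB : B = .nil) (w : X k) {x : X (j + 1)}
    (hx : x.1 = ins r.1 (lf (fun z => f z + if z = -2 then 1 else 0))) :
    Rd (cyc (J3.sX R B S w 13)) = ⟨j + 1, cyc x⟩ := by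
  obtain ⟨hsp, hSu, hS⟩ := h.spB hB
  have e1 : ((TT ^ 2) x).1 = app (Tsq.sq u.1).1 (.nil △ .nil) := by
    rw [word_pow hx, ← hSu, word_pow h.hu, ← ins_back]
    congr 2
    funext z
    rw [hsp]
    have g3 : (z + -1 = -2) ↔ z = -1 := by
      constructor
      · intro g
        linear_combination g
      · rintro rfl
        ring
    simp only [g3]
  have e2 : cyc ((TT ^ 2) x) = cyc x := (cyc_eq.2 ⟨2, rfl⟩).symm
  rw [← e2]
  refine Rd_ins (lf_length _) (Eq.trans ?_ (J3Ex.inf_word ((TT ^ 2) x)))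
  rw [h.sqd.word w (by norm_num), e1, inf_app_leaf, ← hS, hB]
  rfl

/-- `z` is not fixed by `T^2` -/
theorem WD.n10 (h : WD k r f u R B S) (h13 : B = .nil → (1 : ZMod (2 * i + 1)) ∉ rotGrp r)
    (hfix : B ≠ .nil → ∀ x : X (j + 1), x.1 = app u.1 (.nil △ .nil) → TT x ≠ x) (w : X k) :
    J3.sX R B S w 0 ≠ J3.sX R B S w 10 := by
  intro e
  have h1 := h.sqd.link w (i := 0) (j := 10) (by simp)
  rw [← e] at h1
  obtain ⟨x, hx⟩ := h.mk' (-1)
  obtain ⟨_, hw⟩ := h.w0 w hx
  have h2 : ((TT ^ 2) (J3.sX R B S w 0)) = J3.sX R B S w 0 := by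
    rw [pow_two, Equiv.Perm.mul_apply]
    exact h1
  have h3 : (TT ^ 2) x = x := by
    have h4 := congrArg Subtype.val h2
    rw [word_pow (hw.trans (J3Ex.inf_word x)), hw, J3Ex.inf_word] at h4
    exact Subtype.ext (ins_inj (by rw [lf_length, X_num]) (by rw [lf_length, X_num]) h4).1
  by_cases hB : B = .nil
  · have h5 : (TT ^ 2) r = r := by
      have h4 := congrArg Subtype.val h3
      rw [word_pow hx, hx] at h4
      exact Subtype.ext (ins_inj (by rw [lf_length, X_num]) (by rw [lf_length, X_num]) h4).1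
    apply h13 hB
    have h6 : (-1 : ZMod (2 * i + 1)) ∈ rotGrp r := ⟨2, h5, (h.spB hB).1⟩
    have := (rotGrp r).neg_mem h6
    rwa [neg_neg] at this
  · apply hfix hB x
    · rw [hx, ins_back, ← h.hu]
    · obtain ⟨P, ⟨m, hm⟩, hP⟩ := OddP.odd_period _ x
      have g : ∀ n : ℕ, TF^[2 * n] x = x := by
        intro n
        induction n with
        | zero => rfl
        | succ n ih =>
          rw [Nat.mul_succ, Function.iterate_add_apply]
          have h6 : TF^[2] x = x := by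
            change TF (TF x) = x
            rw [← TT_apply, ← TT_apply]
            rw [pow_two, Equiv.Perm.mul_apply] at h3
            exact h3
          rw [h6, ih]
      rw [hm, show 2 * m + 1 = 1 + 2 * m by ring, Function.iterate_add_apply, g m] at hP
      rw [TT_apply]
      exact hP

/-- the conditions of J2B -/
theorem WD.ok (h : WD k r f u R B S) (h13 : B = .nil → (1 : ZMod (2 * i + 1)) ∉ rotGrp r)
    (hfix : B ≠ .nil → ∀ x : X (j + 1), x.1 = app u.1 (.nil △ .nil) → TT x ≠ x) (w : X k)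
    (hne : cyc (J3.sX R B S w 4) ≠ cyc (J3.sX R B S w 0)) : J3.J2OK R B S w := by
  refine ⟨h.n10 h13 hfix w, hne, fun hB => ?_⟩
  obtain ⟨x0, hx0⟩ := h.mk' (-1)
  obtain ⟨x4, hx4⟩ := h.mk' 0
  obtain ⟨x13, hx13⟩ := h.mk' (-2)
  have r0 := (h.w0 w hx0).1
  have r4 := h.w4 w hx4
  have r13 := h.w13 hB w hx13
  constructor
  · intro e
    rw [e, r0] at r13
    have e1 : cyc x0 = cyc x13 := eq_of_heq (Sigma.mk.inj_iff.1 r13).2
    have h2 := same_diff hx0 hx13 e1
    apply h13 hB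
    rwa [show (-1 : ZMod (2 * i + 1)) - -2 = 1 by ring] at h2
  · intro e
    rw [e, r4] at r13
    have e1 : cyc x4 = cyc x13 := eq_of_heq (Sigma.mk.inj_iff.1 r13).2
    have h2 := same_diff hx4 hx13 e1
    apply h13 hB
    apply one_of_two
    rwa [show (0 : ZMod (2 * i + 1)) - -2 = 2 by ring] at h2

/-- the data from `sq` -/
theorem sqd_of {R B S : BinaryTree Unit} (hR : R = inf u.1) (hsq : Tsq.sq R = (S, B)) (h3 : 3 ≤ ht R)
    (two : ht R < R.numNodes) (hk : R.numNodes + 2 = k) : J3.SqD k R B S := by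
  refine ⟨hsq, h3, ?_, two, hk⟩
  rw [hR, cont_inf]
  apply Multiset.count_eq_zero_of_notMem
  intro g
  obtain ⟨z, hz, hz1⟩ := Multiset.mem_map.1 g
  have := cont_pos _ z hz
  omega

end J2Ex

open J2Ex

/-- **J2B** over a hop of the second level, at the phase `r` -/
theorem EData.j2b {U U₂ : Cyc j} {r : X i} {f : ZMod (2 * i + 1) → ℕ} (hE : EData U U₂ i r f)
    (hne : U ≠ U₂) (hk : j + pkc U = k) {R B S : BinaryTree Unit} (hR : R = inf (ins r.1 (lf f)))
    (hsq : Tsq.sq R = (S, B)) (h3 : 3 ≤ ht R) (two : ht R < R.numNodes)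
    (h13 : B = .nil → (1 : ZMod (2 * i + 1)) ∉ rotGrp r)
    (hfix : B ≠ .nil → ∀ x : X j, cyc x = U ∨ cyc x = U₂ → TT x ≠ x) :
    ∃ (p q : Cyc k) (g : DG k), Rd p = ⟨j, U⟩ ∧ Rd q = ⟨j, U₂⟩ ∧ J3.SqD k R B S ∧ TyJ2R R B S {p, q} g := by
  obtain ⟨p, q, w4, w0, hp, hq, hpq, -, hu, hu', hc⟩ := hE.jv_words hne hk
  obtain ⟨m, rfl⟩ : ∃ m, j = m + 1 := ⟨i + pkn r.1 + ∑ z, f z, by have := hE.size; omega⟩
  obtain ⟨u, hu0⟩ : ∃ u : X m, u.1 = ins r.1 (lf f) := by
    refine ⟨⟨_, mem_treesOfNumNodesEq.2 ?_⟩, rfl⟩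
    have h2 := (ins_num r.1 (lf f) (by rw [lf_length, X_num])).1
    rw [lf_sum, X_num] at h2
    have := hE.size
    omega
  have hn : R.numNodes + 2 = k := by
    have h2 := X_num w0
    rw [hu', ← hR, num_app] at h2
    change R.numNodes + 2 = k at h2
    exact h2
  have hR' : R = inf u.1 := by rw [hu0, hR]
  have hr : r.1 ≠ .nil := by
    intro h0
    have h2 := X_num r
    rw [h0] at h2
    have := hE.hj
    change 0 = i at h2
    omega
  have hW : WD k r f u R B S := ⟨hu0, hR', sqd_of hR' hsq h3 two hn, hr⟩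
  have e0 : J3.sX R B S w0 0 = w0 := Subtype.ext (by
    rw [hW.sqd.word w0 (by norm_num), hu', ← hR]
    rfl)
  have e4 : J3.sX R B S w0 4 = w4 := Subtype.ext (by
    rw [hW.sqd.word w0 (by norm_num), hu, ← hR]
    rfl)
  have hne' : cyc (J3.sX R B S w0 4) ≠ cyc (J3.sX R B S w0 0) := by
    rw [e0, e4]
    rcases hc with ⟨h1, h2⟩ | ⟨h1, h2⟩
    · rw [h1, h2]; exact hpq
    · rw [h1, h2]; exact hpq.symm
  have hx : ∀ x : X (m + 1), x.1 = app u.1 (.nil △ .nil) → cyc x = U ∨ cyc x = U₂ := by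
    intro x hx
    have hx' : x.1 = ins r.1 (lf (fun z => f z + if z = -1 then 1 else 0)) := by
      rw [hx, ins_back, ← hu0]
    have h1 := (hW.w0 w0 hx').1
    rw [e0] at h1
    rcases hc with ⟨-, h2⟩ | ⟨-, h2⟩
    · right
      rw [h2, hq] at h1
      exact (eq_of_heq (Sigma.mk.inj_iff.1 h1).2).symm
    · left
      rw [h2, hp] at h1
      exact (eq_of_heq (Sigma.mk.inj_iff.1 h1).2).symm
  have hok := hW.ok h13 (fun hB x h1 => hfix hB x (hx x h1)) w0 hne'
  refine ⟨p, q, _, hp, hq, hW.sqd, w0, hW.sqd, hok, ?_, rfl⟩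
  rw [e0, e4]
  rcases hc with ⟨h1, h2⟩ | ⟨h1, h2⟩
  · rw [h1, h2, Set.pair_comm]
  · rw [h1, h2]

end Pool.OddHC
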