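import Pool.Agent.Work.MP_8f87b2_h62.R6i
import Pool.Agent.Work.MP_8f87b2_h42.TopJ
import Pool.Agent.Work.MP_8f87b2_h59.J33

/-!
# MP_8f87b2_co, height 3: the group J3V over `V = ()^t`

`topJ33`: helper42's `TopJ` with the type `TyJ33Q` of helper59 (height 3, a square in `R`, `B` ends with `[3]`).
-/

set_option autoImplicit false

namespace Pool.OddHC

namespace HT

open Finset BinaryTree Multiset Pool.OddHop J3Ex

variable {t j k : ℕ} {τ : Type} {P : τ → Set (Cyc k) → DG k → Prop}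

theorem sq_hh (t : ℕ) : (Tsq.sq (lv (t + 1) .nil)).2 = lv t .nil := by
  change (Tsq.sq (.nil △ lv t .nil)).2 = _
  rw [Tsq.sq_nil]
  rw [H1.ht_eq, ht_eq, cont_lv, cont_nil, add_zero]
  apply Multiset.sup_le.2
  intro x hx
  rw [Multiset.eq_of_mem_replicate hx]

theorem inf2_hh (t : ℕ) : ∃ B0, inf (inf (lv (t + 1) .nil)) = app B0 (pc 3) := by
  have h : (lv (t + 1) .nil : BinaryTree Unit) = app (lv t .nil) (pc 1) := by
    induction t with
    | zero => rfl
    | succ t ih =>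
      change (BinaryTree.nil △ lv (t + 1) .nil : BinaryTree Unit) = .nil △ app (lv t .nil) (pc 1)
      rw [ih]
  exact ⟨inf (inf (lv t .nil)), by rw [h, inf_app, inf_pc (by norm_num), inf_app, inf_pc (by norm_num)]⟩

/-- **existence** -/
theorem j33_ex {a : ℕ} (ht : 2 ≤ t) (ha : 1 ≤ a) (hk : 3 * t + 2 * a + 2 = k) :
    ∃ (F : Set (Cyc k)) (g : DG k), TyJ33Q F g ∧ J3Pos k (cyc (hhX t)) a F := by
  obtain ⟨v, hv0⟩ : ∃ v : X t, v = hhX t := ⟨_, rfl⟩
  obtain ⟨V, hV⟩ : ∃ V : Cyc t, V = cyc (hhX t) := ⟨_, rfl⟩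
  rw [← hV]
  have hv : cyc v = V := by rw [hv0, hV]
  have hpV : pkc V = t := by
    unfold pkc
    rw [hV, contc_hh, Multiset.card_replicate]
  have hp : pkn v.1 = pkc V := by rw [← pkc_cyc, hv]
  have hcv : cont v.1 = Multiset.replicate t 1 := by
    have := contc_hh t
    rw [contc_cyc] at this
    rw [hv0, this]
  have hn := ins_num v.1 (lf (fun z : ZMod (2 * t + 1) => if z = 1 then a else 0))
    (by rw [lf_length, X_num])
  have hs : (lf (fun z : ZMod (2 * t + 1) => if z = 1 then a else 0)).sum = a := by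
    rw [lf_sum, Finset.sum_ite_eq' univ (1 : ZMod (2 * t + 1)) (fun _ => a), if_pos (mem_univ _)]
  rw [hs, X_num, hp] at hn
  obtain ⟨u, hu⟩ : ∃ u : X (t + pkc V + a),
      u.1 = ins v.1 (lf (fun z : ZMod (2 * t + 1) => if z = 1 then a else 0)) :=
    ⟨⟨_, mem_treesOfNumNodesEq.2 hn.1⟩, rfl⟩
  have hD : Dat k a v u := by
    refine ⟨hu, by rw [cont_card, hp, hpV]; exact ht, ?_, fun h => absurd h (by omega)⟩
    rw [hu, hn.2, hpV]
    omega
  have w0 : X k := phi u (two (0 : ZMod (2 * (t + pkc V + a) + 1)) 0).1 (by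
    rw [(two (0 : ZMod (2 * (t + pkc V + a) + 1)) 0).2]; exact hD.hk)
  have hok := hD.ok w0
  have hsq := hD.sqd
  obtain ⟨x, hx, hx1, hx2⟩ := hD.w0 w0
  have hc1 := hD.c1 w0
  have hc2 := hD.c2 w0
  have hRu : Rd (cyc u) = ⟨t, V⟩ := (Rd_ins (lf_length _) hu).trans (by rw [hv])
  have hRx : Rd (cyc x) = ⟨t, V⟩ := (Rd_ins (lf_length _) hx).trans (by rw [hv])
  have hRy := Rd_tc u hD.hk
  have vz : cl (cyc (J3.sX (inf u.1) (inf (inf (Tsq.sq v.1).2)) (inf (Tsq.sq u.1).1) w0 0)) ∈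
      vcl k V (a + 1) := (vcl_iff hx1 hRx).2 (by omega)
  have vy : ∀ y d, cl (tc u hD.hk y d) ∈ vcl k V a := fun y d => (vcl_iff (hRy y d) hRu).2 rfl
  have hdis : ∀ c : Cyc k, cl c ∈ vcl k V a → cl c ∈ vcl k V (a + 1) → False := by
    intro c h3 h4
    have h5 := (mem_vcl.1 h3).2
    have h6 := (mem_vcl.1 h4).2
    omega
  have hcR : cont (inf u.1) = Multiset.replicate t 3 + Multiset.replicate a 2 := by
    rw [cont_inf, hu, cont_ins _ _ (by rw [lf_length, X_num]), hcv, hs, Multiset.map_add, Multiset.map_map,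
      Multiset.map_replicate, Multiset.map_replicate]
    rfl
  have hR3 : OddHC.ht (inf u.1) = 3 := by
    rw [ht_eq, hcR]
    apply le_antisymm
    · apply Multiset.sup_le.2
      intro x hx
      rcases Multiset.mem_add.1 hx with h | h
      · rw [Multiset.eq_of_mem_replicate h]
      · rw [Multiset.eq_of_mem_replicate h]
        norm_num
    · apply Multiset.le_sup
      rw [Multiset.mem_add]
      left
      rw [Multiset.mem_replicate]
      exact ⟨by omega, rfl⟩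
  have h2R : 2 ∈ OddHC.cont (inf u.1) := by
    rw [hcR, Multiset.mem_add]
    right
    rw [Multiset.mem_replicate]
    exact ⟨by omega, rfl⟩
  have hB3 : ∃ B0, inf (inf (Tsq.sq v.1).2) = app B0 (pc 3) := by
    obtain ⟨s, rfl⟩ : ∃ s, t = s + 2 := ⟨t - 2, by omega⟩
    rw [hv0]
    change ∃ B0, inf (inf (Tsq.sq (lv (s + 1 + 1) .nil)).2) = app B0 (pc 3)
    rw [sq_hh]
    exact inf2_hh s
  refine ⟨{cyc (J3.sX (inf u.1) (inf (inf (Tsq.sq v.1).2)) (inf (Tsq.sq u.1).1) w0 0),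
    cyc (J3.sX (inf u.1) (inf (inf (Tsq.sq v.1).2)) (inf (Tsq.sq u.1).1) w0 1),
    cyc (J3.sX (inf u.1) (inf (inf (Tsq.sq v.1).2)) (inf (Tsq.sq u.1).1) w0 2)}, _,
    ⟨_, _, _, w0, hsq, hok, hR3, h2R, hB3, rfl, rfl⟩, ⟨v, 1, u, hD.hk, -1, true, cyc x, hv, hu, hRx, ?_, ?_, ?_, ?_⟩⟩
  · -- level 2
    intro h3
    rw [contc_cyc, hx, count_one_ins _ _ (by rw [lf_length, X_num]), lf_sum, cf_sum] at h3
    have ha : a = 1 := by omega
    have hj2 := hD.jj
    refine ⟨t, v, -1, 2, x, by omega, rfl, rfl, ?_⟩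
    rw [hx]
    congr 2
    funext z
    unfold J3Ex.cf
    rw [ha]
    have e1 : (-1 : ZMod (2 * t + 1)) + ((2 : ℕ) : ZMod (2 * t + 1)) = 1 := by
      push_cast
      ring
    rw [e1, add_comm]
  · rintro c (rfl | rfl | rfl)
    · exact Or.inr vz
    · left; rw [hc1]; exact vy _ _
    · left; rw [hc2]; exact vy _ _
  · intro c hc
    constructor
    · rintro (rfl | rfl | rfl)
      · exact absurd vz fun h => hdis _ hc h
      · exact Or.inl hc1
      · exact Or.inr hc2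
    · rintro (h | h)
      · exact Or.inr (Or.inl (h.trans hc1.symm))
      · exact Or.inr (Or.inr (h.trans hc2.symm))
  · intro c hc
    constructor
    · rintro (rfl | rfl | rfl)
      · exact hx1
      · rw [hc1] at hc
        exact absurd hc fun h => hdis _ (vy _ _) h
      · rw [hc2] at hc
        exact absurd hc fun h => hdis _ (vy _ _) h
    · intro h3
      left
      have h4 := count_class (m := 0) (k := k) hx1 (by
        rw [pkc_cyc, hx]
        have := ins_num v.1 (lf (J3Ex.cf a (-1) : ZMod (2 * t + 1) → ℕ)) (by rw [lf_length, X_num])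
        rw [this.2, lf_sum, cf_sum, hp]
        omega) h3 rfl
      exact fam_zero (h3.trans hx1.symm) h4

/-- **THE TOP GROUP J3V OF HEIGHT 3** -/
theorem topJ33 {a : ℕ} (ht : 2 ≤ t) (ha : 1 ≤ a) (hk : 3 * t + 2 * a + 2 = k) (ho : oddF t (a + 1))
    (jv : ∀ (j : ℕ) (U U' : Cyc j), j = t + pkc (cyc (hhX t)) + (a + 1) → Rd U = ⟨t, cyc (hhX t)⟩ →
      Rd U' = ⟨t, cyc (hhX t)⟩ → U ≠ U' → HopC U U' →
      ∃ p q : Cyc k, Rd p = ⟨j, U⟩ ∧ Rd q = ⟨j, U'⟩ ∧ Typd P P {p, q})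
    (hty : ∀ F g, TyJ33Q F g → Typd P P F) : TopJ P (cyc (hhX t)) a := by
  obtain ⟨F, g, h3, h4⟩ := j33_ex ht ha hk
  refine h4.topJ ?_ ho jv (hty F g h3)
  have hpV : pkc (cyc (hhX t)) = t := by
    unfold pkc
    rw [contc_hh, Multiset.card_replicate]
  rw [hpV]
  omega

end HT

end Pool.OddHC
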