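import Pool.Agent.Work.MP_8f87b2_base.Ret

/-!
MP_8f87b2_co, theorem (c2) of helper18, step (3): MERGE. `FinkyOn A B Q` is the conclusion of Lemma F (Fink) for the
class with the two halves `A`, `B`: for every bijection `ψ : B ≃ A` there is a bijection `φ : A ≃ B` along allowed
edges `Q` with `ψ ∘ φ` one cycle. Then the permutation `f` (mapping `A` onto `B`) can be changed on `A` only so that the
cycles which meet `A` become one and no two points of one cycle are separated.
-/

namespace Pool.OddHC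

open Finset Equiv

variable {W : Type*} [Fintype W] [DecidableEq W]

/-- conclusion of Lemma F for the pair of halves `A`, `B` -/
def FinkyOn (A B : Finset W) (Q : W → W → Prop) : Prop :=
  ∀ ψ : {x // x ∈ B} ≃ {x // x ∈ A}, ∃ φ : {x // x ∈ A} ≃ {x // x ∈ B},
    (∀ x, Q x.1 (φ x).1) ∧ ∀ x y, Perm.SameCycle (φ.trans ψ : Perm {x // x ∈ A}) x y

/-- if the orbit of `x` under `f` meets `A`, then `x` is connected with a point of `A` by `f'` (equal to `f` off `A`) -/
theorem reach_A {f f' : Perm W} {A : Finset W} (h : ∀ w, w ∉ A → f' w = f w) {x : W}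
    (hx : ∃ n : ℕ, (f ^ n) x ∈ A) : ∃ u ∈ A, f'.SameCycle x u := by
  classical
  have hn := Nat.find_spec hx
  refine ⟨(f ^ (Nat.find hx)) x, hn, ?_⟩
  have key : ∀ i, i ≤ Nat.find hx → (f' ^ i) x = (f ^ i) x := by
    intro i
    induction i with
    | zero => intro _; rfl
    | succ i ih =>
      intro hi
      rw [pow_succ', pow_succ', Perm.mul_apply, Perm.mul_apply, ih (by omega)]
      exact h _ (Nat.find_min hx (by omega))
  exact nat_same (Nat.find hx) (key _ le_rfl)

/-- MERGE for one class -/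
theorem merge_one (f : Perm W) (A B : Finset W) (hAB : ∀ x, x ∈ A ↔ f x ∈ B) (Q : W → W → Prop)
    (hF : FinkyOn A B Q) :
    ∃ f' : Perm W, (∀ x, x ∉ A → f' x = f x) ∧ (∀ x ∈ A, f' x ∈ B ∧ Q x (f' x)) ∧
      (∀ x y, f.SameCycle x y → f'.SameCycle x y) ∧ (∀ x ∈ A, ∀ y ∈ A, f'.SameCycle x y) := by
  classical
  -- `f` as a bijection of `A` onto `B`
  let F : {x // x ∈ A} ≃ {x // x ∈ B} := f.subtypeEquiv hAB
  have hFv : ∀ u : {x // x ∈ A}, (F u).1 = f u.1 := fun u => rfl
  obtain ⟨φ, hQ, hone⟩ := hF (F.symm.trans (ret f A))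
  let ρ : Perm {x // x ∈ A} := φ.trans F.symm
  let π : Perm W := Perm.ofSubtype ρ
  have hπ1 : ∀ w, w ∉ A → π w = w := fun w hw => Perm.ofSubtype_apply_of_not_mem ρ hw
  have hπ2 : ∀ u : {x // x ∈ A}, (ρ u).1 = π u.1 := fun u => (Perm.ofSubtype_apply_coe ρ u).symm
  have hval : ∀ u : {x // x ∈ A}, (f * π) u.1 = (φ u).1 := by
    intro u
    rw [Perm.mul_apply, ← hπ2, ← hFv]
    show (F (F.symm (φ u))).1 = _
    rw [Equiv.apply_symm_apply]
  have hoff : ∀ w, w ∉ A → (f * π) w = f w := by
    intro w hw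
    rw [Perm.mul_apply, hπ1 w hw]
  have hret : ret (f * π) A = ret f A * ρ := ret_mul f A π ρ hπ1 hπ2
  have hall : ∀ x ∈ A, ∀ y ∈ A, (f * π).SameCycle x y := by
    intro x hx y hy
    have h1 := (ret_same (f * π) A ⟨x, hx⟩ ⟨y, hy⟩).1
    apply h1
    rw [hret]
    exact hone ⟨x, hx⟩ ⟨y, hy⟩
  refine ⟨f * π, hoff, ?_, ?_, hall⟩
  · intro x hx
    have h2 := hval ⟨x, hx⟩
    simp only at h2
    rw [h2]
    exact ⟨(φ ⟨x, hx⟩).2, hQ ⟨x, hx⟩⟩
  · intro x y hxy
    by_cases hm : ∃ n : ℕ, (f ^ n) x ∈ A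
    · have hm' : ∃ n : ℕ, (f ^ n) y ∈ A := by
        obtain ⟨n, hn⟩ := hm
        obtain ⟨m, hm2⟩ := same_nat (hxy.symm.trans (nat_same n rfl))
        exact ⟨m, by rw [hm2]; exact hn⟩
      obtain ⟨u, hu, hxu⟩ := reach_A hoff hm
      obtain ⟨v, hv, hyv⟩ := reach_A hoff hm'
      exact hxu.trans ((hall u hu v hv).trans hyv.symm)
    · push Not at hm
      obtain ⟨n, hn⟩ := same_nat hxy
      have key : ∀ i, ((f * π) ^ i) x = (f ^ i) x := by
        intro i
        induction i with
        | zero => rfl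
        | succ i ih =>
          rw [pow_succ', pow_succ', Perm.mul_apply, Perm.mul_apply, ih]
          exact hoff _ (hm i)
      exact nat_same n (by rw [key, hn])

/-- MERGE for a finite family of pairwise disjoint classes -/
theorem merge_all {ι : Type*} [DecidableEq ι] (f : Perm W) (s : Finset ι) (A B : ι → Finset W)
    (hdis : ∀ i ∈ s, ∀ j ∈ s, i ≠ j → ∀ x, x ∈ A i → x ∉ A j)
    (hAB : ∀ i ∈ s, ∀ x, x ∈ A i ↔ f x ∈ B i) (Q : W → W → Prop)
    (hF : ∀ i ∈ s, FinkyOn (A i) (B i) Q) :
    ∃ f' : Perm W, (∀ x, (∀ i ∈ s, x ∉ A i) → f' x = f x) ∧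
      (∀ i ∈ s, ∀ x ∈ A i, f' x ∈ B i ∧ Q x (f' x)) ∧
      (∀ x y, f.SameCycle x y → f'.SameCycle x y) ∧
      (∀ i ∈ s, ∀ x ∈ A i, ∀ y ∈ A i, f'.SameCycle x y) := by
  classical
  induction s using Finset.induction_on with
  | empty =>
    refine ⟨f, fun x _ => rfl, ?_, fun x y h => h, ?_⟩
    · intro i hi
      exact absurd hi (Finset.notMem_empty i)
    · intro i hi
      exact absurd hi (Finset.notMem_empty i)
  | insert a s ha ih =>
    obtain ⟨g, g1, g2, g3, g4⟩ := ih
      (fun i hi j hj => hdis i (mem_insert_of_mem hi) j (mem_insert_of_mem hj))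
      (fun i hi => hAB i (mem_insert_of_mem hi)) (fun i hi => hF i (mem_insert_of_mem hi))
    have hoffA : ∀ x ∈ A a, g x = f x := by
      intro x hx
      apply g1
      intro i hi hxi
      exact hdis a (mem_insert_self a s) i (mem_insert_of_mem hi) (by rintro rfl; exact ha hi) x hx hxi
    have hABg : ∀ x, x ∈ A a ↔ g x ∈ B a := by
      intro x
      constructor
      · intro hx
        rw [hoffA x hx]
        exact (hAB a (mem_insert_self a s) x).1 hx
      · intro hx
        -- the point of `A a` with the same image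
        have h5 : f.symm (g x) ∈ A a := by
          rw [hAB a (mem_insert_self a s), Equiv.apply_symm_apply]
          exact hx
        have h6 : g (f.symm (g x)) = g x := by
          rw [hoffA _ h5, Equiv.apply_symm_apply]
        have h7 := g.injective h6
        rw [h7] at h5
        exact h5
    obtain ⟨f', f1, f2, f3, f4⟩ := merge_one g (A a) (B a) hABg Q (hF a (mem_insert_self a s))
    refine ⟨f', ?_, ?_, ?_, ?_⟩
    · intro x hx
      rw [f1 x (hx a (mem_insert_self a s))]
      exact g1 x (fun i hi => hx i (mem_insert_of_mem hi))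
    · intro i hi x hx
      rcases mem_insert.1 hi with rfl | hi'
      · exact f2 x hx
      · have hxa : x ∉ A a := by
          intro h
          exact hdis a (mem_insert_self a s) i hi (by rintro rfl; exact ha hi') x h hx
        rw [f1 x hxa]
        exact g2 i hi' x hx
    · intro x y h
      exact f3 x y (g3 x y h)
    · intro i hi x hx y hy
      rcases mem_insert.1 hi with rfl | hi'
      · exact f4 x hx y hy
      · exact f3 x y (g4 i hi' x hx y hy)

end Pool.OddHC
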