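import Pool.Agent.Work.MP_8f87b2_fin.Frame

/-!
# MP_8f87b2_co: merging as a last step

`GrpOK.merge`: in a plan `G` with chosen types every group `e` of the kind `isE`, which is hit by a group of the kind `isJ`,
is merged with ONE of these groups. A group of the kind `isJ` hits at most one group of `G` (`h1`: two groups which it hits
have a common T-cycle). After the merging no group of the kind `isJ` hits a group of the kind `isE`.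
-/

set_option autoImplicit false

namespace Pool.OddHC

variable {k : ℕ} {τ : Type} {N : Set (Cyc k)} {G : Set (Set (Cyc k))} {P : τ → Set (Cyc k) → DG k → Prop}

/-- **MERGING** -/
theorem GrpOK.merge (hG : GrpOK N G P) (isE isJ : τ → Prop) (hEJ : ∀ t, isE t → ¬ isJ t)
    (hit : τ → Set (Cyc k) → DG k → τ → Set (Cyc k) → DG k → Prop)
    (h1 : ∀ t F g, P t F g → isJ t → ∀ F1 ∈ G, ∀ F2 ∈ G, ∀ t1 g1 t2 g2, P t1 F1 g1 → isE t1 → P t2 F2 g2 → isE t2 →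
      hit t F g t1 F1 g1 → hit t F g t2 F2 g2 → ∃ c, c ∈ F1 ∧ c ∈ F2)
    (h2 : ∀ t F g t' F' g', F ∈ G → F' ∈ G → (∀ c ∈ F, c ∉ F') → P t F g → isJ t → P t' F' g' → isE t' →
      hit t F g t' F' g' → ∃ t'' g'', ¬ isE t'' ∧ ¬ isJ t'' ∧ P t'' (F ∪ F') g'') :
    ∃ (G' : Set (Set (Cyc k))) (P' : τ → Set (Cyc k) → DG k → Prop),
      GrpOK N G' P' ∧ (∀ t F g, P' t F g → P t F g) ∧
      (∀ F ∈ G', ∀ F' ∈ G', ∀ t g t' g', P' t F g → P' t' F' g' → isJ t → isE t' → ¬ hit t F g t' F' g') ∧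
      ∀ F ∈ G', F ∈ G ∨ ∃ F1 ∈ G, ∃ F2 ∈ G, (∀ c ∈ F1, c ∉ F2) ∧ F = F1 ∪ F2 ∧
        (∃ t1 g1 t2 g2, P t1 F1 g1 ∧ isJ t1 ∧ P t2 F2 g2 ∧ isE t2 ∧ hit t1 F1 g1 t2 F2 g2) ∧
        ∀ t g, P' t F g → ¬ isE t ∧ ¬ isJ t := by
  classical
  by_cases hne : G.Nonempty
  swap
  · refine ⟨G, P, hG, fun _ _ _ h => h, fun F hF => absurd ⟨F, hF⟩ hne, fun F hF => absurd ⟨F, hF⟩ hne⟩
  have hex := hG.ex
  obtain ⟨ct, cg, hch⟩ : ∃ (ct : Set (Cyc k) → τ) (cg : Set (Cyc k) → DG k), ∀ F ∈ G, P (ct F) F (cg F) := by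
    obtain ⟨F0, hF0⟩ := hne
    obtain ⟨t0, g0, h0⟩ := hex F0 hF0
    refine ⟨fun F => if h : F ∈ G then (hex F h).choose else t0,
      fun F => if h : F ∈ G then (hex F h).choose_spec.choose else g0, ?_⟩
    intro F hF
    simp only [dif_pos hF]
    exact (hex F hF).choose_spec.choose_spec
  have hn1 : Nonempty τ := ⟨ct ∅⟩
  have hn2 : Nonempty (DG k) := ⟨cg ∅⟩
  -- the hit groups
  obtain ⟨HE, hHE⟩ : ∃ HE : Set (Set (Cyc k)), HE = {e | e ∈ G ∧ isE (ct e) ∧ ∃ F ∈ G, isJ (ct F) ∧ hit (ct F) F (cg F) (ct e) e (cg e)} :=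
    ⟨_, rfl⟩
  have hE1 : ∀ e ∈ HE, e ∈ G := fun e he => by rw [hHE] at he; exact he.1
  have hE2 : ∀ e ∈ HE, isE (ct e) := fun e he => by rw [hHE] at he; exact he.2.1
  have hE3 : ∀ e ∈ HE, ∃ F ∈ G, isJ (ct F) ∧ hit (ct F) F (cg F) (ct e) e (cg e) := fun e he => by rw [hHE] at he; exact he.2.2
  choose! s hs1 hs2 hs3 using hE3
  have hinj : ∀ e ∈ HE, ∀ e' ∈ HE, s e = s e' → e = e' := by
    intro e he e' he' h
    have h3 := hs3 e he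
    rw [h] at h3
    obtain ⟨c, hc, hc'⟩ := h1 _ _ _ (hch _ (hs1 e' he')) (hs2 e' he') e (hE1 e he) e' (hE1 e' he') _ _ _ _
      (hch _ (hE1 e he)) (hE2 e he) (hch _ (hE1 e' he')) (hE2 e' he') h3 (hs3 e' he')
    exact hG.one e (hE1 e he) e' (hE1 e' he') c hc hc'
  have hse : ∀ e ∈ HE, ∀ e' ∈ HE, s e ≠ e' := by
    intro e he e' he' h
    have h3 := hs2 e he
    rw [h] at h3
    exact hEJ _ (hE2 e' he') h3
  have hdis : ∀ F ∈ G, ∀ F' ∈ G, F ≠ F' → ∀ c ∈ F, c ∉ F' := fun F hF F' hF' hne c hc hc' =>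
    hne (hG.one F hF F' hF' c hc hc')
  have hJE : ∀ e ∈ HE, ∃ t'' g'', ¬ isE t'' ∧ ¬ isJ t'' ∧ P t'' (s e ∪ e) g'' := fun e he =>
    h2 _ _ _ _ _ _ (hs1 e he) (hE1 e he) (hdis _ (hs1 e he) _ (hE1 e he) (hse e he e he)) (hch _ (hs1 e he))
      (hs2 e he) (hch _ (hE1 e he)) (hE2 e he) (hs3 e he)
  choose! jt jg hj1 hj2 hj3 using hJE
  -- the new groups
  obtain ⟨old, hold⟩ : ∃ old : Set (Set (Cyc k)), old = {F | F ∈ G ∧ ∀ e ∈ HE, F ≠ e ∧ F ≠ s e} := ⟨_, rfl⟩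
  have ho1 : ∀ F, F ∈ old ↔ F ∈ G ∧ ∀ e ∈ HE, F ≠ e ∧ F ≠ s e := fun F => by rw [hold]; exact Iff.rfl
  -- a merged group is no old group
  have hmo : ∀ e ∈ HE, s e ∪ e ∉ old := by
    intro e he h
    obtain ⟨h3, h4⟩ := (ho1 _).1 h
    obtain ⟨c, hc⟩ := hG.ne e (hE1 e he)
    exact (h4 e he).1 (hG.one _ h3 _ (hE1 e he) c (Or.inr hc) hc)
  have hmm : ∀ e ∈ HE, ∀ e' ∈ HE, ∀ c, c ∈ s e ∪ e → c ∈ s e' ∪ e' → e = e' := by
    intro e he e' he' c hc hc'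
    rcases hc with hc | hc <;> rcases hc' with hc' | hc'
    · exact hinj e he e' he' (hG.one _ (hs1 e he) _ (hs1 e' he') c hc hc')
    · exact absurd (hG.one _ (hs1 e he) _ (hE1 e' he') c hc hc') (hse e he e' he')
    · exact absurd (hG.one _ (hs1 e' he') _ (hE1 e he) c hc' hc) (hse e' he' e he)
    · exact hG.one _ (hE1 e he) _ (hE1 e' he') c hc hc'
  have hom : ∀ F ∈ old, ∀ e ∈ HE, ∀ c, c ∈ F → c ∉ s e ∪ e := by
    intro F hF e he c hc hc'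
    obtain ⟨h3, h4⟩ := (ho1 _).1 hF
    rcases hc' with hc' | hc'
    · exact (h4 e he).2 (hG.one _ h3 _ (hs1 e he) c hc hc')
    · exact (h4 e he).1 (hG.one _ h3 _ (hE1 e he) c hc hc')
  refine ⟨old ∪ {F | ∃ e ∈ HE, F = s e ∪ e}, fun t F g => (F ∈ old ∧ t = ct F ∧ g = cg F) ∨
    ∃ e ∈ HE, F = s e ∪ e ∧ t = jt e ∧ g = jg e, ⟨?_, ?_, ?_, ?_, ?_⟩, ?_, ?_, ?_⟩
  · rintro F (hF | ⟨e, he, rfl⟩)
    · exact hG.ne F ((ho1 _).1 hF).1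
    · obtain ⟨c, hc⟩ := hG.ne e (hE1 e he)
      exact ⟨c, Or.inr hc⟩
  · rintro F (hF | ⟨e, he, rfl⟩) c hc
    · exact hG.sub F ((ho1 _).1 hF).1 c hc
    · rcases hc with hc | hc
      · exact hG.sub _ (hs1 e he) c hc
      · exact hG.sub _ (hE1 e he) c hc
  · intro c hc
    obtain ⟨F, hF, hcF⟩ := hG.cov c hc
    by_cases h3 : ∃ e ∈ HE, F = e ∨ F = s e
    · obtain ⟨e, he, h4⟩ := h3
      refine ⟨s e ∪ e, Or.inr ⟨e, he, rfl⟩, ?_⟩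
      rcases h4 with rfl | rfl
      · exact Or.inr hcF
      · exact Or.inl hcF
    · refine ⟨F, Or.inl ((ho1 _).2 ⟨hF, fun e he => ⟨?_, ?_⟩⟩), hcF⟩
      · rintro rfl
        exact h3 ⟨F, he, Or.inl rfl⟩
      · intro h4
        exact h3 ⟨e, he, Or.inr h4⟩
  · rintro F (hF | ⟨e, he, rfl⟩) F' (hF' | ⟨e', he', rfl⟩) c hc hc'
    · exact hG.one F ((ho1 _).1 hF).1 F' ((ho1 _).1 hF').1 c hc hc'
    · exact absurd hc' (hom F hF e' he' c hc)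
    · exact absurd hc (hom F' hF' e he c hc')
    · rw [hmm e he e' he' c hc hc']
  · rintro F (hF | ⟨e, he, rfl⟩)
    · exact ⟨_, _, Or.inl ⟨hF, rfl, rfl⟩⟩
    · exact ⟨_, _, Or.inr ⟨e, he, rfl, rfl, rfl⟩⟩
  · rintro t F g (⟨hF, rfl, rfl⟩ | ⟨e, he, rfl, rfl, rfl⟩)
    · exact hch F ((ho1 _).1 hF).1
    · exact hj3 e he
  · rintro F hF F' hF' t g t' g' (⟨h3, rfl, rfl⟩ | ⟨e, he, rfl, rfl, rfl⟩) h4 ht ht' hh
    · rcases h4 with ⟨h5, rfl, rfl⟩ | ⟨e, he, rfl, rfl, rfl⟩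
      · obtain ⟨h6, -⟩ := (ho1 _).1 h3
        obtain ⟨h7, h8⟩ := (ho1 _).1 h5
        have h9 : F' ∈ HE := by
          rw [hHE]
          exact ⟨h7, ht', F, h6, ht, hh⟩
        exact (h8 F' h9).1 rfl
      · exact hj1 e he ht'
    · exact hj2 e he ht
  · rintro F (hF | ⟨e, he, rfl⟩)
    · exact Or.inl ((ho1 _).1 hF).1
    · right
      refine ⟨s e, hs1 e he, e, hE1 e he, hdis _ (hs1 e he) _ (hE1 e he) (hse e he e he), rfl,
        ⟨_, _, _, _, hch _ (hs1 e he), hs2 e he, hch _ (hE1 e he), hE2 e he, hs3 e he⟩, ?_⟩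
      rintro t g (⟨h3, -, -⟩ | ⟨e', he', h3, rfl, rfl⟩)
      · exact absurd h3 (hmo e he)
      · exact ⟨hj1 e' he', hj2 e' he'⟩

end Pool.OddHC
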