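import Pool.Agent.Work.MP_8f87b2_fin.Frame

/-!
# MP_8f87b2_co: star merging as a last step

`GrpOK.coarse`: the unions of the fibres of an idempotent map `r : G → G`. `GrpOK.star`: in a plan `G` with chosen types every
group of the kind `isE` which is hit by a group of the kind `isJ` is merged with ONE of these groups; a group `F` of the kind
`isJ` is merged with ALL the groups `𝓔` assigned to it (`h2`: the type of `F ∪ ⋃₀ 𝓔` exists).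
-/

set_option autoImplicit false

namespace Pool.OddHC

variable {k : ℕ} {τ τ' : Type} {N : Set (Cyc k)} {G : Set (Set (Cyc k))} {P : τ → Set (Cyc k) → DG k → Prop}
  {P' : τ' → Set (Cyc k) → DG k → Prop}

/-- the union of the fibre over `a` -/
def fib (G : Set (Set (Cyc k))) (r : Set (Cyc k) → Set (Cyc k)) (a : Set (Cyc k)) : Set (Cyc k) :=
  {c | ∃ F ∈ G, r F = a ∧ c ∈ F}

/-- **UNIONS OF FIBRES** -/
theorem GrpOK.coarse (hG : GrpOK N G P) (r : Set (Cyc k) → Set (Cyc k)) (hr : ∀ F ∈ G, r F ∈ G)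
    (hrr : ∀ F ∈ G, r (r F) = r F) (hty : ∀ a ∈ G, r a = a → ∃ t g, P' t (fib G r a) g) :
    GrpOK N {H | ∃ a ∈ G, r a = a ∧ H = fib G r a} P' := by
  refine ⟨?_, ?_, ?_, ?_, ?_⟩
  · rintro H ⟨a, ha, hra, rfl⟩
    obtain ⟨c, hc⟩ := hG.ne a ha
    exact ⟨c, a, ha, hra, hc⟩
  · rintro H ⟨a, ha, hra, rfl⟩ c ⟨F, hF, -, hc⟩
    exact hG.sub F hF c hc
  · intro c hc
    obtain ⟨F, hF, hcF⟩ := hG.cov c hc
    exact ⟨fib G r (r F), ⟨r F, hr F hF, hrr F hF, rfl⟩, F, hF, rfl, hcF⟩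
  · rintro H ⟨a, ha, hra, rfl⟩ H' ⟨b, hb, hrb, rfl⟩ c ⟨F, hF, rfl, hc⟩ ⟨F', hF', rfl, hc'⟩
    rw [hG.one F hF F' hF' c hc hc']
  · rintro H ⟨a, ha, hra, rfl⟩
    exact hty a ha hra

/-- **STAR MERGING** -/
theorem GrpOK.star (hG : GrpOK N G P) (isE isJ : τ → Prop) (hEJ : ∀ t, isE t → ¬ isJ t)
    (hit : τ → Set (Cyc k) → DG k → τ → Set (Cyc k) → DG k → Prop)
    (Rel : τ → Set (Cyc k) → DG k → τ → Set (Cyc k) → DG k → Prop)
    (h2 : ∀ t F g, F ∈ G → P t F g → isJ t → ∀ E : Set (Set (Cyc k)), E.Nonempty →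
      (∀ F' ∈ E, F' ∈ G ∧ (∀ c ∈ F, c ∉ F') ∧ ∃ t' g', P t' F' g' ∧ isE t' ∧ hit t F g t' F' g') →
      ∃ t'' g'', ¬ isE t'' ∧ ¬ isJ t'' ∧ P t'' (F ∪ ⋃₀ E) g'' ∧ Rel t F g t'' (F ∪ ⋃₀ E) g'') :
    ∃ (G' : Set (Set (Cyc k))) (P' : τ → Set (Cyc k) → DG k → Prop),
      GrpOK N G' P' ∧ (∀ t F g, P' t F g → P t F g) ∧
      (∀ F ∈ G', ∀ F' ∈ G', ∀ t g t' g', P' t F g → P' t' F' g' → isJ t → isE t' → ¬ hit t F g t' F' g') ∧
      ∀ H ∈ G', ∀ t'' g'', P' t'' H g'' → H ∈ G ∨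
        ∃ F ∈ G, ∃ t g, P t F g ∧ isJ t ∧ F ⊆ H ∧ Rel t F g t'' H g'' ∧
          ∀ F' ∈ G', ∀ t' g', P' t' F' g' → isE t' → ¬ hit t F g t' F' g' := by
  classical
  by_cases hne : G.Nonempty
  swap
  · exact ⟨G, P, hG, fun _ _ _ h => h, fun F hF => absurd ⟨F, hF⟩ hne, fun F hF => absurd ⟨F, hF⟩ hne⟩
  have hex := hG.ex
  obtain ⟨ct, cg, hch⟩ : ∃ (ct : Set (Cyc k) → τ) (cg : Set (Cyc k) → DG k), ∀ F ∈ G, P (ct F) F (cg F) := by
    obtain ⟨F0, hF0⟩ := hne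
    obtain ⟨t0, g0, h0⟩ := hex F0 hF0
    refine ⟨fun F => if h : F ∈ G then (hex F h).choose else t0,
      fun F => if h : F ∈ G then (hex F h).choose_spec.choose else g0, ?_⟩
    intro F hF
    simp only [dif_pos hF]
    exact (hex F hF).choose_spec.choose_spec
  -- the hit groups and their hosts
  obtain ⟨HE, hHE⟩ : ∃ HE : Set (Cyc k) → Prop, ∀ e, HE e ↔ e ∈ G ∧ isE (ct e) ∧
      ∃ F ∈ G, isJ (ct F) ∧ hit (ct F) F (cg F) (ct e) e (cg e) := ⟨_, fun e => Iff.rfl⟩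
  obtain ⟨s, hs⟩ : ∃ s : Set (Cyc k) → Set (Cyc k), ∀ e, HE e → s e ∈ G ∧ isJ (ct (s e)) ∧
      hit (ct (s e)) (s e) (cg (s e)) (ct e) e (cg e) := by
    refine ⟨fun e => if h : HE e then ((hHE e).1 h).2.2.choose else e, ?_⟩
    intro e he
    simp only [dif_pos he]
    exact ((hHE e).1 he).2.2.choose_spec
  obtain ⟨r, hr1, hr2⟩ : ∃ r : Set (Cyc k) → Set (Cyc k), (∀ F, HE F → r F = s F) ∧ (∀ F, ¬ HE F → r F = F) :=
    ⟨fun F => if HE F then s F else F, fun F h => if_pos h, fun F h => if_neg h⟩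
  have hsn : ∀ e, HE e → ¬ HE (s e) := by
    intro e he h
    exact hEJ _ ((hHE _).1 h).2.1 (hs e he).2.1
  have hrG : ∀ F ∈ G, r F ∈ G := by
    intro F hF
    by_cases h : HE F
    · rw [hr1 F h]; exact (hs F h).1
    · rw [hr2 F h]; exact hF
  have hrr : ∀ F ∈ G, r (r F) = r F := by
    intro F hF
    by_cases h : HE F
    · rw [hr1 F h, hr2 _ (hsn F h)]
    · rw [hr2 F h, hr2 F h]
  have hfix : ∀ a, r a = a → a ∈ G → ¬ HE a := by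
    intro a ha hG' h
    rw [hr1 a h] at ha
    exact hsn a h (by rw [ha]; exact h)
  -- the fibres
  have hfib0 : ∀ a ∈ G, ¬ HE a → (∀ e, HE e → s e ≠ a) → fib G r a = a := by
    intro a ha hn h
    ext c
    constructor
    · rintro ⟨F, hF, e, hc⟩
      by_cases h4 : HE F
      · rw [hr1 F h4] at e
        exact absurd e (h F h4)
      · rw [hr2 F h4] at e
        rw [← e]
        exact hc
    · intro hc
      exact ⟨a, ha, hr2 a hn, hc⟩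
  have hfib1 : ∀ a ∈ G, ¬ HE a → fib G r a = a ∪ ⋃₀ {e | HE e ∧ s e = a} := by
    intro a ha hn
    ext c
    constructor
    · rintro ⟨F, hF, e, hc⟩
      by_cases h4 : HE F
      · rw [hr1 F h4] at e
        exact Or.inr ⟨F, ⟨h4, e⟩, hc⟩
      · rw [hr2 F h4] at e
        rw [← e]
        exact Or.inl hc
    · rintro (hc | ⟨e, ⟨he, hse⟩, hc⟩)
      · exact ⟨a, ha, hr2 a hn, hc⟩
      · exact ⟨e, ((hHE e).1 he).1, by rw [hr1 e he, hse], hc⟩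
  -- the types of the merged groups
  have hmt : ∀ a, a ∈ G → ¬ HE a → (∃ e, HE e ∧ s e = a) → ∃ t'' g'', ¬ isE t'' ∧ ¬ isJ t'' ∧
      P t'' (fib G r a) g'' ∧ Rel (ct a) a (cg a) t'' (fib G r a) g'' := by
    intro a ha hn ⟨e0, he0, hs0⟩
    rw [hfib1 a ha hn]
    refine h2 (ct a) a (cg a) ha (hch a ha) (by rw [← hs0]; exact (hs e0 he0).2.1) _ ⟨e0, he0, hs0⟩ ?_
    rintro e ⟨he, hse⟩
    have h5 := (hHE e).1 he
    refine ⟨h5.1, ?_, ct e, cg e, hch e h5.1, h5.2.1, ?_⟩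
    · intro c hc hc'
      have h6 := hG.one a ha e h5.1 c hc hc'
      rw [h6] at hn
      exact hn he
    · have h6 := (hs e he).2.2
      rw [hse] at h6
      exact h6
  obtain ⟨mt, mg, hm⟩ : ∃ (mt : Set (Cyc k) → τ) (mg : Set (Cyc k) → DG k), ∀ a, a ∈ G → ¬ HE a →
      (∃ e, HE e ∧ s e = a) → ¬ isE (mt a) ∧ ¬ isJ (mt a) ∧ P (mt a) (fib G r a) (mg a) ∧
        Rel (ct a) a (cg a) (mt a) (fib G r a) (mg a) := by
    refine ⟨fun a => if h : a ∈ G ∧ ¬ HE a ∧ ∃ e, HE e ∧ s e = a then (hmt a h.1 h.2.1 h.2.2).choose else ct a,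
      fun a => if h : a ∈ G ∧ ¬ HE a ∧ ∃ e, HE e ∧ s e = a then (hmt a h.1 h.2.1 h.2.2).choose_spec.choose else cg a, ?_⟩
    intro a h3 h4 h5
    have h6 : a ∈ G ∧ ¬ HE a ∧ ∃ e, HE e ∧ s e = a := ⟨h3, h4, h5⟩
    simp only [dif_pos h6]
    exact (hmt a h3 h4 h5).choose_spec.choose_spec
  -- the new plan
  refine ⟨{H | ∃ a ∈ G, r a = a ∧ H = fib G r a}, fun t H g => ∃ a ∈ G, r a = a ∧ H = fib G r a ∧
    (((∀ e, HE e → s e ≠ a) ∧ t = ct a ∧ g = cg a) ∨ ((∃ e, HE e ∧ s e = a) ∧ t = mt a ∧ g = mg a)), ?_, ?_, ?_, ?_⟩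
  · refine hG.coarse r hrG hrr ?_
    intro a ha hra
    by_cases h3 : ∃ e, HE e ∧ s e = a
    · exact ⟨mt a, mg a, a, ha, hra, rfl, Or.inr ⟨h3, rfl, rfl⟩⟩
    · push Not at h3
      exact ⟨ct a, cg a, a, ha, hra, rfl, Or.inl ⟨h3, rfl, rfl⟩⟩
  · rintro t F g ⟨a, ha, hra, rfl, ⟨h3, rfl, rfl⟩ | ⟨h3, rfl, rfl⟩⟩
    · rw [hfib0 a ha (hfix a hra ha) h3]
      exact hch a ha
    · exact (hm a ha (hfix a hra ha) h3).2.2.1
  · rintro F - F' - t g t' g' ⟨a, ha, hra, rfl, h3⟩ ⟨b, hb, hrb, rfl, h4⟩ hJ hE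
    rcases h3 with ⟨h3, rfl, rfl⟩ | ⟨h3, rfl, rfl⟩
    swap
    · exact absurd hJ (hm a ha (hfix a hra ha) h3).2.1
    rcases h4 with ⟨h4, rfl, rfl⟩ | ⟨h4, rfl, rfl⟩
    swap
    · exact absurd hE (hm b hb (hfix b hrb hb) h4).1
    rw [hfib0 a ha (hfix a hra ha) h3, hfib0 b hb (hfix b hrb hb) h4]
    intro h5
    exact hfix b hrb hb ((hHE b).2 ⟨hb, hE, a, ha, hJ, h5⟩)
  · rintro H - t'' g'' ⟨a, ha, hra, rfl, ⟨h3, rfl, rfl⟩ | ⟨h3, rfl, rfl⟩⟩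
    · left
      rw [hfib0 a ha (hfix a hra ha) h3]
      exact ha
    · right
      have hJa : isJ (ct a) := by
        obtain ⟨e, he, hse⟩ := h3
        rw [← hse]
        exact (hs e he).2.1
      refine ⟨a, ha, ct a, cg a, hch a ha, hJa, ?_, (hm a ha (hfix a hra ha) h3).2.2.2, ?_⟩
      · intro c hc
        exact ⟨a, ha, hra, hc⟩
      · rintro F' - t' g' ⟨b, hb, hrb, rfl, h4⟩ hE
        rcases h4 with ⟨h4, rfl, rfl⟩ | ⟨h4, rfl, rfl⟩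
        swap
        · exact absurd hE (hm b hb (hfix b hrb hb) h4).1
        rw [hfib0 b hb (hfix b hrb hb) h4]
        intro h5
        exact hfix b hrb hb ((hHE b).2 ⟨hb, hE, a, ha, hJa, h5⟩)

end Pool.OddHC
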