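import Pool.Agent.Work.MP_8f87b2_fin.Frame

/-!
# MP_8f87b2_co: unions of groups

`GrpOK.unions`: `A ⊆ G`, `e : A → G \ A` injective, every `a ∪ e a` typed: the groups `a`, `e a` are replaced by `a ∪ e a`.
-/

set_option autoImplicit false

namespace Pool.OddHC

variable {k : ℕ} {τ τ' : Type} {N : Set (Cyc k)} {G : Set (Set (Cyc k))} {P : τ → Set (Cyc k) → DG k → Prop}
  {P' : τ' → Set (Cyc k) → DG k → Prop}

/-- **UNIONS** -/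
theorem GrpOK.unions (hG : GrpOK N G P) (A : Set (Set (Cyc k))) (hA : ∀ a ∈ A, a ∈ G)
    (e : Set (Cyc k) → Set (Cyc k)) (he : ∀ a ∈ A, e a ∈ G ∧ e a ∉ A) (hinj : ∀ a ∈ A, ∀ b ∈ A, e a = e b → a = b)
    (hty : ∀ a ∈ A, ∃ t g, P' t (a ∪ e a) g)
    (hold : ∀ F ∈ G, (∀ a ∈ A, F ≠ a ∧ F ≠ e a) → ∃ t g, P' t F g) :
    GrpOK N ({F | F ∈ G ∧ ∀ a ∈ A, F ≠ a ∧ F ≠ e a} ∪ {F | ∃ a ∈ A, F = a ∪ e a}) P' := by
  have hne : ∀ a ∈ A, ∀ b ∈ A, a ≠ e b := by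
    intro a ha b hb h
    exact (he b hb).2 (h ▸ ha)
  have hmm : ∀ a ∈ A, ∀ b ∈ A, ∀ c, c ∈ a ∪ e a → c ∈ b ∪ e b → a = b := by
    intro a ha b hb c hc hc'
    rcases hc with hc | hc <;> rcases hc' with hc' | hc'
    · exact hG.one _ (hA a ha) _ (hA b hb) c hc hc'
    · exact absurd (hG.one _ (hA a ha) _ (he b hb).1 c hc hc') (hne a ha b hb)
    · exact absurd (hG.one _ (hA b hb) _ (he a ha).1 c hc' hc) (hne b hb a ha)
    · exact hinj a ha b hb (hG.one _ (he a ha).1 _ (he b hb).1 c hc hc')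
  have hom : ∀ F ∈ G, (∀ a ∈ A, F ≠ a ∧ F ≠ e a) → ∀ a ∈ A, ∀ c, c ∈ F → c ∉ a ∪ e a := by
    intro F hF h a ha c hc hc'
    rcases hc' with hc' | hc'
    · exact (h a ha).1 (hG.one _ hF _ (hA a ha) c hc hc')
    · exact (h a ha).2 (hG.one _ hF _ (he a ha).1 c hc hc')
  refine ⟨?_, ?_, ?_, ?_, ?_⟩
  · rintro F (hF | ⟨a, ha, rfl⟩)
    · exact hG.ne F hF.1
    · obtain ⟨c, hc⟩ := hG.ne a (hA a ha)
      exact ⟨c, Or.inl hc⟩
  · rintro F (hF | ⟨a, ha, rfl⟩) c hc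
    · exact hG.sub F hF.1 c hc
    · rcases hc with hc | hc
      · exact hG.sub _ (hA a ha) c hc
      · exact hG.sub _ (he a ha).1 c hc
  · intro c hc
    obtain ⟨F, hF, hcF⟩ := hG.cov c hc
    by_cases h3 : ∀ a ∈ A, F ≠ a ∧ F ≠ e a
    · exact ⟨F, Or.inl ⟨hF, h3⟩, hcF⟩
    · push Not at h3
      obtain ⟨a, ha, h4⟩ := h3
      refine ⟨a ∪ e a, Or.inr ⟨a, ha, rfl⟩, ?_⟩
      by_cases h5 : F = a
      · exact Or.inl (h5 ▸ hcF)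
      · exact Or.inr (h4 h5 ▸ hcF)
  · rintro F (hF | ⟨a, ha, rfl⟩) F' (hF' | ⟨b, hb, rfl⟩) c hc hc'
    · exact hG.one F hF.1 F' hF'.1 c hc hc'
    · exact absurd hc' (hom F hF.1 hF.2 b hb c hc)
    · exact absurd hc (hom F' hF'.1 hF'.2 a ha c hc')
    · rw [hmm a ha b hb c hc hc']
  · rintro F (hF | ⟨a, ha, rfl⟩)
    · exact hold F hF.1 hF.2
    · exact hty a ha

end Pool.OddHC
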