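import Pool.Agent.Work.MP_8f87b2_h62.VOne
import Pool.Agent.Work.MP_8f87b2_h62.W3f
import Pool.Agent.Work.MP_8f87b2_end.Fam2

/-!
# MP_8f87b2_co, height 3: the window T stands at the pile over the pile

`T_ex`: `v = ()^t`, `u = ins v (a beads in one gap)`, `w = ins u (m beads in one gap)`, `t ≥ 2`, `a, m ≥ 1`:
there is a gadget of type T whose new T-cycle is `cyc w`.
-/

set_option autoImplicit false

namespace Pool.OddHC

namespace HT

open Finset BinaryTree

variable {t j k : ℕ}

/-- the function with `a` beads in the gap `x` -/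
def pf {n : ℕ} (x : ZMod n) (a : ℕ) : ZMod n → ℕ := fun z => if z = x then a else 0

theorem lf_pf {n : ℕ} {p : ℕ} (hp : p < n) (a : ℕ) :
    lf (pf ((p : ℕ) : ZMod n) a) = List.replicate p 0 ++ a :: List.replicate (n - 1 - p) 0 := by
  apply List.ext_getElem
  · rw [lf_length, List.length_append, List.length_cons, List.length_replicate, List.length_replicate]
    omega
  · intro i h1 h2
    rw [lf_getElem]
    have hi : i < n := by rwa [lf_length] at h1
    have e : ((i : ℕ) : ZMod n) = ((p : ℕ) : ZMod n) ↔ i = p := by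
      constructor
      · intro h
        have h3 := congrArg ZMod.val h
        rwa [ZMod.val_natCast_of_lt hi, ZMod.val_natCast_of_lt hp] at h3
      · intro h
        rw [h]
    unfold pf
    rw [List.getElem_append]
    split_ifs with h3 h4 h5
    · rw [e] at h3
      rw [List.length_replicate] at h4
      omega
    · have h6 := e.1 h3
      subst h6
      simp
    · rw [List.getElem_replicate]
    · rw [List.length_replicate] at h5
      obtain ⟨d, hd⟩ : ∃ d, i - p = d + 1 := ⟨i - p - 1, by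
        have : i ≠ p := fun h => h3 (e.2 h)
        omega⟩
      simp only [List.length_replicate, hd, List.getElem_cons_succ, List.getElem_replicate]

theorem ins_nil (x : ℕ) (l : List ℕ) : ins .nil (x :: l) = lv x .nil := rfl

theorem rep_two (n : ℕ) (r : List ℕ) : List.replicate (2 * (n + 1)) 0 ++ r =
    0 :: 0 :: (List.replicate (2 * n) 0 ++ r) := by
  rw [show 2 * (n + 1) = 2 * n + 1 + 1 by ring, List.replicate_succ, List.replicate_succ]
  rfl

theorem rep_four (n : ℕ) (r : List ℕ) : List.replicate (4 * (n + 1)) 0 ++ r =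
    0 :: 0 :: 0 :: 0 :: (List.replicate (4 * n) 0 ++ r) := by
  rw [show 4 * (n + 1) = 4 * n + 1 + 1 + 1 + 1 by ring, List.replicate_succ, List.replicate_succ,
    List.replicate_succ, List.replicate_succ]
  rfl

/-- `()^t` in front -/
theorem ins_lv (t : ℕ) (B : BinaryTree Unit) (r : List ℕ) :
    ins (lv t B) (List.replicate (2 * t) 0 ++ r) = lv2 t (ins B r) := by
  induction t with
  | zero => rfl
  | succ t ih =>
    rw [rep_two]
    change lv 0 (ins .nil (bump .nil [0]) △ ins (lv t B) (List.replicate (2 * t) 0 ++ r)) = _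
    rw [ih]
    rfl

/-- `[2]^t` in front -/
theorem ins_lv2 (t : ℕ) (B : BinaryTree Unit) (r : List ℕ) :
    ins (lv2 t B) (List.replicate (4 * t) 0 ++ r) = H1.th t (ins B r) := by
  induction t with
  | zero => rfl
  | succ t ih =>
    rw [rep_four]
    change lv 0 (ins (.nil △ .nil) (bump (.nil △ .nil) [0, 0, 0]) △
      ins (lv2 t B) (List.replicate (4 * t) 0 ++ r)) = _
    rw [ih]
    rfl

/-- `()^a` with `m` beads in front -/
theorem ins_pile (a m : ℕ) : ins (lv a .nil) (m :: List.replicate (2 * a) 0) = lv m (lv2 a .nil) := by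
  cases a with
  | zero => rfl
  | succ a =>
    have e : List.replicate (2 * (a + 1)) 0 = 0 :: (List.replicate (2 * a) 0 ++ [0]) := by
      rw [show 2 * (a + 1) = 2 * a + 1 + 1 by ring, List.replicate_succ, List.replicate_succ']
    rw [e]
    change lv m (ins .nil (bump .nil [0]) △ ins (lv a .nil) (List.replicate (2 * a) 0 ++ [0])) = _
    rw [ins_lv]
    rfl

/-- `u = [2]^t ()^a` -/
theorem ins_u (t a : ℕ) : ins (lv t .nil) (lf (pf ((2 * t : ℕ) : ZMod (2 * t + 1)) a)) =
    lv2 t (lv a .nil) := by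
  rw [lf_pf (by omega), show 2 * t + 1 - 1 - 2 * t = 0 by omega]
  exact ins_lv t .nil [a]

theorem num_u (t a : ℕ) : (lv2 t (lv a .nil)).numNodes = 2 * t + a := by
  rw [H1.lv2_num, num_hh]

/-- `w = [3]^t ()^m [2]^a` -/
theorem ins_w (t a m : ℕ) {j : ℕ} (hj : 2 * t + a = j) :
    ins (lv2 t (lv a .nil)) (lf (pf ((4 * t : ℕ) : ZMod (2 * j + 1)) m)) =
      H1.th t (H1.L3 m a) := by
  subst hj
  rw [lf_pf (by omega), show 2 * (2 * t + a) + 1 - 1 - 4 * t = 2 * a by omega, ins_lv2, ins_pile]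
  rfl

theorem pf_sum {n : ℕ} [NeZero n] (x : ZMod n) (a : ℕ) : ∑ z, pf x a z = a := by
  unfold pf
  rw [sum_ite_eq' univ x (fun _ => a), if_pos (mem_univ x)]

theorem pf_shift {n : ℕ} (x y : ZMod n) (a : ℕ) : pf y a = fun z => pf x a (z + (x - y)) := by
  funext z
  unfold pf
  congr 1
  rw [eq_iff_iff]
  constructor
  · rintro rfl
    ring
  · intro h
    linear_combination h

/-- **one pile over one pile is one T-cycle** -/
theorem pile_same (ht : 1 ≤ t) {a m : ℕ} {v v' : X t} {u u' : X j} {w w' : X k} (hv : v.1 = lv t .nil)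
    (hv' : v'.1 = lv t .nil) {x x' : ZMod (2 * t + 1)} {y y' : ZMod (2 * j + 1)}
    (hu : u.1 = ins v.1 (lf (pf x a))) (hu' : u'.1 = ins v'.1 (lf (pf x' a)))
    (hw : w.1 = ins u.1 (lf (pf y m))) (hw' : w'.1 = ins u'.1 (lf (pf y' m))) :
    (TT : Equiv.Perm (X k)).SameCycle w w' := by
  have ev : v = hhX t := Subtype.ext hv
  have ev' : v' = hhX t := Subtype.ext hv'
  subst ev ev'
  have n1 := word_phi hu
  have n1' := word_phi hu'
  have n2 := word_phi hw
  have n2' := word_phi hw'
  have e1 : u = phi (hhX t) (pf x a) n1 := Subtype.ext hu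
  have e1' : u' = phi (hhX t) (pf x' a) n1' := Subtype.ext hu'
  subst e1 e1'
  have e2 : w = phi (phi (hhX t) (pf x a) n1) (pf y m) n2 := Subtype.ext hw
  have e2' : w' = phi (phi (hhX t) (pf x' a) n1') (pf y' m) n2' := Subtype.ext hw'
  rw [e2, e2']
  exact same_all ht _ _ (x - x') (pf_shift x x' a) n1 n1' _ _ (y - y') (pf_shift y y' m) n2 n2'

/-- **THE WINDOW T AT THE PILE OVER THE PILE** -/
theorem T_ex {a m : ℕ} (ht : 2 ≤ t) (ha : 1 ≤ a) (hm : 1 ≤ m) {v : X t} {u : X j} {w : X k}
    (hv : v.1 = lv t .nil) {x : ZMod (2 * t + 1)} {y : ZMod (2 * j + 1)}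
    (hu : u.1 = ins v.1 (lf (pf x a))) (hw : w.1 = ins u.1 (lf (pf y m))) :
    ∃ g, TyT {cyc w} g := by
  have hj : 2 * t + a = j := by
    have h1 := word_phi hu
    rw [pf_sum, hv, pkn_lv] at h1
    omega
  have hpu : pkn u.1 = t + a := by
    have h1 := (ins_num v.1 (lf (pf x a)) (by rw [lf_length, X_num])).2
    rw [← hu, lf_sum, pf_sum, hv, pkn_lv] at h1
    exact h1
  have hk : 3 * t + 2 * a + m = k := by
    have h1 := word_phi hw
    rw [pf_sum, hpu] at h1
    omega
  obtain ⟨b, rfl⟩ : ∃ b, t = b + 2 := ⟨t - 2, by omega⟩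
  have hn : H1.NodeT k b m a := ⟨ha, hm, by omega⟩
  refine ⟨gad20 (H1.tX b m a w), b, m, a, w, hn, ?_, rfl⟩
  -- word 10
  have h10 : (H1.tX b m a w 10).1 = H1.th (b + 2) (H1.L3 m a) := by
    rw [← H1.w3_10]
    exact hn.word w (by norm_num)
  have h0 : cyc (H1.tX b m a w 0) = cyc (H1.tX b m a w 10) := by
    have := hn.link w (i := 0) (j := 10) (by simp)
    rw [← this]
    exact cyc_eq.2 ⟨2, by simp [pow_succ]⟩
  rw [h0]
  congr 1
  apply cyc_eq.2
  -- the word 10 as a pile over a pile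
  let v' : X (b + 2) := ⟨lv (b + 2) .nil, mem_treesOfNumNodesEq.2 (num_hh _)⟩
  let u' : X j := ⟨lv2 (b + 2) (lv a .nil), mem_treesOfNumNodesEq.2 (by rw [num_u]; omega)⟩
  refine pile_same (by omega) hv (v' := v') rfl hu (u' := u') (ins_u (b + 2) a).symm hw ?_
    (y' := ((4 * (b + 2) : ℕ) : ZMod (2 * j + 1)))
  rw [h10]
  exact (ins_w (b + 2) a m hj).symm

end HT

end Pool.OddHC
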