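import Pool.Agent.Work.MP_8f87b2_h62.R6a
import Pool.Agent.Work.MP_8f87b2_fin.ClsInv
import Pool.Agent.Work.MP_8f87b2_end.Rows2

/-!
# MP_8f87b2_co, height 3: words over `[2]^t` and `[2]^t ()`

`lf_two`: two occupied gaps. `u0X t = [2]^t`, `u1X t = [2]^t ()`; explicit words of the links of height 3;
`rot_same`: rotation of the beads; `Rd_t0`, `Rd_t1`: the T-cycles of content `3^t 1^m`, `3^t 2 1^m` lie in one family.
-/

set_option autoImplicit false

namespace Pool.OddHC

namespace HT

open Finset BinaryTree Pool.OddHop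

variable {t j k : ℕ}

theorem natCast_inj' {n i p : ℕ} (hi : i < n) (hp : p < n) :
    ((i : ℕ) : ZMod n) = ((p : ℕ) : ZMod n) ↔ i = p := by
  constructor
  · intro h
    have h3 := congrArg ZMod.val h
    rwa [ZMod.val_natCast_of_lt hi, ZMod.val_natCast_of_lt hp] at h3
  · intro h
    rw [h]

theorem lf_two {n : ℕ} {p q : ℕ} (hpq : p < q) (hq : q < n) (a b : ℕ) :
    lf (fun z => pf ((p : ℕ) : ZMod n) a z + pf ((q : ℕ) : ZMod n) b z) =
      List.replicate p 0 ++ a :: (List.replicate (q - p - 1) 0 ++ b :: List.replicate (n - 1 - q) 0) := by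
  apply List.ext_getElem
  · rw [lf_length]
    simp only [List.length_append, List.length_cons, List.length_replicate]
    omega
  · intro i h1 h2
    rw [lf_getElem]
    have hi : i < n := by rwa [lf_length] at h1
    unfold pf
    simp only [natCast_inj' hi (show p < n by omega), natCast_inj' hi hq]
    simp only [List.getElem_append, List.length_replicate, List.getElem_replicate, List.getElem_cons]
    split_ifs <;> first | rfl | omega

/-! ### Parity -/

theorem oddF_choose (j m : ℕ) : oddF j m ↔ Odd ((j + m / 2).choose (m / 2)) := by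
  have h1 : Nat.card (Ms (2 * j + 1) m) = (2 * j + m).choose m := by
    have e1 : Nat.card (Ms (2 * j + 1) m) = Nat.card (Sym (ZMod (2 * j + 1)) m) :=
      (Nat.card_congr (Sym.equivNatSumOfFintype (ZMod (2 * j + 1)) m)).symm
    rw [e1, Nat.card_eq_fintype_card, Sym.card_sym_eq_choose, ZMod.card]
    congr 1
    omega
  unfold oddF
  rw [h1]
  have : Fact (Nat.Prime 2) := ⟨Nat.prime_two⟩
  have h2 := Choose.choose_modEq_choose_mod_mul_choose_div_nat (n := 2 * j + m) (k := m) (p := 2)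
  have h3 : (2 * j + m) % 2 = m % 2 := by omega
  have h4 : (2 * j + m) / 2 = j + m / 2 := by omega
  rw [h3, h4, Nat.choose_self, one_mul] at h2
  rw [Nat.odd_iff, Nat.odd_iff]
  constructor
  · intro h
    rw [← h]
    exact h2.symm
  · intro h
    rw [← h]
    exact h2

theorem ch2 (j q : ℕ) : Odd ((2 * j + q).choose q) ↔ Odd ((j + q / 2).choose (q / 2)) := by
  have : Fact (Nat.Prime 2) := ⟨Nat.prime_two⟩
  have h2 := Choose.choose_modEq_choose_mod_mul_choose_div_nat (n := 2 * j + q) (k := q) (p := 2)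
  have h3 : (2 * j + q) % 2 = q % 2 := by omega
  have h4 : (2 * j + q) / 2 = j + q / 2 := by omega
  rw [h3, h4, Nat.choose_self, one_mul] at h2
  rw [Nat.odd_iff, Nat.odd_iff]
  constructor
  · intro h
    rw [← h]
    exact h2.symm
  · intro h
    rw [← h]
    exact h2

theorem odd1 (j : ℕ) : oddF j 1 := by
  rw [oddF_choose]
  change Odd ((j + 0).choose 0)
  rw [Nat.choose_zero_right]
  exact odd_one

theorem odd_e23 {t m : ℕ} (h1 : 2 ≤ m) (h2 : m ≤ 3) : oddF (2 * t) m := by
  rw [oddF_choose, show m / 2 = 1 by omega, Nat.choose_one_right]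
  exact ⟨t, rfl⟩

theorem even_o23 {t m : ℕ} (h1 : 2 ≤ m) (h2 : m ≤ 3) : ¬ oddF (2 * t + 1) m := by
  rw [oddF_choose, show m / 2 = 1 by omega, Nat.choose_one_right, Nat.not_odd_iff_even]
  exact ⟨t + 1, by ring⟩

theorem odd_e45 {t m : ℕ} (h1 : 4 ≤ m) (h2 : m ≤ 5) : oddF (2 * t) m ↔ t % 2 = 0 := by
  rw [oddF_choose, show m / 2 = 2 by omega, ch2]
  change Odd ((t + 1).choose 1) ↔ _
  rw [Nat.choose_one_right, Nat.odd_iff]
  omega

theorem odd_o45 {t m : ℕ} (h1 : 4 ≤ m) (h2 : m ≤ 5) : oddF (2 * t + 1) m ↔ t % 2 = 0 := by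
  rw [oddF_choose, show m / 2 = 2 by omega]
  have e : (2 * t + 1 + 2).choose 2 = (2 * t + 3) * (t + 1) := by
    rw [Nat.choose_two_right]
    have e2 : (2 * t + 1 + 2) * (2 * t + 1 + 2 - 1) = 2 * ((2 * t + 3) * (t + 1)) := by
      have e3 : 2 * t + 1 + 2 - 1 = 2 * (t + 1) := by omega
      rw [e3]
      ring
    rw [e2, Nat.mul_div_cancel_left _ (by norm_num)]
  rw [e, Nat.odd_mul, Nat.odd_iff, Nat.odd_iff]
  omega

theorem odd_e6 {t : ℕ} : oddF (2 * t) 6 ↔ t % 2 = 0 := by
  rw [oddF_choose]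
  change Odd ((2 * t + 3).choose 3) ↔ _
  rw [ch2]
  change Odd ((t + 1).choose 1) ↔ _
  rw [Nat.choose_one_right, Nat.odd_iff]
  omega

/-! ### The words over `()^t` -/

theorem ht_le_one {v : BinaryTree Unit} (h : ht v ≤ 1) : v = lv v.numNodes .nil := by
  induction v with
  | nil => rfl
  | node _ A B ihA ihB =>
    change max (ht A + 1) (ht B) ≤ 1 at h
    have hA : A = .nil := by
      cases A with
      | nil => rfl
      | node _ A1 A2 =>
        have h1 := (max_le_iff.1 h).1
        change max (ht A1 + 1) (ht A2) + 1 ≤ 1 at h1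
        have := le_max_left (ht A1 + 1) (ht A2)
        omega
    subst hA
    have hB := ihB (max_le_iff.1 h).2
    have e : (BinaryTree.node () .nil B : BinaryTree Unit).numNodes = B.numNodes + 1 := by
      change 0 + B.numNodes + 1 = _
      omega
    rw [e]
    change BinaryTree.nil △ B = .nil △ lv B.numNodes .nil
    rw [← hB]

theorem cont_rep_one {v : BinaryTree Unit} {n : ℕ} (h : cont v = Multiset.replicate n 1) :
    v = lv n .nil := by
  have h1 : v.numNodes = n := by
    rw [← cont_sum, h, Multiset.sum_replicate, smul_eq_mul, mul_one]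
  have h2 : ht v ≤ 1 := by
    rw [ht_eq, h, Multiset.sup_le]
    intro b hb
    exact (Multiset.eq_of_mem_replicate hb).le
  rw [← h1]
  exact ht_le_one h2

theorem map_succ_inj {s s' : Multiset ℕ} (h : s.map (· + 1) = s'.map (· + 1)) : s = s' :=
  Multiset.map_injective (fun a b (e : a + 1 = b + 1) => Nat.succ_injective e) h

theorem count_one_map {s : Multiset ℕ} (h : ∀ x ∈ s, 1 ≤ x) : (s.map (· + 1)).count 1 = 0 := by
  rw [Multiset.count_eq_zero]
  intro h1
  obtain ⟨x, hx, e⟩ := Multiset.mem_map.1 h1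
  have := h x hx
  omega

/-- the words with the content `2^t 1^a` lie over `()^t` -/
theorem over1 {a : ℕ} (u : X j) (h : cont u.1 = Multiset.replicate t 2 + Multiset.replicate a 1) :
    ∃ (F : ZMod (2 * t + 1) → ℕ) (hj : t + pkn (hhX t).1 + ∑ x, F x = j),
      u = phi (hhX t) F hj ∧ ∑ x, F x = a := by
  obtain ⟨i, v, e, he, hu, h1, h2⟩ := red_ex u
  have hc := cont_ins v.1 e (by rw [X_num]; exact he)
  rw [← hu, h] at hc
  have h3 := congrArg (Multiset.count 1) hc
  rw [Multiset.count_add, Multiset.count_add, Multiset.count_replicate_self,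
    count_one_map (cont_pos v.1), Multiset.count_replicate, if_neg (by norm_num), Multiset.count_replicate_self,
    zero_add, zero_add] at h3
  rw [← h3, add_left_inj] at hc
  have h4 : cont v.1 = Multiset.replicate t 1 := by
    apply map_succ_inj
    rw [← hc, Multiset.map_replicate]
  have h5 := cont_rep_one h4
  have hi : i = t := by
    have := X_num v
    rw [h5, num_hh] at this
    exact this.symm
  subst hi
  have hv : v = hhX i := Subtype.ext h5
  obtain ⟨F, rfl⟩ := exists_lf he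
  have h6 : ∑ x, F x = a := by rw [← lf_sum, h3]
  refine ⟨F, ?_, ?_, h6⟩
  · have := word_phi hu
    rw [hv] at this
    exact this
  · apply Subtype.ext
    rw [hu]
    change ins v.1 (lf F) = ins (hhX i).1 (lf F)
    rw [hv]

/-- **rotation of the beads** -/
theorem rot_same (ht : 1 ≤ t) {a : ℕ} {u : X j} (hc : cont u.1 = Multiset.replicate t 2 + Multiset.replicate a 1)
    {f : ZMod (2 * j + 1) → ℕ} (c : ZMod (2 * j + 1)) {w w' : X k} (hw : w.1 = ins u.1 (lf f))
    (hw' : w'.1 = ins u.1 (lf fun x => f (x + c))) : cyc w = cyc w' := by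
  obtain ⟨F, hj, rfl, hF⟩ := over1 u hc
  have n2 := word_phi hw
  have n2' := word_phi hw'
  have e2 : w = phi (phi (hhX t) F hj) f n2 := Subtype.ext hw
  have e2' : w' = phi (phi (hhX t) F hj) (fun x => f (x + c)) n2' := Subtype.ext hw'
  rw [e2, e2']
  exact cyc_eq.2 (same_rot ht F hj f n2 c)

/-- `[2]^t ()^a` -/
def uX (t a : ℕ) : X (2 * t + a) :=
  ⟨lv2 t (lv a .nil), mem_treesOfNumNodesEq.2 (by rw [H1.lv2_num, num_hh])⟩

theorem cont_u (t a : ℕ) : cont (lv2 t (lv a .nil)) = Multiset.replicate t 2 + Multiset.replicate a 1 := by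
  rw [← ins_u, cont_ins _ _ (by rw [lf_length, num_hh]), lf_sum, pf_sum]
  congr 1
  rw [cont_lv, cont_nil, add_zero, Multiset.map_replicate]

/-- rotation over `()^t` -/
theorem hh_rot (ht : 1 ≤ t) (F : ZMod (2 * t + 1) → ℕ) (hk : t + pkn (hhX t).1 + ∑ x, F x = k)
    (c : ZMod (2 * t + 1)) : cyc (phi (hhX t) F hk) =
      cyc (phi (hhX t) (fun x => F (x + c)) (by rw [sum_shift]; exact hk)) := by
  apply cyc_eq.2
  refine ⟨(c.val : ℤ), ?_⟩
  rw [zpow_natCast, pow_phi]
  apply phi_congr (pow_hh ht c.val).2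
  funext x
  rw [(pow_hh ht c.val).1, ZMod.natCast_zmod_val]

/-- at most one bead -/
theorem sum_le_one {n : ℕ} [NeZero n] {F : ZMod n → ℕ} {a : ℕ} (ha : a ≤ 1) (h : ∑ x, F x = a) :
    ∃ x, F = pf x a := by
  rcases Nat.lt_or_ge a 1 with h1 | h1
  · have h0 : a = 0 := by omega
    subst h0
    refine ⟨0, ?_⟩
    funext z
    have h2 := (Finset.sum_eq_zero_iff.1 h) z (mem_univ z)
    rw [h2]
    unfold pf
    split_ifs <;> rfl
  · have h0 : a = 1 := by omega
    subst h0
    obtain ⟨x, -, hx⟩ := Finset.exists_ne_zero_of_sum_ne_zero (s := univ) (f := F) (by rw [h]; norm_num)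
    have h3 := Finset.add_sum_erase univ F (mem_univ x)
    rw [h] at h3
    have h4 : ∑ y ∈ univ.erase x, F y = 0 := by omega
    have h5 : F x = 1 := by omega
    refine ⟨x, ?_⟩
    funext z
    unfold pf
    by_cases hz : z = x
    · rw [if_pos hz, hz, h5]
    · rw [if_neg hz]
      exact (Finset.sum_eq_zero_iff.1 h4) z (Finset.mem_erase.2 ⟨hz, mem_univ z⟩)

/-- **the T-cycles of the content `3^t 2^a 1^m`, `a ≤ 1`, lie in one family** -/
theorem Rd_ta {a m : ℕ} (ht : 1 ≤ t) (ha : a ≤ 1) {p : Cyc k} (hc : contc p =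
    Multiset.replicate t 3 + (Multiset.replicate a 2 + Multiset.replicate m 1)) :
    Rd p = ⟨2 * t + a, cyc (uX t a)⟩ ∧ (contc p).count 1 = m := by
  obtain ⟨j, u, e, w, hw, he, hwe, hR, h1, h2, h3, h4⟩ := exists_over p
  have h5 : (contc p).count 1 = m := by
    rw [hc, Multiset.count_add, Multiset.count_add, Multiset.count_replicate_self,
      Multiset.count_replicate, Multiset.count_replicate, if_neg (by norm_num), if_neg (by norm_num),
      zero_add, zero_add]
  refine ⟨?_, h5⟩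
  rw [h5] at h3
  rw [hc, h3, ← add_assoc, add_left_inj] at h4
  have h6 : cont u.1 = Multiset.replicate t 2 + Multiset.replicate a 1 := by
    apply map_succ_inj
    rw [← h4, Multiset.map_add, Multiset.map_replicate, Multiset.map_replicate]
  obtain ⟨F, hj, hu, hF⟩ := over1 u h6
  obtain ⟨x, rfl⟩ := sum_le_one ha hF
  have hjt : j = 2 * t + a := by
    rw [← hj, pkn_hh, pf_sum]
    omega
  subst hjt
  rw [hR]
  congr 1
  rw [hu]
  have e1 : pf ((2 * t : ℕ) : ZMod (2 * t + 1)) a = fun z => pf x a (z + (x - ((2 * t : ℕ) : ZMod (2 * t + 1)))) :=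
    pf_shift _ _ a
  rw [hh_rot ht _ _ (x - ((2 * t : ℕ) : ZMod (2 * t + 1)))]
  congr 1
  apply Subtype.ext
  change ins (lv t .nil) (lf fun z => pf x a (z + (x - ((2 * t : ℕ) : ZMod (2 * t + 1))))) = lv2 t (lv a .nil)
  rw [← e1]
  exact ins_u t a

/-- every T-cycle over `[2]^t ()^a` is a word over the given phase -/
theorem rot_u (ht : 1 ≤ t) {a : ℕ} {f : ZMod (2 * (2 * t + a) + 1) → ℕ} (c : ZMod (2 * (2 * t + a) + 1))
    {w w' : X k} (hw : w.1 = ins (uX t a).1 (lf f)) (hw' : w'.1 = ins (uX t a).1 (lf fun x => f (x + c))) :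
    cyc w = cyc w' := rot_same ht (a := a) (cont_u t a) c hw hw'

/-- the content of a class -/
theorem cl_eq_iff {a m : ℕ} (ht : 1 ≤ t) (ha : a ≤ 1) {p0 p : Cyc k} (hc : contc p0 =
    Multiset.replicate t 3 + (Multiset.replicate a 2 + Multiset.replicate m 1)) :
    cl p = cl p0 ↔ contc p = contc p0 := by
  constructor
  · intro h
    exact (Prod.ext_iff.1 h).2
  · intro h
    apply cl_fam
    rw [(Rd_ta ht ha hc).1, (Rd_ta ht ha (h.trans hc)).1]

/-! ### Explicit words -/

/-- `[2]^(t-1) B` -/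
theorem u_split {a : ℕ} (ht : 1 ≤ t) : (uX t a).1 = lv2 (t - 1) ((.nil △ .nil) △ lv a .nil) := by
  obtain ⟨s, rfl⟩ : ∃ s, t = s + 1 := ⟨t - 1, by omega⟩
  change lv2 (s + 1) (lv a .nil) = lv2 s _
  have : ∀ n (x : BinaryTree Unit), lv2 (n + 1) x = lv2 n ((.nil △ .nil) △ x) := by
    intro n x
    induction n with
    | zero => rfl
    | succ n ih =>
      change (.nil △ .nil) △ lv2 (n + 1) x = (.nil △ .nil) △ lv2 n _
      rw [ih]
  exact this s _

/-- beads in the last gaps of `[2]^t ()` -/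
theorem ins_last (ht : 1 ≤ t) (r0 r1 r2 r3 r4 r5 r6 : ℕ) :
    ins (uX t 1).1 (List.replicate (4 * (t - 1)) 0 ++ [r0, r1, r2, r3, r4, r5, r6]) =
      H1.th (t - 1) (lv r0 ((lv r1 ((lv (r2 + 1) .nil) △ lv r3 .nil)) △ lv r4 (lv (r5 + 1) .nil △ lv r6 .nil))) := by
  rw [u_split ht, ins_lv2]
  rfl

end HT

end Pool.OddHC
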