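import Pool.Agent.Work.MP_8f87b2_h62.R6b
import Pool.Agent.Work.MP_8f87b2_h20.S5Ty

/-!
# MP_8f87b2_co, height 3: the links

`Sg s a0 a1 a2 a3 a4 = [3]^(s-1) ()^a0 (()^a1 ( ()^(a2+1) ) ()^a3) ()^a4`, `Sq s = [3]^(s-2) ([2]()) [3]`.
`K_ex`: the link `2 -> 1+1`; `Cl_ex`: the link `[2](S)`. Positions of the new T-cycles: `HB`.
-/

set_option autoImplicit false

namespace Pool.OddHC

namespace HT

open Finset BinaryTree Pool.OddHop

variable {t j k : ℕ}

theorem app_th (n : ℕ) (x y : BinaryTree Unit) : app (H1.th n x) y = H1.th n (app x y) := by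
  induction n with
  | zero => rfl
  | succ n ih =>
    change ((.nil △ .nil) △ .nil) △ app (H1.th n x) y = ((.nil △ .nil) △ .nil) △ H1.th n (app x y)
    rw [ih]

theorem app_lvn (n : ℕ) (y : BinaryTree Unit) : app (lv n .nil) y = lv n y := by
  induction n with
  | zero => rfl
  | succ n ih =>
    change .nil △ app (lv n .nil) y = .nil △ lv n y
    rw [ih]

theorem app_lvm (n : ℕ) (x y : BinaryTree Unit) : app (lv n x) y = lv n (app x y) := by
  induction n with
  | zero => rfl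
  | succ n ih =>
    change .nil △ app (lv n x) y = .nil △ lv n (app x y)
    rw [ih]

theorem lv_lv (a b : ℕ) (x : BinaryTree Unit) : lv a (lv b x) = lv (a + b) x := by
  induction a with
  | zero => rw [Nat.zero_add]; rfl
  | succ a ih =>
    rw [show a + 1 + b = (a + b) + 1 by ring]
    change .nil △ lv a (lv b x) = .nil △ lv (a + b) x
    rw [ih]

/-- `[3]^(s-1) ()^a0 (()^a1 ( ()^(a2+1) ) ()^a3) ()^a4` -/
def Sg (s a0 a1 a2 a3 a4 : ℕ) : BinaryTree Unit :=
  H1.th (s - 1) (lv a0 ((lv a1 (lv (a2 + 1) .nil △ lv a3 .nil)) △ lv a4 .nil))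

/-- `[3]^(s-2) ([2]()) [3]` -/
def Sq (s : ℕ) : BinaryTree Unit :=
  H1.th (s - 2) (((.nil △ .nil) △ (.nil △ .nil)) △ (((.nil △ .nil) △ .nil) △ .nil))

/-- `S ()^e (())` -/
theorem Sg_word (s a0 a1 a2 a3 a4 e : ℕ) (hs : 1 ≤ s) :
    app (Sg s a0 a1 a2 a3 a4) (lv e ((.nil △ .nil) △ .nil)) =
      ins (uX s 1).1 (List.replicate (4 * (s - 1)) 0 ++ [a0, a1, a2, a3, a4 + e, 0, 0]) := by
  rw [ins_last hs]
  unfold Sg
  rw [app_th, app_lvm]
  congr 2
  change (lv a1 (lv (a2 + 1) .nil △ lv a3 .nil)) △ app (lv a4 .nil) (lv e ((.nil △ .nil) △ .nil)) = _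
  rw [app_lvn, lv_lv]
  rfl

/-- `S ()^e (())` -/
theorem Sq_word (s e : ℕ) (hs : 2 ≤ s) : app (Sq s) (lv e ((.nil △ .nil) △ .nil)) =
      ins (uX s 1).1 (List.replicate (4 * (s - 2)) 0 ++ [0, 0, 0, 1, 0, 0, 0, 0, e, 0, 0]) := by
  obtain ⟨n, rfl⟩ : ∃ n, s = n + 2 := ⟨s - 2, by omega⟩
  have h1 : (uX (n + 2) 1).1 = lv2 n ((.nil △ .nil) △ ((.nil △ .nil) △ lv 1 .nil)) := by
    change lv2 (n + 2) (lv 1 .nil) = _
    have : ∀ n (x : BinaryTree Unit), lv2 (n + 2) x = lv2 n ((.nil △ .nil) △ ((.nil △ .nil) △ x)) := by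
      intro n x
      induction n with
      | zero => rfl
      | succ n ih =>
        change (.nil △ .nil) △ lv2 (n + 2) x = (.nil △ .nil) △ lv2 n _
        rw [ih]
    exact this n _
  rw [h1, show n + 2 - 2 = n by omega, ins_lv2]
  unfold Sq
  rw [app_th]
  rfl

theorem len_last (s : ℕ) (hs : 1 ≤ s) (r0 r1 r2 r3 r4 r5 r6 : ℕ) :
    (List.replicate (4 * (s - 1)) 0 ++ [r0, r1, r2, r3, r4, r5, r6]).length = 2 * (2 * s + 1) + 1 := by
  rw [List.length_append, List.length_replicate]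
  change 4 * (s - 1) + 7 = _
  omega

theorem sum_last (s : ℕ) (r0 r1 r2 r3 r4 r5 r6 : ℕ) :
    (List.replicate (4 * (s - 1)) 0 ++ [r0, r1, r2, r3, r4, r5, r6]).sum = r0 + r1 + r2 + r3 + r4 + r5 + r6 := by
  rw [List.sum_append, List.sum_replicate, smul_zero, zero_add]
  simp only [List.sum_cons, List.sum_nil]
  ring

theorem cont_of_word {s n : ℕ} {S : BinaryTree Unit} {l : List ℕ} (hl : l.length = 2 * (2 * s + 1) + 1)
    (h : app S (lv 0 ((.nil △ .nil) △ .nil)) = ins (uX s 1).1 l) (hn : l.sum = n) :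
    cont S = Multiset.replicate s 3 + Multiset.replicate n 1 := by
  have h2 := congrArg cont h
  rw [cont_app, cont_ins _ _ (by rw [hl, X_num]), hn] at h2
  have h3 : cont (uX s 1).1 = Multiset.replicate s 2 + Multiset.replicate 1 1 := cont_u s 1
  have h4 : cont (lv 0 ((.nil △ .nil) △ .nil : BinaryTree Unit)) = {2} := by decide
  rw [h3, h4, Multiset.map_add, Multiset.map_replicate, Multiset.map_replicate] at h2
  have h5 : Multiset.replicate 1 (1 + 1) = ({2} : Multiset ℕ) := rfl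
  rw [h5, add_right_comm, add_left_inj] at h2
  exact h2

theorem cont_Sg (s a0 a1 a2 a3 a4 : ℕ) (hs : 1 ≤ s) : cont (Sg s a0 a1 a2 a3 a4) =
    Multiset.replicate s 3 + Multiset.replicate (a0 + a1 + a2 + a3 + a4) 1 :=
  cont_of_word (len_last s hs _ _ _ _ _ _ _) (Sg_word s a0 a1 a2 a3 a4 0 hs) (by rw [sum_last]; omega)

theorem cont_Sq (s : ℕ) (hs : 2 ≤ s) : cont (Sq s) =
    Multiset.replicate s 3 + Multiset.replicate 1 1 := by
  refine cont_of_word ?_ (Sq_word s 0 hs) ?_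
  · rw [List.length_append, List.length_replicate]
    change 4 * (s - 2) + 11 = _
    omega
  · rw [List.sum_append, List.sum_replicate, smul_zero, zero_add]
    rfl

theorem ht_of_cont {s n : ℕ} {S : BinaryTree Unit} (hs : 1 ≤ s)
    (h : cont S = Multiset.replicate s 3 + Multiset.replicate n 1) : ht S = 3 := by
  rw [ht_eq, h]
  apply le_antisymm
  · rw [Multiset.sup_le]
    intro b hb
    rcases Multiset.mem_add.1 hb with h | h
    · rw [Multiset.eq_of_mem_replicate h]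
    · rw [Multiset.eq_of_mem_replicate h]
      norm_num
  · apply Multiset.le_sup
    apply Multiset.mem_add.2
    left
    rw [Multiset.mem_replicate]
    exact ⟨by omega, rfl⟩

theorem num_of_cont {s n : ℕ} {S : BinaryTree Unit}
    (h : cont S = Multiset.replicate s 3 + Multiset.replicate n 1) : S.numNodes = 3 * s + n := by
  rw [← cont_sum, h, Multiset.sum_add, Multiset.sum_replicate, Multiset.sum_replicate]
  simp only [smul_eq_mul]
  ring

/-- the T-cycle `p` has the beads `f` over `[2]^t ()^a` -/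
def HB (t a : ℕ) (p : Cyc k) (f : ZMod (2 * (2 * t + a) + 1) → ℕ) : Prop :=
  ∃ w : X k, cyc w = p ∧ w.1 = ins (uX t a).1 (lf f)

theorem HB.rot (ht : 1 ≤ t) {a : ℕ} {p : Cyc k} {f : ZMod (2 * (2 * t + a) + 1) → ℕ} (h : HB t a p f)
    (c : ZMod (2 * (2 * t + a) + 1)) : HB t a p (fun x => f (x + c)) := by
  obtain ⟨w, hw, hf⟩ := h
  have h1 := word_phi hf
  have h2 : 2 * t + a + pkn (uX t a).1 + ∑ x, f (x + c) = k := by
    rw [sum_shift]
    exact h1
  refine ⟨phi (uX t a) (fun x => f (x + c)) h2, ?_, rfl⟩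
  rw [← hw]
  exact (rot_u ht c hf rfl).symm

theorem HB.eq {a : ℕ} {p q : Cyc k} {f : ZMod (2 * (2 * t + a) + 1) → ℕ} (h : HB t a p f)
    (h' : HB t a q f) : p = q := by
  obtain ⟨w, rfl, hw⟩ := h
  obtain ⟨w', rfl, hw'⟩ := h'
  rw [Subtype.ext (hw.trans hw'.symm)]

theorem HB.Rd {a : ℕ} {p : Cyc k} {f : ZMod (2 * (2 * t + a) + 1) → ℕ} (h : HB t a p f) :
    Rd p = ⟨2 * t + a, cyc (uX t a)⟩ := by
  obtain ⟨w, rfl, hw⟩ := h
  exact Rd_ins (lf_length _) hw

/-- one pile -/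
theorem lf_p {N n i : ℕ} (hN : N = 4 * n + 7) (hi : i < 7) (a : ℕ) : lf (pf ((4 * n + i : ℕ) : ZMod N) a) =
    List.replicate (4 * n) 0 ++ (List.replicate i 0 ++ a :: List.replicate (6 - i) 0) := by
  rw [lf_pf (by omega), List.replicate_add, List.append_assoc,
    show N - 1 - (4 * n + i) = 6 - i by omega]

/-- two gaps -/
theorem lf_pp {N n i l : ℕ} (r : ℕ) (hN : N = 4 * n + r + 1) (hi : i < l) (hl : l < r + 1) (a b : ℕ) :
    lf (fun z => pf ((4 * n + i : ℕ) : ZMod N) a z + pf ((4 * n + l : ℕ) : ZMod N) b z) =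
      List.replicate (4 * n) 0 ++
        (List.replicate i 0 ++ a :: (List.replicate (l - i - 1) 0 ++ b :: List.replicate (r - l) 0)) := by
  rw [lf_two (by omega) (by omega), List.replicate_add, List.append_assoc,
    show N - 1 - (4 * n + l) = r - l by omega,
    show 4 * n + l - (4 * n + i) - 1 = l - i - 1 by omega]

/-- a pile -/
theorem HB_pile (ht : 1 ≤ t) {w : X k} {a : ℕ}
    (hw : w.1 = ins (uX t 1).1 (List.replicate (4 * (t - 1)) 0 ++ [0, 0, 0, 0, a, 0, 0]))
    (x : ZMod (2 * (2 * t + 1) + 1)) : HB t 1 (cyc w) (pf x a) := by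
  have e := lf_p (N := 2 * (2 * t + 1) + 1) (n := t - 1) (i := 4) (by omega) (by norm_num) a
  have h1 : HB t 1 (cyc w) (pf (((4 * (t - 1) + 4 : ℕ) : ZMod (2 * (2 * t + 1) + 1))) a) := by
    refine ⟨w, rfl, ?_⟩
    rw [hw]
    congr 1
    exact e.symm
  have h2 := h1.rot ht (((4 * (t - 1) + 4 : ℕ) : ZMod (2 * (2 * t + 1) + 1)) - x)
  rwa [← pf_shift] at h2

theorem pf_shift2 {n : ℕ} (x y d : ZMod n) (a b : ℕ) : (fun z => pf y a z + pf (y + d) b z) =
    fun z => (fun z => pf x a z + pf (x + d) b z) (z + (x - y)) := by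
  funext z
  have h1 := congrFun (pf_shift x y a) z
  have h2 := congrFun (pf_shift (x + d) (y + d) b) z
  rw [show x + d - (y + d) = x - y by ring] at h2
  rw [h1, h2]

/-- two occupied gaps -/
theorem HB_gen (ht : 1 ≤ t) {w : X k} {n a b i l r : ℕ} (hN : 2 * (2 * t + 1) + 1 = 4 * n + r + 1) (hi : i < l)
    (hl : l < r + 1) (hw : w.1 = ins (uX t 1).1 (List.replicate (4 * n) 0 ++
        (List.replicate i 0 ++ a :: (List.replicate (l - i - 1) 0 ++ b :: List.replicate (r - l) 0))))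
    (x : ZMod (2 * (2 * t + 1) + 1)) :
    HB t 1 (cyc w) (fun z => pf x a z + pf (x + ((l - i : ℕ) : ZMod (2 * (2 * t + 1) + 1))) b z) := by
  have e := lf_pp (N := 2 * (2 * t + 1) + 1) (n := n) (i := i) (l := l) r hN hi hl a b
  have e2 : ((4 * n + l : ℕ) : ZMod (2 * (2 * t + 1) + 1)) =
      ((4 * n + i : ℕ) : ZMod (2 * (2 * t + 1) + 1)) + ((l - i : ℕ) : ZMod (2 * (2 * t + 1) + 1)) := by
    rw [← Nat.cast_add]
    congr 1
    omega
  rw [e2] at e
  have h1 : HB t 1 (cyc w) (fun z => pf ((4 * n + i : ℕ) : ZMod (2 * (2 * t + 1) + 1)) a z +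
      pf (((4 * n + i : ℕ) : ZMod (2 * (2 * t + 1) + 1)) +
        ((l - i : ℕ) : ZMod (2 * (2 * t + 1) + 1))) b z) := ⟨w, rfl, by rw [hw, e]⟩
  have h2 := h1.rot ht (((4 * n + i : ℕ) : ZMod (2 * (2 * t + 1) + 1)) - x)
  rwa [← pf_shift2] at h2

/-- two occupied gaps of the last component -/
theorem HB_two (ht : 1 ≤ t) {w : X k} {a b i : ℕ} (hi : i < 4)
    (hw : w.1 = ins (uX t 1).1 (List.replicate (4 * (t - 1)) 0 ++
      (List.replicate i 0 ++ a :: (List.replicate (3 - i) 0 ++ [b, 0, 0]))))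
    (x : ZMod (2 * (2 * t + 1) + 1)) :
    HB t 1 (cyc w) (fun z => pf x a z + pf (x + ((4 - i : ℕ) : ZMod (2 * (2 * t + 1) + 1))) b z) := by
  refine HB_gen ht (n := t - 1) (r := 6) (by omega) hi (by norm_num) ?_ x
  rw [hw, show 4 - i - 1 = 3 - i by omega]
  rfl

/-! ### The links -/

/-- the link `(S)() ; S(()), ()()S` -/
theorem K_ex {s n : ℕ} {S : BinaryTree Unit} (hs : 1 ≤ s)
    (hc : cont S = Multiset.replicate s 3 + Multiset.replicate n 1) (hk : 3 * s + n + 2 = k) :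
    ∃ (b c : X k) (g : DG k), b.1 = app S (lv 0 ((.nil △ .nil) △ .nil)) ∧
      c.1 = lv 2 S ∧ TyK S {cyc b, cyc c} g ∧
      cont b.1 = Multiset.replicate s 3 + (Multiset.replicate 1 2 + Multiset.replicate n 1) ∧
      cont c.1 = Multiset.replicate s 3 + (Multiset.replicate 0 2 + Multiset.replicate (n + 2) 1) := by
  have hh := ht_of_cont hs hc
  have e1 : cont (w1 S (.nil △ .nil) .nil) = cont S + {2} := by
    rw [cont_w1]
    congr 1
  have e2 : cont (w1 (.nil △ .nil) .nil S) = cont S + Multiset.replicate 2 1 := by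
    rw [cont_w1, add_comm, cont_nil, raise_zero]
    have : cont (.nil △ .nil : BinaryTree Unit) = {1} := by decide
    rw [this]
    have h2 : Multiset.replicate 2 1 = ({1} + {1} : Multiset ℕ) := rfl
    rw [h2, ← add_assoc]
    congr 1
    rw [add_comm]
  obtain ⟨b, c, g, hb, hcc, hg⟩ := mk_tri (k := k) .nil S (.nil △ .nil)
    (by rw [num_of_cont hc]; change 0 + _ + 1 + 1 = k; omega)
    (by
      rw [e1, e2]
      intro h
      have := congrArg (Multiset.count 2) (add_left_cancel h)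
      simp at this)
    (by
      rw [ht_w1, ht_w1, hh]
      decide)
    (by
      rw [ht_w1, ht_w1, hh]
      decide)
  refine ⟨b, c, g, hb, hcc, hg, ?_, ?_⟩
  · rw [hb, e1, hc, add_assoc]
    congr 1
    rw [add_comm]
    rfl
  · rw [hcc, e2, hc, add_assoc]
    congr 1
    rw [← Multiset.replicate_add, Multiset.replicate_zero, zero_add]

/-- the link `[2](S) ; S()[2], [3]S` -/
theorem Cl_ex {s n : ℕ} {S : BinaryTree Unit} (hs : 1 ≤ s)
    (hc : cont S = Multiset.replicate s 3 + Multiset.replicate n 1) (hk : 3 * s + n + 3 = k) :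
    ∃ (b c : X k) (g : DG k), b.1 = app S (lv 1 ((.nil △ .nil) △ .nil)) ∧
      c.1 = ((.nil △ .nil) △ .nil) △ S ∧ TyC' 2 S {cyc b, cyc c} g ∧
      cont b.1 = Multiset.replicate s 3 + (Multiset.replicate 1 2 + Multiset.replicate (n + 1) 1) ∧
      cont c.1 = Multiset.replicate (s + 1) 3 + (Multiset.replicate 0 2 + Multiset.replicate n 1) := by
  have hh := ht_of_cont hs hc
  have e1 : cont (w1 S .nil (H1.ch 2)) = cont S + {1, 2} := by
    rw [cont_w1]
    congr 1
  have e2 : cont (w1 .nil (H1.ch 2) S) = cont S + {3} := by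
    rw [cont_w1, cont_nil, zero_add, add_comm]
    congr 1
  obtain ⟨b, c, g, hb, hcc, hg⟩ := mk_tri (k := k) (H1.ch 2) S .nil
    (by rw [num_of_cont hc]; change 2 + _ + 0 + 1 = k; omega)
    (by
      rw [e1, e2]
      intro h
      have := congrArg (Multiset.count 3) (add_left_cancel h)
      simp at this)
    (by
      rw [ht_w1, ht_w1, hh]
      decide)
    (by
      rw [ht_w1, ht_w1, hh]
      decide)
  refine ⟨b, c, g, hb, hcc, hg, ?_, ?_⟩
  · rw [hb, e1, hc, add_assoc, Multiset.replicate_succ]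
    congr 1
    have h3 : ({1, 2} : Multiset ℕ) = {1} + {2} := rfl
    rw [h3, ← add_assoc, add_comm]
    congr 1
    rw [add_comm]
    rfl
  · rw [hcc, e2, hc, Multiset.replicate_zero, zero_add, Multiset.replicate_succ, add_right_comm]
    congr 1
    rw [add_comm]
    rfl

end HT

end Pool.OddHC
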