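import Pool.Agent.Work.MP_8f87b2_h62.R6c

/-!
# MP_8f87b2_co, height 3: removal sets of the families over `[2]^t ()`

`HB_ex`, `HB_rel`: T-cycles and bead functions; `rem_*` : removal sets; `T_win` : the window T at the pile;
`cls_e`, `cls_w` : a class with one family.
-/

set_option autoImplicit false

namespace Pool.OddHC

namespace HT

open Finset BinaryTree Pool.OddHop

variable {t j k : ℕ}

/-- every T-cycle of the family -/
theorem HB_ex (ht : 1 ≤ t) {a : ℕ} {p : Cyc k} (h : Rd p = ⟨2 * t + a, cyc (uX t a)⟩) :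
    ∃ f, HB t a p f ∧ ∑ x, f x = (contc p).count 1 := by
  have h1 := Rd_size p
  rw [h] at h1
  change 2 * t + a + pkc (cyc (uX t a)) + _ = k at h1
  rw [pkc_cyc] at h1
  obtain ⟨g, hg, F, hinj, hF, hR, hs, hH, hA⟩ := family_rem (by omega) (uX t a) _ h1
  obtain ⟨q, hq⟩ := hs p h
  obtain ⟨b, rfl⟩ := Quotient.exists_rep q
  refine ⟨b.1, ⟨phi (uX t a) b.1 (by rw [b.2]; exact h1), ?_, rfl⟩, b.2⟩
  exact (hF b _ rfl).symm.trans hq

/-- equal T-cycles: the beads are rotated -/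
theorem HB_rel (ht : 1 ≤ t) {a : ℕ} {p : Cyc k} {f f' : ZMod (2 * (2 * t + a) + 1) → ℕ} (h : HB t a p f)
    (h' : HB t a p f') : ∃ c, ∀ x, f' (x + c) = f x := by
  obtain ⟨w, hw, hf⟩ := h
  obtain ⟨w', hw', hf'⟩ := h'
  have n1 := word_phi hf
  have n2 := word_phi hf'
  have hs : ∑ x, f' x = ∑ x, f x := by omega
  obtain ⟨g, hg, F, hinj, hF, -⟩ := family_rem (by omega) (uX t a) (∑ x, f x) n1
  have e1 := hF ⟨f, rfl⟩ w hf
  have e2 := hF ⟨f', hs⟩ w' hf'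
  have e3 := hinj (e1.trans (hw.trans (hw'.symm.trans e2.symm)))
  have hr : RelB hg f f' := Quotient.exact e3
  obtain ⟨c, _, hc⟩ := hr
  exact ⟨c, hc⟩

theorem HB.sum {a : ℕ} {p : Cyc k} {f : ZMod (2 * (2 * t + a) + 1) → ℕ} (h : HB t a p f) :
    ∑ x, f x = (contc p).count 1 := by
  obtain ⟨w, rfl, hw⟩ := h
  rw [contc_cyc, hw, count_one_ins _ _ (by rw [lf_length, X_num]), lf_sum]

/-- a T-cycle with the given beads -/
theorem HB_mk (a : ℕ) (f : ZMod (2 * (2 * t + a) + 1) → ℕ) (h : 3 * t + 2 * a + ∑ x, f x = k) :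
    ∃ p : Cyc k, HB t a p f := by
  have h2 : pkn (uX t a).1 = t + a := by
    change pkn (lv2 t (lv a .nil)) = _
    have h1 := (ins_num (lv t .nil) (lf (pf ((2 * t : ℕ) : ZMod (2 * t + 1)) a)) (by rw [lf_length, num_hh])).2
    rwa [ins_u, lf_sum, pf_sum, pkn_lv] at h1
  exact ⟨_, phi (uX t a) f (by rw [h2]; omega), rfl, rfl⟩

/-- pile and near pile are different -/
theorem ne_pn (ht : 1 ≤ t) {m : ℕ} (hm : 3 ≤ m) {p q : Cyc k} {x x' y : ZMod (2 * (2 * t + 1) + 1)} (hy : y ≠ x')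
    (h : HB t 1 p (pf x m)) (h' : HB t 1 q (fun z => pf x' (m - 1) z + pf y 1 z)) : p ≠ q := by
  rintro rfl
  obtain ⟨c, hc⟩ := HB_rel ht h h'
  have h1 := hc x
  unfold pf at h1
  simp only [if_true] at h1
  by_cases h2 : x + c = x'
  · rw [if_pos h2, if_neg (by rw [h2]; exact fun h => hy h.symm)] at h1
    omega
  · rw [if_neg h2] at h1
    split_ifs at h1 <;> omega

/-- the two near piles are different -/
theorem ne_nn (ht : 1 ≤ t) {m : ℕ} (hm : 3 ≤ m) {p q : Cyc k} {x : ZMod (2 * (2 * t + 1) + 1)}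
    (h : HB t 1 p (fun z => pf x (m - 1) z + pf (x + 1) 1 z))
    (h' : HB t 1 q (fun z => pf x (m - 1) z + pf (x - 1) 1 z)) : p ≠ q := by
  rintro rfl
  have : Fact (1 < 2 * (2 * t + 1) + 1) := ⟨by omega⟩
  obtain ⟨c, hc⟩ := HB_rel ht h h'
  have hne1 : x ≠ x + 1 := fun h => one_ne_zero (left_eq_add.1 h)
  have h2 := hc x
  unfold pf at h2
  simp only [if_true] at h2
  rw [if_neg hne1] at h2
  have hcx : x + c = x := by
    by_contra h3
    rw [if_neg h3] at h2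
    split_ifs at h2 <;> omega
  have hc0 : c = 0 := add_eq_left.1 hcx
  subst hc0
  have h3 := hc (x + 1)
  unfold pf at h3
  rw [add_zero, if_neg (fun h => hne1 h.symm), if_pos rfl,
    if_neg (one_ne_neg_one_of_odd ⟨2 * t + 1, rfl⟩ (by omega) x)] at h3
  omega

theorem x_ne {n : ℕ} (hn : 1 < n) (x : ZMod n) : x + 1 ≠ x ∧ x - 1 ≠ x := by
  have : Fact (1 < n) := ⟨hn⟩
  exact ⟨fun h => one_ne_zero (add_eq_left.1 h), fun h => one_ne_zero (sub_eq_self.1 h)⟩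

/-! ### Removal sets -/

theorem rem_py {m : ℕ} (hm : 3 ≤ m) {p q : Cyc k} {x y : ZMod (2 * (2 * t + 1) + 1)} (hy : y = x + 1 ∨ y = x - 1)
    (hp : HB t 1 p (pf x m)) (hq : HB t 1 q (fun z => pf x (m - 1) z + pf y 1 z)) (hev : ¬ oddF (2 * t + 1) m) :
    RemOK ⟨2 * t + 1, cyc (uX t 1)⟩ {p, q} := by
  obtain ⟨w, rfl, hw⟩ := hp
  obtain ⟨w', rfl, hw'⟩ := hq
  exact remOK_py (by omega) hm hy hw hw' hev

theorem rem_ypy {m : ℕ} (hm : 3 ≤ m) {p q q' : Cyc k} {x : ZMod (2 * (2 * t + 1) + 1)}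
    (hp : HB t 1 p (pf x m)) (hq : HB t 1 q (fun z => pf x (m - 1) z + pf (x + 1) 1 z))
    (hq' : HB t 1 q' (fun z => pf x (m - 1) z + pf (x - 1) 1 z)) (hod : oddF (2 * t + 1) m) :
    RemOK ⟨2 * t + 1, cyc (uX t 1)⟩ {p, q, q'} := by
  obtain ⟨w, rfl, hw⟩ := hp
  obtain ⟨w', rfl, hw'⟩ := hq
  obtain ⟨w'', rfl, hw''⟩ := hq'
  exact remOK_ypy (by omega) hm hw hw' hw'' hod

theorem rem_one {d : RD} {p : Cyc k} {m : ℕ} (hd : Rd p = d) (hm : (contc p).count 1 = m) (ho : oddF d.1 m)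
    (h2 : m = 2 → IsTwo p) : RemOK d {p} := by
  refine (remOK_lo d p hd (fun h _ => h2 (by rw [← hm, h]))).congr ?_
  intro q _
  rw [hm]
  exact ⟨fun h => h.1, fun h => ⟨h, ho⟩⟩

/-- two beads at the distance `d` -/
def H2 (t : ℕ) (p : Cyc k) (d : ℕ) : Prop :=
  HB t 1 p (fun z => pf 0 1 z + pf (0 + ((d : ℕ) : ZMod (2 * (2 * t + 1) + 1))) 1 z)

theorem pf_comm {n : ℕ} (x y : ZMod n) (a b : ℕ) : (fun z => pf x a z + pf y b z) = fun z => pf y b z + pf x a z := by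
  funext z
  rw [add_comm]

theorem HB.at (ht : 1 ≤ t) {p : Cyc k} {x : ZMod (2 * (2 * t + 1) + 1)} {d : ZMod (2 * (2 * t + 1) + 1)} {a b : ℕ}
    (h : HB t 1 p (fun z => pf x a z + pf (x + d) b z)) (y : ZMod (2 * (2 * t + 1) + 1)) :
    HB t 1 p (fun z => pf y a z + pf (y + d) b z) := by
  rw [pf_shift2 x y d a b]
  exact h.rot ht (x - y)

theorem H2.tc (ht : 1 ≤ t) {p : Cyc k} {d : ℕ} (h : H2 t p d) (hk : 2 * t + 1 + pkn (uX t 1).1 + 2 = k)
    (x : ZMod (2 * (2 * t + 1) + 1)) : p = tc (uX t 1) hk x d := by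
  obtain ⟨w, rfl, hw⟩ := HB.at ht h x
  exact tc_word _ hk x d hw

theorem H2.hk {p : Cyc k} {d : ℕ} (h : H2 t p d) : 2 * t + 1 + pkn (uX t 1).1 + 2 = k := by
  obtain ⟨w, rfl, hw⟩ := h
  have := word_phi hw
  rwa [sum_add_distrib, pf_sum, pf_sum] at this

theorem H2.ne (ht : 1 ≤ t) {p q : Cyc k} {d d' : ℕ} (h : H2 t p d) (h' : H2 t q d') (hd : d ≤ 2 * t + 1)
    (hd' : d' ≤ 2 * t + 1) (hne : d ≠ d') : p ≠ q := by
  intro e
  have hk := h.hk
  obtain ⟨-, h2, -, -⟩ := two_family (by omega) (uX t 1) hk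
  apply hne
  refine h2 0 0 d d' hd hd' ?_
  rw [← h.tc ht hk 0, ← h'.tc ht hk 0, e]

/-- the levels of the row pairs `A` -/
theorem rem_rows (ht : 1 ≤ t) (hk : 2 * t + 1 + pkn (uX t 1).1 + 2 = k) (A : ℕ → Prop) :
    RemOK ⟨2 * t + 1, cyc (uX t 1)⟩ {p : Cyc k | ∃ i, i ≤ t ∧ A i ∧ (H2 t p (2 * i) ∨ H2 t p (2 * i + 1))} := by
  classical
  obtain ⟨-, -, -, h4⟩ := two_family (by omega) (uX t 1) hk
  refine (h4 (fun i => if A i then some (0, 0) else none) (fun _ => true) 0 (fun _ _ => False)).congr ?_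
  have key : ∀ (d : ℕ) (p : Cyc k), p = tc (uX t 1) hk 0 d ↔ H2 t p d := by
    intro d p
    constructor
    · rintro rfl
      obtain ⟨w, hw, hw2⟩ := tc_exists (uX t 1) hk 0 d
      exact ⟨w, hw, hw2⟩
    · intro h
      exact h.tc ht hk 0
  intro p _
  constructor
  · rintro (⟨h, _⟩ | ⟨i, a, b, h1, h2, h3⟩ | ⟨i, x, h1, h2, h3, h4⟩)
    · omega
    · by_cases hA : A i
      · rw [if_pos hA] at h2
        obtain ⟨rfl, rfl⟩ : (0, 0) = (a, b) := Option.some.inj h2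
        exact ⟨i, by omega, hA, h3.imp (key _ _).1 (key _ _).1⟩
      · rw [if_neg hA] at h2
        exact absurd h2 (by simp)
    · exact absurd h3 (by simp)
  · rintro ⟨i, h1, h2, h3⟩
    right; left
    exact ⟨i, 0, 0, by omega, if_pos h2, h3.imp (key _ _).2 (key _ _).2⟩

/-! ### The window T -/

theorem T_win (ht : 2 ≤ t) {m : ℕ} (hm : 1 ≤ m) {p : Cyc k} {x : ZMod (2 * (2 * t + 1) + 1)}
    (h : HB t 1 p (pf x m)) : ∃ g, TyT {p} g := by
  obtain ⟨w, rfl, hw⟩ := h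
  exact T_ex ht le_rfl hm (v := hhX t) rfl (u := uX t 1) (ins_u t 1).symm hw

/-! ### A class with one family -/

variable {τp τw : Type} {Pp : τp → Set (Cyc k) → DG k → Prop} {Pw : τw → Set (Cyc k) → DG k → Prop}
  {AE : Cyc k → Cyc k → Prop}

theorem cls_e {p0 : Cyc k} {d : RD} (hd : ∀ p : Cyc k, cl p = cl p0 → Rd p = d) {X D : Set (Cyc k)}
    (hX : ∀ p, cl p = cl p0 → (p ∈ X ↔ p ∈ D)) (h0 : Rd p0 = d)
    (hAE : ∀ p q : Cyc k, cl p = cl p0 → cl q = cl p0 → p ≠ q → HopC p q → AE p q) (hr : RemOK d D) :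
    ∃ Gp Gw, ClsOK AE (cl p0) X Gp Gw Pp Pw := by
  obtain ⟨Gp, Gw, -, h⟩ := cls_of_set (Pp := Pp) (Pw := Pw) (AE := AE) (κ := cl p0) (X := X) ∅
    (fun F hF => absurd hF (Set.notMem_empty _)) (fun F hF => absurd hF (Set.notMem_empty _))
    (fun F hF => absurd hF (Set.notMem_empty _)) (fun F hF => absurd hF (Set.notMem_empty _)) (by
      intro p hp
      rw [hd p hp]
      refine (hr.remA.mono fun p q hp hq hne h =>
        hAE p q (cl_fam (hp.trans h0.symm)) (cl_fam (hq.trans h0.symm)) hne h).congr fun q hq => ?_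
      rw [← hX q (cl_fam (hq.trans h0.symm))]
      constructor
      · exact Or.inr
      · rintro (⟨F, hF, _⟩ | h)
        · exact absurd hF (Set.notMem_empty _)
        · exact h)
  exact ⟨Gp, Gw, h⟩

theorem cls_w {p0 : Cyc k} {d : RD} (hd : ∀ p : Cyc k, cl p = cl p0 → Rd p = d) {X D : Set (Cyc k)}
    (P : Cyc k) (hP : Rd P = d) (hPX : P ∉ X) (hX : ∀ p, cl p = cl p0 → (p ∈ X ∨ p = P ↔ p ∈ D))
    (h0 : Rd p0 = d) (hAE : ∀ p q : Cyc k, cl p = cl p0 → cl q = cl p0 → p ≠ q → HopC p q → AE p q) (hty : Typd Pp Pw {P}) (hr : RemOK d D) :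
    ∃ Gp Gw, ClsOK AE (cl p0) X Gp Gw Pp Pw := by
  have hclP : cl P = cl p0 := cl_fam (hP.trans h0.symm)
  obtain ⟨Gp, Gw, -, h⟩ := cls_of_set (Pp := Pp) (Pw := Pw) (AE := AE) (κ := cl p0) (X := X) {{P}}
    (by rintro F rfl; exact ⟨P, rfl⟩) (by rintro F rfl c rfl; exact ⟨hclP, hPX⟩)
    (by rintro F rfl F' rfl c _ _; rfl) (by rintro F rfl; exact hty) (by
      intro p hp
      rw [hd p hp]
      refine (hr.remA.mono fun p q hp hq hne h =>
        hAE p q (cl_fam (hp.trans h0.symm)) (cl_fam (hq.trans h0.symm)) hne h).congr fun q hq => ?_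
      rw [← hX q (cl_fam (hq.trans h0.symm))]
      constructor
      · rintro (h | rfl)
        · exact Or.inr h
        · exact Or.inl ⟨{q}, rfl, rfl⟩
      · rintro (⟨F, rfl, h⟩ | h)
        · exact Or.inr h
        · exact Or.inl h)
  exact ⟨Gp, Gw, h⟩

end HT

end Pool.OddHC
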