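import Pool.Agent.Work.MP_8f87b2_h62.R6d

/-!
# MP_8f87b2_co, height 3: the links with their positions

`kf`, `cf` : the beads of the guests of `K` and of `[2](S)`; `K_pos`, `C_pos` : existence.
-/

set_option autoImplicit false

namespace Pool.OddHC

namespace HT

open Finset BinaryTree Pool.OddHop

variable {t k : ℕ}

/-- the content `3^t 2^a 1^m` -/
def CT (t a m : ℕ) : Multiset ℕ :=
  Multiset.replicate t 3 + (Multiset.replicate a 2 + Multiset.replicate m 1)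

theorem CT_inj {t a m t' a' m' : ℕ} (h : CT t a m = CT t' a' m') : t = t' ∧ a = a' ∧ m = m' := by
  have h3 := congrArg (Multiset.count 3) h
  have h2 := congrArg (Multiset.count 2) h
  have h1 := congrArg (Multiset.count 1) h
  unfold CT at h1 h2 h3
  simp only [Multiset.count_add, Multiset.count_replicate] at h1 h2 h3
  norm_num at h1 h2 h3
  exact ⟨h3, h2, h1⟩

theorem CT_one (t a m : ℕ) : (CT t a m).count 1 = m := by
  unfold CT
  simp only [Multiset.count_add, Multiset.count_replicate]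
  norm_num

theorem Rd_CT {a m : ℕ} (ht : 1 ≤ t) (ha : a ≤ 1) {p : Cyc k} (hc : contc p = CT t a m) :
    Rd p = ⟨2 * t + a, cyc (uX t a)⟩ := (Rd_ta ht ha hc).1

open Classical in
/-- the beads of the `K` guest in `(t;1,m)` -/
noncomputable def kf (t m : ℕ) : ZMod (2 * (2 * t + 1) + 1) → ℕ :=
  if m = 2 then fun z => pf 0 1 z + pf (0 + ((4 : ℕ) : ZMod (2 * (2 * t + 1) + 1))) 1 z
  else if m = 0 ∨ (m ≠ 4 ∧ oddF (2 * t + 1) m) then pf 0 m
  else fun z => pf 0 1 z + pf (0 + ((1 : ℕ) : ZMod (2 * (2 * t + 1) + 1))) (m - 1) z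

/-- the beads of the guest of `[2](S)` in `(t;1,m)`, `m = 1, 2, 4` -/
def cf (t m : ℕ) : ZMod (2 * (2 * t + 1) + 1) → ℕ :=
  if m = 1 then pf 0 1
  else if m = 2 then
    (if t % 2 = 1 then fun z => pf 0 1 z + pf (0 + ((1 : ℕ) : ZMod (2 * (2 * t + 1) + 1))) 1 z
    else fun z => pf 0 1 z + pf (0 + ((5 : ℕ) : ZMod (2 * (2 * t + 1) + 1))) 1 z)
  else (if t % 2 = 1 then fun z => pf 0 1 z + pf (0 + ((1 : ℕ) : ZMod (2 * (2 * t + 1) + 1))) 3 z
    else fun z => pf 0 3 z + pf (0 + ((1 : ℕ) : ZMod (2 * (2 * t + 1) + 1))) 1 z)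

/-- the shapes of the `K` links -/
def KS3 (S : BinaryTree Unit) : Prop := ∃ t, 3 ≤ t ∧
  ((∃ n, n ≠ 1 ∧ S = Sg t 0 0 0 0 n) ∨ S = Sg t 1 0 0 0 1 ∨ ∃ n, S = Sg t 0 0 0 1 (n + 1))

/-- the shapes of the `[2](S)` links -/
def CS3 (S : BinaryTree Unit) : Prop := ∃ t, 3 ≤ t ∧
  (S = Sg t 0 0 0 0 0 ∨ (∃ n, S = Sg t 0 0 0 1 n) ∨ S = Sg t 0 0 0 3 0 ∨ S = Sq t)

/-- TYPE K at height 3 -/
def TyK3 (F : Set (Cyc k)) (g : DG k) : Prop := ∃ S, KS3 S ∧ TyK S F g

/-- TYPE Cl at height 3 -/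
def TyC3 (F : Set (Cyc k)) (g : DG k) : Prop := ∃ S, CS3 S ∧ TyC' 2 S F g

theorem ins_front (t m : ℕ) : ins (lv2 t .nil) (m :: List.replicate (4 * t) 0) = lv m (H1.th t .nil) := by
  cases t with
  | zero => rfl
  | succ t =>
    have e : m :: List.replicate (4 * (t + 1)) 0 = m :: 0 :: 0 :: 0 :: (List.replicate (4 * t) 0 ++ [0]) := by
      rw [show 4 * (t + 1) = 4 * t + 1 + 1 + 1 + 1 by ring, List.replicate_succ, List.replicate_succ,
        List.replicate_succ, List.replicate_succ']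
    rw [e]
    change lv m (ins (.nil △ .nil) (bump (.nil △ .nil) [0, 0, 0]) △
      ins (lv2 t .nil) (List.replicate (4 * t) 0 ++ [0])) = _
    rw [ins_lv2]
    rfl

/-- `()()[3]^t` is a pile -/
theorem pile_front {c : X k} (ht : 1 ≤ t) (hc : c.1 = lv 2 (Sg t 0 0 0 0 0)) : IsPile (cyc c) := by
  refine ⟨2 * t + 0, uX t 0, 0, 2, c, rfl, ?_⟩
  have e : (fun z : ZMod (2 * (2 * t + 0) + 1) => if z = 0 then 2 else 0) =
      pf (((0 : ℕ) : ℕ) : ZMod (2 * (2 * t + 0) + 1)) 2 := by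
    funext z
    unfold pf
    rw [Nat.cast_zero]
  rw [e, lf_pf (by omega), hc]
  have e2 : List.replicate 0 0 ++ 2 :: List.replicate (2 * (2 * t + 0) + 1 - 1 - 0) 0 =
      2 :: List.replicate (4 * t) 0 := by
    rw [List.replicate_zero, List.nil_append]
    congr 2
    omega
  rw [e2]
  change _ = ins (lv2 t .nil) _
  rw [ins_front]
  congr 1
  obtain ⟨s, rfl⟩ : ∃ s, t = s + 1 := ⟨t - 1, by omega⟩
  unfold Sg
  have : ∀ (n : ℕ) (x : BinaryTree Unit), H1.th (n + 1) x = H1.th n (((.nil △ .nil) △ .nil) △ x) := by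
    intro n x
    induction n with
    | zero => rfl
    | succ n ih =>
      change ((.nil △ .nil) △ .nil) △ H1.th (n + 1) x = ((.nil △ .nil) △ .nil) △ H1.th n _
      rw [ih]
  rw [this]
  rfl

/-- the link `2 -> 1+1` of `(t;0,m)`, guest in `(t;1,m-2)` -/
def KP (k t m : ℕ) (b c : Cyc k) : Prop := (∃ g, TyK3 {b, c} g) ∧ HB t 1 b (kf t (m - 2)) ∧
  contc b = CT t 1 (m - 2) ∧ contc c = CT t 0 m ∧ (m = 2 → IsTwo c)

theorem K_pos {m : ℕ} (ht : 3 ≤ t) (hk : 3 * t + m = k) (hm : m = 2 ∨ 4 ≤ m) : ∃ b c : Cyc k, KP k t m b c := by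
  classical
  by_cases h4 : m = 4
  · subst h4
    obtain ⟨b, c, g, h1, h2, h3, h5, h6⟩ := K_ex (k := k) (by omega) (cont_Sg t 1 0 0 0 1 (by omega)) (by omega)
    refine ⟨cyc b, cyc c, ⟨g, _, ⟨t, ht, Or.inr (Or.inl rfl)⟩, h3⟩, ?_, h5, h6, fun h => absurd h (by norm_num)⟩
    rw [Sg_word _ _ _ _ _ _ _ (by omega)] at h1
    have := HB_two (k := k) (t := t) (by omega) (w := b) (a := 1) (b := 1) (i := 0) (by norm_num) h1 0
    unfold kf
    rw [if_pos (by norm_num)]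
    exact this
  · by_cases h5 : m - 2 = 0 ∨ (m - 2 ≠ 4 ∧ oddF (2 * t + 1) (m - 2))
    · obtain ⟨b, c, g, h1, h2, h3, h7, h6⟩ := K_ex (k := k) (by omega) (cont_Sg t 0 0 0 0 (m - 2) (by omega)) (by omega)
      have e0 : 0 + 0 + 0 + 0 + (m - 2) = m - 2 := by omega
      rw [e0] at h7 h6
      have e1 : m - 2 + 2 = m := by omega
      rw [e1] at h6
      refine ⟨cyc b, cyc c, ⟨g, _, ⟨t, ht, Or.inl ⟨m - 2, by omega, rfl⟩⟩, h3⟩, ?_, h7, h6, fun h => ?_⟩
      · rw [Sg_word _ _ _ _ _ _ _ (by omega)] at h1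
        have := HB_pile (k := k) (t := t) (by omega) (w := b) (a := m - 2) h1 0
        unfold kf
        rw [if_neg (by omega), if_pos h5]
        exact this
      · subst h
        apply IsPile.two (pile_front (by omega) h2)
        rw [contc_cyc, h6]
        exact CT_one t 0 2
    · obtain ⟨n, rfl⟩ : ∃ n, m = n + 4 := ⟨m - 4, by omega⟩
      have hn : 1 ≤ n := by omega
      have e3 : n + 4 - 2 = n + 2 := by omega
      rw [e3] at h5
      obtain ⟨b, c, g, h1, h2, h3, h7, h6⟩ := K_ex (k := k) (by omega) (cont_Sg t 0 0 0 1 (n + 1) (by omega)) (by omega)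
      have e0 : 0 + 0 + 0 + 1 + (n + 1) = n + 2 := by omega
      rw [e0] at h7 h6
      refine ⟨cyc b, cyc c, ⟨g, _, ⟨t, ht, Or.inr (Or.inr ⟨n, rfl⟩)⟩, h3⟩, ?_, ?_, h6, fun h => absurd h (by omega)⟩
      · rw [Sg_word _ _ _ _ _ _ _ (by omega)] at h1
        have := HB_two (k := k) (t := t) (by omega) (w := b) (a := 1) (b := n + 1) (i := 3) (by norm_num) h1 0
        rw [e3]
        unfold kf
        rw [if_neg (by omega), if_neg h5]
        exact this
      · rw [e3]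
        exact h7

/-- the link `[2](S)`: host class `(t+1;0,m)`, guest in `(t;1,m+1)` -/
def CP (k t m : ℕ) (b c : Cyc k) : Prop := (∃ g, TyC3 {b, c} g) ∧ HB t 1 b (cf t (m + 1)) ∧
  contc b = CT t 1 (m + 1) ∧ contc c = CT (t + 1) 0 m

theorem C_pos {m : ℕ} (ht : 3 ≤ t) (hk : 3 * (t + 1) + m = k) (hm : m ≤ 1 ∨ m = 3) : ∃ b c : Cyc k, CP k t m b c := by
  rcases (show m = 0 ∨ m = 1 ∨ m = 3 by omega) with rfl | rfl | rfl
  · obtain ⟨b, c, g, h1, h2, h3, h5, h6⟩ := Cl_ex (k := k) (by omega) (cont_Sg t 0 0 0 0 0 (by omega)) (by omega)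
    refine ⟨cyc b, cyc c, ⟨g, _, ⟨t, ht, Or.inl rfl⟩, h3⟩, ?_, h5, h6⟩
    rw [Sg_word _ _ _ _ _ _ _ (by omega)] at h1
    have := HB_pile (k := k) (t := t) (by omega) (w := b) (a := 1) h1 0
    unfold cf
    rw [if_pos rfl]
    exact this
  · by_cases ho : t % 2 = 1
    · obtain ⟨b, c, g, h1, h2, h3, h5, h6⟩ := Cl_ex (k := k) (by omega) (cont_Sg t 0 0 0 1 0 (by omega)) (by omega)
      refine ⟨cyc b, cyc c, ⟨g, _, ⟨t, ht, Or.inr (Or.inl ⟨0, rfl⟩)⟩, h3⟩, ?_, h5, h6⟩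
      rw [Sg_word _ _ _ _ _ _ _ (by omega)] at h1
      have := HB_two (k := k) (t := t) (by omega) (w := b) (a := 1) (b := 1) (i := 3) (by norm_num) h1 0
      unfold cf
      rw [if_neg (by norm_num), if_pos rfl, if_pos ho]
      exact this
    · obtain ⟨b, c, g, h1, h2, h3, h5, h6⟩ := Cl_ex (k := k) (by omega) (cont_Sq t (by omega)) (by omega)
      refine ⟨cyc b, cyc c, ⟨g, _, ⟨t, ht, Or.inr (Or.inr (Or.inr rfl))⟩, h3⟩, ?_, h5, h6⟩
      rw [Sq_word _ _ (by omega)] at h1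
      have := HB_gen (k := k) (t := t) (by omega) (w := b) (n := t - 2) (a := 1) (b := 1) (i := 3) (l := 8) (r := 10)
        (by omega) (by norm_num) (by norm_num) h1 0
      unfold cf
      rw [if_neg (by norm_num), if_pos rfl, if_neg ho]
      exact this
  · by_cases ho : t % 2 = 1
    · obtain ⟨b, c, g, h1, h2, h3, h5, h6⟩ := Cl_ex (k := k) (by omega) (cont_Sg t 0 0 0 1 2 (by omega)) (by omega)
      refine ⟨cyc b, cyc c, ⟨g, _, ⟨t, ht, Or.inr (Or.inl ⟨2, rfl⟩)⟩, h3⟩, ?_, h5, h6⟩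
      rw [Sg_word _ _ _ _ _ _ _ (by omega)] at h1
      have := HB_two (k := k) (t := t) (by omega) (w := b) (a := 1) (b := 3) (i := 3) (by norm_num) h1 0
      unfold cf
      rw [if_neg (by norm_num), if_neg (by norm_num), if_pos ho]
      exact this
    · obtain ⟨b, c, g, h1, h2, h3, h5, h6⟩ := Cl_ex (k := k) (by omega) (cont_Sg t 0 0 0 3 0 (by omega)) (by omega)
      refine ⟨cyc b, cyc c, ⟨g, _, ⟨t, ht, Or.inr (Or.inr (Or.inl rfl))⟩, h3⟩, ?_, h5, h6⟩
      rw [Sg_word _ _ _ _ _ _ _ (by omega)] at h1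
      have := HB_two (k := k) (t := t) (by omega) (w := b) (a := 3) (b := 1) (i := 3) (by norm_num) h1 0
      unfold cf
      rw [if_neg (by norm_num), if_neg (by norm_num), if_neg ho]
      exact this

end HT

end Pool.OddHC
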