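import Pool.Agent.Work.MP_8f87b2_h62.R6e

/-!
# MP_8f87b2_co, height 3: the classes `3^t 2^a 1^m`, `t ≥ 3`, `a ≤ 1`

`height3`: for `k ≥ 13` there is a set `XL` of plain links of the types `TyK3`, `TyC3`, pairwise disjoint, such that every
class `(t;a,m)`, `t ≥ 3`, `a ≤ 1`, minus the T-cycles of `XL` (and minus the E edge of the J3V gadget in `(t;1,2)`, `t` even)
is `ClsOK` with at most one window T.
-/

set_option autoImplicit false

namespace Pool.OddHC

namespace HT

open Finset BinaryTree Pool.OddHop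

variable {t k : ℕ}

/-- a `K` link in `(t;0,m)` -/
def KC (k t m : ℕ) : Prop := 3 ≤ t ∧ 3 * t + m = k ∧ (m = 2 ∨ 4 ≤ m) ∧ oddF (2 * t) m

/-- a link `[2](S)` with host class `(t+1;0,m)` and guest class `(t;1,m+1)` -/
def CC (k t m : ℕ) : Prop := 3 ≤ t ∧ 3 * (t + 1) + m = k ∧ (m ≤ 1 ∨ m = 3)

/-- the E edge of the J3V gadget of `(t;2,0)`: pile and level 1 of `(t;1,2)` -/
def JE (t : ℕ) (p : Cyc k) : Prop := t % 2 = 0 ∧ contc p = CT t 1 2 ∧ (H2 t p 0 ∨ H2 t p 1)

/-- the conclusion for the classes -/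
def ClsAll {τp τw : Type} (k : ℕ) (AE : Cyc k → Cyc k → Prop) (Pp : τp → Set (Cyc k) → DG k → Prop)
    (Pw : τw → Set (Cyc k) → DG k → Prop) (XL : Set (Set (Cyc k))) : Prop :=
  ∀ (X : Set (Cyc k)) (t a m : ℕ) (p0 : Cyc k), 3 ≤ t → a ≤ 1 → contc p0 = CT t a m →
    (∀ p : Cyc k, contc p = CT t a m → (p ∈ X ↔ p ∈ inG XL ∨ JE t p)) →
    ∃ Gp Gw, ClsOK AE (cl p0) X Gp Gw Pp Pw

theorem size_CT {t a m : ℕ} {p : Cyc k} (h : contc p = CT t a m) : 3 * t + 2 * a + m = k := by
  obtain ⟨w, rfl⟩ := Quotient.exists_rep p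
  have h1 : (cont w.1).sum = w.1.numNodes := cont_sum w.1
  have h2 : cont w.1 = CT t a m := h
  rw [h2, X_num] at h1
  unfold CT at h1
  rw [Multiset.sum_add, Multiset.sum_add, Multiset.sum_replicate, Multiset.sum_replicate,
    Multiset.sum_replicate] at h1
  simp only [smul_eq_mul] at h1
  omega

/-- removal set of even families -/
theorem rem_e {d : RD} {m : ℕ} (hd : ∀ p : Cyc k, Rd p = d → (contc p).count 1 = m) (h : ¬ oddF d.1 m) :
    RemOK d (∅ : Set (Cyc k)) := remOK_even d m hd h

theorem odd0 (j : ℕ) : oddF j 0 := by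
  rw [oddF_choose]
  change Odd ((j + 0).choose 0)
  rw [Nat.choose_zero_right]
  exact odd_one

section

variable {τp τw : Type} {AE : Cyc k → Cyc k → Prop} {Pp : τp → Set (Cyc k) → DG k → Prop}
    {Pw : τw → Set (Cyc k) → DG k → Prop}

/-- the classes with `a = 0` -/
theorem cls_0 {m : ℕ} (ht : 3 ≤ t) {p0 : Cyc k} (hc : contc p0 = CT t 0 m) {X : Set (Cyc k)}
    (hAE : ∀ p q : Cyc k, cl p = cl p0 → cl q = cl p0 → p ≠ q → HopC p q → AE p q)
    (hX : (oddF (2 * t) m ∧ ∃ l : Cyc k, contc l = CT t 0 m ∧ (m = 2 → IsTwo l) ∧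
      ∀ p, contc p = CT t 0 m → (p ∈ X ↔ p = l)) ∨ (¬ oddF (2 * t) m ∧ ∀ p, contc p = CT t 0 m → p ∉ X)) :
    ∃ Gp Gw, ClsOK AE (cl p0) X Gp Gw Pp Pw := by
  have hcl : ∀ p : Cyc k, cl p = cl p0 ↔ contc p = CT t 0 m := by
    intro p
    rw [cl_eq_iff (by omega) (by omega) hc, hc]
  have hd : ∀ p : Cyc k, cl p = cl p0 → Rd p = ⟨2 * t + 0, cyc (uX t 0)⟩ := fun p hp =>
    Rd_CT (by omega) (by omega) ((hcl p).1 hp)
  rcases hX with ⟨ho, l, hl, h2, hX⟩ | ⟨ho, hX⟩
  · refine cls_e hd (D := {l}) (fun p hp => hX p ((hcl p).1 hp)) (hd p0 rfl) hAE ?_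
    exact rem_one (hd l ((hcl l).2 hl)) (by rw [hl]; exact CT_one t 0 m) ho h2
  · refine cls_e hd (D := ∅) (fun p hp => ?_) (hd p0 rfl) hAE (rem_e (m := m) ?_ ho)
    · constructor
      · intro h
        exact absurd h (hX p ((hcl p).1 hp))
      · intro h
        exact absurd h (Set.notMem_empty _)
    · intro p hp
      have h1 : cl p = cl p0 := cl_fam (hp.trans (hd p0 rfl).symm)
      rw [(hcl p).1 h1]
      exact CT_one t 0 m

/-- one bead or none: one T-cycle -/
theorem one_cyc {m : ℕ} (hm : m ≤ 1) (ht : 1 ≤ t) {p q : Cyc k} (hp : contc p = CT t 1 m) (hq : contc q = CT t 1 m) :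
    p = q := by
  obtain ⟨f, hf, hs⟩ := HB_ex ht (Rd_CT ht le_rfl hp)
  obtain ⟨f', hf', hs'⟩ := HB_ex ht (Rd_CT ht le_rfl hq)
  rw [hp, CT_one] at hs
  rw [hq, CT_one] at hs'
  obtain ⟨x, rfl⟩ := sum_le_one hm hs
  obtain ⟨x', rfl⟩ := sum_le_one hm hs'
  have h1 := hf.rot ht (x - x')
  rw [← pf_shift] at h1
  exact h1.eq hf'

theorem HB_CT {m : ℕ} (ht : 1 ≤ t) {p p0 : Cyc k} {f : ZMod (2 * (2 * t + 1) + 1) → ℕ} (h : HB t 1 p f)
    (h0 : contc p0 = CT t 1 m) : contc p = CT t 1 m := by
  have h1 := h.Rd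
  have h2 := Rd_CT ht le_rfl h0
  have h3 : cl p = cl p0 := cl_fam (h1.trans h2.symm)
  rw [cl_eq_iff ht le_rfl h0] at h3
  rw [h3, h0]

/-- the classes with `a = 1` : from the removal sets -/
theorem cls_1e {m : ℕ} (ht : 3 ≤ t) {p0 : Cyc k} (hc : contc p0 = CT t 1 m) {X D : Set (Cyc k)}
    (hAE : ∀ p q : Cyc k, cl p = cl p0 → cl q = cl p0 → p ≠ q → HopC p q → AE p q) (hX : ∀ p, contc p = CT t 1 m → (p ∈ X ↔ p ∈ D))
    (hr : RemOK ⟨2 * t + 1, cyc (uX t 1)⟩ D) : ∃ Gp Gw, ClsOK AE (cl p0) X Gp Gw Pp Pw := by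
  have hcl : ∀ p : Cyc k, cl p = cl p0 ↔ contc p = CT t 1 m := by
    intro p
    rw [cl_eq_iff (by omega) (by omega) hc, hc]
  have hd : ∀ p : Cyc k, cl p = cl p0 → Rd p = ⟨2 * t + 1, cyc (uX t 1)⟩ := fun p hp =>
    Rd_CT (by omega) (by omega) ((hcl p).1 hp)
  exact cls_e hd (fun p hp => hX p ((hcl p).1 hp)) (hd p0 rfl) hAE hr

theorem cls_1w {m : ℕ} (ht : 3 ≤ t) (hm : 1 ≤ m) {p0 : Cyc k} (hc : contc p0 = CT t 1 m) {X D : Set (Cyc k)}
    (hAE : ∀ p q : Cyc k, cl p = cl p0 → cl q = cl p0 → p ≠ q → HopC p q → AE p q) (hT : ∀ F g, TyT F g → Typd Pp Pw F)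
    {P : Cyc k} (hP : HB t 1 P (pf 0 m)) (hPX : P ∉ X)
    (hX : ∀ p, contc p = CT t 1 m → (p ∈ X ∨ p = P ↔ p ∈ D))
    (hr : RemOK ⟨2 * t + 1, cyc (uX t 1)⟩ D) : ∃ Gp Gw, ClsOK AE (cl p0) X Gp Gw Pp Pw := by
  have hcl : ∀ p : Cyc k, cl p = cl p0 ↔ contc p = CT t 1 m := by
    intro p
    rw [cl_eq_iff (by omega) (by omega) hc, hc]
  have hd : ∀ p : Cyc k, cl p = cl p0 → Rd p = ⟨2 * t + 1, cyc (uX t 1)⟩ := fun p hp =>
    Rd_CT (by omega) (by omega) ((hcl p).1 hp)
  obtain ⟨g, hg⟩ := T_win (by omega) hm hP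
  exact cls_w hd P hP.Rd hPX (fun p hp => hX p ((hcl p).1 hp)) (hd p0 rfl) hAE (hT _ _ hg) hr

/-- the pile of the class -/
theorem ex_pile {m : ℕ} {p0 : Cyc k} (hc : contc p0 = CT t 1 m) : ∃ P : Cyc k, HB t 1 P (pf 0 m) := by
  apply HB_mk
  rw [pf_sum]
  exact size_CT hc

end

theorem H2_zero {p : Cyc k} : H2 t p 0 ↔ HB t 1 p (pf 0 2) := by
  have e : (fun z : ZMod (2 * (2 * t + 1) + 1) => pf 0 1 z + pf (0 + ((0 : ℕ) : ZMod (2 * (2 * t + 1) + 1))) 1 z) =
      pf 0 2 := by
    funext z
    unfold pf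
    rw [Nat.cast_zero, add_zero]
    split_ifs <;> rfl
  unfold H2
  rw [e]

/-- near pile to the left: `x` the pile -/
theorem near_l (ht : 1 ≤ t) {p : Cyc k} {n : ℕ}
    (h : HB t 1 p (fun z => pf 0 1 z + pf (0 + ((1 : ℕ) : ZMod (2 * (2 * t + 1) + 1))) n z)) :
    HB t 1 p (fun z => pf 0 n z + pf (0 - 1) 1 z) := by
  have h1 := HB.at ht h (-1)
  rw [Nat.cast_one, neg_add_cancel, pf_comm] at h1
  rw [zero_sub]
  exact h1

/-- near pile to the right -/
theorem near_r {p : Cyc k} {n : ℕ}
    (h : HB t 1 p (fun z => pf 0 n z + pf (0 + ((1 : ℕ) : ZMod (2 * (2 * t + 1) + 1))) 1 z)) :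
    HB t 1 p (fun z => pf 0 n z + pf (0 + 1) 1 z) := by
  rwa [Nat.cast_one] at h

theorem zero_ne {n : ℕ} (hn : 1 < n) : (0 + 1 : ZMod n) ≠ 0 ∧ (0 - 1 : ZMod n) ≠ 0 := x_ne hn 0

/-- **HEIGHT 3** -/
theorem height3 (hk : 13 ≤ k) : ∃ XL : Set (Set (Cyc k)),
    (∀ F ∈ XL, F.Nonempty ∧ (∃ g, TyK3 F g ∨ TyC3 F g) ∧
      ∀ c ∈ F, ∃ t a m, 3 ≤ t ∧ a ≤ 1 ∧ contc c = CT t a m) ∧
    (∀ F ∈ XL, ∀ F' ∈ XL, ∀ c, c ∈ F → c ∈ F' → F = F') ∧
    (∀ t, ∀ p : Cyc k, JE t p → p ∉ inG XL) ∧
    ∀ (τp τw : Type) (AE : Cyc k → Cyc k → Prop) (Pp : τp → Set (Cyc k) → DG k → Prop)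
      (Pw : τw → Set (Cyc k) → DG k → Prop), (∀ p0 : Cyc k, (∃ t a m, 3 ≤ t ∧ a ≤ 1 ∧ contc p0 = CT t a m) →
        ∀ p q : Cyc k, cl p = cl p0 → cl q = cl p0 → p ≠ q → HopC p q → AE p q) →
      (∀ F g, TyT F g → Typd Pp Pw F) → ClsAll k AE Pp Pw XL := by
  classical
  have hK : ∀ t m, KC k t m → ∃ b c : Cyc k, KP k t m b c := fun t m h => K_pos h.1 h.2.1 h.2.2.1
  have hC : ∀ t m, CC k t m → ∃ b c : Cyc k, CP k t m b c := fun t m h => C_pos h.1 h.2.1 h.2.2
  choose kb kc hKP using hK
  choose cb cc hCP using hC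
  let XL : Set (Set (Cyc k)) := {F | (∃ t m, ∃ h : KC k t m, F = {kb t m h, kc t m h}) ∨
    ∃ t m, ∃ h : CC k t m, F = {cb t m h, cc t m h}}
  have mem0 : ∀ (p : Cyc k) t m, contc p = CT t 0 m → (p ∈ inG XL ↔
      (∃ h : KC k t m, p = kc t m h) ∨ ∃ s, ∃ h : CC k s m, t = s + 1 ∧ p = cc s m h) := by
    intro p t m hp
    constructor
    · rintro ⟨F, (⟨t', m', h, rfl⟩ | ⟨t', m', h, rfl⟩), (rfl | rfl)⟩
      · have := CT_inj (hp.symm.trans (hKP t' m' h).2.2.1)
        omega
      · obtain ⟨rfl, -, rfl⟩ := CT_inj (hp.symm.trans (hKP t' m' h).2.2.2.1)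
        exact Or.inl ⟨h, rfl⟩
      · have := CT_inj (hp.symm.trans (hCP t' m' h).2.2.1)
        omega
      · obtain ⟨e, -, rfl⟩ := CT_inj (hp.symm.trans (hCP t' m' h).2.2.2)
        exact Or.inr ⟨t', h, e, rfl⟩
    · rintro (⟨h, rfl⟩ | ⟨s, h, -, rfl⟩)
      · exact ⟨_, Or.inl ⟨t, m, h, rfl⟩, Or.inr rfl⟩
      · exact ⟨_, Or.inr ⟨s, m, h, rfl⟩, Or.inr rfl⟩
  have mem1 : ∀ (p : Cyc k) t m, contc p = CT t 1 m → (p ∈ inG XL ↔
      (∃ h : KC k t (m + 2), p = kb t (m + 2) h) ∨ ∃ n, ∃ h : CC k t n, m = n + 1 ∧ p = cb t n h) := by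
    intro p t m hp
    constructor
    · rintro ⟨F, (⟨t', m', h, rfl⟩ | ⟨t', m', h, rfl⟩), (rfl | rfl)⟩
      · obtain ⟨rfl, -, e⟩ := CT_inj (hp.symm.trans (hKP t' m' h).2.2.1)
        obtain rfl : m' = m + 2 := by
          have := h.2.2.1
          omega
        exact Or.inl ⟨h, rfl⟩
      · have := CT_inj (hp.symm.trans (hKP t' m' h).2.2.2.1)
        omega
      · obtain ⟨rfl, -, e⟩ := CT_inj (hp.symm.trans (hCP t' m' h).2.2.1)
        exact Or.inr ⟨m', h, e, rfl⟩
      · have := CT_inj (hp.symm.trans (hCP t' m' h).2.2.2)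
        omega
    · rintro (⟨h, rfl⟩ | ⟨n, h, -, rfl⟩)
      · exact ⟨_, Or.inl ⟨t, m + 2, h, rfl⟩, Or.inl rfl⟩
      · exact ⟨_, Or.inr ⟨t, n, h, rfl⟩, Or.inl rfl⟩
  -- the guests of the two kinds are different
  have hbb : ∀ t m n (h : KC k t (m + 2)) (h' : CC k t n), m = n + 1 → kb t (m + 2) h ≠ cb t n h' := by
    intro t m n h h' e
    subst e
    have b1 := (hKP t (n + 1 + 2) h).2.1
    have b2 := (hCP t n h').2.1
    rw [show n + 1 + 2 - 2 = n + 1 by omega] at b1
    have ht := h.1
    have hodd := h.2.2.2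
    have hn := h'.2.2
    have hm := h.2.2.1
    rcases (show n = 1 ∨ n = 3 by omega) with rfl | rfl
    · have hte : t % 2 = 0 := (odd_e45 (t := t) (m := 4) (by norm_num) (by norm_num)).1 hodd
      unfold kf at b1
      rw [if_pos (by norm_num)] at b1
      unfold cf at b2
      rw [if_neg (by norm_num), if_pos (by norm_num), if_neg (by omega)] at b2
      exact H2.ne (by omega) (d := 4) (d' := 5) b1 b2 (by omega) (by omega) (by norm_num)
    · have hte : t % 2 = 0 := odd_e6.1 hodd
      unfold kf at b1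
      rw [if_neg (by norm_num), if_neg (by norm_num)] at b1
      unfold cf at b2
      rw [if_neg (by norm_num), if_neg (by norm_num), if_neg (by omega)] at b2
      exact (ne_nn (t := t) (by omega) (m := 4) (by norm_num) (near_r b2) (near_l (by omega) b1)).symm
  have hJE : ∀ t, ∀ p : Cyc k, JE t p → p ∉ inG XL := by
    rintro t p ⟨hte, hp, hlev⟩ hin
    have hlev' : ∃ d, d ≤ 1 ∧ H2 t p d := by
      rcases hlev with h | h
      · exact ⟨0, by norm_num, h⟩
      · exact ⟨1, le_rfl, h⟩
    obtain ⟨d, hd, hp2⟩ := hlev'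
    rcases (mem1 p t 2 hp).1 hin with ⟨h, rfl⟩ | ⟨n, h, e, rfl⟩
    · have b1 := (hKP t (2 + 2) h).2.1
      unfold kf at b1
      rw [if_pos (by norm_num)] at b1
      have := h.1
      exact H2.ne (by omega) (d := d) (d' := 4) hp2 b1 (by omega) (by omega) (by omega) rfl
    · obtain rfl : n = 1 := by omega
      have b2 := (hCP t 1 h).2.1
      unfold cf at b2
      rw [if_neg (by norm_num), if_pos (by norm_num), if_neg (by omega)] at b2
      have := h.1
      exact H2.ne (by omega) (d := d) (d' := 5) hp2 b2 (by omega) (by omega) (by omega) rfl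
  refine ⟨XL, ?_, ?_, hJE, ?_⟩
  · rintro F (⟨t, m, h, rfl⟩ | ⟨t, m, h, rfl⟩)
    · obtain ⟨⟨g, hg⟩, -, e1, e2, -⟩ := hKP t m h
      refine ⟨⟨_, Or.inl rfl⟩, ⟨g, Or.inl hg⟩, ?_⟩
      rintro c (rfl | rfl)
      · exact ⟨t, 1, m - 2, h.1, le_rfl, e1⟩
      · exact ⟨t, 0, m, h.1, by norm_num, e2⟩
    · obtain ⟨⟨g, hg⟩, -, e1, e2⟩ := hCP t m h
      refine ⟨⟨_, Or.inl rfl⟩, ⟨g, Or.inr hg⟩, ?_⟩
      rintro c (rfl | rfl)
      · exact ⟨t, 1, m + 1, h.1, le_rfl, e1⟩
      · exact ⟨t + 1, 0, m, by have := h.1; omega, by norm_num, e2⟩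
  · -- a group is determined by a member
    have key : ∀ F ∈ XL, ∀ c ∈ F, (∃ t m, ∃ h : KC k t m, F = {kb t m h, kc t m h} ∧
        (contc c = CT t 0 m ∨ (contc c = CT t 1 (m - 2) ∧ c = kb t m h))) ∨
        ∃ t m, ∃ h : CC k t m, F = {cb t m h, cc t m h} ∧
        (contc c = CT (t + 1) 0 m ∨ (contc c = CT t 1 (m + 1) ∧ c = cb t m h)) := by
      rintro F (⟨t, m, h, rfl⟩ | ⟨t, m, h, rfl⟩) c (rfl | rfl)
      · exact Or.inl ⟨t, m, h, rfl, Or.inr ⟨(hKP t m h).2.2.1, rfl⟩⟩
      · exact Or.inl ⟨t, m, h, rfl, Or.inl (hKP t m h).2.2.2.1⟩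
      · exact Or.inr ⟨t, m, h, rfl, Or.inr ⟨(hCP t m h).2.2.1, rfl⟩⟩
      · exact Or.inr ⟨t, m, h, rfl, Or.inl (hCP t m h).2.2.2⟩
    have mix : ∀ c t m (h : KC k t m) t' m' (h' : CC k t' m'),
        (contc c = CT t 0 m ∨ (contc c = CT t 1 (m - 2) ∧ c = kb t m h)) →
        (contc c = CT (t' + 1) 0 m' ∨ (contc c = CT t' 1 (m' + 1) ∧ c = cb t' m' h')) → False := by
      intro c t m h t' m' h' h1 h2
      have hm := h.2.2.1
      have hm' := h'.2.2
      rcases h1 with h1 | ⟨h1, h1'⟩
      · rcases h2 with h2 | ⟨h2, h2'⟩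
        · have := CT_inj (h1.symm.trans h2)
          omega
        · have := CT_inj (h1.symm.trans h2)
          omega
      · rcases h2 with h2 | ⟨h2, h2'⟩
        · have := CT_inj (h1.symm.trans h2)
          omega
        · obtain ⟨rfl, -, e⟩ := CT_inj (h1.symm.trans h2)
          obtain ⟨n, rfl⟩ : ∃ n, m = n + 2 := ⟨m - 2, by omega⟩
          exact hbb t n m' h h' (by omega) (h1'.symm.trans h2')
    intro F hF F' hF' c hc hc'
    rcases key F hF c hc with ⟨t, m, h, rfl, h1⟩ | ⟨t, m, h, rfl, h1⟩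
    · rcases key F' hF' c hc' with ⟨t', m', h', rfl, h1'⟩ | ⟨t', m', h', rfl, h1'⟩
      · have hm := h.2.2.1
        have hm' := h'.2.2.1
        have e : t = t' ∧ m = m' := by
          rcases h1 with h1 | ⟨h1, -⟩ <;> rcases h1' with h1' | ⟨h1', -⟩ <;>
            (have := CT_inj (h1.symm.trans h1'); omega)
        obtain ⟨rfl, rfl⟩ := e
        rfl
      · exact absurd (mix c t m h t' m' h' h1 h1') (fun h => h)
    · rcases key F' hF' c hc' with ⟨t', m', h', rfl, h1'⟩ | ⟨t', m', h', rfl, h1'⟩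
      · exact absurd (mix c t' m' h' t m h h1' h1) (fun h => h)
      · have e : t = t' ∧ m = m' := by
          rcases h1 with h1 | ⟨h1, -⟩ <;> rcases h1' with h1' | ⟨h1', -⟩ <;>
            (have := CT_inj (h1.symm.trans h1'); omega)
        obtain ⟨rfl, rfl⟩ := e
        rfl
  · intro τp τw AE Pp Pw hAE0 hT X t a m p0 ht ha hc hX
    have hAE := hAE0 p0 ⟨t, a, m, ht, ha, hc⟩
    have hsz := size_CT hc
    rcases (show a = 0 ∨ a = 1 by omega) with rfl | rfl
    · -- `a = 0`
      have hX' : ∀ p, contc p = CT t 0 m → (p ∈ X ↔ p ∈ inG XL) := by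
        intro p hp
        rw [hX p hp]
        constructor
        · rintro (h | h)
          · exact h
          · have := CT_inj (hp.symm.trans h.2.1)
            omega
        · exact Or.inl
      refine cls_0 ht hc hAE ?_
      by_cases ho : oddF (2 * t) m
      · left
        refine ⟨ho, ?_⟩
        by_cases hm : m ≤ 1 ∨ m = 3
        · obtain ⟨s, rfl⟩ : ∃ s, t = s + 1 := ⟨t - 1, by omega⟩
          have h : CC k s m := ⟨by omega, by omega, hm⟩
          refine ⟨cc s m h, (hCP s m h).2.2.2, fun h => by omega, fun p hp => ?_⟩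
          rw [hX' p hp, mem0 p _ m hp]
          constructor
          · rintro (⟨h1, -⟩ | ⟨s', h1, e, rfl⟩)
            · have := h1.2.2.1
              omega
            · obtain rfl : s' = s := by omega
              rfl
          · rintro rfl
            exact Or.inr ⟨s, h, rfl, rfl⟩
        · have h : KC k t m := ⟨ht, by omega, by omega, ho⟩
          refine ⟨kc t m h, (hKP t m h).2.2.2.1, (hKP t m h).2.2.2.2, fun p hp => ?_⟩
          rw [hX' p hp, mem0 p _ m hp]
          constructor
          · rintro (⟨h1, rfl⟩ | ⟨s', h1, e, rfl⟩)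
            · rfl
            · have := h1.2.2
              omega
          · rintro rfl
            exact Or.inl ⟨h, rfl⟩
      · right
        refine ⟨ho, fun p hp => ?_⟩
        rw [hX' p hp, mem0 p _ m hp]
        rintro (⟨h1, rfl⟩ | ⟨s', h1, e, rfl⟩)
        · exact ho h1.2.2.2
        · apply ho
          rcases (show m = 0 ∨ m = 1 ∨ m = 3 by have := h1.2.2; omega) with rfl | rfl | rfl
          · exact odd0 _
          · exact odd1 _
          · exact odd_e23 (by norm_num) (by norm_num)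
    · -- `a = 1`
      obtain ⟨P, hP⟩ := ex_pile hc
      have hPc : contc P = CT t 1 m := HB_CT (by omega) hP hc
      have hRm : ∀ p : Cyc k, Rd p = ⟨2 * t + 1, cyc (uX t 1)⟩ → contc p = CT t 1 m := by
        intro p hp
        have h2 := Rd_CT (by omega) le_rfl hc
        have h3 : cl p = cl p0 := cl_fam (hp.trans h2.symm)
        rw [cl_eq_iff (by omega) le_rfl hc] at h3
        rw [h3, hc]
      have hz := zero_ne (n := 2 * (2 * t + 1) + 1) (by omega)
      rcases (show m = 0 ∨ m = 1 ∨ m = 2 ∨ m = 4 ∨ m = 3 ∨ 5 ≤ m by omega) with rfl | rfl | rfl | rfl | hm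
      · -- `m = 0`
        have h : KC k t 2 := ⟨ht, by omega, Or.inl rfl, odd_e23 (by norm_num) (by norm_num)⟩
        refine cls_1e ht hc (D := Set.univ) hAE (fun p hp => ?_) (remOK_all _ _ fun _ _ => Set.mem_univ _)
        constructor
        · exact fun _ => Set.mem_univ _
        · intro _
          rw [hX p hp, mem1 p t 0 hp]
          exact Or.inl (Or.inl ⟨h, one_cyc (by norm_num) (by omega) hp (hKP t 2 h).2.2.1⟩)
      · -- `m = 1`
        have h : CC k t 0 := ⟨ht, by omega, Or.inl (by norm_num)⟩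
        refine cls_1e ht hc (D := Set.univ) hAE (fun p hp => ?_) (remOK_all _ _ fun _ _ => Set.mem_univ _)
        constructor
        · exact fun _ => Set.mem_univ _
        · intro _
          rw [hX p hp, mem1 p t 1 hp]
          exact Or.inl (Or.inr ⟨0, h, rfl, one_cyc (by norm_num) (by omega) hp (hCP t 0 h).2.2.1⟩)
      · -- `m = 2`
        have hkk : 2 * t + 1 + pkn (uX t 1).1 + 2 = k := by
          obtain ⟨w, -, hw⟩ := hP
          have := word_phi hw
          rwa [pf_sum] at this
        have h : CC k t 1 := ⟨ht, by omega, Or.inl (by norm_num)⟩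
        have b2 := (hCP t 1 h).2.1
        unfold cf at b2
        rw [if_neg (by norm_num), if_pos (by norm_num)] at b2
        by_cases hto : t % 2 = 1
        · rw [if_pos hto] at b2
          have b2' : H2 t (cb t 1 h) 1 := b2
          have hP' : H2 t P 0 := H2_zero.2 hP
          have hXX : ∀ p, contc p = CT t 1 2 → (p ∈ X ↔ p = cb t 1 h) := by
            intro p hp
            rw [hX p hp, mem1 p t 2 hp]
            constructor
            · rintro ((⟨h1, rfl⟩ | ⟨n, h1, e, rfl⟩) | h1)
              · have := (odd_e45 (t := t) (m := 4) (by norm_num) (by norm_num)).1 h1.2.2.2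
                omega
              · obtain rfl : n = 1 := by omega
                rfl
              · have := h1.1
                omega
            · rintro rfl
              exact Or.inl (Or.inr ⟨1, h, rfl, rfl⟩)
          refine cls_1w ht (by norm_num) hc (P := P) hAE hT hP ?_ (fun p hp => ?_)
            (rem_rows (by omega) hkk (fun i => i = 0))
          · rw [hXX P hPc]
            exact H2.ne (by omega) hP' b2' (by omega) (by omega) (by norm_num)
          · rw [hXX p hp]
            constructor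
            · rintro (rfl | rfl)
              · exact ⟨0, by omega, rfl, Or.inr b2'⟩
              · exact ⟨0, by omega, rfl, Or.inl hP'⟩
            · rintro ⟨i, -, rfl, (h1 | h1)⟩
              · exact Or.inr (HB.eq h1 hP')
              · exact Or.inl (HB.eq h1 b2')
        · rw [if_neg hto] at b2
          have hK4 : KC k t (2 + 2) := ⟨ht, by omega, Or.inr (by norm_num),
            (odd_e45 (t := t) (m := 4) (by norm_num) (by norm_num)).2 (by omega)⟩
          have b1 := (hKP t (2 + 2) hK4).2.1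
          unfold kf at b1
          rw [if_pos (by norm_num)] at b1
          have b1' : H2 t (kb t (2 + 2) hK4) 4 := b1
          have b2' : H2 t (cb t 1 h) 5 := b2
          refine cls_1e ht hc hAE (fun p hp => ?_) (rem_rows (by omega) hkk (fun i => i = 0 ∨ i = 2))
          rw [hX p hp, mem1 p t 2 hp]
          constructor
          · rintro ((⟨h1, rfl⟩ | ⟨n, h1, e, rfl⟩) | h1)
            · exact ⟨2, by omega, Or.inr rfl, Or.inl b1'⟩
            · obtain rfl : n = 1 := by omega
              exact ⟨2, by omega, Or.inr rfl, Or.inr b2'⟩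
            · exact ⟨0, by omega, Or.inl rfl, h1.2.2⟩
          · rintro ⟨i, -, (rfl | rfl), h1⟩
            · exact Or.inr ⟨by omega, hp, h1⟩
            · rcases h1 with h1 | h1
              · exact Or.inl (Or.inl ⟨hK4, HB.eq h1 b1'⟩)
              · exact Or.inl (Or.inr ⟨1, h, rfl, HB.eq h1 b2'⟩)
      · -- `m = 4`
        have h : CC k t 3 := ⟨ht, by omega, Or.inr rfl⟩
        have b2 := (hCP t 3 h).2.1
        unfold cf at b2
        rw [if_neg (by norm_num), if_neg (by norm_num)] at b2
        by_cases hto : t % 2 = 1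
        · rw [if_pos hto] at b2
          have b2' := near_l (by omega) b2
          have hne := ne_pn (by omega) (by norm_num) hz.2 hP b2'
          have hXX : ∀ p, contc p = CT t 1 4 → (p ∈ X ↔ p = cb t 3 h) := by
            intro p hp
            rw [hX p hp, mem1 p t 4 hp]
            constructor
            · rintro ((⟨h1, rfl⟩ | ⟨n, h1, e, rfl⟩) | h1)
              · have := odd_e6.1 h1.2.2.2
                omega
              · obtain rfl : n = 3 := by omega
                rfl
              · have := CT_inj (hp.symm.trans h1.2.1)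
                omega
            · rintro rfl
              exact Or.inl (Or.inr ⟨3, h, rfl, rfl⟩)
          refine cls_1w ht (by norm_num) hc (P := P) (D := {P, cb t 3 h}) hAE hT hP ?_ (fun p hp => ?_)
            (rem_py (by norm_num) (Or.inr rfl) hP b2' ?_)
          · rw [hXX P hPc]
            exact hne
          · rw [hXX p hp]
            constructor
            · rintro (rfl | rfl)
              · exact Or.inr rfl
              · exact Or.inl rfl
            · rintro (rfl | rfl)
              · exact Or.inr rfl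
              · exact Or.inl rfl
          · rw [odd_o45 (by norm_num) (by norm_num)]
            omega
        · rw [if_neg hto] at b2
          have b2' := near_r b2
          have hK6 : KC k t (4 + 2) := ⟨ht, by omega, Or.inr (by norm_num), odd_e6.2 (by omega)⟩
          have b1 := (hKP t (4 + 2) hK6).2.1
          unfold kf at b1
          rw [if_neg (by norm_num), if_neg (by norm_num)] at b1
          have b1' := near_l (by omega) b1
          have hne := ne_pn (by omega) (by norm_num) hz.1 hP b2'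
          have hne' := ne_pn (by omega) (by norm_num) hz.2 hP b1'
          have hXX : ∀ p, contc p = CT t 1 4 → (p ∈ X ↔ p = cb t 3 h ∨ p = kb t (4 + 2) hK6) := by
            intro p hp
            rw [hX p hp, mem1 p t 4 hp]
            constructor
            · rintro ((⟨h1, rfl⟩ | ⟨n, h1, e, rfl⟩) | h1)
              · exact Or.inr rfl
              · obtain rfl : n = 3 := by omega
                exact Or.inl rfl
              · have := CT_inj (hp.symm.trans h1.2.1)
                omega
            · rintro (rfl | rfl)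
              · exact Or.inl (Or.inr ⟨3, h, rfl, rfl⟩)
              · exact Or.inl (Or.inl ⟨hK6, rfl⟩)
          refine cls_1w ht (by norm_num) hc (P := P) (D := {P, cb t 3 h, kb t (4 + 2) hK6}) hAE hT hP ?_ (fun p hp => ?_)
            (rem_ypy (by norm_num) hP b2' b1' ((odd_o45 (by norm_num) (by norm_num)).2 (by omega)))
          · rw [hXX P hPc]
            rintro (e | e)
            · exact hne e
            · exact hne' e
          · rw [hXX p hp]
            constructor
            · rintro ((rfl | rfl) | rfl)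
              · exact Or.inr (Or.inl rfl)
              · exact Or.inr (Or.inr rfl)
              · exact Or.inl rfl
            · rintro (rfl | rfl | rfl)
              · exact Or.inr rfl
              · exact Or.inl (Or.inl rfl)
              · exact Or.inl (Or.inr rfl)
      · -- the other `m`
        have hJ : ∀ p : Cyc k, contc p = CT t 1 m → ¬ JE t p := by
          intro p hp h1
          have := CT_inj (hp.symm.trans h1.2.1)
          omega
        have hCn : ∀ n, CC k t n → m ≠ n + 1 := by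
          intro n h1
          have := h1.2.2
          omega
        by_cases hoK : oddF (2 * t) (m + 2)
        · have hKm : KC k t (m + 2) := ⟨ht, by omega, by omega, hoK⟩
          have hXX : ∀ p, contc p = CT t 1 m → (p ∈ X ↔ p = kb t (m + 2) hKm) := by
            intro p hp
            rw [hX p hp, mem1 p t m hp]
            constructor
            · rintro ((⟨h1, rfl⟩ | ⟨n, h1, e, rfl⟩) | h1)
              · rfl
              · exact absurd e (hCn n h1)
              · exact absurd h1 (hJ p hp)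
            · rintro rfl
              exact Or.inl (Or.inl ⟨hKm, rfl⟩)
          have b1 := (hKP t (m + 2) hKm).2.1
          rw [show m + 2 - 2 = m by omega] at b1
          unfold kf at b1
          rw [if_neg (by omega)] at b1
          by_cases ho : oddF (2 * t + 1) m
          · refine cls_1e ht hc (D := {kb t (m + 2) hKm}) hAE hXX ?_
            have hcb := (hKP t (m + 2) hKm).2.2.1
            rw [show m + 2 - 2 = m by omega] at hcb
            exact rem_one (Rd_CT (by omega) le_rfl hcb) (by rw [hcb]; exact CT_one t 1 m) ho (fun h => by omega)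
          · rw [if_neg (fun h => h.elim (fun h => by omega) fun h => ho h.2)] at b1
            have b1' := near_l (by omega) b1
            have hne := ne_pn (by omega) (by omega) hz.2 hP b1'
            refine cls_1w ht (by omega) hc (P := P) (D := {P, kb t (m + 2) hKm}) hAE hT hP ?_ (fun p hp => ?_)
              (rem_py (by omega) (Or.inr rfl) hP b1' ho)
            · rw [hXX P hPc]
              exact hne
            · rw [hXX p hp]
              constructor
              · rintro (rfl | rfl)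
                · exact Or.inr rfl
                · exact Or.inl rfl
              · rintro (rfl | rfl)
                · exact Or.inr rfl
                · exact Or.inl rfl
        · have hXX : ∀ p, contc p = CT t 1 m → p ∉ X := by
            intro p hp
            rw [hX p hp, mem1 p t m hp]
            rintro ((⟨h1, rfl⟩ | ⟨n, h1, e, rfl⟩) | h1)
            · exact hoK h1.2.2.2
            · exact hCn n h1 e
            · exact hJ p hp h1
          by_cases ho : oddF (2 * t + 1) m
          · refine cls_1w ht (by omega) hc (P := P) (D := {P}) hAE hT hP (hXX P hPc) (fun p hp => ?_)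
              (rem_one hP.Rd (by rw [hPc]; exact CT_one t 1 m) ho (fun h => by omega))
            constructor
            · rintro (h1 | rfl)
              · exact absurd h1 (hXX p hp)
              · rfl
            · rintro rfl
              exact Or.inr rfl
          · refine cls_1e ht hc (D := ∅) hAE (fun p hp => ?_) (rem_e (m := m) ?_ ho)
            · constructor
              · intro h1
                exact absurd h1 (hXX p hp)
              · intro h1
                exact absurd h1 (Set.notMem_empty _)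
            · intro p hp
              rw [hRm p hp]
              exact CT_one t 1 m

end HT

end Pool.OddHC
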