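import Pool.Agent.Work.MP_8f87b2_h62.W3f
import Pool.Agent.Work.MP_8f87b2_bot.Mid

/-!
MP_8f87b2_co, height 3: the windows of height 3 against the words of the top and of the bottom.
-/

set_option autoImplicit false

namespace Pool.OddHC

open BinaryTree Equiv Pool.OddHop

namespace H1

variable {k b m a : ℕ}

theorem ht_w3 (h : 1 ≤ a) : ∀ i < 20, 3 ≤ OddHC.ht (w3 b m a i) ∧ OddHC.ht (w3 b m a i) ≤ 5 := by
  have h1 := ht_R3 b m a
  have h2 := ht_S3 (m := m) (a := a)
  have h3 := ht_th b
  have h4 : OddHC.ht (ch 1) = 1 := rfl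
  have h0 : OddHC.ht (BinaryTree.nil : BinaryTree Unit) = 0 := rfl
  intro i hi
  unfold w3
  interval_cases i <;> simp only [W, ht_app, ht_node, h1, h2, h4, h0] <;> omega

theorem count2_node {A X : BinaryTree Unit} (h : 3 ≤ OddHC.ht A) :
    (cont (A △ X)).count 2 = (cont A).count 2 + (cont X).count 2 := by
  rw [cont_node, Multiset.count_add, count_two_raise (by rw [← OddHC.ht_eq]; exact h)]

theorem count2_w3 (h : 1 ≤ a) : ∀ i < 20, 1 ≤ (cont (w3 b m a i)).count 2 := by
  have h1 := ht_R3 b m a
  have h2 := ht_S3 (m := m) (a := a)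
  have c1 := count2_R3 (b := b) (m := m) (a := a)
  have c2 := count2_S3 (m := m) (a := a)
  intro i hi
  unfold w3
  generalize R3 b m a = R at *
  generalize S3 m a = S at *
  interval_cases i
  · simp only [W, cont_app, Multiset.count_add]; omega
  · simp only [W, cont_app, Multiset.count_add]; omega
  · simp only [W, cont_node, cont_app, Multiset.count_add]; omega
  · simp only [W]
    rw [count2_node (by rw [ht_app]; omega), cont_app, Multiset.count_add]; omega
  · simp only [W]
    rw [cont_node, Multiset.count_add]; omega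
  · simp only [W]
    rw [cont_node, cont_node, Multiset.count_add, Multiset.count_add]; omega
  · simp only [W]
    rw [count2_node (by omega)]; omega
  · simp only [W]
    rw [cont_app, Multiset.count_add, count2_node (by rw [ht_node]; omega), cont_node, Multiset.count_add]; omega
  · simp only [W]
    rw [cont_app, Multiset.count_add, cont_node, Multiset.count_add, count2_node (by omega)]; omega
  · simp only [W]
    rw [count2_node (by rw [ht_node]; omega), count2_node (by omega)]; omega
  · simp only [W]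
    rw [cont_app, Multiset.count_add, cont_node, Multiset.count_add]; omega
  · simp only [W]
    rw [cont_app, Multiset.count_add, cont_node, Multiset.count_add, cont_app, Multiset.count_add, cont_node,
      Multiset.count_add]; omega
  · simp only [W]
    rw [count2_node (by omega)]; omega
  · simp only [W, cont_app, Multiset.count_add]; omega
  · simp only [W]
    rw [count2_node (by rw [ht_app, ht_node]; omega), cont_app, Multiset.count_add, cont_node,
      Multiset.count_add]; omega
  · simp only [W]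
    rw [cont_node, Multiset.count_add, count2_node (by omega)]; omega
  · simp only [W, cont_app, Multiset.count_add]; omega
  · simp only [W]
    rw [cont_app, Multiset.count_add, count2_node (by rw [ht_node]; omega), count2_node (by omega)]; omega
  · simp only [W]
    rw [cont_app, Multiset.count_add, cont_node, Multiset.count_add, cont_app, Multiset.count_add]; omega
  · simp only [W]
    rw [count2_node (by rw [ht_app]; omega), cont_app, Multiset.count_add]; omega

/-- `(P)()` -/
theorem t3_Pb {P : BinaryTree Unit} (hm : 1 ≤ m) {i : ℕ} (hi : i < 20)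
    (e : w3 b m a i = P △ (.nil △ .nil)) : i = 9 ∨ i = 19 := by
  obtain ⟨m, rfl⟩ : ∃ m', m = m' + 1 := ⟨m - 1, by omega⟩
  rw [w3_fw b _ a i hi] at e
  interval_cases i <;> rcases b with _ | _ | b <;>
    simp [fw3, th, app, L3_m, t3G, app_eq_nil] at e ⊢

theorem ht_w3_9 : 4 ≤ OddHC.ht (w3 b m a 9) ∧ 4 ≤ OddHC.ht (w3 b m a 19) := by
  have h1 := ht_R3 b m a
  have h2 := ht_S3 (m := m) (a := a)
  constructor
  · have e : w3 b m a 9 = (R3 b m a △ .nil) △ ch 1 := rfl
    rw [e, ht_node, ht_node]
    omega
  · have e : w3 b m a 19 = app (S3 m a) (th b .nil △ .nil) △ ch 1 := rfl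
    rw [e, ht_node, ht_app]
    omega

theorem low_uT (n : ℕ) (_ : 1 ≤ n) : Low (uT n) := by
  obtain ⟨n, rfl⟩ : ∃ n', n = n' + 1 := ⟨n - 1, by omega⟩
  refine ⟨fun _ => ⟨_, rfl⟩, fun h0 => ?_⟩
  exfalso
  have e : cont (uT (n + 1)) = Multiset.replicate (n + 1) 1 := by
    unfold uT
    rw [cont_lv, cont_nil, add_zero]
  rw [e, Multiset.count_replicate] at h0
  simp at h0

end H1

variable {k : ℕ} {F F' : Set (Cyc k)} {g g' : DG k}

theorem TyT.ht (h : TyT F g) : ∀ w ∈ g.B, 3 ≤ OddHC.ht w.1 ∧ OddHC.ht w.1 ≤ 5 := by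
  intro w hw
  obtain ⟨b, m, a, i, h1, hi, e1⟩ := h.word hw
  rw [e1]
  exact H1.ht_w3 h1.pos i hi

/-- **T against the bottom** -/
theorem TyT.not_bot (h : TyT F g) (s : Bool) : ∀ w ∈ g.B, w ∉ botW k s := by
  intro w hw hb
  have hh := h.ht w hw
  obtain ⟨b, m, a, i, h1, hi, e1⟩ := h.word hw
  rcases hb with h2 | ⟨n, hn, hnk, f, hf, rfl⟩ | ⟨n, hn, hn', hu, h2⟩
  · omega
  · have e2 : H1.w3 b m a i = ins (uX n).1 (lf f) △ .nil := e1.symm
    exact H1.ae3 h1.pos (by rw [lf_length]; have h4 := X_num (uX n); change (uT n).numNodes = n at h4; omega) (H1.low_uT n hn) hi (Or.inl e2)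
  · unfold lkh at h2
    by_cases hn1 : n = 1
    · rw [if_pos hn1] at h2
      have c1 := H1.count2_w3 (b := b) (m := m) h1.pos i hi
      rw [← e1, h2] at c1
      revert c1
      cases s
      · change ¬ (1 ≤ (cont (tw2 △ uT (k - 2 * (n + 1) + 1))).count 2)
        rw [cont_node]
        unfold uT
        rw [cont_lv, Multiset.count_add, Multiset.count_add, Multiset.count_replicate]
        simp [tw2, cont_nil]
        decide
      · change ¬ (1 ≤ (cont (app (uT (k - 2 * (n + 1) + 1)) (tw2 △ .nil))).count 2)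
        rw [cont_app, cont_node]
        unfold uT
        rw [cont_lv, Multiset.count_add, Multiset.count_add, Multiset.count_add, Multiset.count_replicate]
        simp [tw2, cont_nil]
        decide
    · have hl := ht_lkh s (b := n) (m := k - 2 * (n + 1)) (t := tb k (n + 1)) hn
      unfold lkh at hl
      rw [if_neg hn1] at h2 hl
      rw [← h2, e1] at hl
      rcases H1.t3_Pb h1.mpos hi (e1.symm.trans h2) with rfl | rfl
      · have := (H1.ht_w3_9 (b := b) (m := m) (a := a)).1
        omega
      · have := (H1.ht_w3_9 (b := b) (m := m) (a := a)).2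
        omega

/-- the inner words of T have the heights `3 .. 5` -/
theorem TyT.inner_ht (h : TyT F g) : ∀ p ∈ g.arcs, ∀ w ∈ innA p, 3 ≤ OddHC.ht w.1 ∧ OddHC.ht w.1 ≤ 5 := by
  obtain ⟨b, m, a, w0, h1, rfl, rfl⟩ := h
  intro p hp w hw
  have hw' : w = TT p.1 := hw
  subst hw'
  have hp' : p = (H1.tX b m a w0 0, H1.tX b m a w0 10) ∨
      p = (H1.tX b m a w0 1, H1.tX b m a w0 11) ∨
      p = (H1.tX b m a w0 3, H1.tX b m a w0 12) ∨
      p = (H1.tX b m a w0 6, H1.tX b m a w0 15) ∨
      p = (H1.tX b m a w0 8, H1.tX b m a w0 14) ∨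
      p = (H1.tX b m a w0 9, H1.tX b m a w0 17) := hp
  have key : ∀ i < 20, 3 ≤ OddHC.ht (TT (H1.tX b m a w0 i)).1 ∧ OddHC.ht (TT (H1.tX b m a w0 i)).1 ≤ 5 := by
    intro i hi
    have e : cont (TT (H1.tX b m a w0 i)).1 = cont (H1.tX b m a w0 i).1 := by
      rw [TT_apply, cont_TF]
    rw [OddHC.ht_eq, e, ← OddHC.ht_eq, h1.word w0 hi]
    exact H1.ht_w3 h1.pos i hi
  rcases hp' with rfl | rfl | rfl | rfl | rfl | rfl
  · exact key 0 (by norm_num)
  · exact key 1 (by norm_num)
  · exact key 3 (by norm_num)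
  · exact key 6 (by norm_num)
  · exact key 8 (by norm_num)
  · exact key 9 (by norm_num)

/-- **inner words of T against the bottom** -/
theorem TyT.inner_bot (h : TyT F g) (s : Bool) : ∀ p ∈ g.arcs, ∀ w ∈ innA p, w ∉ botW k s := by
  intro p hp w hw hb
  have hh := (h.inner_ht p hp w hw).1
  obtain ⟨b, m, a, i, e⟩ := h.inner p hp w hw
  have f1 := H1.fb_Y3 (b := b) (m := m) (a := a) i
  have f2 := H1.lastB_Y3 (b := b) (m := m) (a := a) i
  have f3 := H1.len_Y3 (b := b) (m := m) (a := a) i
  rw [← e] at f1 f2 f3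
  rcases hb with h2 | ⟨n, hn, hnk, f, hf, rfl⟩ | ⟨n, hn, hn', hu, h2⟩
  · omega
  · change 2 ≤ H1.len (yT (uX n) f △ .nil) at f3
    change 2 ≤ H1.len BinaryTree.nil + 1 at f3
    change 2 ≤ 0 + 1 at f3
    omega
  · rw [h2] at f1 f2
    unfold lkh at f1 f2
    by_cases hn1 : n = 1
    · rw [if_pos hn1] at f1 f2
      cases s
      · rw [if_neg (by simp)] at f2
        have : H1.lastB (tw2 △ uT (k - 2 * (n + 1) + 1)) = true := by
          rw [H1.lastB_cons (by unfold uT; simp [lv])]
          unfold uT
          generalize k - 2 * (n + 1) = q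
          induction q with
          | zero => rfl
          | succ q ih =>
            change H1.lastB (.nil △ lv (q + 1) .nil) = true
            rw [H1.lastB_cons (by simp [lv])]
            exact ih
        rw [this] at f2
        exact absurd f2 (by simp)
      · rw [if_pos rfl] at f1
        exact absurd f1 (by
          change ¬ (H1.fb (.nil △ _) = false)
          simp [H1.fb, H1.isNil])
    · rw [if_neg hn1] at f2
      rw [H1.lastB_cons (by simp)] at f2
      exact absurd f2 (by decide)

/-- **T against the top** (`k - 3 ≥ 6`) -/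
theorem TyT.not_top {d : ℕ} {F : Set (Cyc (d + 5))} {g : DG (d + 5)} (h : TyT F g) (hd : 4 ≤ d) :
    (∀ w ∈ g.B, w ∉ topW8 d) ∧ ∀ p ∈ g.arcs, ∀ w ∈ innA p, w ∉ topW8 d := by
  constructor
  · intro w hw hw'
    have h1 := topW8_ht (by omega) hw'
    have h2 := (h.ht w hw).2
    omega
  · intro p hp w hw hw'
    have h1 := topW8_ht (by omega) hw'
    have h2 := (h.inner_ht p hp w hw).2
    omega

end Pool.OddHC
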