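import Pool.Agent.Work.MP_8f87b2_h62.R6f
import Pool.Agent.Work.MP_8f87b2_h62.W3g

/-!
# MP_8f87b2_co, height 3: the links against the top and the bottom; fields

`botW_count3`: a word of the bottom has at most one part 3. `TyK3`, `TyC3`: contents, heights, `not_bot`, `not_top`.
The J3V / J5V edge: words with the positions `JE`.
-/

set_option autoImplicit false

namespace Pool.OddHC

open Finset BinaryTree Pool.OddHop

namespace HT

variable {t k : ℕ}

theorem count3_raise (n m : ℕ) (hn : 1 ≤ n) :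
    (raise (Multiset.replicate n 2 + Multiset.replicate m 1)).count 3 ≤ 1 := by
  have hs : (Multiset.replicate n 2 + Multiset.replicate m 1).sup = 2 := by
    apply le_antisymm
    · rw [Multiset.sup_le]
      intro b hb
      rcases Multiset.mem_add.1 hb with h | h
      · rw [Multiset.eq_of_mem_replicate h]
      · rw [Multiset.eq_of_mem_replicate h]
        norm_num
    · apply Multiset.le_sup
      apply Multiset.mem_add.2
      left
      rw [Multiset.mem_replicate]
      exact ⟨by omega, rfl⟩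
  unfold raise
  rw [hs]
  have h1 : ((Multiset.replicate n 2 + Multiset.replicate m 1).erase 2).count 3 ≤
      (Multiset.replicate n 2 + Multiset.replicate m 1).count 3 := by
    apply Multiset.count_le_of_le
    exact Multiset.erase_le _ _
  have h2 : (Multiset.replicate n 2 + Multiset.replicate m 1).count 3 = 0 := by
    rw [Multiset.count_add, Multiset.count_replicate, Multiset.count_replicate]
    norm_num
  rw [Multiset.count_cons]
  split_ifs <;> omega

theorem cont_uT (n : ℕ) : cont (uT n) = Multiset.replicate n 1 := by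
  unfold uT
  rw [cont_lv, cont_nil, add_zero]

theorem cont_yT1 (n : ℕ) (f : ZMod (2 * n + 1) → ℕ) : cont (yT (Pool.OddHC.uX n) f) =
    Multiset.replicate n 2 + Multiset.replicate (∑ x, f x) 1 := by
  change cont (ins (uT n) (lf f)) = _
  rw [cont_ins _ _ (by
    rw [lf_length]
    have h4 := X_num (Pool.OddHC.uX n)
    change (uT n).numNodes = n at h4
    omega), cont_uT, Multiset.map_replicate, lf_sum]

/-- **a word of the bottom has at most one part 3** -/
theorem botW_count3 {s : Bool} {w : X k} (h : w ∈ botW k s) : (cont w.1).count 3 ≤ 1 := by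
  rcases h with h2 | ⟨n, hn, hnk, f, hf, rfl⟩ | ⟨n, hn, hn', hu, h2⟩
  · have : (cont w.1).count 3 = 0 := by
      rw [Multiset.count_eq_zero]
      intro h3
      have := Multiset.le_sup h3
      rw [← ht_eq] at this
      omega
    omega
  · change (cont (yT (Pool.OddHC.uX n) f △ .nil)).count 3 ≤ 1
    rw [cont_node, cont_nil, add_zero, cont_yT1]
    exact count3_raise n _ hn
  · rw [h2]
    unfold lkh
    by_cases hn1 : n = 1
    · rw [if_pos hn1]
      have e : cont (tw2 △ .nil) = {3} := by decide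
      cases s
      · rw [if_neg (by simp), cont_node, cont_uT]
        have e' : cont (tw2 △ .nil) = raise (cont tw2) := by
          rw [cont_node, cont_nil, add_zero]
        rw [← e', e, Multiset.count_add, Multiset.count_replicate]
        norm_num
      · rw [if_pos rfl, cont_app, e, cont_uT, Multiset.count_add, Multiset.count_replicate]
        norm_num
    · rw [if_neg hn1, cont_node]
      have e : cont (.nil △ .nil : BinaryTree Unit) = {1} := by decide
      rw [e, Multiset.count_add]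
      have h3 : (raise (cont (lP n (k - 2 * (n + 1)) (tb k (n + 1))))).count 3 ≤ 1 := by
        unfold lP
        rw [cont_yT1]
        exact count3_raise n _ hn
      have h4 : ({1} : Multiset ℕ).count 3 = 0 := by decide
      omega

theorem KS3.cont {S : BinaryTree Unit} (h : KS3 S) : ∃ s n, 3 ≤ s ∧
    OddHC.cont S = Multiset.replicate s 3 + Multiset.replicate n 1 := by
  obtain ⟨t, ht, (⟨n, -, rfl⟩ | rfl | ⟨n, rfl⟩)⟩ := h
  · exact ⟨t, _, ht, cont_Sg t _ _ _ _ _ (by omega)⟩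
  · exact ⟨t, _, ht, cont_Sg t _ _ _ _ _ (by omega)⟩
  · exact ⟨t, _, ht, cont_Sg t _ _ _ _ _ (by omega)⟩

theorem CS3.cont {S : BinaryTree Unit} (h : CS3 S) : ∃ s n, 3 ≤ s ∧
    OddHC.cont S = Multiset.replicate s 3 + Multiset.replicate n 1 := by
  obtain ⟨t, ht, (rfl | ⟨n, rfl⟩ | rfl | rfl)⟩ := h
  · exact ⟨t, _, ht, cont_Sg t _ _ _ _ _ (by omega)⟩
  · exact ⟨t, _, ht, cont_Sg t _ _ _ _ _ (by omega)⟩
  · exact ⟨t, _, ht, cont_Sg t _ _ _ _ _ (by omega)⟩
  · exact ⟨t, _, ht, cont_Sq t (by omega)⟩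

/-- the contents of `(S)..`, `S` of content `3^s 1^n` -/
theorem raise_S {s n : ℕ} (hs : 1 ≤ s) : raise (Multiset.replicate s 3 + Multiset.replicate n 1) =
    {4} + (Multiset.replicate (s - 1) 3 + Multiset.replicate n 1) := by
  have h1 : (Multiset.replicate s 3 + Multiset.replicate n 1).sup = 3 := by
    apply le_antisymm
    · rw [Multiset.sup_le]
      intro b hb
      rcases Multiset.mem_add.1 hb with h | h
      · rw [Multiset.eq_of_mem_replicate h]
      · rw [Multiset.eq_of_mem_replicate h]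
        norm_num
    · apply Multiset.le_sup
      apply Multiset.mem_add.2
      left
      rw [Multiset.mem_replicate]
      exact ⟨by omega, rfl⟩
  obtain ⟨s, rfl⟩ : ∃ s', s = s' + 1 := ⟨s - 1, by omega⟩
  unfold raise
  rw [h1, Multiset.replicate_succ, Multiset.cons_add, Multiset.erase_cons_head, Nat.add_sub_cancel]
  rfl

/-- contents and heights of the words of the links of height 3 -/
theorem tri3 {P Q R S : BinaryTree Unit} {F : Set (Cyc k)} {g : DG k} {s n : ℕ} (hs : 3 ≤ s)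
    (hc : cont S = Multiset.replicate s 3 + Multiset.replicate n 1) (h : IsTri P Q R F g)
    (hPQR : (P = .nil ∧ Q = S ∧ R = .nil △ .nil) ∨ (P = H1.ch 2 ∧ Q = S ∧ R = .nil)) :
    ∀ w ∈ g.B, 3 ≤ ht w.1 ∧ ht w.1 ≤ 4 ∧ 2 ≤ (cont w.1).count 3 := by
  have hh := ht_of_cont (by omega) hc
  have c3 : (cont S).count 3 = s := by
    rw [hc, Multiset.count_add, Multiset.count_replicate_self, Multiset.count_replicate, if_neg (by norm_num), add_zero]
  have r3 : (raise (cont S)).count 3 = s - 1 := by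
    rw [hc, raise_S (by omega), Multiset.count_add, Multiset.count_add, Multiset.count_replicate_self,
      Multiset.count_replicate, if_neg (by norm_num)]
    have : ({4} : Multiset ℕ).count 3 = 0 := by decide
    omega
  have z2 : ht (H1.ch 2) = 2 := rfl
  have z1 : ht (.nil △ .nil : BinaryTree Unit) = 1 := rfl
  have z0 : ht (.nil : BinaryTree Unit) = 0 := rfl
  intro w hw
  have hW : w.1 = w1 P Q R ∨ w.1 = w1 Q R P ∨ w.1 = w1 R P Q := by
    rcases IsTri.words h w hw with e | ⟨_, e | e⟩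
    · exact Or.inl e
    · exact Or.inr (Or.inl e)
    · exact Or.inr (Or.inr e)
  rcases hPQR with ⟨rfl, rfl, rfl⟩ | ⟨rfl, rfl, rfl⟩
  · rcases hW with e | e | e
    · rw [e, ht_w1, cont_w1, hh, z0, z1, Multiset.count_add, Multiset.count_add, r3]
      omega
    · rw [e, ht_w1, cont_w1, hh, z0, z1, Multiset.count_add, c3]
      omega
    · rw [e, ht_w1, cont_w1, hh, z0, z1, Multiset.count_add, Multiset.count_add, c3]
      omega
  · rcases hW with e | e | e
    · rw [e, ht_w1, cont_w1, hh, z0, z2, Multiset.count_add, Multiset.count_add, r3]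
      omega
    · rw [e, ht_w1, cont_w1, hh, z0, z2, Multiset.count_add, c3]
      omega
    · rw [e, ht_w1, cont_w1, hh, z0, z2, Multiset.count_add, Multiset.count_add, c3]
      omega

variable {F : Set (Cyc k)} {g : DG k}

theorem TyK3.ht (h : TyK3 F g) : ∀ w ∈ g.B, 3 ≤ OddHC.ht w.1 ∧ OddHC.ht w.1 ≤ 4 ∧ 2 ≤ (OddHC.cont w.1).count 3 := by
  obtain ⟨S, hS, h1⟩ := h
  obtain ⟨s, n, hs, hc⟩ := hS.cont
  exact tri3 hs hc h1 (Or.inl ⟨rfl, rfl, rfl⟩)

theorem TyC3.ht (h : TyC3 F g) : ∀ w ∈ g.B, 3 ≤ OddHC.ht w.1 ∧ OddHC.ht w.1 ≤ 4 ∧ 2 ≤ (OddHC.cont w.1).count 3 := by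
  obtain ⟨S, hS, h1⟩ := h
  obtain ⟨s, n, hs, hc⟩ := hS.cont
  exact tri3 hs hc h1 (Or.inr ⟨rfl, rfl, rfl⟩)

theorem TyK3.not_bot (h : TyK3 F g) (s : Bool) : ∀ w ∈ g.B, w ∉ botW k s := by
  intro w hw hb
  have h1 := (h.ht w hw).2.2
  have h2 := botW_count3 hb
  omega

theorem TyC3.not_bot (h : TyC3 F g) (s : Bool) : ∀ w ∈ g.B, w ∉ botW k s := by
  intro w hw hb
  have h1 := (h.ht w hw).2.2
  have h2 := botW_count3 hb
  omega

theorem TyK3.not_top {d : ℕ} {F : Set (Cyc (d + 5))} {g : DG (d + 5)} (h : TyK3 F g) (hd : 3 ≤ d) :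
    ∀ w ∈ g.B, w ∉ topW8 d := by
  intro w hw hw'
  have h1 := topW8_ht (by omega) hw'
  have h2 := (h.ht w hw).2.1
  omega

theorem TyC3.not_top {d : ℕ} {F : Set (Cyc (d + 5))} {g : DG (d + 5)} (h : TyC3 F g) (hd : 3 ≤ d) :
    ∀ w ∈ g.B, w ∉ topW8 d := by
  intro w hw hw'
  have h1 := topW8_ht (by omega) hw'
  have h2 := (h.ht w hw).2.1
  omega

/-- the link `[2](S)` is of type `TyCl` -/
theorem TyC3.cl (h : TyC3 F g) : TyCl F g := by
  obtain ⟨S, hS, h1⟩ := h
  obtain ⟨s, n, hs, hc⟩ := hS.cont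
  exact ⟨2, S, le_rfl, by rw [ht_of_cont (by omega) hc], by decide, h1⟩

/-! ### The E edge of J3V / J5V -/

/-- `R()()`, `R = [3]^t (())` : level 0 -/
theorem JE_y (ht : 1 ≤ t) {y : X k} (hy : y.1 = app (H1.th t ((.nil △ .nil) △ .nil)) (lv 2 .nil)) : H2 t (cyc y) 0 := by
  obtain ⟨n, rfl⟩ : ∃ n, t = n + 1 := ⟨t - 1, by omega⟩
  rw [H2_zero]
  have e := lf_p (N := 2 * (2 * (n + 1) + 1) + 1) (n := n) (i := 6) (by omega) (by norm_num) 2
  have h1 : HB (n + 1) 1 (cyc y) (pf (((4 * n + 6 : ℕ) : ZMod (2 * (2 * (n + 1) + 1) + 1))) 2) := by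
    refine ⟨y, rfl, ?_⟩
    rw [hy, e]
    change _ = ins (uX (n + 1) 1).1 (List.replicate (4 * (n + 1 - 1)) 0 ++ [0, 0, 0, 0, 0, 0, 2])
    rw [ins_last (by omega), app_th]
    have : ∀ (n : ℕ) (x : BinaryTree Unit), H1.th (n + 1) x = H1.th n (((.nil △ .nil) △ .nil) △ x) := by
      intro n x
      induction n with
      | zero => rfl
      | succ n ih =>
        change ((.nil △ .nil) △ .nil) △ H1.th (n + 1) x = ((.nil △ .nil) △ .nil) △ H1.th n _
        rw [ih]
    rw [this]
    rfl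
  have h2 := h1.rot (by omega) (((4 * n + 6 : ℕ) : ZMod (2 * (2 * (n + 1) + 1) + 1)) - 0)
  rwa [← pf_shift] at h2

/-- `()R()` : level 1 -/
theorem JE_y' (ht : 1 ≤ t) {y : X k} (hy : y.1 = .nil △ app (H1.th t ((.nil △ .nil) △ .nil)) (lv 1 .nil)) :
    H2 t (cyc y) 1 := by
  obtain ⟨n, rfl⟩ : ∃ n, t = n + 1 := ⟨t - 1, by omega⟩
  have e := lf_two (n := 2 * (2 * (n + 1) + 1) + 1) (p := 0) (q := 4 * n + 6) (by omega) (by omega) 1 1
  have e2 : (((0 : ℕ) : ℕ) : ZMod (2 * (2 * (n + 1) + 1) + 1)) =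
      ((4 * n + 6 : ℕ) : ZMod (2 * (2 * (n + 1) + 1) + 1)) + ((1 : ℕ) : ZMod (2 * (2 * (n + 1) + 1) + 1)) := by
    rw [← Nat.cast_add, Nat.cast_zero]
    have : 4 * n + 6 + 1 = 2 * (2 * (n + 1) + 1) + 1 := by ring
    rw [this, ZMod.natCast_self]
  rw [e2, pf_comm] at e
  have h1 : HB (n + 1) 1 (cyc y) (fun z => pf ((4 * n + 6 : ℕ) : ZMod (2 * (2 * (n + 1) + 1) + 1)) 1 z +
      pf (((4 * n + 6 : ℕ) : ZMod (2 * (2 * (n + 1) + 1) + 1)) + ((1 : ℕ) : ZMod (2 * (2 * (n + 1) + 1) + 1))) 1 z) := by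
    refine ⟨y, rfl, ?_⟩
    rw [hy, e]
    have e3 : List.replicate 0 0 ++ 1 :: (List.replicate (4 * n + 6 - 0 - 1) 0 ++
        1 :: List.replicate (2 * (2 * (n + 1) + 1) + 1 - 1 - (4 * n + 6)) 0) =
        1 :: 0 :: 0 :: 0 :: (List.replicate (4 * n) 0 ++ [0, 0, 1]) := by
      rw [show 2 * (2 * (n + 1) + 1) + 1 - 1 - (4 * n + 6) = 0 by omega,
        show 4 * n + 6 - 0 - 1 = 3 + (4 * n + 2) by omega, List.replicate_add, List.replicate_add]
      simp [List.replicate_succ]
    rw [e3]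
    change _ = lv 1 (ins (.nil △ .nil) (bump (.nil △ .nil) [0, 0, 0]) △
      ins (lv2 n (lv 1 .nil)) (List.replicate (4 * n) 0 ++ [0, 0, 1]))
    rw [ins_lv2, app_th]
    rfl
  exact h1.at (by omega) 0

end HT

end Pool.OddHC
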