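import Pool.Agent.Work.MP_8f87b2_h62.R6e
import Pool.Agent.Work.MP_8f87b2_h2.KHp

/-!
# MP_8f87b2_co, height 3: the K links are of the common type `TyKh`
-/

set_option autoImplicit false

namespace Pool.OddHC

namespace HT

open BinaryTree

variable {k : ℕ}

theorem th_split (n : ℕ) (x : BinaryTree Unit) : H1.th n x = app (H1.th n .nil) x := by
  rw [app_th]
  rfl

theorem hv_th (n : ℕ) : H1.hv (H1.th n .nil) := by
  induction n with
  | zero => trivial
  | succ n ih => exact ⟨Or.inl rfl, ih⟩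

theorem th_ne {n : ℕ} (hn : 1 ≤ n) (x : BinaryTree Unit) : H1.th n x ≠ .nil := by
  obtain ⟨n, rfl⟩ : ∃ n', n = n' + 1 := ⟨n - 1, by omega⟩
  change ((.nil △ .nil) △ .nil) △ H1.th n x ≠ .nil
  simp

theorem KS3.khp {S : BinaryTree Unit} (h : KS3 S) : KHp S := by
  obtain ⟨t, ht, (⟨n, hn, rfl⟩ | rfl | ⟨n, rfl⟩)⟩ := h
  · rcases Nat.eq_zero_or_pos n with rfl | hpos
    · left
      refine ⟨H1.th (t - 1) .nil, 0, th_split _ _, hv_th _, th_ne (by omega) _, ?_⟩
      intro x hx
      rw [cont_Sg t _ _ _ _ _ (by omega)] at hx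
      rcases Multiset.mem_add.1 hx with h | h
      · rw [Multiset.eq_of_mem_replicate h]
      · rw [Multiset.mem_replicate] at h
        omega
    · right; right; left
      obtain ⟨q, rfl⟩ : ∃ q, n = q + 2 := ⟨n - 2, by omega⟩
      refine ⟨H1.th (t - 1) (((.nil △ .nil) △ .nil) △ .nil), q, ?_, ?_, th_ne (by omega) _⟩
      · rw [app_th]
        rfl
      · rw [th_split, H1.hv_app]
        exact ⟨hv_th _, Or.inl rfl, trivial⟩
  · right; right; right; left
    exact ⟨H1.th (t - 1) .nil, 0, th_split _ _, hv_th _, th_ne (by omega) _⟩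
  · right; right; right; right; left
    exact ⟨H1.th (t - 1) .nil, pc 2, n, th_split _ _, hv_th _, Or.inl ⟨th_ne (by omega) _, rfl⟩⟩

theorem TyK3.kh {F : Set (Cyc k)} {g : DG k} (h : TyK3 F g) : TyKh F g := by
  obtain ⟨S, hS, h1⟩ := h
  exact ⟨S, hS.khp, h1⟩

end HT

end Pool.OddHC
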