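import Pool.Agent.Work.MP_8f87b2_h62.R6f
import Pool.Agent.Work.MP_8f87b2_fin.Blk1

/-!
# MP_8f87b2_co, height 3: the T-cycles over `V = ()^t`

`over_hh`, `hh_of_CT`: `V = ()^t` iff the content is `3^t 2^a 1^m`. `win_T`: the window in helper30's form.
`cls_win`: the classes without guests. `cls_K2`: `(t;a,2)`, one guest = pile over the pile.
-/

set_option autoImplicit false

namespace Pool.OddHC

namespace HT

open Finset BinaryTree Pool.OddHop

variable {t j k : ℕ}

/-- data of a T-cycle of content `3^t 2^a 1^m` -/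
theorem CT_data {a m : ℕ} {p : Cyc k} (hc : contc p = CT t a m) :
    ∃ U : Cyc (2 * t + a), Rd p = ⟨2 * t + a, U⟩ ∧ contc U = Multiset.replicate t 2 + Multiset.replicate a 1 ∧
      Rd U = ⟨t, cyc (hhX t)⟩ ∧ (contc p).count 1 = m := by
  obtain ⟨j, u, e, w, hw, he, hwe, hR, h1, h2, h3, h4⟩ := exists_over p
  have h5 : (contc p).count 1 = m := by rw [hc]; exact CT_one t a m
  rw [h5] at h3
  rw [hc, h3] at h4
  unfold CT at h4
  rw [← add_assoc, add_left_inj] at h4
  have h6 : cont u.1 = Multiset.replicate t 2 + Multiset.replicate a 1 := by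
    apply map_succ_inj
    rw [← h4, Multiset.map_add, Multiset.map_replicate, Multiset.map_replicate]
  obtain ⟨F, hj, hu, hF⟩ := over1 u h6
  have hjt : j = 2 * t + a := by
    rw [← hj, pkn_hh, hF]
    omega
  subst hjt
  refine ⟨cyc u, hR, h6, ?_, h5⟩
  have hu1 : u.1 = ins (hhX t).1 (lf F) := by rw [hu]; rfl
  exact Rd_ins (lf_length _) hu1

theorem hh_of_CT {a m : ℕ} {p : Cyc k} (hc : contc p = CT t a m) : Rd (Rd p).2 = ⟨t, cyc (hhX t)⟩ := by
  obtain ⟨U, h1, -, h3, -⟩ := CT_data hc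
  rw [h1]
  exact h3

theorem contc_hh (t : ℕ) : contc (cyc (hhX t)) = Multiset.replicate t 1 := by
  change cont (lv t .nil) = _
  rw [cont_lv, cont_nil, add_zero]

theorem over_hh {p : Cyc k} (h : Rd (Rd p).2 = ⟨t, cyc (hhX t)⟩) :
    contc p = CT t (aa p) ((contc p).count 1) := by
  have h1 := contc_eq p
  have h2 := contc_eq (Rd p).2
  rw [h] at h2
  change contc (Rd p).2 = (contc (cyc (hhX t))).map (· + 1) + Multiset.replicate (aa p) 1 at h2
  rw [contc_hh, Multiset.map_replicate] at h2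
  generalize aa p = a at *
  generalize (contc p).count 1 = m at *
  rw [h2, Multiset.map_add, Multiset.map_replicate, Multiset.map_replicate, add_assoc] at h1
  exact h1

theorem CT_cl {a m : ℕ} {p q : Cyc k} (hc : contc p = CT t a m) : cl q = cl p ↔ contc q = CT t a m := by
  constructor
  · intro h
    have h1 := (Prod.ext_iff.1 h).2
    exact h1.trans hc
  · intro h
    unfold cl
    rw [hh_of_CT hc, hh_of_CT h, hc, h]

theorem pkc_CT {a : ℕ} {U : Cyc j} (h : contc U = Multiset.replicate t 2 + Multiset.replicate a 1) :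
    pkc U = t + a := by
  unfold pkc
  rw [h, Multiset.card_add, Multiset.card_replicate, Multiset.card_replicate]

/-- **THE WINDOW T** at the pile over the pile -/
theorem win_T {a m : ℕ} (ht : 2 ≤ t) (ha : 1 ≤ a) (hm : 1 ≤ m) (hk : 3 * t + 2 * a + m = k) :
    ∃ (v : X t) (x2 : ZMod (2 * t + 1)) (u : X (2 * t + a)) (x : ZMod (2 * (2 * t + a) + 1)) (w : X k) (g : DG k),
      cyc v = cyc (hhX t) ∧ u.1 = ins v.1 (lf fun y => if y = x2 then a else 0) ∧
      w.1 = ins u.1 (lf fun y => if y = x then m else 0) ∧ TyT {cyc w} g := by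
  obtain ⟨p, w, hw, hw1⟩ := HB_mk (k := k) (t := t) a (pf 0 m) (by rw [pf_sum]; exact hk)
  obtain ⟨g, hg⟩ := T_ex ht ha hm (v := hhX t) rfl (u := uX t a) (ins_u t a).symm hw1
  exact ⟨hhX t, _, uX t a, 0, w, g, rfl, (ins_u t a).symm, hw1, hg⟩

variable {τp τw : Type} {Pp : τp → Set (Cyc k) → DG k → Prop} {Pw : τw → Set (Cyc k) → DG k → Prop}
  {AE : Cyc k → Cyc k → Prop}

theorem count_U {a : ℕ} {U : Cyc j} (h : contc U = Multiset.replicate t 2 + Multiset.replicate a 1) :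
    (contc U).count 1 = a := by
  rw [h, Multiset.count_add, Multiset.count_replicate, Multiset.count_replicate_self, if_neg (by norm_num), zero_add]

theorem two_U {a : ℕ} (h2 : (contc (cyc (uX t a))).count 1 = 2) : IsTwo (cyc (uX t a)) := by
  refine IsPile.two ⟨t, hhX t, _, a, uX t a, rfl, (ins_u t a).symm⟩ h2

/-- **the classes `(t;a,m)`, `a, m ≥ 1`, without guests** -/
theorem cls_win {a m : ℕ} (ht : 2 ≤ t) (ha : 1 ≤ a) (hm : 1 ≤ m) {p0 : Cyc k} (hc : contc p0 = CT t a m)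
    (hEnv : ClsEnv AE Pp Pw (cl p0)) {X : Set (Cyc k)} (hX : ∀ c ∈ X, contc c ≠ CT t a m)
    (hT : ∀ F g, TyT F g → Typd Pp Pw F) : ∃ Gp Gw, ClsOK AE (cl p0) X Gp Gw Pp Pw := by
  obtain ⟨U1, h1, h2, h3, h4⟩ := CT_data hc
  obtain ⟨p, w, hw, hw1⟩ := HB_mk (k := k) (t := t) a (pf 0 m) (by rw [pf_sum]; exact size_CT hc)
  obtain ⟨g, hg⟩ := T_ex ht ha hm (v := hhX t) rfl (u := uX t a) (ins_u t a).symm hw1
  have hcu : contc (cyc (uX t a)) = Multiset.replicate t 2 + Multiset.replicate a 1 := cont_u t a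
  have hRu : Rd (cyc (uX t a)) = ⟨t, cyc (hhX t)⟩ := Rd_ins (lf_length _) (ins_u t a).symm
  refine r1_win hEnv h1 hm ?_ ?_ (cyc w) (cyc (uX t a)) (hRu.trans h3.symm) (Rd_ins (lf_length _) hw1) two_U ?_
    (hT _ _ hg)
  · rw [pkc_CT h2]
    have := size_CT hc
    omega
  · intro c hcX h
    exact hX c hcX ((CT_cl hc).1 h)
  · intro h
    have hp : IsPile (cyc w) := ⟨2 * t + a, uX t a, 0, m, w, rfl, hw1⟩
    refine hp.two ?_
    rw [contc_cyc, hw1, count_one_ins _ _ (by rw [lf_length, X_num]), lf_sum, pf_sum, h]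

end HT

end Pool.OddHC
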