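import Pool.Agent.Work.MP_8f87b2_h62.R6i
import Pool.Agent.Work.MP_8f87b2_h62.R6h
import Pool.Agent.Work.MP_8f87b2_h62.J33Ex
import Pool.Agent.Work.MP_8f87b2_h2.KHj
import Pool.Agent.Work.MP_8f87b2_fin.Jvk
import Pool.Agent.Work.MP_8f87b2_fin.PartTop
import Pool.Agent.Work.MP_8f87b2_fin.Frame

/-!
# MP_8f87b2_co, height 3: the region `V = ()^t`, `t ≥ 3`

`reg3`: `RegOK P {<t, cyc (()^t)> : t ≥ 3}` from the environment, the types T, K (`TyKq`), Cl, J3V (`TyJ33Q`) and the pairs of the hops of the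
second level.
-/

set_option autoImplicit false

namespace Pool.OddHC

namespace HT

open Finset BinaryTree Pool.OddHop

variable {t j k : ℕ} {τ : Type} {P : τ → Set (Cyc k) → DG k → Prop}

theorem KS3.khq {S : BinaryTree Unit} (h : KS3 S) : KHq S := by
  obtain ⟨t, ht, (⟨n, hn, rfl⟩ | rfl | ⟨n, rfl⟩)⟩ := h
  · rcases Nat.eq_zero_or_pos n with rfl | hpos
    · left
      refine ⟨H1.th (t - 1) .nil, 0, th_split _ _, hv_th _, th_ne (by omega) _, ?_⟩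
      intro x hx
      rw [cont_Sg t _ _ _ _ _ (by omega)] at hx
      rcases Multiset.mem_add.1 hx with h | h
      · rw [Multiset.eq_of_mem_replicate h]
      · rw [Multiset.mem_replicate] at h
        omega
    · right; right; left
      obtain ⟨q, rfl⟩ : ∃ q, n = q + 2 := ⟨n - 2, by omega⟩
      refine ⟨H1.th (t - 1) (((.nil △ .nil) △ .nil) △ .nil), q, ?_, ?_, th_ne (by omega) _⟩
      · rw [app_th]
        rfl
      · rw [th_split, H1.hv_app]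
        exact ⟨hv_th _, Or.inl rfl, trivial⟩
  · right; right; right; left
    exact ⟨H1.th (t - 1) .nil, 0, th_split _ _, hv_th _, th_ne (by omega) _⟩
  · right; right; right; right; left
    exact ⟨H1.th (t - 1) .nil, pc 2, n, th_split _ _, hv_th _, Or.inl ⟨th_ne (by omega) _, rfl⟩⟩

theorem TyK3.kq {F : Set (Cyc k)} {g : DG k} (h : TyK3 F g) : TyKq F g := by
  obtain ⟨S, hS, h1⟩ := h
  exact ⟨S, hS.khq, h1⟩

theorem pkc_hh (t : ℕ) : pkc (cyc (hhX t)) = t := by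
  unfold pkc
  rw [contc_hh, Multiset.card_replicate]

theorem vcl_CT {a m : ℕ} (hk : 3 * t + 2 * a + m = k) {p : Cyc k} :
    cl p ∈ vcl k (cyc (hhX t)) a ↔ contc p = CT t a m := by
  rw [mem_vcl]
  constructor
  · rintro ⟨h1, h2⟩
    have h3 := over_hh h1
    rw [h2] at h3
    have h4 := size_CT h3
    rw [h3]
    congr 1
    omega
  · intro h
    have h1 := hh_of_CT h
    refine ⟨h1, ?_⟩
    exact (CT_inj ((over_hh h1).symm.trans h)).2.1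

theorem vcl_size {a : ℕ} {p : Cyc k} (h : cl p ∈ vcl k (cyc (hhX t)) a) : ∃ m, 3 * t + 2 * a + m = k := by
  obtain ⟨h1, h2⟩ := mem_vcl.1 h
  have h3 := over_hh h1
  rw [h2] at h3
  exact ⟨_, size_CT h3⟩

theorem vcl_inj {a t' a' : ℕ} {κ : RD × Multiset ℕ} (h : κ ∈ vcl k (cyc (hhX t)) a)
    (h' : κ ∈ vcl k (cyc (hhX t')) a') : t = t' ∧ a = a' := by
  obtain ⟨p, rfl, h1, h2⟩ := h
  have hp : cl p ∈ vcl k (cyc (hhX t)) a := mem_vcl.2 ⟨h1, h2⟩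
  obtain ⟨m, hm⟩ := vcl_size hp
  obtain ⟨m', hm'⟩ := vcl_size h'
  have := CT_inj (((vcl_CT hm).1 hp).symm.trans ((vcl_CT hm').1 h'))
  exact ⟨this.1, this.2.1⟩

/-- the pairs of the hops of the second level over `()^t` -/
def JVh (P : τ → Set (Cyc k) → DG k → Prop) (t : ℕ) : Prop :=
  ∀ (a j : ℕ) (U U' : Cyc j), 1 ≤ a → 3 * t + 2 * a = k → j = 2 * t + a →
    Rd U = ⟨t, cyc (hhX t)⟩ → Rd U' = ⟨t, cyc (hhX t)⟩ → U ≠ U' → HopC U U' →
    ∃ p q : Cyc k, Rd p = ⟨j, U⟩ ∧ Rd q = ⟨j, U'⟩ ∧ Typd P P {p, q}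

/-- the environment -/
structure Env3 (P : τ → Set (Cyc k) → DG k → Prop) : Prop where
  env : ∀ t, 3 ≤ t → ∀ p0 : Cyc k, Rd (Rd p0).2 = ⟨t, cyc (hhX t)⟩ → ClsEnv (AEP P) P P (cl p0)
  hT : ∀ F g, TyT F g → Typd P P F
  hK : ∀ F g, TyKq F g → Typd P P F
  hC : ∀ F g, TyC3 F g → Typd P P F
  hJ : ∀ F g, TyJ33Q F g → Typd P P F
  jv : ∀ t, 3 ≤ t → JVh P t

theorem Env3.win (h : Env3 P) (ht : 3 ≤ t) {a m : ℕ} (ha : 1 ≤ a) (hm : 1 ≤ m) (hk : 3 * t + 2 * a + m = k) :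
    NodeW k (cyc (hhX t)) (Typd P P) a m := by
  obtain ⟨v, x2, u, x, w, g, h1, h2, h3, h4⟩ := win_T (k := k) (by omega) ha hm hk
  exact ⟨_, v, x2, u, x, w, h1, h2, h3, h.hT _ _ h4⟩

theorem Env3.jvU (h : Env3 P) (ht : 3 ≤ t) {a : ℕ} (ha : 1 ≤ a) (hk : 3 * t + 2 * a = k) (j : ℕ) (U U' : Cyc j)
    (hj : j = t + pkc (cyc (hhX t)) + a) (hU : Rd U = ⟨t, cyc (hhX t)⟩) (hU' : Rd U' = ⟨t, cyc (hhX t)⟩)
    (hne : U ≠ U') (hh : HopC U U') : ∃ p q : Cyc k, Rd p = ⟨j, U⟩ ∧ Rd q = ⟨j, U'⟩ ∧ Typd P P {p, q} := by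
  rw [pkc_hh] at hj
  exact h.jv t ht a j U U' ha hk (by omega) hU hU' hne hh

/-- **the two top classes** -/
theorem Env3.top (h : Env3 P) (ht : 3 ≤ t) {a : ℕ} (ha : 2 ≤ a) (hk : 3 * t + 2 * a + 2 = k) :
    ClsReg P (vcl k (cyc (hhX t)) a ∪ vcl k (cyc (hhX t)) (a + 1)) := by
  have hp := pkc_hh t
  have hk' : t + 2 * pkc (cyc (hhX t)) + 2 * a + 2 = k := by rw [hp]; omega
  have henv := h.env t ht
  by_cases h1 : oddF t (a + 1)
  · by_cases h2 : oddF t a ∧ oddF (t + pkc (cyc (hhX t)) + a) 2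
    · refine part_k4 a (by omega) hk' henv (KS := KHq) (fun S F g h3 h4 _ => h.hK F g ⟨S, h3, h4⟩) h1 h2
        (kq4 (by rw [hp]; omega) a (by omega)) ?_
      exact jvk_of_hops (a + 1) (by omega) (by rw [hp]; omega)
        (fun j U U' hU hU' hj hne hh => h.jvU ht (by omega) (by omega) j U U' hj hU hU' hne hh)
    · refine part_j a (by rw [hp]; omega) hk' henv (fun h3 => h2 ⟨h3.2, h3.1⟩) ?_
      refine topJ33 (by omega) (by omega) (by omega) h1 ?_ h.hJ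
      exact fun j U U' hj hU hU' hne hh => h.jvU ht (by omega) (by omega) j U U' hj hU hU' hne hh
  · refine (part_win a 2 (by omega) (by norm_num) hk' henv (h.win ht (by omega) (by norm_num) hk)).union ?_ ?_
    · refine ClsReg.single fun p0 hp0 => ?_
      refine jv0_of_hops (a + 1) (by omega) (by rw [hp]; omega)
        (fun j U U' hU hU' hj hne hh => h.jvU ht (by omega) (by omega) j U U' hj hU hU' hne hh) h1 p0 ∅ hp0 ?_
      exact fun c _ => Iff.rfl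
    · intro κ h3 h4
      have := vcl_inj h3 h4
      omega

/-- **the classes `a ≥ 2`** without `(t;2,0)`, `t` even -/
theorem Env3.high (h : Env3 P) (ht : 3 ≤ t) :
    ClsReg P {κ | ∃ a, 2 ≤ a ∧ κ ∈ vcl k (cyc (hhX t)) a ∧ ¬ (a = 2 ∧ t % 2 = 0 ∧ 3 * t + 4 = k)} := by
  -- the classes with a window
  have hw : ∀ a m, 2 ≤ a → 1 ≤ m → 3 * t + 2 * a + m = k → ClsReg P (vcl k (cyc (hhX t)) a) := by
    intro a m ha hm hk
    exact part_win a m (by omega) hm (by rw [pkc_hh]; omega) (h.env t ht) (h.win ht (by omega) hm hk)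
  by_cases hA : ∃ b, 3 ≤ b ∧ 3 * t + 2 * b = k
  · obtain ⟨b, hb, hk⟩ := hA
    obtain ⟨a, rfl⟩ : ∃ a, b = a + 1 := ⟨b - 1, by omega⟩
    have h1 := h.top ht (a := a) (by omega) (by omega)
    have h2 : ClsReg P {κ | ∃ i : {i : ℕ // 2 ≤ i ∧ i < a}, κ ∈ vcl k (cyc (hhX t)) i.1} := by
      refine ClsReg.iUnion ?_ ?_
      · rintro ⟨i, hi⟩ ⟨i', hi'⟩ κ h3 h4
        exact Subtype.ext (vcl_inj h3 h4).2
      · rintro ⟨i, hi1, hi2⟩
        exact hw i (k - 3 * t - 2 * i) hi1 (by omega) (by omega)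
    refine (h1.union h2 ?_).congr ?_
    · rintro κ h3 ⟨⟨i, hi1, hi2⟩, h4⟩
      rcases h3 with h3 | h3
      · have := vcl_inj h3 h4
        simp only at this
        omega
      · have := vcl_inj h3 h4
        simp only at this
        omega
    · intro p
      constructor
      · rintro ((h3 | h3) | ⟨⟨i, hi1, hi2⟩, h3⟩)
        · exact ⟨a, by omega, h3, by omega⟩
        · exact ⟨a + 1, by omega, h3, by omega⟩
        · exact ⟨i, hi1, h3, by omega⟩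
      · rintro ⟨c, hc, h3, -⟩
        obtain ⟨m, hm⟩ := vcl_size h3
        rcases (show c = a ∨ c = a + 1 ∨ c < a by omega) with rfl | rfl | h4
        · exact Or.inl (Or.inl h3)
        · exact Or.inl (Or.inr h3)
        · exact Or.inr ⟨⟨c, hc, h4⟩, h3⟩
  · by_cases hB : 3 * t + 4 = k
    · refine (ClsReg.single (P := P) (K := {κ | κ ∈ vcl k (cyc (hhX t)) 2 ∧ t % 2 = 1}) ?_).congr ?_
      · rintro p0 ⟨hp0, hto⟩
        refine jv0_of_hops (V := cyc (hhX t)) 2 (by omega) (by rw [pkc_hh]; omega)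
          (fun j U U' hU hU' hj hne hh => h.jvU ht (by omega) (by omega) j U U' hj hU hU' hne hh) ?_ p0 ∅ hp0 ?_
        · obtain ⟨s, rfl⟩ : ∃ s, t = 2 * s + 1 := ⟨t / 2, by omega⟩
          exact even_o23 (by norm_num) (by norm_num)
        · exact fun c _ => Iff.rfl
      · intro p
        constructor
        · rintro ⟨h3, h4⟩
          exact ⟨2, le_rfl, h3, by omega⟩
        · rintro ⟨c, hc, h3, h4⟩
          obtain ⟨m, hm⟩ := vcl_size h3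
          obtain rfl : c = 2 := by omega
          exact ⟨h3, by omega⟩
    · refine (ClsReg.iUnion (P := P) (K := fun i : {i : ℕ // 2 ≤ i ∧ 3 * t + 2 * i < k} =>
        vcl k (cyc (hhX t)) i.1) ?_ ?_).congr ?_
      · rintro ⟨i, hi⟩ ⟨i', hi'⟩ κ h3 h4
        exact Subtype.ext (vcl_inj h3 h4).2
      · rintro ⟨i, hi1, hi2⟩
        exact hw i (k - 3 * t - 2 * i) hi1 (by omega) (by omega)
      · intro p
        constructor
        · rintro ⟨⟨i, hi1, hi2⟩, h3⟩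
          exact ⟨i, hi1, h3, by omega⟩
        · rintro ⟨c, hc, h3, h4⟩
          obtain ⟨m, hm⟩ := vcl_size h3
          refine ⟨⟨c, hc, ?_⟩, h3⟩
          by_contra h5
          rcases (show c = 2 ∨ 3 ≤ c by omega) with rfl | h6
          · exact hB (by omega)
          · exact hA ⟨c, h6, by omega⟩

/-- **J3V at `(t;2,0)`** -/
theorem Env3.jgrp (h : Env3 P) (ht : 3 ≤ t) (hte : t % 2 = 0) (hk : 3 * t + 4 = k) : ∃ F : Set (Cyc k),
    F.Nonempty ∧ Typd P P F ∧ (∀ c ∈ F, cl c ∈ vcl k (cyc (hhX t)) 1 ∪ vcl k (cyc (hhX t)) 2) ∧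
    (∀ c, contc c = CT t 1 2 → (c ∈ F ↔ JE t c)) ∧ JVC P (cyc (hhX t)) 2 F := by
  have hp := pkc_hh t
  have ho : oddF t 2 := by
    obtain ⟨s, rfl⟩ : ∃ s, t = 2 * s := ⟨t / 2, by omega⟩
    exact odd_e23 (by norm_num) (by norm_num)
  obtain ⟨F, j, u, hku, x, s, hty, hsub, hRu, hj, htwo, hF, hJ⟩ : TopJ P (cyc (hhX t)) 1 :=
    topJ33 (by omega) le_rfl (by omega) ho
      (fun j U U' hj hU hU' hne hh => h.jvU ht (by omega) (by omega) j U U' hj hU hU' hne hh) h.hJ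
  rw [hp] at hj
  obtain rfl : j = 2 * t + 1 := by omega
  have hc0 : ∀ y d, cl (tc u hku y d) ∈ vcl k (cyc (hhX t)) 1 := fun y d =>
    (vcl_iff (Rd_tc u hku y d) hRu).2 (by rw [hp]; omega)
  have hcu : cyc u = cyc (uX t 1) := by
    have h1 := (vcl_CT (m := 2) (by omega)).1 (hc0 x 0)
    have h2 := Rd_CT (by omega) le_rfl h1
    rw [Rd_tc] at h2
    exact eq_of_heq (Sigma.mk.inj_iff.1 h2).2
  have hku' : 2 * t + 1 + pkn (uX t 1).1 + 2 = k := by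
    have e : pkn (uX t 1).1 = pkn u.1 := by rw [← pkc_cyc, ← pkc_cyc, hcu]
    rw [e]
    exact hku
  obtain ⟨y0, hy0⟩ := tc_phase hcu hku' hku
  have key : ∀ (d : ℕ) (y : ZMod (2 * (2 * t + 1) + 1)) (p : Cyc k), p = tc u hku y d ↔ H2 t p d := by
    intro d y p
    rw [hy0]
    obtain ⟨w, hw, hw2⟩ := tc_exists (uX t 1) hku' 0 d
    have hq : H2 t (tc (uX t 1) hku' 0 d) d := ⟨w, hw, hw2⟩
    constructor
    · rintro rfl
      rw [← hq.tc (by omega) hku' (y + y0)]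
      exact hq
    · intro h1
      exact h1.tc (by omega) hku' _
  refine ⟨F, ⟨tc u hku x 0, (hF _ (hc0 x 0)).2 (Or.inl rfl)⟩, hty, hsub, ?_, hJ⟩
  intro c hc
  rw [hF c ((vcl_CT (by omega)).2 hc), key, key]
  constructor
  · exact fun h1 => ⟨hte, hc, h1⟩
  · exact fun h1 => h1.2.2

/-- **the classes `a ≤ 1`** and `(t;2,0)`, `t` even -/
theorem Env3.low (h : Env3 P) (hk : 13 ≤ k) :
    ClsReg P {κ | ∃ t, 3 ≤ t ∧ (κ ∈ vcl k (cyc (hhX t)) 0 ∨ κ ∈ vcl k (cyc (hhX t)) 1 ∨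
      (κ ∈ vcl k (cyc (hhX t)) 2 ∧ t % 2 = 0 ∧ 3 * t + 4 = k))} := by
  classical
  obtain ⟨XL, h1, h2, h3, h4⟩ := height3 hk
  have hJ : ∀ t, 3 ≤ t ∧ t % 2 = 0 ∧ 3 * t + 4 = k → ∃ F : Set (Cyc k),
    F.Nonempty ∧ Typd P P F ∧ (∀ c ∈ F, cl c ∈ vcl k (cyc (hhX t)) 1 ∪ vcl k (cyc (hhX t)) 2) ∧
    (∀ c, contc c = CT t 1 2 → (c ∈ F ↔ JE t c)) ∧ JVC P (cyc (hhX t)) 2 F := fun t ht => h.jgrp ht.1 ht.2.1 ht.2.2
  choose FJ hF1 hF2 hF3 hF4 hF5 using hJ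
  have memJ : ∀ t (ht : 3 ≤ t ∧ t % 2 = 0 ∧ 3 * t + 4 = k), ∀ c ∈ FJ t ht,
      contc c = CT t 1 2 ∨ contc c = CT t 2 0 := by
    intro t ht c hc
    rcases hF3 t ht c hc with h5 | h5
    · exact Or.inl ((vcl_CT (by omega)).1 h5)
    · exact Or.inr ((vcl_CT (by omega)).1 h5)
  have hJX : ∀ t (ht : 3 ≤ t ∧ t % 2 = 0 ∧ 3 * t + 4 = k), ∀ c ∈ FJ t ht, c ∉ inG XL := by
    intro t ht c hc hX
    rcases memJ t ht c hc with h5 | h5
    · exact h3 t c ((hF4 t ht c h5).1 hc) hX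
    · obtain ⟨F, hF, hcF⟩ := hX
      obtain ⟨t', a', m', e1, e2, e3⟩ := (h1 F hF).2.2 c hcF
      have := CT_inj (h5.symm.trans e3)
      omega
  obtain ⟨Xs, hXs⟩ : ∃ Xs : Set (Set (Cyc k)), Xs = {F | F ∈ XL ∨ ∃ t ht, F = FJ t ht} := ⟨_, rfl⟩
  have hin : ∀ c, c ∈ inG Xs ↔ c ∈ inG XL ∨ ∃ t ht, c ∈ FJ t ht := by
    intro c
    constructor
    · rintro ⟨F, hF, hcF⟩
      rw [hXs] at hF
      rcases hF with hF | ⟨t, ht, rfl⟩
      · exact Or.inl ⟨F, hF, hcF⟩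
      · exact Or.inr ⟨t, ht, hcF⟩
    · rintro (⟨F, hF, hcF⟩ | ⟨t, ht, hc⟩)
      · exact ⟨F, by rw [hXs]; exact Or.inl hF, hcF⟩
      · exact ⟨FJ t ht, by rw [hXs]; exact Or.inr ⟨t, ht, rfl⟩, hc⟩
  have uniq : ∀ t t', (3 ≤ t ∧ t % 2 = 0 ∧ 3 * t + 4 = k) → (3 ≤ t' ∧ t' % 2 = 0 ∧ 3 * t' + 4 = k) → t = t' := by
    intro t t' e1 e2
    omega
  refine ⟨Xs, ?_, ?_, ?_⟩
  · intro F hF
    rw [hXs] at hF
    rcases hF with hF | ⟨t, ht, rfl⟩
    · obtain ⟨a1, ⟨g, a2⟩, a3⟩ := h1 F hF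
      refine ⟨a1, ?_, ?_⟩
      · rcases a2 with a2 | a2
        · exact h.hK _ _ a2.kq
        · exact h.hC _ _ a2
      · intro c hc
        obtain ⟨t, a, m, e1, e2, e3⟩ := a3 c hc
        have e4 := size_CT e3
        refine ⟨t, e1, ?_⟩
        rcases (show a = 0 ∨ a = 1 by omega) with rfl | rfl
        · exact Or.inl ((vcl_CT e4).2 e3)
        · exact Or.inr (Or.inl ((vcl_CT e4).2 e3))
    · refine ⟨hF1 t ht, hF2 t ht, ?_⟩
      intro c hc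
      refine ⟨t, ht.1, Or.inr ?_⟩
      rcases hF3 t ht c hc with h5 | h5
      · exact Or.inl h5
      · exact Or.inr ⟨h5, ht.2⟩
  · intro F hF F' hF' c hc hc'
    rw [hXs] at hF hF'
    rcases hF with hF | ⟨t, ht, rfl⟩
    · rcases hF' with hF' | ⟨t', ht', rfl⟩
      · exact h2 F hF F' hF' c hc hc'
      · exact absurd ⟨F, hF, hc⟩ (hJX t' ht' c hc')
    · rcases hF' with hF' | ⟨t', ht', rfl⟩
      · exact absurd ⟨F', hF', hc'⟩ (hJX t ht c hc)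
      · obtain rfl := uniq t t' ht ht'
        rfl
  · rintro p0 ⟨t, ht, hp0⟩
    have low : ∀ a, a ≤ 1 → cl p0 ∈ vcl k (cyc (hhX t)) a → ∃ Gp Gw, ClsOK (AEP P) (cl p0) (inG Xs) Gp Gw P P := by
      intro a ha hpa
      obtain ⟨m, hm⟩ := vcl_size hpa
      refine h4 τ τ (AEP P) P P ?_ h.hT (inG Xs) t a m p0 ht ha ((vcl_CT hm).1 hpa) ?_
      · rintro q0 ⟨t', a', m', e1, e2, e3⟩
        exact (h.env t' e1 q0 (hh_of_CT e3)).e
      · intro p hp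
        rw [hin]
        constructor
        · rintro (h5 | ⟨t', ht', h5⟩)
          · exact Or.inl h5
          · right
            rcases memJ t' ht' p h5 with h6 | h6
            · obtain ⟨rfl, -, -⟩ := CT_inj (hp.symm.trans h6)
              exact (hF4 t ht' p h6).1 h5
            · have := CT_inj (hp.symm.trans h6)
              omega
        · rintro (h5 | h5)
          · exact Or.inl h5
          · right
            have hk4 := size_CT h5.2.1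
            have ht' : 3 ≤ t ∧ t % 2 = 0 ∧ 3 * t + 4 = k := ⟨ht, h5.1, by omega⟩
            exact ⟨t, ht', (hF4 t ht' p h5.2.1).2 h5⟩
    rcases hp0 with hp0 | hp0 | ⟨hp0, hte, hk4⟩
    · exact low 0 (by norm_num) hp0
    · exact low 1 le_rfl hp0
    · have ht' : 3 ≤ t ∧ t % 2 = 0 ∧ 3 * t + 4 = k := ⟨ht, hte, hk4⟩
      refine hF5 t ht' p0 (inG Xs) hp0 ?_
      intro c hc
      rw [← hc] at hp0
      have hcc := (vcl_CT (m := 0) (by omega)).1 hp0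
      rw [hin]
      constructor
      · rintro (⟨F, hF, hcF⟩ | ⟨t', ht1, h5⟩)
        · obtain ⟨t', a', m', e1, e2, e3⟩ := (h1 F hF).2.2 c hcF
          have := CT_inj (hcc.symm.trans e3)
          omega
        · obtain rfl := uniq t t' ht' ht1
          exact h5
      · exact fun h5 => Or.inr ⟨t, ht', h5⟩

/-- **THE REGION `V = ()^t`, `t ≥ 3`** -/
theorem reg3 (hk : 13 ≤ k) (h : Env3 P) : RegOK P {d : RD | ∃ t, 3 ≤ t ∧ d = ⟨t, cyc (hhX t)⟩} := by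
  have hhi : ClsReg P {κ | ∃ i : {t : ℕ // 3 ≤ t}, κ ∈ {κ | ∃ a, 2 ≤ a ∧ κ ∈ vcl k (cyc (hhX i.1)) a ∧
      ¬ (a = 2 ∧ i.1 % 2 = 0 ∧ 3 * i.1 + 4 = k)}} := by
    refine ClsReg.iUnion ?_ ?_
    · rintro ⟨i, hi⟩ ⟨i', hi'⟩ κ ⟨a, -, h3, -⟩ ⟨a', -, h4, -⟩
      exact Subtype.ext (vcl_inj h3 h4).1
    · rintro ⟨i, hi⟩
      exact h.high hi
  refine ((h.low hk).union hhi ?_).congr ?_
  · rintro κ ⟨t, ht, h3⟩ ⟨⟨t', ht'⟩, a, ha, h4, h5⟩
    rcases h3 with h3 | h3 | ⟨h3, h6⟩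
    · have := vcl_inj h3 h4
      omega
    · have := vcl_inj h3 h4
      omega
    · obtain ⟨rfl, rfl⟩ := vcl_inj h3 h4
      exact h5 ⟨rfl, h6⟩
  · intro p
    constructor
    · rintro (⟨t, ht, h3⟩ | ⟨⟨t, ht⟩, a, ha, h3, -⟩)
      · refine ⟨t, ht, ?_⟩
        rcases h3 with h3 | h3 | ⟨h3, -⟩ <;> exact (mem_vcl.1 h3).1
      · exact ⟨t, ht, (mem_vcl.1 h3).1⟩
    · rintro ⟨t, ht, h3⟩
      have h3' : Rd (Rd p).2 = ⟨t, cyc (hhX t)⟩ := h3
      have h6 : cl p ∈ vcl k (cyc (hhX t)) (aa p) := mem_vcl.2 ⟨h3', rfl⟩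
      rcases (show aa p = 0 ∨ aa p = 1 ∨ 2 ≤ aa p by omega) with h7 | h7 | h7
      · rw [h7] at h6
        exact Or.inl ⟨t, ht, Or.inl h6⟩
      · rw [h7] at h6
        exact Or.inl ⟨t, ht, Or.inr (Or.inl h6)⟩
      · by_cases h8 : aa p = 2 ∧ t % 2 = 0 ∧ 3 * t + 4 = k
        · rw [h8.1] at h6
          exact Or.inl ⟨t, ht, Or.inr (Or.inr ⟨h6, h8.2⟩)⟩
        · exact Or.inr ⟨⟨t, ht⟩, aa p, h7, h6, h8⟩

end HT

end Pool.OddHC
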