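import Pool.Agent.Work.MP_8f87b2_h62.R6j
import Pool.Agent.Work.MP_8f87b2_end.L3

/-!
# MP_8f87b2_co: the pairs JV of the hops of the second level

`EData.jv`, `EData.jvm`: over a hop pair `U, U'` of the second level (`m = 0`), at the phase `r`: the right pair
`Is9 nil nil S` and the mirrored pair `Is9M nil nil S`, `S = inf (ins r f)`. `HT.jvh`: `JVh P t` from the right pairs with `S` not
ending with `(())` and the mirrored pairs with `S` ending with `(())`.
-/

set_option autoImplicit false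

namespace Pool.OddHC

open Finset BinaryTree Multiset Pool.OddHop

variable {i j k l t : ℕ}

/-- the inflation of a cycle -/
theorem exists_up (U : Cyc j) (hk : j + pkc U = k) :
    ∃ p : Cyc k, Rd p = ⟨j, U⟩ ∧ (contc p).count 1 = 0 := by
  obtain ⟨u, rfl⟩ := Quotient.exists_rep U
  have hk' : j + pkn u.1 = k := by
    rw [← pkc_cyc]
    exact hk
  have hn := (ins_num u.1 (List.replicate (2 * u.1.numNodes + 1) 0) (List.length_replicate)).1
  rw [List.sum_replicate, smul_zero, X_num, hk'] at hn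
  obtain ⟨w, hw⟩ : ∃ w : X k, w.1 = inf u.1 :=
    ⟨⟨inf u.1, mem_treesOfNumNodesEq.2 (by unfold inf; rw [X_num]; exact hn)⟩, rfl⟩
  refine ⟨cyc w, ?_, ?_⟩
  · refine Rd_ins (e := List.replicate (2 * u.1.numNodes + 1) 0) ?_ hw
    rw [List.length_replicate, X_num]
  · rw [contc_cyc, hw, cont_inf, Multiset.count_eq_zero, Multiset.mem_map]
    rintro ⟨x, hx, h1⟩
    have := cont_pos _ x hx
    omega

/-- all nine mirrored words have the same size -/
theorem w9LM_num (P Q S : BinaryTree Unit) (hS : S ≠ .nil) {i : ℕ} (hi : i < 9) :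
    (w9LM P Q S (xTM S) i).numNodes = P.numNodes + Q.numNodes + S.numNodes + 2 := by
  have hx : (xTM S).numNodes = S.numNodes + 1 := by
    unfold xTM
    rw [Tsq.mir_num, xT_num (mir_ne hS), Tsq.mir_num]
  have n0 : (BinaryTree.nil : BinaryTree Unit).numNodes = 0 := rfl
  interval_cases i <;> simp only [w9LM, num_w1, num_app', hx, n0] <;> omega

/-- the nine mirrored words from the two new ones -/
theorem exists_is9M {P Q S : BinaryTree Unit} (hP : ht P + 2 ≤ ht S) (hQ : ht Q + 2 ≤ ht S)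
    (two : ht S < S.numNodes) {w0 w1 : X k} (h0 : w0.1 = w9LM P Q S (xTM S) 0)
    (h1 : w1.1 = w9LM P Q S (xTM S) 1) (hne : cyc w0 ≠ cyc w1) :
    ∃ g, Is9M P Q S {cyc w0, cyc w1} g := by
  classical
  have hS : S ≠ .nil := ne_of_ht (h := 0) (by omega)
  have hk : P.numNodes + Q.numNodes + S.numNodes + 2 = k := by
    rw [← w9LM_num P Q S hS (i := 0) (by norm_num), ← h0, X_num]
  have hw : ∃ w : ℕ → X k, ∀ i < 9, (w i).1 = w9LM P Q S (xTM S) i := by
    refine ⟨fun i => if h : i < 9 then ⟨w9LM P Q S (xTM S) i, mem_treesOfNumNodesEq.2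
      ((w9LM_num P Q S hS h).trans hk)⟩ else w0, fun i hi => ?_⟩
    simp only [dif_pos hi]
  obtain ⟨w, hw⟩ := hw
  have a0 : w 0 = w0 := Subtype.ext ((hw 0 (by norm_num)).trans h0.symm)
  have a1 : w 1 = w1 := Subtype.ext ((hw 1 (by norm_num)).trans h1.symm)
  refine ⟨gad9M w, w, ⟨hP, hQ, two, hw, by rw [a0, a1]; exact hne⟩, by rw [a0, a1], rfl⟩

/-- the words of the pair over a hop of the second level -/
theorem EData.jv_words {U U₂ : Cyc j} {r : X i} {f : ZMod (2 * i + 1) → ℕ} (hE : EData U U₂ i r f)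
    (hne : U ≠ U₂) (hk : j + pkc U = k) : ∃ (p q : Cyc k) (u u' : X k),
      Rd p = ⟨j, U⟩ ∧ Rd q = ⟨j, U₂⟩ ∧ p ≠ q ∧ ins r.1 (lf f) ≠ .nil ∧
      u.1 = (.nil △ .nil) △ inf (ins r.1 (lf f)) ∧ u'.1 = app (inf (ins r.1 (lf f))) ((.nil △ .nil) △ .nil) ∧
      ((cyc u = p ∧ cyc u' = q) ∨ (cyc u = q ∧ cyc u' = p)) := by
  have hpk : pkc U₂ = pkc U := pkc_Rd (hE.rq.trans hE.rp.symm)
  obtain ⟨p, hp, hp0⟩ := exists_up U hk
  obtain ⟨q, hq, hq0⟩ := exists_up (k := k) U₂ (by rw [hpk]; exact hk)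
  obtain ⟨u, u', h1, h2, h3, -, h5⟩ := hE.infU hp hq hp0 hq0
  refine ⟨p, q, u, u', hp, hq, ?_, h3, h1, h2, h5⟩
  rintro rfl
  exact hne (eq_of_heq (Sigma.mk.inj (hp.symm.trans hq)).2)

/-- **JV right** over a hop of the second level, at the phase `r` -/
theorem EData.jv {U U₂ : Cyc j} {r : X i} {f : ZMod (2 * i + 1) → ℕ} (hE : EData U U₂ i r f)
    (hne : U ≠ U₂) (hk : j + pkc U = k) {S : BinaryTree Unit} (hS : S = inf (ins r.1 (lf f)))
    (h2 : 2 ≤ ht S) (two : ht S < S.numNodes) : ∃ (p q : Cyc k) (g : DG k),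
      Rd p = ⟨j, U⟩ ∧ Rd q = ⟨j, U₂⟩ ∧ Is9 .nil .nil S {p, q} g := by
  obtain ⟨p, q, u, u', hp, hq, hpq, -, hu, hu', hc⟩ := hE.jv_words hne hk
  rw [← hS] at hu hu'
  rcases hc with ⟨rfl, rfl⟩ | ⟨rfl, rfl⟩
  · obtain ⟨g, hg⟩ := exists_is9 (P := .nil) (Q := .nil) (S := S) h2 h2 two hu' hu hpq.symm
    exact ⟨_, _, g, hp, hq, by rw [Set.pair_comm]; exact hg⟩
  · obtain ⟨g, hg⟩ := exists_is9 (P := .nil) (Q := .nil) (S := S) h2 h2 two hu' hu hpq
    exact ⟨_, _, g, hp, hq, hg⟩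

/-- **JV mirrored** over a hop of the second level, at the phase `r` -/
theorem EData.jvm {U U₂ : Cyc j} {r : X i} {f : ZMod (2 * i + 1) → ℕ} (hE : EData U U₂ i r f)
    (hne : U ≠ U₂) (hk : j + pkc U = k) {S : BinaryTree Unit} (hS : S = inf (ins r.1 (lf f)))
    (h2 : 2 ≤ ht S) (two : ht S < S.numNodes) : ∃ (p q : Cyc k) (g : DG k),
      Rd p = ⟨j, U⟩ ∧ Rd q = ⟨j, U₂⟩ ∧ Is9M .nil .nil S {p, q} g := by
  obtain ⟨p, q, u, u', hp, hq, hpq, -, hu, hu', hc⟩ := hE.jv_words hne hk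
  rw [← hS] at hu hu'
  rcases hc with ⟨rfl, rfl⟩ | ⟨rfl, rfl⟩
  · obtain ⟨g, hg⟩ := exists_is9M (P := .nil) (Q := .nil) (S := S) h2 h2 two hu hu' hpq
    exact ⟨_, _, g, hp, hq, hg⟩
  · obtain ⟨g, hg⟩ := exists_is9M (P := .nil) (Q := .nil) (S := S) h2 h2 two hu hu' hpq.symm
    exact ⟨_, _, g, hp, hq, by rw [Set.pair_comm]; exact hg⟩

namespace HT

/-- the right pairs at height 3: `S` does not end with `(())` -/
def TyR9 (F : Set (Cyc k)) (g : DG k) : Prop :=
  ∃ (t b : ℕ) (S : BinaryTree Unit), 3 ≤ t ∧ cont S = Multiset.replicate t 3 + Multiset.replicate b 2 ∧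
    (∀ Y, S ≠ app Y ((.nil △ .nil) △ .nil)) ∧ Is9 .nil .nil S F g

/-- the mirrored pairs at height 3: `S` ends with `(())` -/
def TyM9 (F : Set (Cyc k)) (g : DG k) : Prop :=
  ∃ (t b : ℕ) (S : BinaryTree Unit), 3 ≤ t ∧ cont S = Multiset.replicate t 3 + Multiset.replicate b 2 ∧
    (∃ Y, S = app Y ((.nil △ .nil) △ .nil)) ∧ Is9M .nil .nil S F g

variable {τ : Type} {P : τ → Set (Cyc k) → DG k → Prop}

/-- **the pairs of the hops of the second level exist** -/
theorem jvh (ht : 3 ≤ t) (hR : ∀ F g, TyR9 F g → Typd P P F) (hM : ∀ F g, TyM9 F g → Typd P P F) : JVh P t := by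
  intro a j U U' ha hk hj hU hU' hne hh
  obtain ⟨i, r, f, hE, -⟩ := hh.edata'
  have hUc : contc U = Multiset.replicate t 2 + Multiset.replicate a 1 := by
    have h1 := contc_eq U
    rw [hU] at h1
    change contc U = (contc (cyc (hhX t))).map (· + 1) + Multiset.replicate ((contc U).count 1) 1 at h1
    rw [contc_hh, Multiset.map_replicate] at h1
    have h2 : (contc U).sum = j := by
      obtain ⟨w, rfl⟩ := Quotient.exists_rep U
      have h1 : (cont w.1).sum = w.1.numNodes := cont_sum w.1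
      rw [X_num] at h1
      exact h1
    rw [h1, Multiset.sum_add, Multiset.sum_replicate, Multiset.sum_replicate] at h2
    simp only [smul_eq_mul] at h2
    have h3 : (contc U).count 1 = a := by omega
    rw [h3] at h1
    exact h1
  have hpk : j + pkc U = k := by
    rw [pkc_CT hUc]
    omega
  have hr : (⟨i, cyc r⟩ : RD) = ⟨t, cyc (hhX t)⟩ := hE.rp.symm.trans hU
  have hcr : cont r.1 = Multiset.replicate t 1 := by
    have h1 := congrArg (fun d : RD => contc d.2) hr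
    change contc (cyc r) = contc (cyc (hhX t)) at h1
    rw [contc_hh, contc_cyc] at h1
    exact h1
  obtain ⟨S, hS⟩ : ∃ S, S = inf (ins r.1 (lf f)) := ⟨_, rfl⟩
  have hcS : cont S = Multiset.replicate t 3 + Multiset.replicate (∑ z, f z) 2 := by
    rw [hS, cont_inf, cont_ins _ _ (by rw [lf_length, X_num]), hcr, lf_sum, Multiset.map_add, Multiset.map_map,
      Multiset.map_replicate, Multiset.map_replicate]
    rfl
  have h3 : OddHC.ht S = 3 := by
    rw [ht_eq, hcS]
    apply le_antisymm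
    · apply Multiset.sup_le.2
      intro x hx
      rcases Multiset.mem_add.1 hx with h | h
      · rw [Multiset.eq_of_mem_replicate h]
      · rw [Multiset.eq_of_mem_replicate h]
        norm_num
    · apply Multiset.le_sup
      rw [Multiset.mem_add]
      left
      rw [Multiset.mem_replicate]
      exact ⟨by omega, rfl⟩
  have hn : OddHC.ht S < S.numNodes := by
    have h1 : (cont S).sum = S.numNodes := cont_sum S
    rw [hcS, Multiset.sum_add, Multiset.sum_replicate, Multiset.sum_replicate] at h1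
    simp only [smul_eq_mul] at h1
    omega
  by_cases he : ∃ Y, S = app Y ((.nil △ .nil) △ .nil)
  · obtain ⟨p, q, g, h1, h2, h4⟩ := hE.jvm hne hpk hS (by omega) hn
    exact ⟨p, q, h1, h2, hM _ g ⟨t, _, S, ht, hcS, he, h4⟩⟩
  · obtain ⟨p, q, g, h1, h2, h4⟩ := hE.jv hne hpk hS (by omega) hn
    exact ⟨p, q, h1, h2, hR _ g ⟨t, _, S, ht, hcS, fun Y hY => he ⟨Y, hY⟩, h4⟩⟩

end HT

end Pool.OddHC
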