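import Pool.Agent.Work.MP_8f87b2_h62.R6k

/-!
# MP_8f87b2_co: ALL classes of height 3

`c7`: `GrpOK {p | htc p = 3} G P` from `Env3 P` and the classes over `V = (), ()()` (contents `3 2^a 1^m`, `3 3 2^a 1^m`).
-/

set_option autoImplicit false

namespace Pool.OddHC

namespace HT

open Finset BinaryTree Pool.OddHop

variable {t j k : ℕ} {τ : Type} {P : τ → Set (Cyc k) → DG k → Prop}

theorem CT_of_ht3 {p : Cyc k} (h : htc p = 3) :
    1 ≤ (contc p).count 3 ∧ contc p = CT ((contc p).count 3) ((contc p).count 2) ((contc p).count 1) := by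
  obtain ⟨w, rfl⟩ := Quotient.exists_rep p
  have h3 : (cont w.1).sup = 3 := by
    have h' : htc (cyc w) = 3 := h
    rw [htc_cyc, ht_eq] at h'
    exact h'
  change 1 ≤ (cont w.1).count 3 ∧ cont w.1 = CT ((cont w.1).count 3) ((cont w.1).count 2) ((cont w.1).count 1)
  have hpos := cont_pos w.1
  generalize cont w.1 = M at *
  have hle : ∀ x ∈ M, x ≤ 3 := fun x hx => h3 ▸ Multiset.le_sup hx
  constructor
  · rw [Multiset.one_le_count_iff_mem, ← h3]
    refine sup_mem ?_
    rintro rfl
    rw [Multiset.sup_zero] at h3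
    exact absurd h3 (by decide)
  · ext x
    unfold CT
    rw [Multiset.count_add, Multiset.count_add, Multiset.count_replicate, Multiset.count_replicate,
      Multiset.count_replicate]
    by_cases hx : x ∈ M
    · have h1 := hpos x hx
      have h2 := hle x hx
      interval_cases x <;> simp
    · have h0 : M.count x = 0 := Multiset.count_eq_zero.2 hx
      rw [h0]
      rcases eq_or_ne x 3 with rfl | e3
      · simp [h0]
      · rcases eq_or_ne x 2 with rfl | e2
        · simp [h0]
        · rcases eq_or_ne x 1 with rfl | e1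
          · simp [h0]
          · rw [if_neg (Ne.symm e3), if_neg (Ne.symm e2), if_neg (Ne.symm e1)]

theorem ht3_of_CT {a m : ℕ} {p : Cyc k} (ht : 1 ≤ t) (h : contc p = CT t a m) : htc p = 3 := by
  obtain ⟨w, rfl⟩ := Quotient.exists_rep p
  have h' : cont w.1 = CT t a m := h
  change htc (cyc w) = 3
  rw [htc_cyc, ht_eq, h']
  unfold CT
  apply le_antisymm
  · apply Multiset.sup_le.2
    intro x hx
    rcases Multiset.mem_add.1 hx with h | h
    · rw [Multiset.eq_of_mem_replicate h]
    · rcases Multiset.mem_add.1 h with h | h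
      · rw [Multiset.eq_of_mem_replicate h]
        norm_num
      · rw [Multiset.eq_of_mem_replicate h]
        norm_num
  · apply Multiset.le_sup
    rw [Multiset.mem_add]
    left
    rw [Multiset.mem_replicate]
    exact ⟨by omega, rfl⟩

/-- **HEIGHT 3** -/
theorem c7 (hk : 13 ≤ k) (h : Env3 P)
    (h12 : ClsReg P {κ : RD × Multiset ℕ | κ.1 = ⟨1, cyc (hhX 1)⟩ ∨ κ.1 = ⟨2, cyc (hhX 2)⟩}) :
    ∃ G, GrpOK {p : Cyc k | htc p = 3} G P := by
  have h3 : ClsReg P {κ : RD × Multiset ℕ | ∃ t, 1 ≤ t ∧ κ.1 = ⟨t, cyc (hhX t)⟩} := by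
    refine ((reg3 hk h).union h12 ?_).congr ?_
    · rintro κ ⟨t, ht, h1⟩ (h2 | h2)
      · have := congrArg Sigma.fst (h1.symm.trans h2)
        simp only at this
        omega
      · have := congrArg Sigma.fst (h1.symm.trans h2)
        simp only at this
        omega
    · intro p
      constructor
      · rintro (⟨t, ht, h1⟩ | (h1 | h1))
        · exact ⟨t, by omega, h1⟩
        · exact ⟨1, le_rfl, h1⟩
        · exact ⟨2, by omega, h1⟩
      · rintro ⟨t, ht, h1⟩
        rcases (show t = 1 ∨ t = 2 ∨ 3 ≤ t by omega) with rfl | rfl | h2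
        · exact Or.inr (Or.inl h1)
        · exact Or.inr (Or.inr h1)
        · exact Or.inl ⟨t, h2, h1⟩
  obtain ⟨G, hG⟩ := h3.grp
  refine ⟨G, ?_⟩
  have e : {p : Cyc k | htc p = 3} =
      {p : Cyc k | cl p ∈ {κ : RD × Multiset ℕ | ∃ t, 1 ≤ t ∧ κ.1 = ⟨t, cyc (hhX t)⟩}} := by
    ext p
    constructor
    · intro hp
      obtain ⟨h1, h2⟩ := CT_of_ht3 hp
      exact ⟨_, h1, hh_of_CT h2⟩
    · rintro ⟨t, ht, h1⟩
      exact ht3_of_CT ht (over_hh h1)
  rw [e]
  exact hG

end HT

end Pool.OddHC
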