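import Pool.Agent.Work.MP_8f87b2_rec.Rec

/-!
MP_8f87b2_co: every cycle of `T` on the Dyck words has odd length, and in every orbit of `T` on the labelled `k`-subsets
of `ZMod (2 k + 1)` the star visits every letter.
-/

namespace Pool.OddHC

open Finset BinaryTree

/-- the position of the star at time `t` (the star starts at `0`) -/
noncomputable def pos {k : ℕ} (w : X k) (t : ℕ) : ZMod (2 * k + 1) :=
  ∑ i ∈ range t, Vo (TF^[i] w)

theorem pos_zero {k : ℕ} (w : X k) : pos w 0 = 0 := by
  unfold pos; simp

theorem pos_succ {k : ℕ} (w : X k) (t : ℕ) : pos w (t + 1) = pos w t + Vo (TF^[t] w) := by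
  unfold pos; rw [sum_range_succ]

theorem pos_add {k : ℕ} (w : X k) (a b : ℕ) : pos w (a + b) = pos w a + pos (TF^[a] w) b := by
  induction b with
  | zero => rw [add_zero, pos_zero, add_zero]
  | succ b ih =>
    rw [← add_assoc, pos_succ, ih, pos_succ, add_assoc]
    congr 2
    rw [← Function.iterate_add_apply, add_comm b a]

theorem iter_mul {k : ℕ} {w : X k} {P : ℕ} (h : TF^[P] w = w) (i : ℕ) : TF^[P * i] w = w := by
  induction i with
  | zero => rfl
  | succ i ih => rw [Nat.mul_succ, Function.iterate_add_apply, h, ih]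

theorem pos_mul {k : ℕ} {w : X k} {P : ℕ} (h : TF^[P] w = w) (i : ℕ) :
    pos w (P * i) = i * pos w P := by
  induction i with
  | zero => rw [mul_zero, pos_zero, Nat.cast_zero, zero_mul]
  | succ i ih =>
    rw [Nat.mul_succ, pos_add, iter_mul h, ih]
    push_cast
    ring

/-- the labelled vertex at time `t` -/
noncomputable def lab {k : ℕ} (w : X k) (t : ℕ) : Finset (ZMod (2 * k + 1)) := io (TF^[t] w) (pos w t)

theorem lab_succ {k : ℕ} (w : X k) (t : ℕ) :
    insert (pos w t) (lab w (t + 1)) = univ \ lab w t := by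
  unfold lab
  rw [pos_succ, Function.iterate_succ_apply', TF_spec]
  exact compl_cw _ _

theorem lab_flip {k : ℕ} (w : X k) (t : ℕ) {a : ZMod (2 * k + 1)} (h : pos w t ≠ a) :
    a ∈ lab w (t + 1) ↔ a ∉ lab w t := by
  have h1 := lab_succ w t
  constructor
  · intro h2
    have h3 : a ∈ insert (pos w t) (lab w (t + 1)) := mem_insert_of_mem h2
    rw [h1, mem_sdiff] at h3
    exact h3.2
  · intro h2
    have h3 : a ∈ univ \ lab w t := by rw [mem_sdiff]; exact ⟨mem_univ _, h2⟩
    rw [← h1, mem_insert] at h3
    rcases h3 with h4 | h4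
    · exact absurd h4.symm h
    · exact h4

theorem pkn_pos62 (A B : BinaryTree Unit) : 1 ≤ pkn (A △ B) := by
  induction A generalizing B with
  | nil => rw [pkn]; simp only [leaf]; omega
  | node _ A1 A2 ih1 ih2 =>
    have := ih1 A2
    rw [pkn]
    change 1 ≤ leaf (A1 △ A2) + pkn (A1 △ A2) + pkn B
    omega

/-- the iterated recursion -/
theorem iter_ins {j k : ℕ} (u : X j) (e : List ℕ) (he : e.length = 2 * j + 1) (w : X k)
    (hw : w.1 = ins u.1 e) (t : ℕ) :
    (TF^[t] w).1 = ins (TF^[t] u).1 (e.rotate (∑ i ∈ range t, (Vo (TF^[i] u)).val)) := by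
  induction t with
  | zero => simpa using hw
  | succ t ih =>
    rw [Function.iterate_succ_apply', Function.iterate_succ_apply', sum_range_succ, ← List.rotate_rotate]
    exact (TF_ins (TF^[t] u) _ (by rw [List.length_rotate, he]) _ ih).1

theorem sum_period {j : ℕ} {u : X j} {P : ℕ} (h : TF^[P] u = u) (i : ℕ) :
    ∑ l ∈ range (P * i), (Vo (TF^[l] u)).val = i * ∑ l ∈ range P, (Vo (TF^[l] u)).val := by
  induction i with
  | zero => simp
  | succ i ih =>
    have h2 : ∑ x ∈ range P, (Vo (TF^[P * i + x] u)).val = ∑ l ∈ range P, (Vo (TF^[l] u)).val := by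
      apply sum_congr rfl
      intro l _
      rw [add_comm (P * i) l, Function.iterate_add_apply, iter_mul h]
    have h3 : P * (i + 1) = P * i + P := Nat.mul_succ _ _
    rw [h3, sum_range_add, ih, h2]
    exact (Nat.succ_mul _ _).symm

/-- every cycle of `T` has odd length -/
theorem odd_period : ∀ (k : ℕ) (w : X k), ∃ P : ℕ, Odd P ∧ TF^[P] w = w := by
  intro k
  induction k using Nat.strong_induction_on with
  | _ k ih =>
    intro w
    obtain ⟨j, u, e, he, hw, h1, h2⟩ := red_ex w
    rcases Nat.eq_zero_or_pos (pkn w.1) with h0 | hp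
    · -- the empty word
      refine ⟨1, odd_one, ?_⟩
      have hk : ∀ v : X k, v.1 = .nil := by
        have hw0 : w.1 = .nil := by
          cases hc : w.1 with
          | nil => rfl
          | node _ A B =>
            exfalso
            have := pkn_pos62 A B
            rw [hc] at h0
            change pkn (A △ B) = 0 at h0
            omega
        have hk0 : k = 0 := by
          have := X_num w
          rw [hw0] at this
          simpa using this.symm
        subst hk0
        intro v
        have hv := X_num v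
        cases hc : v.1 with
        | nil => rfl
        | node _ A B =>
          exfalso
          rw [hc] at hv
          change A.numNodes + B.numNodes + 1 = 0 at hv
          omega
      exact Subtype.ext ((hk _).trans (hk w).symm)
    · obtain ⟨P, hP1, hP2⟩ := ih j (by omega) u
      refine ⟨P * (2 * j + 1), hP1.mul ⟨j, rfl⟩, ?_⟩
      apply Subtype.ext
      have hrot : ∀ R : ℕ, e.rotate ((2 * j + 1) * R) = e := by
        intro R
        have := List.rotate_length_mul e R
        rwa [he] at this
      rw [iter_ins u e he w hw, hw]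
      have h5 : TF^[P * (2 * j + 1)] u = u := iter_mul hP2 _
      have h6 := sum_period hP2 (2 * j + 1)
      rw [h5, h6, hrot]

/-- the period of the labelled orbit is odd -/
theorem odd_period_lab {k : ℕ} (w : X k) :
    ∃ P : ℕ, Odd P ∧ TF^[P] w = w ∧ pos w P = 0 := by
  obtain ⟨P, hP1, hP2⟩ := odd_period k w
  refine ⟨P * (2 * k + 1), hP1.mul ⟨k, rfl⟩, iter_mul hP2 _, ?_⟩
  rw [pos_mul hP2]
  have h3 : ((2 * k + 1 : ℕ) : ZMod (2 * k + 1)) = 0 := ZMod.natCast_self _
  rw [h3, zero_mul]

/-- the star visits every letter -/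
theorem star_visits {k : ℕ} (w : X k) (a : ZMod (2 * k + 1)) : ∃ t : ℕ, pos w t = a := by
  by_contra hcon
  push Not at hcon
  obtain ⟨P, hP1, hP2⟩ := odd_period k w
  have key : ∀ t : ℕ, (a ∈ lab w t ↔ (a ∈ lab w 0 ↔ Even t)) := by
    intro t
    induction t with
    | zero => simp
    | succ t ih =>
      rw [lab_flip w t (hcon t), ih, Nat.even_add_one]
      tauto
  have h1 := key (P * (2 * k + 1))
  have h2 : lab w (P * (2 * k + 1)) = lab w 0 := by
    unfold lab
    rw [pos_mul hP2, iter_mul hP2, pos_zero]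
    have h3 : ((2 * k + 1 : ℕ) : ZMod (2 * k + 1)) = 0 := ZMod.natCast_self _
    rw [h3, zero_mul]
    rfl
  rw [h2] at h1
  have h4 : ¬ Even (P * (2 * k + 1)) := by
    rw [Nat.not_even_iff_odd]
    exact hP1.mul ⟨k, rfl⟩
  tauto

/-- the same within one period of the cycle of `T`, up to the multiples of the voltage of the cycle -/
theorem star_mod {k : ℕ} (w : X k) {L : ℕ} (hL0 : 0 < L) (hL : TF^[L] w = w) (a : ZMod (2 * k + 1)) :
    ∃ t < L, ∃ m : ℕ, pos w t + m * pos w L = a := by
  obtain ⟨t, ht⟩ := star_visits w a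
  refine ⟨t % L, Nat.mod_lt _ hL0, t / L, ?_⟩
  have h1 : pos w (L * (t / L) + t % L) = a := by rw [Nat.div_add_mod]; exact ht
  rw [pos_add, iter_mul hL, pos_mul hL] at h1
  exact (add_comm _ _).trans h1

end Pool.OddHC
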