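import Pool.Agent.Work.MP_8f87b2_h71.H1Gad

/-!
MP_8f87b2_co, height 3: the windows `R3[3]`, `R3 = ((()) ()^m (())^a) [3]^b`, `a ≥ 1`, `Q = ()`, `S3 = [3] ()^m (())^a`,
`B = [3]^b`: the new T-cycle has the content `3^(b+2) 2^a 1^m`. The twenty words are distinct, the words of different windows
of height 3 are different, and different from the words of the nodes of type A (height at least 4).
-/

set_option autoImplicit false

namespace Pool.OddHC

namespace H1

open BinaryTree Multiset Equiv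

variable {k : ℕ}

/-! ### The words -/

/-- `[3]^n` in front -/
def th : ℕ → BinaryTree Unit → BinaryTree Unit
  | 0, t => t
  | n + 1, t => ((.nil △ .nil) △ .nil) △ th n t

/-- `()^m (())^a` -/
def L3 (m a : ℕ) : BinaryTree Unit := lv m (lv2 a .nil)

/-- `((()) ()^m (())^a) [3]^b` -/
def R3 (b m a : ℕ) : BinaryTree Unit := ((.nil △ .nil) △ L3 m a) △ th b .nil

/-- `[3] ()^m (())^a` -/
def S3 (m a : ℕ) : BinaryTree Unit := ((.nil △ .nil) △ .nil) △ L3 m a

theorem th_num (n : ℕ) (t : BinaryTree Unit) : (th n t).numNodes = 3 * n + t.numNodes := by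
  induction n with
  | zero => rw [th]; omega
  | succ n ih =>
    rw [th]
    change 2 + (th n t).numNodes + 1 = _
    rw [ih]
    ring

theorem th_app (n : ℕ) (t : BinaryTree Unit) : th n t = app (th n .nil) t := by
  induction n with
  | zero => rfl
  | succ n ih => rw [th, th, app, ih]

theorem lv2_num (n : ℕ) (t : BinaryTree Unit) : (lv2 n t).numNodes = 2 * n + t.numNodes := by
  induction n with
  | zero => rw [lv2]; omega
  | succ n ih =>
    rw [lv2]
    change 1 + (lv2 n t).numNodes + 1 = _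
    rw [ih]
    ring

theorem L3_num (m a : ℕ) : (L3 m a).numNodes = m + 2 * a := by
  unfold L3
  rw [lv_num, lv2_num]
  rfl

theorem R3_num (b m a : ℕ) : (R3 b m a).numNodes = 3 * b + 2 * a + m + 3 := by
  unfold R3
  change (1 + (L3 m a).numNodes + 1) + (th b .nil).numNodes + 1 = _
  rw [L3_num, th_num]
  change 1 + (m + 2 * a) + 1 + (3 * b + 0) + 1 = _
  ring

theorem hv_th (n : ℕ) : hv (th n .nil) := by
  induction n with
  | zero => trivial
  | succ n ih => exact ⟨Or.inl rfl, ih⟩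

theorem ht_th (n : ℕ) : OddHC.ht (th n .nil) ≤ 3 := by
  induction n with
  | zero => rw [th, OddHC.ht]; omega
  | succ n ih =>
    rw [th, OddHC.ht_node]
    have : OddHC.ht (((.nil : BinaryTree Unit) △ .nil) △ .nil) = 2 := rfl
    omega

theorem ht_L3 (m a : ℕ) : OddHC.ht (L3 m a) ≤ 2 := by
  rw [← H1.ht_eq]
  exact bl_ht (bl_H a m)

theorem bl_L3 (m a : ℕ) : bl (L3 m a) = true := bl_H a m

theorem am_L3 (m a : ℕ) : am (L3 m a) = false := bl_am (bl_L3 m a)

theorem L3_succ (m a : ℕ) : ∃ Y, L3 m (a + 1) = app Y ((.nil △ .nil) △ .nil) ∧ bl Y = true := by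
  refine ⟨L3 m a, ?_, bl_L3 m a⟩
  have e2 : ∀ a : ℕ, lv2 (a + 1) .nil = app (lv2 a .nil) ((.nil △ .nil) △ .nil) := by
    intro a
    induction a with
    | zero => rfl
    | succ a ih =>
      change (.nil △ .nil) △ lv2 (a + 1) .nil = app ((.nil △ .nil) △ lv2 a .nil) ((.nil △ .nil) △ .nil)
      rw [ih]
      rfl
  unfold L3
  rw [lv_app' m, e2, ← app_assoc, ← lv_app']

theorem L3_ne {m a : ℕ} (h : 1 ≤ a) : L3 m a ≠ .nil := by
  unfold L3
  exact H_ne (by omega)

theorem lastI_L3 {m a : ℕ} (h : 1 ≤ a) : lastI (L3 m a) = .nil △ .nil := by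
  obtain ⟨a, rfl⟩ : ∃ a', a = a' + 1 := ⟨a - 1, by omega⟩
  obtain ⟨Y, e, _⟩ := L3_succ m a
  rw [e, lastI_app (by simp), lastI_one]

theorem lastB_L3 {m a : ℕ} (h : 1 ≤ a) : lastB (L3 m a) = false := by
  obtain ⟨a, rfl⟩ : ∃ a', a = a' + 1 := ⟨a - 1, by omega⟩
  obtain ⟨Y, e, _⟩ := L3_succ m a
  rw [e, lastB_app (by simp), lastB_one]
  rfl

theorem cont_L3 (m a : ℕ) : cont (L3 m a) = replicate m 1 + replicate a 2 := by
  unfold L3
  rw [cont_lv, cont_lv2, cont_nil, add_zero]

theorem L3_inj {m a m' a' : ℕ} (h : L3 m a = L3 m' a') : m = m' ∧ a = a' := by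
  have e := congrArg cont h
  rw [cont_L3, cont_L3] at e
  have e1 := congrArg (Multiset.count 1) e
  have e2 := congrArg (Multiset.count 2) e
  simp only [Multiset.count_add, Multiset.count_replicate] at e1 e2
  simp at e1 e2
  exact ⟨e1, e2⟩

theorem th_inj {n n' : ℕ} (h : th n .nil = th n' .nil) : n = n' := by
  have e := congrArg BinaryTree.numNodes h
  rw [th_num, th_num] at e
  omega

theorem R3_inj {b m a b' m' a' : ℕ} (h : R3 b m a = R3 b' m' a') : b = b' ∧ m = m' ∧ a = a' := by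
  obtain ⟨h1, h2⟩ := node_inj h
  obtain ⟨h3, h4⟩ := L3_inj (node_inj h1).2
  exact ⟨th_inj h2, h3, h4⟩

theorem sq_R3 (b m a : ℕ) : Tsq.sq (R3 b m a) = (S3 m a, th b .nil) := by
  have h1 : Tsq.sq ((.nil : BinaryTree Unit) △ .nil) = (.nil △ .nil, .nil) :=
    Tsq.sq_nil (by rw [Tsq.ht]; omega)
  have h2 : Tsq.ht ((.nil : BinaryTree Unit) △ .nil) = 1 := rfl
  have h3 : Tsq.ht (L3 m a) ≤ 2 := by rw [H1.ht_eq]; exact ht_L3 m a
  have h4 : Tsq.ht (th b .nil) ≤ 3 := by rw [H1.ht_eq]; exact ht_th b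
  have h5 : Tsq.ht ((.nil △ .nil) △ L3 m a) = 2 := by
    rw [Tsq.ht_node, h2]; omega
  unfold R3 S3
  rw [Tsq.sq_ge (by simp) (by omega), Tsq.sq_ge (by simp) (by omega), h1]

theorem ht_R3 (b m a : ℕ) : OddHC.ht (R3 b m a) = 3 := by
  have h1 := ht_L3 m a
  have h2 := ht_th b
  have h3 : OddHC.ht ((.nil : BinaryTree Unit) △ .nil) = 1 := rfl
  unfold R3
  rw [OddHC.ht_node, OddHC.ht_node, h3]
  omega

theorem cont_th (n : ℕ) : cont (th n .nil) = replicate n 3 := by
  induction n with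
  | zero => rfl
  | succ n ih =>
    rw [th, cont_node, ih, replicate_succ]
    rfl

theorem dat3 (b m a : ℕ) : Dat 0 (R3 b m a) (th b .nil) (S3 m a) := by
  refine ⟨sq_R3 b m a, by rw [ht_R3], ?_⟩
  intro x hx
  rw [cont_th] at hx
  rw [Multiset.eq_of_mem_replicate hx]

/-- the word number `i` as a tree -/
def w3 (b m a i : ℕ) : BinaryTree Unit := W (R3 b m a) (ch 1) (th b .nil) (S3 m a) i

/-! ### The first block and the word 14 -/

theorem PB_R3 {m a : ℕ} (h : 1 ≤ a) : PB ((.nil △ .nil) △ L3 m a) = true := by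
  rw [PB, isNil_f.2 (L3_ne h), lastB_L3 h]
  rfl

theorem am_in3 (m a : ℕ) : am ((.nil △ .nil) △ L3 m a) = false := by
  rw [am_node, am_L3]
  rfl

/-- dummy data -/
theorem adm3 {b m a : ℕ} (h : 1 ≤ a) : Adm (0 + 1) (R3 b m a) (th b .nil)
    ((((.nil △ .nil) △ L3 m a) △ .nil) △ .nil) where
  hR := ⟨.nil, _, trivial, PB_R3 h, am_in3 m a, rfl⟩
  hB := hv_th b
  hS := ⟨.nil, _, .nil, .nil, trivial, PB_R3 h, am_in3 m a, rfl⟩

theorem W_lo (R Q B S S' : BinaryTree Unit) : ∀ i < 10, W R Q B S i = W R Q B S' i := by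
  intro i hi
  interval_cases i <;> rfl

theorem W_lo' (R Q B S B' S' : BinaryTree Unit) : ∀ i < 10, W R Q B S i = W R Q B' S' i := by
  intro i hi
  interval_cases i <;> rfl

theorem idx3_lo {b m a : ℕ} (h : 1 ≤ a) : ∀ i < 10, idx (w3 b m a i) = i := by
  intro i hi
  unfold w3
  rw [W_lo _ _ _ _ ((((.nil △ .nil) △ L3 m a) △ .nil) △ .nil) i hi]
  exact idx_lo (q := 0) (adm3 h) i hi

theorem am_W_lo {R Q B S : BinaryTree Unit} (h : am R = true) : ∀ i < 10, am (W R Q B S i) = true := by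
  have mR := mk_of_am h
  intro i hi
  interval_cases i <;> simp [W, am_app, am_node, h, mR, mk_eq]

theorem am_W_hi {R Q B S : BinaryTree Unit} (h : am S = true) :
    ∀ i, 10 ≤ i → i < 20 → am (W R Q B S i) = true := by
  have mS := mk_of_am h
  intro i h1 hi
  interval_cases i <;> simp [W, am_app, am_node, h, mS, mk_eq]

theorem am_R3 {b m a : ℕ} (h : 1 ≤ a) : am (R3 b m a) = true := by
  unfold R3
  rw [am_node, mk_eq, PB_R3 h]
  rfl

theorem am3_lo {b m a : ℕ} (h : 1 ≤ a) : ∀ i < 10, am (w3 b m a i) = true :=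
  am_W_lo (am_R3 h)

theorem mk_L3 (m a : ℕ) : mk ((.nil △ .nil) △ .nil) = false := rfl

theorem am_S3 (m a : ℕ) : am (S3 m a) = false := by
  unfold S3
  rw [am_node, am_L3]
  rfl

theorem PB_S3 (m a : ℕ) (t : BinaryTree Unit) : PB (app (S3 m a) t) = false := rfl

theorem PB_S3' (m a : ℕ) : PB (S3 m a) = false := rfl

theorem am3_hi {b m a : ℕ} (h : 1 ≤ a) : ∀ i, 10 ≤ i → i < 20 → i ≠ 14 → am (w3 b m a i) = false := by
  have aB := hv_am (hv_th b)
  have pB := hv_PB (hv_th b)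
  have aS := am_S3 m a
  have pS := PB_S3' m a
  have pS' := PB_S3 m a
  have e1 : mk (ch 1) = false := mk_ch 1
  have e2 : mk (ch 2) = false := mk_ch 2
  have pBB : PB (app (th b .nil) (.nil △ (.nil △ .nil))) = false := by
    cases b with
    | zero => rfl
    | succ b => rfl
  intro i h1 hi h14
  unfold w3
  interval_cases i
  · simp only [W]
    rw [am_app, aB, am_node, aS]
    rfl
  · simp only [W]
    rw [am_app, aB, am_node, am_app, am_node, aS]
    rfl
  · simp only [W]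
    rw [am_node, am_app, aB, am_node, mk_eq, aS, pS]
    rfl
  · simp only [W]
    rw [am_app, aS, am_node, mk_eq, am_app, aB]
    have e3 : PB (app (th b .nil) (.nil △ ch 1)) = false := pBB
    rw [e3]
    rfl
  · exact absurd rfl h14
  · simp only [W]
    rw [am_node, am_node, mk_eq (S3 m a), aS, pS, aB]
    rfl
  · simp only [W]
    rw [am_app, aS, am_node, mk_eq, pB, aB]
    rfl
  · simp only [W]
    rw [am_app, am_node, mk_eq, am_node, mk_eq (S3 m a), aS, pS, aB]
    rfl
  · simp only [W]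
    rw [am_app, am_node, am_app, aS, am_node, mk_eq (th b .nil), pB, aB]
    rfl
  · simp only [W]
    rw [am_node, mk_eq, pS', am_app, aS, am_node, mk_eq (th b .nil), pB, aB]
    rfl

/-- the word 14 -/
theorem split3_14 {b m a : ℕ} (h : 1 ≤ a) :
    split (w3 b m a 14) = (.nil, .nil △ (.nil △ S3 m a), th b .nil) := by
  have e : w3 b m a 14 = (.nil △ (.nil △ S3 m a)) △ th b .nil := rfl
  rw [e]
  apply split_node_t
  rw [mk_eq]
  have : lastB (.nil △ S3 m a) = false := by
    unfold S3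
    rw [lastB_cons (by simp), lastB_cons (L3_ne h), lastB_L3 h]
  rw [PB, this]
  rfl

theorem am3_14 {b m a : ℕ} (h : 1 ≤ a) : am (w3 b m a 14) = true := by
  have e : w3 b m a 14 = (.nil △ (.nil △ S3 m a)) △ th b .nil := rfl
  rw [e, am_node, mk_eq]
  have : lastB (.nil △ S3 m a) = false := by
    unfold S3
    rw [lastB_cons (by simp), lastB_cons (L3_ne h), lastB_L3 h]
  rw [PB, this]
  rfl

theorem idx3_14 {b m a : ℕ} (h : 1 ≤ a) : idx (w3 b m a 14) = 0 := by
  rw [idx, split3_14 h]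
  have e : am (.nil △ (.nil △ S3 m a)) = false := by
    rw [am_node, am_node, am_S3]
    rfl
  simp only [e, Bool.false_eq_true, if_false]
  rw [idx0]
  have h2 : lastB (th b .nil) = false := hv_last (hv_th b)
  rw [h2]
  rfl

end H1

end Pool.OddHC
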