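import Pool.Agent.Work.MP_8f87b2_h62.W3

/-!
MP_8f87b2_co, height 3: the words of the second block of a window, and the disjointness of the windows of height 3.
-/

set_option autoImplicit false

namespace Pool.OddHC

namespace H1

open BinaryTree Multiset Equiv

variable {k : ℕ}

/-! ### The signature of the second block -/

/-- the tree is `()` -/
def t3one : BinaryTree Unit → Bool
  | .nil => false
  | .node _ A B => isNil A && isNil B

/-- the tree is `(())` -/
def t3two : BinaryTree Unit → Bool
  | .nil => false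
  | .node _ A B => t3one A && isNil B

/-- remove the components `[3]` in front -/
def t3strip : BinaryTree Unit → BinaryTree Unit
  | .nil => .nil
  | .node u A X => if t3two A = true then t3strip X else .node u A X

/-- some component is `[3]` -/
def t3has : BinaryTree Unit → Bool
  | .nil => false
  | .node _ A X => t3two A || t3has X

/-- the first component is `[3]` -/
def t3f3 : BinaryTree Unit → Bool
  | .nil => false
  | .node _ A _ => t3two A

/-- the first component is `(())` -/
def t3f2 : BinaryTree Unit → Bool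
  | .nil => false
  | .node _ A _ => t3one A

/-- without the first component -/
def t3tl : BinaryTree Unit → BinaryTree Unit
  | .nil => .nil
  | .node _ _ X => X

/-- the number of a word of the second block -/
def t3sg (w : BinaryTree Unit) : ℕ :=
  if fb w = true then (if sb w = true then (if t3f3 (t3tl (t3tl w)) = true then 18 else 11) else 17)
  else if t3f2 w = true then 15
  else if t3f3 w = true then
    (if t3one (lastI w) = false then 13 else if t3has (t3strip w) = true then 11
      else if t3f3 (t3tl w) = true then 10 else 16)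
  else if len w = 2 then 19 else 12

theorem t3strip_th (n : ℕ) (t : BinaryTree Unit) : t3strip (th n t) = t3strip t := by
  induction n with
  | zero => rfl
  | succ n ih => exact ih

theorem t3has_app (P R : BinaryTree Unit) : t3has (app P R) = (t3has P || t3has R) := by
  induction P with
  | nil => rfl
  | node u A X _ ih =>
    change (t3two A || t3has (app X R)) = ((t3two A || t3has X) || t3has R)
    rw [ih, Bool.or_assoc]

theorem t3has_strip {t : BinaryTree Unit} (h : t3has t = false) : t3has (t3strip t) = false := by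
  induction t with
  | nil => rfl
  | node u A X _ ih =>
    have h' : (t3two A || t3has X) = false := h
    rw [Bool.or_eq_false_iff] at h'
    have e : t3strip (.node u A X) = .node u A X := by
      rw [t3strip, h'.1]; rfl
    rw [e]
    exact h

theorem t3has_lv (m : ℕ) (t : BinaryTree Unit) : t3has (lv m t) = t3has t := by
  induction m with
  | zero => rfl
  | succ m ih => exact ih

theorem t3has_lv2 (a : ℕ) (t : BinaryTree Unit) : t3has (lv2 a t) = t3has t := by
  induction a with
  | zero => rfl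
  | succ a ih => exact ih

theorem t3has_L3 (m a : ℕ) : t3has (L3 m a) = false := by
  unfold L3
  rw [t3has_lv, t3has_lv2]
  rfl

theorem lastI_th (n : ℕ) {t : BinaryTree Unit} (h : t ≠ .nil) : lastI (th n t) = lastI t := by
  rw [th_app, lastI_app h]

theorem t3f3_L3 {m a : ℕ} (h : 1 ≤ a) (t : BinaryTree Unit) : t3f3 (app (L3 m a) t) = false := by
  obtain ⟨a, rfl⟩ : ∃ a', a = a' + 1 := ⟨a - 1, by omega⟩
  cases m <;> rfl

theorem w3_10 (b m a : ℕ) : w3 b m a 10 = th (b + 2) (L3 m a) := by
  have e : w3 b m a 10 = app (th b .nil) (th 2 (L3 m a)) := rfl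
  have e2 : ∀ (n : ℕ) (t : BinaryTree Unit), th n (th 2 t) = th (n + 2) t := by
    intro n t
    induction n with
    | zero => rfl
    | succ n ih => rw [th, ih]; rfl
  rw [e, ← th_app, e2]

theorem w3_11 (b m a : ℕ) : w3 b m a 11 = th b (.nil △ (.nil △ (.nil △ S3 m a))) := by
  have e : w3 b m a 11 = app (th b .nil) (.nil △ (.nil △ (.nil △ S3 m a))) := rfl
  rw [e, ← th_app]

theorem t3two_th (b : ℕ) : t3two (th b .nil) = false := by
  cases b <;> rfl

theorem t3sg_w3 {b m a : ℕ} (h : 1 ≤ a) : ∀ i, 10 ≤ i → i < 20 → i ≠ 14 → t3sg (w3 b m a i) = i := by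
  intro i h1 hi h14
  have hL : L3 m a ≠ .nil := L3_ne h
  have hS : S3 m a ≠ .nil := by unfold S3; simp
  have lS : lastI (S3 m a) = .nil △ .nil := by
    unfold S3
    rw [lastI_cons hL, lastI_L3 h]
  interval_cases i
  · rw [w3_10]
    have e1 : lastI (th (b + 2) (L3 m a)) = .nil △ .nil := by rw [lastI_th _ hL, lastI_L3 h]
    have e2 : t3has (t3strip (th (b + 2) (L3 m a))) = false := by
      rw [t3strip_th]; exact t3has_strip (t3has_L3 m a)
    have e3 : fb (th (b + 2) (L3 m a)) = false := rfl
    have e4 : t3f2 (th (b + 2) (L3 m a)) = false := rfl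
    have e5 : t3f3 (th (b + 2) (L3 m a)) = true := rfl
    have e6 : t3f3 (t3tl (th (b + 2) (L3 m a))) = true := rfl
    unfold t3sg
    rw [e1, e2, e3, e4, e5, e6]
    rfl
  · rw [w3_11]
    rcases Nat.eq_zero_or_pos b with rfl | hb
    · rfl
    · obtain ⟨b, rfl⟩ : ∃ b', b = b' + 1 := ⟨b - 1, by omega⟩
      have hne : (.nil △ (.nil △ (.nil △ S3 m a)) : BinaryTree Unit) ≠ .nil := by simp
      have e1 : lastI (th (b + 1) (.nil △ (.nil △ (.nil △ S3 m a)))) = .nil △ .nil := by
        rw [lastI_th _ hne, lastI_cons (by simp), lastI_cons (by simp), lastI_cons hS, lS]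
      have e2 : t3has (t3strip (th (b + 1) (.nil △ (.nil △ (.nil △ S3 m a))))) = true := by
        rw [t3strip_th]; rfl
      have e3 : fb (th (b + 1) (.nil △ (.nil △ (.nil △ S3 m a)))) = false := rfl
      have e4 : t3f2 (th (b + 1) (.nil △ (.nil △ (.nil △ S3 m a)))) = false := rfl
      have e5 : t3f3 (th (b + 1) (.nil △ (.nil △ (.nil △ S3 m a)))) = true := rfl
      unfold t3sg
      rw [e1, e2, e3, e4, e5]
      rfl
  · have e : w3 b m a 12 = S3 m a △ app (th b .nil) (.nil △ ch 1) := rfl
    have e1 : len (w3 b m a 12) ≠ 2 := by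
      rw [e, len, len_app]
      have : len (.nil △ ch 1 : BinaryTree Unit) = 2 := rfl
      omega
    have e3 : fb (w3 b m a 12) = false := rfl
    have e4 : t3f2 (w3 b m a 12) = false := rfl
    have e5 : t3f3 (w3 b m a 12) = false := rfl
    unfold t3sg
    rw [e3, e4, e5, if_neg (by simp), if_neg (by simp), if_neg (by simp), if_neg e1]
  · have e : w3 b m a 13 = app (S3 m a) (app (th b .nil) (.nil △ ch 1) △ .nil) := rfl
    have e1 : t3one (lastI (w3 b m a 13)) = false := by
      rw [e, lastI_app (by simp), lastI_one]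
      cases b <;> rfl
    have e3 : fb (w3 b m a 13) = false := rfl
    have e4 : t3f2 (w3 b m a 13) = false := rfl
    have e5 : t3f3 (w3 b m a 13) = true := rfl
    unfold t3sg
    rw [e3, e4, e5, e1]
    rfl
  · exact absurd rfl h14
  · rfl
  · have e : w3 b m a 16 = app (S3 m a) (th b .nil △ (ch 1 △ .nil)) := rfl
    have e1 : lastI (w3 b m a 16) = .nil △ .nil := by
      rw [e, lastI_app (by simp), lastI_cons (by simp), lastI_one]
      rfl
    have e6 : t3has (app (L3 m a) (th b .nil △ (ch 1 △ .nil))) = false := by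
      rw [t3has_app, t3has_L3]
      change (false || (t3two (th b .nil) || (t3two (ch 1) || false))) = false
      rw [t3two_th]
      rfl
    have e2 : t3has (t3strip (w3 b m a 16)) = false := by
      have e7 : t3strip (w3 b m a 16) = t3strip (app (L3 m a) (th b .nil △ (ch 1 △ .nil))) := rfl
      rw [e7]
      exact t3has_strip e6
    have e3 : fb (w3 b m a 16) = false := rfl
    have e4 : t3f2 (w3 b m a 16) = false := rfl
    have e5 : t3f3 (w3 b m a 16) = true := rfl
    have e8 : t3f3 (t3tl (w3 b m a 16)) = false := t3f3_L3 h _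
    unfold t3sg
    rw [e3, e4, e5, e1, e2, e8]
    rfl
  · rfl
  · rfl
  · rfl

/-! ### Distinctness -/

theorem S3_inj {m a m' a' : ℕ} (h : S3 m a = S3 m' a') : m = m' ∧ a = a' :=
  L3_inj (node_inj h).2

/-- the words with the number at least 12 determine the data -/
theorem W_inj12 {B S B' S' : BinaryTree Unit} {R R' : BinaryTree Unit} {i : ℕ} (h12 : 12 ≤ i) (hi : i < 20)
    (e : W R (ch 1) B S i = W R' (ch 1) B' S' i) : B = B' ∧ S = S' := by
  interval_cases i
  · have e1 : S △ app B (.nil △ ch (0 + 1)) = S' △ app B' (.nil △ ch (0 + 1)) := e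
    obtain ⟨h1, h2⟩ := tail_inj (node_inj e1).2
    exact ⟨h1, (node_inj e1).1⟩
  · have e1 : app S (app B (.nil △ ch (0 + 1)) △ .nil) = app S' (app B' (.nil △ ch (0 + 1)) △ .nil) := e
    obtain ⟨h0, h1⟩ := app_snoc e1
    exact ⟨(tail_inj h1).1, h0⟩
  · have e1 : (ch 0 △ (.nil △ S)) △ B = (ch 0 △ (.nil △ S')) △ B' := e
    obtain ⟨h0, h1⟩ := node_inj e1
    exact ⟨h1, (node_inj (node_inj h0).2).2⟩
  · have e1 : ch 1 △ (S △ B) = ch 1 △ (S' △ B') := e
    obtain ⟨h2, h3⟩ := node_inj (node_inj e1).2
    exact ⟨h3, h2⟩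
  · have e0 : ∀ (S B : BinaryTree Unit), app S (B △ (ch 1 △ .nil)) = app (app S (B △ .nil)) (ch 1 △ .nil) := by
      intro S B
      rw [app_assoc]; rfl
    have e1 : app S (B △ (ch 1 △ .nil)) = app S' (B' △ (ch 1 △ .nil)) := e
    rw [e0, e0] at e1
    obtain ⟨h2, h3⟩ := app_snoc (app_snoc e1).1
    exact ⟨h3, h2⟩
  · have e1 : ch 0 △ ((S △ B) △ .nil) = ch 0 △ ((S' △ B') △ .nil) := e
    obtain ⟨h4, h5⟩ := node_inj (node_inj (node_inj e1).2).1
    exact ⟨h5, h4⟩
  · have e1 : ch 0 △ (.nil △ app S (B △ .nil)) = ch 0 △ (.nil △ app S' (B' △ .nil)) := e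
    obtain ⟨h4, h5⟩ := app_snoc (node_inj (node_inj e1).2).2
    exact ⟨h5, h4⟩
  · have e1 : app S (B △ .nil) △ ch 1 = app S' (B' △ .nil) △ ch 1 := e
    obtain ⟨h4, h5⟩ := app_snoc (node_inj e1).1
    exact ⟨h5, h4⟩

theorem cont_w3_10 (b m a : ℕ) : cont (w3 b m a 10) = replicate (b + 2) 3 + (replicate m 1 + replicate a 2) := by
  rw [w3_10, th_app, cont_app, cont_th, cont_L3]

theorem cont_w3_11 (b m a : ℕ) : cont (w3 b m a 11) =
    replicate b 3 + (replicate 3 1 + ({3} + (replicate m 1 + replicate a 2))) := by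
  have e : (.nil △ (.nil △ (.nil △ S3 m a)) : BinaryTree Unit) = lv 3 (S3 m a) := rfl
  have e2 : S3 m a = ((.nil △ .nil) △ .nil) △ L3 m a := rfl
  rw [w3_11, th_app, cont_app, cont_th, e, cont_lv, e2, cont_node, cont_L3]
  rfl

/-- **the words of the windows of height 3 are different** -/
theorem w3_disj {b m a b' m' a' : ℕ} (h : 1 ≤ a) (h' : 1 ≤ a') {i j : ℕ} (hi : i < 20) (hj : j < 20)
    (e : w3 b m a i = w3 b' m' a' j) : i = j ∧ b = b' ∧ m = m' ∧ a = a' := by
  have key : ∀ {b m a : ℕ}, 1 ≤ a → ∀ i < 20, (i < 10 ∧ am (w3 b m a i) = true ∧ idx (w3 b m a i) = i) ∨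
      (i = 14 ∧ am (w3 b m a i) = true ∧ idx (w3 b m a i) = 0) ∨
      (10 ≤ i ∧ i ≠ 14 ∧ am (w3 b m a i) = false ∧ t3sg (w3 b m a i) = i) := by
    intro b m a h i hi
    rcases lt_or_ge i 10 with h1 | h1
    · exact Or.inl ⟨h1, am3_lo h i h1, idx3_lo h i h1⟩
    · by_cases h14 : i = 14
      · right; left
        subst h14
        exact ⟨rfl, am3_14 h, idx3_14 h⟩
      · exact Or.inr (Or.inr ⟨h1, h14, am3_hi h i h1 hi h14, t3sg_w3 h i h1 hi h14⟩)
  have no0 : ∀ {b m a b' m' a' : ℕ}, w3 b m a 0 = w3 b' m' a' 14 → False := by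
    intro b m a b' m' a' e
    have e1 : ((.nil △ .nil) △ L3 m a) △ app (th b .nil) ((ch 1 △ .nil) △ .nil) =
        (.nil △ (.nil △ S3 m' a')) △ th b' .nil := e
    have e2 := (node_inj (node_inj e1).1).1
    simp at e2
  rcases key (b := b) (m := m) h i hi with ⟨h1, h2, h3⟩ | ⟨rfl, h2, h3⟩ | ⟨h1, h1', h2, h3⟩ <;>
    rcases key (b := b') (m := m') h' j hj with ⟨g1, g2, g3⟩ | ⟨rfl, g2, g3⟩ | ⟨g1, g1', g2, g3⟩
  · have hij : i = j := by rw [← h3, ← g3, e]
    subst hij
    have e1 := e
    unfold w3 at e1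
    rw [W_lo _ _ _ _ ((((.nil △ .nil) △ L3 m a) △ .nil) △ .nil) i h1,
      W_lo _ _ _ (S3 m' a') ((((.nil △ .nil) △ L3 m' a') △ .nil) △ .nil) i h1] at e1
    obtain ⟨_, _, h5, _⟩ := W_disj (q := 0) (q' := 0) (adm3 h) (adm3 h') hi hj e1
    obtain ⟨h6, h7, h8⟩ := R3_inj (h5 h1)
    exact ⟨rfl, h6, h7, h8⟩
  · exfalso
    have hi0 : i = 0 := by rw [← h3, e, g3]
    subst hi0
    exact no0 e
  · rw [e, g2] at h2; simp at h2
  · exfalso
    have hj0 : j = 0 := by rw [← g3, ← e, h3]
    subst hj0
    exact no0 e.symm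
  · obtain ⟨k1, k2⟩ := W_inj12 (by norm_num) (by norm_num) e
    obtain ⟨k3, k4⟩ := S3_inj k2
    exact ⟨rfl, th_inj k1, k3, k4⟩
  · rw [e, g2] at h2; simp at h2
  · rw [e, g2] at h2; simp at h2
  · rw [e, g2] at h2; simp at h2
  · have hij : i = j := by rw [← h3, ← g3, e]
    subst hij
    refine ⟨rfl, ?_⟩
    rcases lt_or_ge i 12 with h12 | h12
    · have : i = 10 ∨ i = 11 := by omega
      rcases this with rfl | rfl
      · have e1 := congrArg cont e
        rw [cont_w3_10, cont_w3_10] at e1
        have c1 := congrArg (Multiset.count 1) e1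
        have c2 := congrArg (Multiset.count 2) e1
        have c3 := congrArg (Multiset.count 3) e1
        simp [Multiset.count_add, Multiset.count_replicate] at c1 c2 c3
        omega
      · have e1 := congrArg cont e
        rw [cont_w3_11, cont_w3_11] at e1
        have c1 := congrArg (Multiset.count 1) e1
        have c2 := congrArg (Multiset.count 2) e1
        have c3 := congrArg (Multiset.count 3) e1
        simp [Multiset.count_add, Multiset.count_replicate, Multiset.count_singleton] at c1 c2 c3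
        omega
    · obtain ⟨k1, k2⟩ := W_inj12 h12 hi e
      obtain ⟨k3, k4⟩ := S3_inj k2
      exact ⟨th_inj k1, k3, k4⟩

end H1

end Pool.OddHC
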