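import Pool.Agent.Work.MP_8f87b2_h62.W3d

/-!
MP_8f87b2_co, height 3: the inner words `T (w i)`, `i = 0, 1, 3, 6, 8, 9`, of the windows of height 3, explicitly, and their
disjointness from the words of the windows (height 3 and type A) and of the plain types E, L, K.
-/

set_option autoImplicit false

namespace Pool.OddHC

open BinaryTree Equiv

namespace H1

variable {k b m a : ℕ}

/-! ### The words -/

/-- the front of an inner word -/
def t3P (b m a : ℕ) : BinaryTree Unit := app (lv m .nil) (.nil △ .nil) △ app (lv2 a .nil) (th b .nil)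

/-- the inside of the last component -/
def t3M : ℕ → BinaryTree Unit
  | 1 => (.nil △ (.nil △ (.nil △ (.nil △ .nil)))) △ .nil
  | 3 => (.nil △ (.nil △ ((.nil △ .nil) △ .nil))) △ .nil
  | 6 => ((.nil △ .nil) △ ((.nil △ .nil) △ .nil)) △ .nil
  | 8 => ((.nil △ .nil) △ (.nil △ (.nil △ .nil))) △ .nil
  | 9 => (((.nil △ (.nil △ .nil)) △ .nil) △ .nil) △ .nil
  | _ => (.nil △ .nil) △ .nil

/-- the end of an inner word -/
def t3Z : ℕ → BinaryTree Unit
  | 0 => ((.nil △ .nil) △ .nil) △ (((.nil △ .nil) △ .nil) △ .nil)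
  | i + 1 => t3M (i + 1) △ .nil

/-- the inner word -/
def t3Y (b m a i : ℕ) : BinaryTree Unit := app (t3P b m a) (t3Z i)

theorem wd_lv_not (n : ℕ) (l : List Bool) :
    true :: ((wd (lv n .nil)).map not ++ l) = wd (lv n .nil) ++ true :: l := by
  induction n with
  | zero => rfl
  | succ n ih =>
    change true :: false :: true :: ((wd (lv n .nil)).map not ++ l) = true :: false :: (wd (lv n .nil) ++ true :: l)
    rw [ih]

theorem wd_lv2_not (n : ℕ) (l : List Bool) :
    true :: true :: ((wd (lv2 n .nil)).map not ++ l) = wd (lv2 n .nil) ++ true :: true :: l := by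
  induction n with
  | zero => rfl
  | succ n ih =>
    change true :: true :: false :: false :: true :: true :: ((wd (lv2 n .nil)).map not ++ l) =
      true :: true :: false :: false :: (wd (lv2 n .nil) ++ true :: true :: l)
    rw [ih]

theorem wd_th_not (n : ℕ) (l : List Bool) :
    true :: true :: true :: ((wd (th n .nil)).map not ++ l) = wd (th n .nil) ++ true :: true :: true :: l := by
  induction n with
  | zero => rfl
  | succ n ih =>
    change true :: true :: true :: false :: false :: false :: true :: true :: true ::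
      ((wd (th n .nil)).map not ++ l) =
      true :: true :: true :: false :: false :: false :: (wd (th n .nil) ++ true :: true :: true :: l)
    rw [ih]

theorem wd_L3 (m a : ℕ) : wd (L3 m (a + 1)) = wd (lv m .nil) ++ true :: true :: false :: false :: wd (lv2 a .nil) := by
  unfold L3
  rw [lv_app' m, wd_app]
  rfl

/-- the first maximum of `R3` -/
theorem FM_R3 (b m a : ℕ) : FM (R3 b m a) [true, true]
    (([false] ++ false :: wd (L3 m a)) ++ false :: wd (th b .nil)) := by
  have h0 : FM ((.nil : BinaryTree Unit) △ .nil) [] [false] := by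
    refine ⟨rfl, ?_, rfl⟩
    intro n
    simp [Tsq.ht]
  have h3 : Tsq.ht (L3 m a) ≤ 2 := by rw [H1.ht_eq]; exact ht_L3 m a
  have h4 : Tsq.ht (th b .nil) ≤ 3 := by rw [H1.ht_eq]; exact ht_th b
  have e1 : Tsq.ht ((.nil : BinaryTree Unit) △ .nil) = 1 := rfl
  have h1 := h0.node (Z := L3 m a) (by omega)
  exact h1.node (Z := th b .nil) (by rw [Tsq.ht_node, e1]; omega)

theorem co_R3 (b m a : ℕ) (l : List Bool) :
    ((([false] ++ false :: wd (L3 m (a + 1))) ++ false :: wd (th b .nil)) ++ l).map not =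
      wd (t3P b m a) ++ true :: true :: true :: l.map not := by
  have e : wd (t3P b m a) = true :: ((wd (lv m .nil) ++ [true, false]) ++ false :: (wd (lv2 a .nil) ++ wd (th b .nil))) := by
    unfold t3P
    rw [wd_node, wd_app, wd_app]
    rfl
  rw [e, wd_L3]
  simp only [List.map_append, List.map_cons, Bool.not_false, Bool.not_true, List.cons_append, List.append_assoc,
    List.nil_append, List.map_nil]
  rw [wd_lv_not, wd_lv2_not, wd_th_not]

/-- the words as lists with the first maximum -/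
theorem FM_w3 (b m a : ℕ) {i : ℕ} (hi : i ∈ [0, 1, 3, 6, 8, 9]) : ∃ u v : List Bool,
    FM (w3 b m (a + 1) i) u v ∧ v.map not ++ false :: u.map not = wd (t3Y b m a i) := by
  have h := FM_R3 b m (a + 1)
  have hR : Tsq.ht (R3 b m (a + 1)) = 3 := by rw [H1.ht_eq, ht_R3]
  have hY : wd (t3Y b m a i) = wd (t3P b m a) ++ wd (t3Z i) := by rw [t3Y, wd_app]
  simp only [List.mem_cons, List.not_mem_nil, or_false] at hi
  rcases hi with rfl | rfl | rfl | rfl | rfl | rfl
  · refine ⟨_, _, h.app_right (Z := (ch 1 △ .nil) △ .nil) (by rw [hR]; exact (by decide)), ?_⟩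
    rw [co_R3, hY, List.append_assoc]
    rfl
  · refine ⟨_, _, h.app_right (Z := .nil △ app (ch 1) (.nil △ .nil)) (by rw [hR]; exact (by decide)), ?_⟩
    rw [co_R3, hY, List.append_assoc]
    rfl
  · have h1 := h.app_right (Z := .nil △ ch 1) (by rw [hR]; exact (by decide))
    refine ⟨_, _, h1.node (Z := .nil) (Nat.zero_le _), ?_⟩
    rw [List.append_assoc, co_R3, hY, List.append_assoc]
    rfl
  · refine ⟨_, _, h.node (Z := ch 1 △ .nil) (by rw [hR]; exact (by decide)), ?_⟩
    rw [co_R3, hY, List.append_assoc]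
    rfl
  · have h1 := h.node (Z := .nil) (Nat.zero_le _)
    refine ⟨_, _, h1.app_left (P := .nil △ (.nil △ .nil)) (by
      have e4 : Tsq.ht (R3 b m (a + 1) △ .nil) = 4 := by rw [Tsq.ht_node, hR]; rfl
      rw [e4]
      decide), ?_⟩
    rw [co_R3, hY, List.append_assoc]
    rfl
  · have h1 := h.node (Z := .nil) (Nat.zero_le _)
    refine ⟨_, _, h1.node (Z := ch 1) (by rw [Tsq.ht_node, hR]; exact (by decide)), ?_⟩
    rw [List.append_assoc, co_R3, hY, List.append_assoc]
    rfl

/-- **the inner words** -/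
theorem TT_w3 {x : X k} (ha : 1 ≤ a) {i : ℕ} (hi : i ∈ [0, 1, 3, 6, 8, 9]) (hx : x.1 = w3 b m a i) :
    (TT x).1 = t3Y b m (a - 1) i := by
  obtain ⟨a, rfl⟩ : ∃ a', a = a' + 1 := ⟨a - 1, by omega⟩
  obtain ⟨u, v, h, e⟩ := FM_w3 b m a hi
  rw [← hx] at h
  have h2 := h.wdT
  rw [e] at h2
  exact (wd_inj _ _ [] [] (by rw [h2]; rfl)).1

/-! ### Features of the inner words -/

theorem fb_Y3 (i : ℕ) : fb (t3Y b m a i) = false := by
  unfold t3Y t3P
  cases m <;> rfl

theorem Z3_ne (i : ℕ) : t3Z i ≠ .nil := by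
  cases i <;> simp [t3Z]

theorem lastB_Z3 (i : ℕ) : lastB (t3Z i) = false := by
  cases i with
  | zero => rfl
  | succ i =>
    change isNil (t3M (i + 1)) = false
    unfold t3M
    split <;> rfl

theorem lastB_Y3 (i : ℕ) : lastB (t3Y b m a i) = false := by
  rw [t3Y, lastB_app (Z3_ne i), lastB_Z3]

theorem light_Z3 (i : ℕ) : light (lastI (t3Z i)) = false := by
  cases i with
  | zero => rfl
  | succ i =>
    change light (t3M (i + 1)) = false
    unfold t3M
    split <;> rfl

theorem light_Y3 (i : ℕ) : light (lastI (t3Y b m a i)) = false := by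
  rw [t3Y, lastI_app (Z3_ne i), light_Z3]

theorem len_Y3 (i : ℕ) : 2 ≤ len (t3Y b m a i) := by
  rw [t3Y, len_app]
  have h1 : 1 ≤ len (t3P b m a) := len_pos (by unfold t3P; simp)
  have h2 : 1 ≤ len (t3Z i) := len_pos (Z3_ne i)
  omega

/-- the first inside -/
def t3F (m : ℕ) : BinaryTree Unit := app (lv m .nil) (.nil △ .nil)

theorem Y3_eq (i : ℕ) : t3Y b m a i = t3F m △ app (app (lv2 a .nil) (th b .nil)) (t3Z i) := rfl

theorem bl_F3 : bl (t3F m) = true := by
  unfold t3F
  induction m with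
  | zero => rfl
  | succ m ih => exact ih

theorem PB_F3 : PB (t3F m) = false := by
  unfold t3F
  cases m with
  | zero => rfl
  | succ m =>
    change (true && (!isNil (app (lv m .nil) (.nil △ .nil)) && !lastB (app (lv m .nil) (.nil △ .nil)))) = false
    rw [lastB_app (by simp)]
    simp [lastB, isNil]

theorem mk_F3 : mk (t3F m) = false := by
  rw [mk_eq, PB_F3, bl_am bl_F3]
  rfl

theorem am_mid3 : am (app (lv2 a .nil) (th b .nil)) = false := by
  rw [am_app, hv_am (hv_th b)]
  have : am (lv2 a .nil) = false := bl_am (bl_H a 0)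
  rw [this]
  rfl

theorem am_P3 : am (t3P b m a) = false := by
  change am (t3F m △ app (lv2 a .nil) (th b .nil)) = false
  rw [am_node, mk_F3, am_mid3]
  rfl

theorem am_Y3 {i : ℕ} (h3 : i ≠ 3) (h6 : i ≠ 6) : am (t3Y b m a i) = false := by
  rw [t3Y, am_app, am_P3]
  cases i with
  | zero => rfl
  | succ i =>
    change (false || am (t3M (i + 1) △ .nil)) = false
    unfold t3M
    split <;> first | rfl | omega

theorem lastB_P3 : lastB (t3P b m a) = false := by
  have h1 : ∀ (A Y : BinaryTree Unit), A ≠ .nil → lastB Y = false → lastB (A △ Y) = false :=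
    fun A Y hA hY => lastB_node hA hY
  have h2 : lastB (app (lv2 a .nil) (th b .nil)) = false := by
    induction a with
    | zero => exact hv_last (hv_th b)
    | succ a ih => exact h1 _ _ (by simp) ih
  exact h1 _ _ (app_ne (by simp)) h2

theorem Y3_36 {i : ℕ} (h : i = 3 ∨ i = 6) : am (t3Y b m a i) = true ∧ idx (t3Y b m a i) = 10 ∧
    (split (t3Y b m a i)).1 = t3P b m a := by
  obtain ⟨A, hA, hA2, hZ⟩ : ∃ A : BinaryTree Unit, PB A = true ∧ am A = false ∧ t3Z i = (A △ .nil) △ .nil := by
    rcases h with rfl | rfl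
    · exact ⟨_, rfl, rfl, rfl⟩
    · exact ⟨_, rfl, rfl, rfl⟩
  have mA : mk A = true := mk_of_PB hA
  have aM : am (A △ .nil) = true := by rw [am_node, mA]; rfl
  have mM : mk (A △ .nil) = true := mk_of_am aM
  have hs : split (t3Y b m a i) = (t3P b m a, A △ .nil, .nil) := by
    rw [t3Y, hZ]
    exact split_app am_P3 mM
  have hs2 : split (A △ .nil) = (.nil, A, .nil) := split_node_t mA
  refine ⟨?_, ?_, ?_⟩
  · rw [t3Y, am_app, hZ, am_node, mM]
    simp
  · rw [idx, hs]
    simp only [aM, if_true, hs2, hA2, Bool.false_eq_true, if_false]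
    rw [idx1]
    have h1 : isNil (t3P b m a) = false := rfl
    rw [h1, lastB_P3]
    rfl
  · rw [hs]

theorem t3f3_Y3 (i : ℕ) : t3f3 (t3Y b m a i) = false := by
  rw [Y3_eq]
  unfold t3F
  cases m <;> rfl

/-- the second component has an inside with one component -/
theorem snd_Y3 (i : ℕ) : ∃ A X, t3tl (t3Y b m a i) = A △ X ∧ t3tl A = .nil := by
  rw [Y3_eq]
  change ∃ A X, app (app (lv2 a .nil) (th b .nil)) (t3Z i) = A △ X ∧ t3tl A = .nil
  cases a with
  | succ a => exact ⟨_, _, rfl, rfl⟩
  | zero =>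
    cases b with
    | succ b => exact ⟨_, _, rfl, rfl⟩
    | zero =>
      cases i with
      | zero => exact ⟨_, _, rfl, rfl⟩
      | succ i =>
        refine ⟨t3M (i + 1), .nil, rfl, ?_⟩
        unfold t3M
        split <;> rfl

/-- **inner words against the words of height 3** -/
theorem Y3_ne_w3 {b' m' a' : ℕ} (h' : 1 ≤ a') {i j : ℕ} (hj : j < 20) : t3Y b m a i ≠ w3 b' m' a' j := by
  intro e
  have hf := fb_Y3 (b := b) (m := m) (a := a) i
  have hl := lastB_Y3 (b := b) (m := m) (a := a) i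
  have h3 := t3f3_Y3 (b := b) (m := m) (a := a) i
  by_cases hi : i = 3 ∨ i = 6
  · obtain ⟨h1, h2, _⟩ := Y3_36 (b := b) (m := m) (a := a) hi
    rcases lt_or_ge j 10 with hj1 | hj1
    · have := idx3_lo (b := b') (m := m') h' j hj1
      rw [← e, h2] at this
      omega
    · by_cases h14 : j = 14
      · subst h14
        have := idx3_14 (b := b') (m := m') h'
        rw [← e, h2] at this
        omega
      · have := am3_hi (b := b') (m := m') h' j hj1 hj h14
        rw [← e, h1] at this
        simp at this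
  · have h1 := am_Y3 (b := b) (m := m) (a := a) (i := i) (by omega) (by omega)
    rcases lt_or_ge j 10 with hj1 | hj1
    · have := am3_lo (b := b') (m := m') h' j hj1
      rw [← e, h1] at this
      simp at this
    · rw [e] at hf hl h3
      obtain ⟨A, X', s1, s2⟩ := snd_Y3 (b := b) (m := m) (a := a) i
      rw [e] at s1
      interval_cases j
      · rw [w3_10] at h3
        simp [th, t3f3, t3two, t3one, isNil] at h3
      · rw [w3_11] at h3 hf
        cases b' with
        | zero => simp [th, fb, isNil] at hf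
        | succ b' => simp [th, t3f3, t3two, t3one, isNil] at h3
      · have e1 : w3 b' m' a' 12 = app (S3 m' a' △ app (th b' .nil) (.nil △ .nil)) (.nil △ .nil) := by
          change S3 m' a' △ app (th b' .nil) (.nil △ (.nil △ .nil)) = _
          rw [app, app_assoc]
          rfl
        rw [e1, lastB_app (by simp)] at hl
        simp [lastB, isNil] at hl
      · exact absurd h3 (by simp [w3, W, S3, app, t3f3, t3two, t3one, isNil])
      · have := am3_14 (b := b') (m := m') h'
        rw [← e, h1] at this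
        simp at this
      · have e1 : t3tl (w3 b' m' a' 15) = S3 m' a' △ th b' .nil := rfl
        rw [e1] at s1
        rw [← (node_inj s1).1] at s2
        exact L3_ne h' s2
      · exact absurd h3 (by simp [w3, W, S3, app, t3f3, t3two, t3one, isNil])
      · exact absurd hf (by simp [w3, W, ch, app, fb, isNil])
      · exact absurd hf (by simp [w3, W, ch, app, fb, isNil])
      · have e1 : w3 b' m' a' 19 = app (S3 m' a') (th b' .nil △ .nil) △ (.nil △ .nil) := rfl
        rw [e1, lastB_cons (by simp)] at hl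
        simp [lastB, isNil] at hl

/-- **inner words against the words of the general windows** -/
theorem Y3_ne_G {q : ℕ} {B1 H s B : BinaryTree Unit} (h' : NodeG k q B1 H s B) {i j : ℕ} (hj : j < 20) :
    t3Y b m a i ≠ W (gR B1 H s B) (ch (q + 1)) B (Tsq.sq (gR B1 H s B)).1 j := by
  intro e
  have hadm := h'.adm
  have amR : am (gR B1 H s B) = true := by
    obtain ⟨C1, P, _, h2, _, e1⟩ := hadm.hR
    rw [e1]
    exact am_mid (mk_of_PB h2)
  have amS : am (Tsq.sq (gR B1 H s B)).1 = true := by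
    obtain ⟨C1, G, Y, β, _, h2, _, e1⟩ := hadm.hS
    rw [e1, am_node, mk_of_am (am_mid (mk_of_PB h2))]
    rfl
  have amj : am (W (gR B1 H s B) (ch (q + 1)) B (Tsq.sq (gR B1 H s B)).1 j) = true := by
    rcases lt_or_ge j 10 with h1 | h1
    · exact am_W_lo amR j h1
    · exact am_W_hi amS j h1 hj
  have idj : idx (W (gR B1 H s B) (ch (q + 1)) B (Tsq.sq (gR B1 H s B)).1 j) = j := by
    rcases lt_or_ge j 10 with h1 | h1
    · exact idx_lo hadm j h1
    · exact idx_hi hadm j h1 hj
  by_cases hi : i = 3 ∨ i = 6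
  · obtain ⟨h1, h2, h3⟩ := Y3_36 (b := b) (m := m) (a := a) hi
    have hj10 : j = 10 := by rw [← idj, ← e, h2]
    subst hj10
    obtain ⟨C1, G, Y, β, _, g2, _, e1⟩ := hadm.hS
    rw [e1] at e
    have e2 : W (gR B1 H s B) (ch (q + 1)) B (app C1 (G △ Y) △ β) 10 =
        app (app B ((ch (q + 1) △ .nil) △ .nil)) (app C1 (G △ Y) △ β) := by
      rw [app_assoc]; rfl
    have e3 : mk (ch (q + 1) △ .nil) = false := mk_ch (q + 2)
    have e4 : (split (t3Y b m a i)).1 = app B ((ch (q + 1) △ .nil) △ .nil) := by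
      rw [e, e2, split_app (by rw [am_app, hv_am h'.hB, am_node, e3]; rfl) (mk_of_am (am_mid (mk_of_PB g2)))]
    rw [h3] at e4
    have key : ∀ A X : BinaryTree Unit, app B ((ch (q + 1) △ .nil) △ .nil) = A △ X → fb A = false := by
      intro A X e5
      have hB := h'.hB
      cases B with
      | nil =>
        have e6 : (ch (q + 1) △ .nil) △ .nil = A △ X := e5
        rw [← (node_inj e6).1]
        rfl
      | node _ C D =>
        have e6 : C △ (app D ((ch (q + 1) △ .nil) △ .nil)) = A △ X := e5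
        rw [← (node_inj e6).1]
        rcases hB.1 with rfl | ⟨_, hC⟩
        · rfl
        · exact hv_fb hC
    have := key _ _ e4.symm
    revert this
    cases m <;> simp [lv, app, fb, isNil]
  · have h1 := am_Y3 (b := b) (m := m) (a := a) (i := i) (by omega) (by omega)
    rw [e, amj] at h1
    simp at h1

end H1

variable {k : ℕ} {F F' : Set (Cyc k)} {g g' : DG k}

theorem TyT.inner (h : TyT F g) : ∀ p ∈ g.arcs, ∀ w ∈ innA p, ∃ b m a i : ℕ, w.1 = H1.t3Y b m a i := by
  obtain ⟨b, m, a, w0, h1, rfl, rfl⟩ := h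
  intro p hp w hw
  have hw' : w = TT p.1 := hw
  subst hw'
  have hp' : p = (H1.tX b m a w0 0, H1.tX b m a w0 10) ∨
      p = (H1.tX b m a w0 1, H1.tX b m a w0 11) ∨
      p = (H1.tX b m a w0 3, H1.tX b m a w0 12) ∨
      p = (H1.tX b m a w0 6, H1.tX b m a w0 15) ∨
      p = (H1.tX b m a w0 8, H1.tX b m a w0 14) ∨
      p = (H1.tX b m a w0 9, H1.tX b m a w0 17) := hp
  rcases hp' with rfl | rfl | rfl | rfl | rfl | rfl
  · exact ⟨b, m, a - 1, 0, H1.TT_w3 h1.pos (by simp) (h1.word w0 (by norm_num))⟩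
  · exact ⟨b, m, a - 1, 1, H1.TT_w3 h1.pos (by simp) (h1.word w0 (by norm_num))⟩
  · exact ⟨b, m, a - 1, 3, H1.TT_w3 h1.pos (by simp) (h1.word w0 (by norm_num))⟩
  · exact ⟨b, m, a - 1, 6, H1.TT_w3 h1.pos (by simp) (h1.word w0 (by norm_num))⟩
  · exact ⟨b, m, a - 1, 8, H1.TT_w3 h1.pos (by simp) (h1.word w0 (by norm_num))⟩
  · exact ⟨b, m, a - 1, 9, H1.TT_w3 h1.pos (by simp) (h1.word w0 (by norm_num))⟩

/-- inner words of T against T (also the own gadget) -/
theorem TyT.inner_T (h : TyT F g) (h' : TyT F' g') : ∀ p ∈ g.arcs, ∀ w ∈ innA p, w ∉ g'.B := by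
  intro p hp w hw hw'
  obtain ⟨b, m, a, i, e⟩ := h.inner p hp w hw
  obtain ⟨b', m', a', j, h1, hj, e1⟩ := h'.word hw'
  exact H1.Y3_ne_w3 h1.pos hj (e.symm.trans e1)

/-- inner words of T against A -/
theorem TyT.inner_A (h : TyT F g) (h' : TyA F' g') : ∀ p ∈ g.arcs, ∀ w ∈ innA p, w ∉ g'.B := by
  intro p hp w hw hw'
  obtain ⟨b, m, a, i, e⟩ := h.inner p hp w hw
  obtain ⟨q, B1, H, s, B, w0, h2, rfl, rfl⟩ := h'
  obtain ⟨j, hj, rfl⟩ := mem_gad20.1 hw'
  rw [h2.word w0 hj] at e
  exact H1.Y3_ne_G h2 hj e.symm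

/-- inner words of T against the plain triples whose three words start with `()`, end with `()`, end with `(())`, or have
one component: E, L (general), K -/
theorem TyT.inner_tri {P Q R : BinaryTree Unit} (h : TyT F g) (h' : IsTri P Q R F' g')
    (hw : ∀ Y : BinaryTree Unit, (Y = w1 P Q R ∨ Y = w1 Q R P ∨ Y = w1 R P Q) → H1.fb Y = true ∨
      H1.lastB Y = true ∨ H1.light (H1.lastI Y) = true ∨ H1.len Y ≤ 1) :
    ∀ p ∈ g.arcs, ∀ w ∈ innA p, w ∉ g'.B := by
  intro p hp w hwi hw'
  obtain ⟨b, m, a, i, e⟩ := h.inner p hp w hwi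
  have key : H1.fb w.1 = true ∨ H1.lastB w.1 = true ∨ H1.light (H1.lastI w.1) = true ∨ H1.len w.1 ≤ 1 := by
    apply hw
    rcases h'.words w hw' with e | ⟨_, e | e⟩
    · exact Or.inl e
    · exact Or.inr (Or.inl e)
    · exact Or.inr (Or.inr e)
  rw [e, H1.fb_Y3, H1.lastB_Y3, H1.light_Y3] at key
  have := H1.len_Y3 (b := b) (m := m) (a := a) i
  rcases key with h | h | h | h
  · simp at h
  · simp at h
  · simp at h
  · omega

theorem TyT.inner_E (h : TyT F g) (h' : TyE F' g') : ∀ p ∈ g.arcs, ∀ w ∈ innA p, w ∉ g'.B := by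
  obtain ⟨X, hX, ht, -⟩ := h'.data
  apply h.inner_tri ht
  rintro Y (rfl | rfl | rfl)
  · right; right; right
    exact le_refl 1
  · right; left
    change H1.lastB (app X (.nil △ .nil)) = true
    rw [H1.lastB_app (by simp)]
    rfl
  · left; rfl

theorem TyT.inner_L {p q : ℕ} {R : BinaryTree Unit} (h : TyT F g)
    (h' : IsTri (lp (q + 1)) R (lp (p + 1)) F' g') : ∀ p ∈ g.arcs, ∀ w ∈ innA p, w ∉ g'.B := by
  have hl : ∀ n, lp (n + 1) = app (lp n) (.nil △ .nil) := by
    intro n
    induction n with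
    | zero => rfl
    | succ n ih =>
      change BinaryTree.nil △ lp (n + 1) = _
      conv_lhs => rw [ih]
      rfl
  apply h.inner_tri h'
  rintro Y (rfl | rfl | rfl)
  · left; rfl
  · right; left
    have e1 : w1 R (lp (p + 1)) (lp (q + 1)) = app (app R (lp (p + 1) △ lp q)) (.nil △ .nil) := by
      unfold w1
      rw [hl q, H1.app_assoc]
      rfl
    rw [e1, H1.lastB_app (by simp)]
    rfl
  · left; rfl

theorem TyT.inner_K {S : BinaryTree Unit} (h : TyT F g) (h' : TyK S F' g') :
    ∀ p ∈ g.arcs, ∀ w ∈ innA p, w ∉ g'.B := by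
  apply h.inner_tri h'
  rintro Y (rfl | rfl | rfl)
  · right; left; rfl
  · right; right; left
    change H1.light (H1.lastI (app S ((.nil △ .nil) △ .nil))) = true
    rw [H1.lastI_app (by simp)]
    rfl
  · left; rfl

end Pool.OddHC
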